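import Pool.Agent.W_c2305b_h35.Turn2

/-!
# The account cell by cell
-/

open MeasureTheory Set Module W82

namespace C2305bFat

open C2305b (Pl t6 HexBound)
open C2305b.TL (cr)
open C2305bH52.Dow (sm)

/-- `own` assigns to every side the cell beyond it. -/
def Own {ι : Type} [Fintype ι] {D : Set Pl} {P : ι → Set Pl} (h : Tiling D P)
    (hi : (interior (convexHull ℝ (Vb D P))).Nonempty) (own : Pl × Pl → ι) : Prop :=
  ∀ s ∈ h.sides hi, segment ℝ s.1 s.2 ⊆ P (own s) ∧ cap D s.1 s.2 ⊆ P (own s)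

theorem exists_own {ι : Type} [Fintype ι] [Nonempty ι] {D : Set Pl} {P : ι → Set Pl}
    (h : Tiling D P) (hi : (interior (convexHull ℝ (Vb D P))).Nonempty) :
    ∃ own : Pl × Pl → ι, Own h hi own := by
  classical
  have hex : ∀ s : Pl × Pl, ∃ k : ι, s ∈ h.sides hi →
      segment ℝ s.1 s.2 ⊆ P k ∧ cap D s.1 s.2 ⊆ P k := by
    intro s
    by_cases hs : s ∈ h.sides hi
    · obtain ⟨k, hk⟩ := h.cap_cell ((h.mem_sides hi).1 hs)
      exact ⟨k, fun _ => hk⟩
    · exact ⟨Classical.arbitrary ι, fun hs' => absurd hs' hs⟩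
  choose own hown using hex
  exact ⟨own, fun s hs => hown s hs⟩

/-- The caps of the cell `i`. -/
noncomputable def capsOf {ι : Type} [Fintype ι] {D : Set Pl} {P : ι → Set Pl} (h : Tiling D P)
    (hi : (interior (convexHull ℝ (Vb D P))).Nonempty) (own : Pl × Pl → ι) (i : ι) : ℝ :=
  open Classical in
  ∑ s ∈ (h.sides hi).filter (fun s => own s = i), (volume (cap D s.1 s.2)).toReal

lemma capsOf_nonneg {ι : Type} [Fintype ι] {D : Set Pl} {P : ι → Set Pl} (h : Tiling D P)
    (hi : (interior (convexHull ℝ (Vb D P))).Nonempty) (own : Pl × Pl → ι) (i : ι) :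
    0 ≤ capsOf h hi own i := Finset.sum_nonneg fun _ _ => ENNReal.toReal_nonneg

lemma sum_capsOf {ι : Type} [Fintype ι] {D : Set Pl} {P : ι → Set Pl} (h : Tiling D P)
    (hi : (interior (convexHull ℝ (Vb D P))).Nonempty) (own : Pl × Pl → ι) :
    ∑ i, capsOf h hi own i = ∑ s ∈ h.sides hi, (volume (cap D s.1 s.2)).toReal := by
  classical
  unfold capsOf
  exact Finset.sum_fiberwise (h.sides hi) own _

/-- **One cell**: caps minus loss is at most the area of the cell minus `A6`, up to `6 τ`. -/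
theorem cell_account {ι : Type} [Fintype ι] {D : Set Pl} {P : ι → Set Pl} (h : Tiling D P)
    (hi : (interior (convexHull ℝ (Vb D P))).Nonempty) {own : Pl × Pl → ι} (ho : Own h hi own)
    {A6 τ : ℝ} (hτ : 0 ≤ τ) (i : ι) :
    capsOf h hi own i - lossOf P A6 τ i ≤ (volume (P i)).toReal - A6 + 6 * τ := by
  have h1 := vol_cell h hi own ho i
  unfold capsOf lossOf
  have h2 : 0 ≤ τ * ((S P i).ncard : ℝ) := mul_nonneg hτ (Nat.cast_nonneg _)
  linarith

/-- **The account of a violation**, cell by cell. -/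
theorem vio_account {ι : Type} [Fintype ι] {D K : Set Pl} {P : ι → Set Pl} (h : Vio D P K)
    (hsym : ∀ v ∈ K, -v ∈ K) (hK : IsCompact K) (hconv : Convex ℝ K)
    (hint : (interior K).Nonempty) (own : Pl × Pl → ι) :
    (sm (gauge K) 6 - sm (gauge K) 5) * ((Vb D P).ncard : ℝ) <
      ∑ i, (capsOf h.til h.hull own i -
        lossOf P (sm (gauge K) 6) (sm (gauge K) 6 - sm (gauge K) 5) i) := by
  have hNr := C2305bH52.Dow.nrm_gauge hK hconv hsym hint
  have hτ0 := C2305bH52.Dow.sig_nonneg hsym hK hconv hint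
  have h6 := C2305bH52.Dow.six_ear' hNr
  set τ : ℝ := sm (gauge K) 6 - sm (gauge K) 5 with hτ
  have hsm6 : 0 ≤ sm (gauge K) 6 := by linarith
  obtain ⟨i₀, j₀, hij⟩ := h.two
  have hacc := h.til.account h.hull hij (A6 := sm (gauge K) 6) hτ0
  have hTv : 0 ≤ τ * ((Tv D P).ncard + 2 * ∑ v ∈ h.til.M, (exc D P v : ℝ)) := by
    apply mul_nonneg hτ0
    apply add_nonneg (Nat.cast_nonneg _)
    apply mul_nonneg (by norm_num)
    exact Finset.sum_nonneg fun v _ => Nat.cast_nonneg _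
  have hbig : (Fintype.card ι : ℝ) * sm (gauge K) 6 < (volume D).toReal := by
    have hb := h.big
    rw [C2305bH52.Dow.t6_eq hsym hK hconv hint] at hb
    have hfin : volume D ≠ ⊤ := h.til.compD.measure_lt_top.ne
    have h2 := (ENNReal.toReal_lt_toReal (hb.trans_le le_top).ne hfin).2 hb
    rw [ENNReal.toReal_mul, ENNReal.toReal_natCast, ENNReal.toReal_ofReal hsm6] at h2
    exact h2
  rw [Finset.sum_sub_distrib, sum_capsOf]
  have e : ∑ p ∈ h.til.sides h.hull, ((volume (cap D p.1 p.2)).toReal - τ) =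
      ∑ p ∈ h.til.sides h.hull, (volume (cap D p.1 p.2)).toReal - (Vb D P).ncard * τ := by
    rw [Finset.sum_sub_distrib, Finset.sum_const, h.til.card_sides h.hull, nsmul_eq_mul]
  rw [e] at hacc
  linarith

/-- The volume of the body in terms of the frame: `volume K ≤ t6 K + C s`. -/
theorem vol_body_le {K : Set Pl} {U W : Pl} {h : ℝ} (hU : 0 < cr U W) (h0 : 0 ≤ h)
    (hbox : ∀ z ∈ K, ∃ x y : ℝ, |x| ≤ 1 + h ∧ |y| ≤ 1 + h ∧ z = x • U + y • W) :
    volume K ≤ ENNReal.ofReal (4 * cr U W * (1 + h) ^ 2) := by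
  set M : Matrix (Fin 2) (Fin 2) ℝ := !![U 0, W 0; U 1, W 1] with hM
  have hdet : |LinearMap.det (C2305b.mat M)| = cr U W := by
    rw [C2305b.det_mat]
    have : M 0 0 * M 1 1 - M 0 1 * M 1 0 = cr U W := by
      rw [hM]
      simp only [Matrix.of_apply, Matrix.cons_val', Matrix.cons_val_zero, Matrix.cons_val_one,
        Matrix.cons_val_fin_one]
      unfold cr
      ring
    rw [this, abs_of_pos hU]
  have hmat : ∀ v : Pl, C2305b.mat M v = v 0 • U + v 1 • W := by
    intro v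
    apply C2305b.ext2
    · rw [C2305b.mat_0]
      show U 0 * v 0 + W 0 * v 1 = v 0 * U 0 + v 1 * W 0
      ring
    · rw [C2305b.mat_1]
      show U 1 * v 0 + W 1 * v 1 = v 0 * U 1 + v 1 * W 1
      ring
  have hsub : K ⊆ (fun v => (0 : Pl) + C2305b.mat M v) ''
      (C2305bH68.box (-(1 + h)) (1 + h) (-(1 + h)) (1 + h)) := by
    intro z hz
    obtain ⟨x, y, hx, hy, rfl⟩ := hbox z hz
    refine ⟨!₂[x, y], ⟨(abs_le.1 hx).1, (abs_le.1 hx).2, (abs_le.1 hy).1, (abs_le.1 hy).2⟩, ?_⟩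
    show (0 : Pl) + C2305b.mat M !₂[x, y] = _
    rw [hmat, zero_add]
    rfl
  refine (measure_mono hsub).trans ?_
  rw [C2305b.volume_affine, hdet, C2305bH68.volume_box (by linarith), ← ENNReal.ofReal_mul hU.le]
  apply ENNReal.ofReal_le_ofReal
  nlinarith

end C2305bFat
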