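import Pool.Agent.W_c2305b_h35.LeanArc3

/-!
# Leans (B3, B4): the final form
-/

open MeasureTheory Set Module W82

namespace C2305bFat

open C2305b (Pl)
open C2305b.TL (cr)

lemma cr_side (A B : Pl) (k : Fin 4) : cr (cA A B k) (cB A B k) = cr A B := by
  fin_cases k
  · rfl
  · show cr B (-A) = _
    rw [cr_neg_right', cr_swap' B A, neg_neg]
  · show cr (-A) (-B) = _
    rw [cr_neg_right', cr_neg_left', neg_neg]
  · show cr (-B) A = _
    rw [cr_neg_left', cr_swap' B A, neg_neg]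

/-- Every direction is near one of the four side directions. -/
lemma exists_side {A B T : Pl} (hΔ : 0 < cr A B) (hT : T ≠ 0) : ∃ k : Fin 4, ∃ s0 s1 : ℝ,
    0 < s0 ∧ |s1| ≤ s0 ∧ T = s0 • cA A B k + s1 • cB A B k := by
  have hf := frame_eq hΔ.ne' T
  set t0 := cr T B / cr A B
  set t1 := cr A T / cr A B
  rcases le_or_gt (|t1|) (|t0|) with h | h
  · have h0 : t0 ≠ 0 := by
      intro h0
      rw [h0, abs_zero] at h
      have h1 : t1 = 0 := abs_eq_zero.1 (le_antisymm h (abs_nonneg _))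
      apply hT
      rw [hf, h0, h1, zero_smul, zero_smul, add_zero]
    rcases lt_or_gt_of_ne h0 with h1 | h1
    · refine ⟨2, -t0, -t1, by linarith, ?_, ?_⟩
      · rw [abs_neg]; rwa [abs_of_neg h1] at h
      · show T = (-t0) • (-A) + (-t1) • (-B)
        rw [smul_neg, neg_smul, neg_neg, smul_neg, neg_smul, neg_neg]; exact hf
    · refine ⟨0, t0, t1, h1, ?_, hf⟩
      rwa [abs_of_pos h1] at h
  · have h0 : t1 ≠ 0 := by
      intro h0
      rw [h0, abs_zero] at h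
      exact absurd h (not_lt.2 (abs_nonneg _))
    rcases lt_or_gt_of_ne h0 with h1 | h1
    · refine ⟨3, -t1, t0, by linarith, ?_, ?_⟩
      · rw [abs_of_neg h1] at h; exact h.le
      · show T = (-t1) • (-B) + t0 • A
        rw [smul_neg, neg_smul, neg_neg, add_comm]; exact hf
    · refine ⟨1, t1, -t0, h1, ?_, ?_⟩
      · rw [abs_neg]
        rw [abs_of_pos h1] at h; exact h.le
      · show T = t1 • B + (-t0) • (-A)
        rw [smul_neg, neg_smul, neg_neg, add_comm]; exact hf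

/-- **(B4) Support directions at the ends of a long arc.** -/
theorem lean_arc {α κ l0 : ℝ} (hα : 0 < α) (hκ : 0 < κ) (hl0 : 0 < l0) : ∃ C : ℝ, 0 < C ∧
    ∃ c0 : ℝ, 0 < c0 ∧ ∀ (o A B p q Tp Tq : Pl) (X Y : Set Pl) (h m : ℝ),
      InFrame α κ h m o A B X Y → 0 < cr A B → h + m ≤ c0 → p ∈ Y → q ∈ Y → l0 ≤ ‖q - p‖ →
      Tp ≠ 0 → Tq ≠ 0 → (∀ y ∈ Y, 0 ≤ cr Tp (y - p)) → (∀ y ∈ Y, 0 ≤ cr Tq (y - q)) →
      InnerProductGeometry.angle Tp (q - p) + InnerProductGeometry.angle (q - p) Tq ≤ c0 →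
      ∃ (k : Fin 4) (lp lq : ℝ), lq = lp + (InnerProductGeometry.angle Tp (q - p) +
        InnerProductGeometry.angle (q - p) Tq) ∧
        lp ≤ C * (h + m) ∧ -(C * (h + m)) ≤ lq ∧
        ‖cA A B k‖ • Tp = ‖Tp‖ • rot lp (cA A B k) ∧
        ‖cA A B k‖ • Tq = ‖Tq‖ • rot lq (cA A B k) := by
  set C1 : ℝ := 2 / (l0 / (8 * α)) + 16 / (κ * (l0 / (8 * α)) ^ 2) with hC1
  set C2 : ℝ := 2 * α ^ 4 / κ ^ 2 with hC2
  have hC1p : 0 < C1 := by rw [hC1]; positivity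
  have hC2p : 0 < C2 := by rw [hC2]; positivity
  set c0 : ℝ := min (min 1 (κ / (8 * α ^ 2))) (min (l0 / (8 * α) / 4) (κ ^ 2 / (C1 * (2 * α ^ 4))))
    with hc0
  have hc0p : 0 < c0 := lt_min (lt_min one_pos (by positivity)) (lt_min (by positivity)
    (by positivity))
  have d1 : c0 ≤ 1 := (min_le_left _ _).trans (min_le_left _ _)
  have d2 : c0 ≤ κ / (8 * α ^ 2) := (min_le_left _ _).trans (min_le_right _ _)
  have d3 : c0 ≤ l0 / (8 * α) / 4 := (min_le_right _ _).trans (min_le_left _ _)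
  have d4 : c0 ≤ κ ^ 2 / (C1 * (2 * α ^ 4)) := (min_le_right _ _).trans (min_le_right _ _)
  rw [le_div_iff₀ (by positivity)] at d2 d4
  refine ⟨C2 * C1, by positivity, c0, hc0p, ?_⟩
  intro o A B p q Tp Tq X Y h m H hΔ hhm hp hq hl hTp hTq hYp hYq ht
  obtain ⟨k, s0, s1, hs0, hs1, hT⟩ := exists_side hΔ hTp
  have hΔk : 0 < cr (cA A B k) (cB A B k) := by rw [cr_side]; exact hΔ
  obtain ⟨lp, lq, r1, r2, r3, r4, r5⟩ := lean_zero hα hκ hl0 hC1 hC2 d1 d2 d3 (by linarith)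
    (H.side k) hΔk hhm hp hq hl hTp hTq hYp hYq ht hs0 hs1 hT
  exact ⟨k, lp, lq, r1, r2, r3, r4, r5⟩

/-- **(B3) Long sides of a cell.** -/
theorem lean_dart {α κ l0 : ℝ} (hα : 0 < α) (hκ : 0 < κ) (hl0 : 0 < l0) : ∃ C : ℝ, 0 < C ∧
    ∃ c0 : ℝ, 0 < c0 ∧ ∀ (o A B p q : Pl) (X Y : Set Pl) (h m : ℝ),
      InFrame α κ h m o A B X Y → 0 < cr A B → h + m ≤ c0 → p ∈ Y → q ∈ Y → l0 ≤ ‖q - p‖ →
      (∀ y ∈ Y, 0 ≤ cr (q - p) (y - p)) →
      ∃ (k : Fin 4) (l : ℝ), |l| ≤ C * (h + m) ∧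
        ‖cA A B k‖ • (q - p) = ‖q - p‖ • rot l (cA A B k) := by
  obtain ⟨C, hC, c0, hc0, H0⟩ := lean_arc hα hκ hl0
  refine ⟨C, hC, c0, hc0, ?_⟩
  intro o A B p q X Y h m H hΔ hhm hp hq hl hY
  have hw : q - p ≠ 0 := by
    intro h0
    rw [h0, norm_zero] at hl
    linarith
  have hang : InnerProductGeometry.angle (q - p) (q - p) = 0 := InnerProductGeometry.angle_self hw
  obtain ⟨k, lp, lq, r1, r2, r3, r4, r5⟩ := H0 o A B p q (q - p) (q - p) X Y h m H hΔ hhm hp hq hl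
    hw hw hY (by
      intro y hy
      have h1 := hY y hy
      have e : y - q = (y - p) - (q - p) := by abel
      rw [e, cr_sub', cr_self_zero, sub_zero]
      exact h1) (by rw [hang]; linarith)
  rw [hang, add_zero, add_zero] at r1
  rw [r1] at r3
  exact ⟨k, lp, abs_le.2 ⟨r3, r2⟩, r4⟩

end C2305bFat
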