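import Pool.Agent.W_c2305b_h35.Acc
import Pool.Agent.W_c2305b_h35.LeanArc4

/-!
# The frame of a cell

The body `K` contains the parallelogram with half sides `U`, `W` and is contained in `1 + h` times
it. Every congruent copy of `K` has an orientation corrected frame `(o; A, B)` with the same
scalar and cross products; for reflected copies `A`, `B` are the images of `W`, `U`.
-/

open MeasureTheory Set Module W82

namespace C2305bFat

open C2305b (Pl t6 HexBound)
open C2305b.TL (cr)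

/-- `K` is near the parallelogram with half sides `U`, `W`. -/
structure NearP (K : Set Pl) (U W : Pl) (h : ℝ) : Prop where
  pos : 0 < cr U W
  h0 : 0 ≤ h
  sq : ∀ x y : ℝ, |x| ≤ 1 → |y| ≤ 1 → x • U + y • W ∈ K
  box : ∀ z ∈ K, ∃ x y : ℝ, |x| ≤ 1 + h ∧ |y| ≤ 1 + h ∧ z = x • U + y • W

/-- The frame of a congruent copy. -/
theorem copy_frame {K : Set Pl} {U W : Pl} {h : ℝ} (H : NearP K U W h) {α : ℝ}
    (hKα : K ⊆ Metric.closedBall 0 α) (φ : Pl ≃ᵢ Pl) : ∃ o A B : Pl,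
    cr A B = cr U W ∧ dt A B = dt U W ∧ ‖A‖ ≤ α ∧ ‖B‖ ≤ α ∧
    (∀ x y : ℝ, |x| ≤ 1 → |y| ≤ 1 → o + x • A + y • B ∈ φ '' K) ∧
    (∀ z ∈ φ '' K, ∃ x y : ℝ, |x| ≤ 1 + h ∧ |y| ≤ 1 + h ∧ z = o + x • A + y • B) := by
  obtain ⟨o, c, s, σ, hcs, hσ, hφ⟩ := C2305b.isometry_form φ
  have hU : ‖U‖ ≤ α := by
    have h1 := hKα (H.sq 1 0 (by simp) (by simp))
    rw [one_smul, zero_smul, add_zero, Metric.mem_closedBall, dist_zero_right] at h1
    exact h1
  have hW : ‖W‖ ≤ α := by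
    have h1 := hKα (H.sq 0 1 (by simp) (by simp))
    rw [one_smul, zero_smul, zero_add, Metric.mem_closedBall, dist_zero_right] at h1
    exact h1
  set L : Pl → Pl := fun v => C2305b.rot c s (C2305b.rfx σ v) with hL
  have L0 : ∀ v : Pl, L v 0 = c * v 0 - s * (σ * v 1) := by
    intro v
    rw [hL]
    simp [C2305b.rot, C2305b.rfx]
  have L1 : ∀ v : Pl, L v 1 = s * v 0 + c * (σ * v 1) := by
    intro v
    rw [hL]
    simp [C2305b.rot, C2305b.rfx]
  have hσ2 : σ * σ = 1 := by rcases hσ with rfl | rfl <;> norm_num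
  have hlin : ∀ (x y : ℝ) (u v : Pl), L (x • u + y • v) = x • L u + y • L v := by
    intro x y u v
    apply C2305b.ext2
    · show L (x • u + y • v) 0 = x * L u 0 + y * L v 0
      rw [L0, L0, L0]
      show c * (x * u 0 + y * v 0) - s * (σ * (x * u 1 + y * v 1)) = _
      ring
    · show L (x • u + y • v) 1 = x * L u 1 + y * L v 1
      rw [L1, L1, L1]
      show s * (x * u 0 + y * v 0) + c * (σ * (x * u 1 + y * v 1)) = _
      ring
  have hcr : ∀ u v : Pl, cr (L u) (L v) = σ * cr u v := by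
    intro u v
    unfold cr
    rw [L0, L0, L1, L1]
    linear_combination σ * (u 0 * v 1 - u 1 * v 0) * hcs
  have hdt : ∀ u v : Pl, dt (L u) (L v) = dt u v := by
    intro u v
    unfold dt
    rw [L0, L0, L1, L1]
    linear_combination (u 0 * v 0 + σ ^ 2 * u 1 * v 1) * hcs + u 1 * v 1 * hσ2
  have hnorm : ∀ u : Pl, ‖L u‖ = ‖u‖ := by
    intro u
    have h1 : ‖L u‖ ^ 2 = ‖u‖ ^ 2 := by rw [← dt_self_eq, ← dt_self_eq, hdt]
    exact (pow_left_inj₀ (norm_nonneg _) (norm_nonneg _) two_ne_zero).1 h1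
  have himg : ∀ (x y : ℝ), φ (x • U + y • W) = o + x • L U + y • L W := by
    intro x y
    rw [hφ, add_assoc, ← hlin]
  rcases hσ with h1 | h1
  · refine ⟨o, L U, L W, by rw [hcr, h1, one_mul], hdt _ _, by rw [hnorm]; exact hU,
      by rw [hnorm]; exact hW, ?_, ?_⟩
    · intro x y hx hy
      exact ⟨x • U + y • W, H.sq x y hx hy, himg x y⟩
    · rintro z ⟨v, hv, rfl⟩
      obtain ⟨x, y, hx, hy, rfl⟩ := H.box v hv
      exact ⟨x, y, hx, hy, himg x y⟩
  · refine ⟨o, L W, L U, by rw [hcr, h1, cr_swap' W U]; ring, by rw [hdt, dt_comm],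
      by rw [hnorm]; exact hW, by rw [hnorm]; exact hU, ?_, ?_⟩
    · intro x y hx hy
      refine ⟨y • U + x • W, H.sq y x hy hx, ?_⟩
      rw [himg]; abel
    · rintro z ⟨v, hv, rfl⟩
      obtain ⟨x, y, hx, hy, rfl⟩ := H.box v hv
      refine ⟨y, x, hy, hx, ?_⟩
      rw [himg]; abel

/-- The missing area of the cell `i`. -/
noncomputable def miss {ι : Type*} (K : Set Pl) (P : ι → Set Pl) (i : ι) : ℝ :=
  (volume K).toReal - (volume (P i)).toReal

/-- The frames of the cells. -/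
theorem cell_frame {ι : Type} [Fintype ι] {D K : Set Pl} {P : ι → Set Pl} (hV : Vio D P K)
    (hK : IsCompact K) {U W : Pl} {h : ℝ} (H : NearP K U W h) {α κ : ℝ}
    (hKα : K ⊆ Metric.closedBall 0 α) (hκ : κ ≤ cr U W) (i : ι) :
    0 ≤ miss K P i ∧ ∃ (o A B : Pl) (X : Set Pl), cr A B = cr U W ∧ dt A B = dt U W ∧
      InFrame α κ h (miss K P i) o A B X (P i) := by
  obtain ⟨φ, hφ⟩ := hV.cop i
  obtain ⟨o, A, B, h1, h2, h3, h4, h5, h6⟩ := copy_frame H hKα φ
  have hfinK : volume K ≠ ⊤ := hK.measure_lt_top.ne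
  have hfinP : volume (P i) ≠ ⊤ := (hV.til.comp i).measure_lt_top.ne
  have hle : volume (P i) ≤ volume K := (measure_mono hφ).trans (vol_iso φ K).le
  have hm : 0 ≤ miss K P i := by
    unfold miss
    have := ENNReal.toReal_mono hfinK hle
    linarith
  refine ⟨hm, o, A, B, φ '' K, h1, h2, ?_⟩
  refine ⟨h3, h4, ?_, H.h0, hm, h5, h6, hφ, ?_, hfinP⟩
  · rw [h1, abs_of_pos H.pos]; exact hκ
  · rw [vol_iso]
    unfold miss
    rw [ENNReal.ofReal_sub _ ENNReal.toReal_nonneg, ENNReal.ofReal_toReal hfinK,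
      ENNReal.ofReal_toReal hfinP, add_tsub_cancel_of_le hle]

end C2305bFat
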