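import Pool.Agent.W_c2305b_h35.Far4

/-!
# A cell is the hull of its corners and its caps

(V1) `vol_cell`, (V2) `mem_hull_of`: for a tiling with owners of the caps.
-/

open MeasureTheory Set Module W82

namespace C2305bFat

open C2305b (Pl)
open C2305b.TL (cr)

section cells

variable {ι : Type*} {D : Set Pl} {P : ι → Set Pl}

/-- Interior points of the hull of the shared boundary points are strictly inside every side. -/
lemma side_pos' {p q z0 : Pl} (hs : Side D P p q) (hz0 : z0 ∈ interior (convexHull ℝ (Vb D P))) :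
    0 < cr (q - p) (z0 - p) := by
  have hw : q - p ≠ 0 := sub_ne_zero.2 hs.2.2.1
  have hg : -(C2305b.TL.crL (q - p)) ≠ 0 := neg_ne_zero.mpr (C2305b.TL.crL_ne_zero hw)
  have hle : ∀ y ∈ convexHull ℝ (Vb D P), (-(C2305b.TL.crL (q - p))) y ≤ - cr (q - p) p := by
    have hc : Convex ℝ {y : Pl | (-(C2305b.TL.crL (q - p))) y ≤ - cr (q - p) p} :=
      convex_halfSpace_le (-(C2305b.TL.crL (q - p))).isLinear _
    intro y hy
    refine convexHull_min ?_ hc hy
    intro z hz
    show (-(C2305b.TL.crL (q - p))) z ≤ - cr (q - p) p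
    have := hs.2.2.2.1 z hz
    rw [C2305b.TL.cr_sub_right] at this
    rw [neg_apply, C2305b.TL.crL_apply]
    linarith
  have h1 := W82.lt_of_mem_interior _ hg hle hz0
  rw [neg_apply, C2305b.TL.crL_apply] at h1
  rw [C2305b.TL.cr_sub_right]
  linarith

/-- Points of the hull of the shared boundary points are inside every side. -/
lemma side_nonneg {p q z : Pl} (hs : Side D P p q) (hz : z ∈ convexHull ℝ (Vb D P)) :
    0 ≤ cr (q - p) (z - p) := by
  have hc : Convex ℝ {y : Pl | (-(C2305b.TL.crL (q - p))) y ≤ - cr (q - p) p} :=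
    convex_halfSpace_le (-(C2305b.TL.crL (q - p))).isLinear _
  have h1 : (-(C2305b.TL.crL (q - p))) z ≤ - cr (q - p) p := by
    refine convexHull_min ?_ hc hz
    intro y hy
    show (-(C2305b.TL.crL (q - p))) y ≤ - cr (q - p) p
    have := hs.2.2.2.1 y hy
    rw [C2305b.TL.cr_sub_right] at this
    rw [neg_apply, C2305b.TL.crL_apply]
    linarith
  rw [neg_apply, C2305b.TL.crL_apply] at h1
  rw [C2305b.TL.cr_sub_right]
  linarith

/-- The caps of a tiling are pairwise disjoint. -/
lemma caps_disj [Finite ι] (h : Tiling D P) (hi : (interior (convexHull ℝ (Vb D P))).Nonempty)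
    {s s' : Pl × Pl} (hs : Side D P s.1 s.2) (hs' : Side D P s'.1 s'.2) (hne : s ≠ s') :
    Disjoint (cap D s.1 s.2) (cap D s'.1 s'.2) := by
  rw [Set.disjoint_left]
  intro x hx hx'
  obtain ⟨z0, hz0⟩ := hi
  have hfr : ∀ v ∈ Vb D P, v ∈ D ∧ v ∉ interior D := by
    intro v hv
    exact ⟨h.compD.isClosed.frontier_subset hv.2, hv.2.2⟩
  have hDi : (interior D).Nonempty := ⟨z0, interior_mono (convexHull_min
    (fun v hv => (hfr v hv).1) h.convD) hz0⟩
  have hz0D := convexHull_min (fun v hv => (hfr v hv).1) h.convD (interior_subset hz0)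
  exact C2305bH52.caps_disjoint h.convD hDi (hfr _ hs.1).1 (hfr _ hs.2.1).1
    (hfr _ hs'.1).1 (hfr _ hs'.2.1).1 (hfr _ hs.1).2 (hfr _ hs.2.1).2 (hfr _ hs'.1).2
    (hfr _ hs'.2.1).2 hs.2.2.1.symm hs'.2.2.1.symm hne
    (hs.2.2.2.1 _ hs'.1) (hs.2.2.2.1 _ hs'.2.1) (hs'.2.2.2.1 _ hs.1) (hs'.2.2.2.1 _ hs.2.1)
    hz0D hz0D (side_pos' hs hz0) (side_pos' hs' hz0) hx.1 hx.2 hx'.2

lemma measurable_cap [Finite ι] (h : Tiling D P) (p q : Pl) : MeasurableSet (cap D p q) := by
  have e : cap D p q = D ∩ {z | C2305b.TL.crL (q - p) z < cr (q - p) p} := by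
    ext z
    constructor
    · rintro ⟨h1, h2⟩
      refine ⟨h1, ?_⟩
      show C2305b.TL.crL (q - p) z < cr (q - p) p
      rw [C2305b.TL.crL_apply]
      rw [C2305b.TL.cr_sub_right] at h2
      linarith
    · rintro ⟨h1, h2⟩
      refine ⟨h1, ?_⟩
      have h3 : C2305b.TL.crL (q - p) z < cr (q - p) p := h2
      rw [C2305b.TL.crL_apply] at h3
      rw [C2305b.TL.cr_sub_right]
      linarith
  rw [e]
  exact h.compD.isClosed.measurableSet.inter
    (isOpen_lt (C2305b.TL.crL (q - p)).continuous continuous_const).measurableSet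

end cells

variable {ι : Type*} {D : Set V} {P : ι → Set V}

open Classical in
/-- (V1) a cell contains its hull and its caps. -/
theorem vol_cell [Fintype ι] (h : Tiling D P)
    (hi : (interior (convexHull ℝ (Vb D P))).Nonempty) (own : V × V → ι)
    (hown : ∀ s ∈ h.sides hi, segment ℝ s.1 s.2 ⊆ P (own s) ∧ cap D s.1 s.2 ⊆ P (own s)) (i : ι) :
    (volume (convexHull ℝ (S P i))).toReal
      + ∑ s ∈ (h.sides hi).filter (fun s => own s = i), (volume (cap D s.1 s.2)).toReal
      ≤ (volume (P i)).toReal := by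
  have hcapfin : ∀ p : V × V, volume (cap D p.1 p.2) ≠ ⊤ := fun p =>
    ((measure_mono fun z hz => hz.1).trans_lt h.compD.measure_lt_top).ne
  have hSfin : volume (convexHull ℝ (S P i)) ≠ ⊤ := h.vol_S_ne_top i
  set F := (h.sides hi).filter (fun s => own s = i) with hF
  have hFs : ∀ s ∈ F, Side D P s.1 s.2 := fun s hs =>
    (h.mem_sides hi).1 (Finset.mem_filter.1 hs).1
  have hFo : ∀ s ∈ F, cap D s.1 s.2 ⊆ P i := by
    intro s hs
    have h1 := (hown s (Finset.mem_filter.1 hs).1).2
    rwa [(Finset.mem_filter.1 hs).2] at h1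
  have hSP : convexHull ℝ (S P i) ⊆ P i := convexHull_min (fun v hv => hv.1.1) (h.conv i)
  have hShull : convexHull ℝ (S P i) ⊆ convexHull ℝ (Vb D P) := by
    rw [← h.inter_hull i]
    exact inter_subset_right
  have hU : volume (⋃ s ∈ F, cap D s.1 s.2) = ∑ s ∈ F, volume (cap D s.1 s.2) := by
    refine measure_biUnion_finset ?_ fun s _ => measurable_cap h _ _
    intro s hs s' hs' hne
    exact caps_disj h hi (hFs s hs) (hFs s' hs') hne
  have hdisj : Disjoint (convexHull ℝ (S P i)) (⋃ s ∈ F, cap D s.1 s.2) := by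
    rw [Set.disjoint_left]
    intro x hx hx'
    obtain ⟨s, hs, hxs⟩ := mem_iUnion₂.1 hx'
    have h1 := side_nonneg (hFs s hs) (hShull hx)
    have h2 : cr (s.2 - s.1) (x - s.1) < 0 := hxs.2
    linarith
  have hmeas : MeasurableSet (⋃ s ∈ F, cap D s.1 s.2) :=
    Finset.measurableSet_biUnion F fun s _ => measurable_cap h _ _
  have htot : volume (convexHull ℝ (S P i)) + ∑ s ∈ F, volume (cap D s.1 s.2) ≤ volume (P i) := by
    rw [← hU, ← measure_union hdisj hmeas]
    exact measure_mono (union_subset hSP (iUnion₂_subset hFo))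
  rw [← ENNReal.toReal_sum fun p _ => hcapfin p, ← ENNReal.toReal_add hSfin
    (ENNReal.sum_ne_top.mpr fun p _ => hcapfin p)]
  exact ENNReal.toReal_mono (h.comp i).measure_lt_top.ne htot

/-- (V2) interior points of a cell outside its caps are in the hull of its corners. -/
theorem mem_hull_of [Fintype ι] (h : Tiling D P)
    (hi : (interior (convexHull ℝ (Vb D P))).Nonempty) (own : V × V → ι)
    (hown : ∀ s ∈ h.sides hi, segment ℝ s.1 s.2 ⊆ P (own s) ∧ cap D s.1 s.2 ⊆ P (own s)) {i : ι}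
    {z : V} (hz : z ∈ interior (P i))
    (hc : ∀ s ∈ h.sides hi, own s = i → z ∉ cap D s.1 s.2) : z ∈ convexHull ℝ (S P i) := by
  have hzP : z ∈ P i := interior_subset hz
  have hzD : z ∈ D := by rw [h.cover]; exact mem_iUnion.2 ⟨i, hzP⟩
  rcases h.cover_caps hi hzD with h1 | h1
  · rw [← h.inter_hull i]
    exact ⟨hzP, h1⟩
  · exfalso
    obtain ⟨s, hs, hzs⟩ := mem_iUnion₂.1 h1
    by_cases ho : own s = i
    · exact hc s hs ho hzs
    · have h2 := (hown s hs).2 hzs
      have h3 : z ∈ closure (interior (P (own s))) := by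
        rw [(h.conv _).closure_interior_eq_closure_of_nonempty_interior (h.int _)]
        exact subset_closure h2
      obtain ⟨y, hy1, hy2⟩ := mem_closure_iff.1 h3 _ isOpen_interior hz
      exact Set.disjoint_left.1 (h.disj _ _ ho) hy2 hy1

end C2305bFat
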