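import Pool.Agent.W_c2305b_h35.Turn1
import Pool.Agent.W_c2305b_h35.VolCell

/-!
# Few sides have a large turning

`few_sides`: for every `ε > 0` there is `M` such that in every tiling and every frame at most `M`
sides have turning more than `ε`.
-/

open MeasureTheory Set Module W82

namespace C2305bFat

open C2305b (Pl t6 HexBound)
open C2305b.TL (cr)

/-- Fixed directions, strict form. -/
def DirsS (ε : ℝ) {M : ℕ} (U : Fin M → Pl) : Prop := ∀ e : Pl, e ≠ 0 →
    (∃ k, ∃ a b : ℝ, 0 < a ∧ 0 < b ∧ b ≤ ε * a ∧ U k 0 = a * e 0 - b * e 1 ∧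
      U k 1 = a * e 1 + b * e 0) ∧
    (∃ k, ∃ a b : ℝ, 0 < a ∧ 0 < b ∧ b ≤ ε * a ∧ U k 0 = a * e 0 + b * e 1 ∧
      U k 1 = a * e 1 - b * e 0)

theorem exists_dirsS {ε : ℝ} (hε : 0 < ε) : ∃ (M : ℕ) (U : Fin M → Pl), DirsS ε U := by
  set η : ℝ := min (1 / 4) (ε / 4) with hη
  have hη0 : 0 < η := lt_min (by norm_num) (by linarith)
  have hη1 : η ≤ 1 / 4 := min_le_left _ _
  have hη2 : η ≤ ε / 4 := min_le_right _ _
  obtain ⟨M, U, hU⟩ := exists_dirs hη0
  refine ⟨M, U, fun e he => ?_⟩
  have hee := dt_self_pos he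
  have hnum : ∀ a b : ℝ, 0 < a → 0 ≤ b → b ≤ η * a →
      0 < a - b * η ∧ 0 < a * η + b ∧ a * η + b ≤ ε * (a - b * η) := by
    intro a b ha hb hab
    have h1 : b * η ≤ a * (1 / 16) := by
      have h2 : b * η ≤ (η * a) * η := mul_le_mul_of_nonneg_right hab hη0.le
      have h3 : η * η ≤ 1 / 16 := by nlinarith
      have h4 : a * (η * η) ≤ a * (1 / 16) := mul_le_mul_of_nonneg_left h3 ha.le
      nlinarith
    refine ⟨by linarith, by positivity, ?_⟩
    have h5 : a * η ≤ a * (ε / 4) := mul_le_mul_of_nonneg_left hη2 ha.le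
    have h6 : ε * (a * (15 / 16)) ≤ ε * (a - b * η) :=
      mul_le_mul_of_nonneg_left (by linarith) hε.le
    have h7 : 0 < ε * a := mul_pos hε ha
    linarith
  constructor
  · set e' : Pl := !₂[e 0 - η * e 1, e 1 + η * e 0] with he'
    have hne : e' ≠ 0 := by
      intro h0
      have h1 : e 0 - η * e 1 = 0 := congrArg (fun v : Pl => v 0) h0
      have h2 : e 1 + η * e 0 = 0 := congrArg (fun v : Pl => v 1) h0
      have h3 : (1 + η * η) * dt e e = 0 := by
        unfold dt
        linear_combination (e 0 + -η * e 1) * h1 + (e 1 + η * e 0) * h2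
      have : 0 < (1 + η * η) * dt e e := by positivity
      linarith
    obtain ⟨⟨k, a, b, ha, hb, hab, u0, u1⟩, -⟩ := hU e' hne
    obtain ⟨n1, n2, n3⟩ := hnum a b ha hb hab
    refine ⟨k, a - b * η, a * η + b, n1, n2, n3, ?_, ?_⟩
    · rw [u0]
      show a * (e 0 - η * e 1) - b * (e 1 + η * e 0) = _
      ring
    · rw [u1]
      show a * (e 1 + η * e 0) + b * (e 0 - η * e 1) = _
      ring
  · set e' : Pl := !₂[e 0 + η * e 1, e 1 - η * e 0] with he'
    have hne : e' ≠ 0 := by
      intro h0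
      have h1 : e 0 + η * e 1 = 0 := congrArg (fun v : Pl => v 0) h0
      have h2 : e 1 - η * e 0 = 0 := congrArg (fun v : Pl => v 1) h0
      have h3 : (1 + η * η) * dt e e = 0 := by
        unfold dt
        linear_combination (e 0 + η * e 1) * h1 + (e 1 - η * e 0) * h2
      have : 0 < (1 + η * η) * dt e e := by positivity
      linarith
    obtain ⟨-, ⟨k, a, b, ha, hb, hab, u0, u1⟩⟩ := hU e' hne
    obtain ⟨n1, n2, n3⟩ := hnum a b ha hb hab
    refine ⟨k, a - b * η, a * η + b, n1, n2, n3, ?_, ?_⟩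
    · rw [u0]
      show a * (e 0 + η * e 1) + b * (e 1 - η * e 0) = _
      ring
    · rw [u1]
      show a * (e 1 - η * e 0) - b * (e 0 + η * e 1) = _
      ring

private lemma alg {a b ε X Y S C : ℝ} (ha : 0 < a) (hb : 0 < b) (hab : b ≤ ε * a) (hY : 0 ≤ Y)
    (h1 : a * Y ≤ b * X) (h2 : X * S ≤ Y * C) (hS : 0 < S) (hC : 0 < C → ε * C < S) :
    X = 0 ∧ Y = 0 := by
  have hX : 0 ≤ X := by
    by_contra h
    push Not at h
    have h3 := mul_neg_of_pos_of_neg hb h
    have h4 := mul_nonneg ha.le hY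
    linarith
  have hX0 : X = 0 := by
    by_contra hne
    have hXp : 0 < X := lt_of_le_of_ne hX (Ne.symm hne)
    rcases le_or_gt C 0 with h | h
    · have h3 := mul_nonpos_of_nonneg_of_nonpos hY h
      have h4 := mul_pos hXp hS
      linarith
    · have h5 : a * Y ≤ a * (ε * X) := by
        have := mul_le_mul_of_nonneg_right hab hX
        linarith
      have h6 : Y ≤ ε * X := le_of_mul_le_mul_left h5 ha
      have h7 : Y * C ≤ ε * X * C := mul_le_mul_of_nonneg_right h6 h.le
      have h8 : X * (ε * C) < X * S := mul_lt_mul_of_pos_left (hC h) hXp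
      linarith
  refine ⟨hX0, ?_⟩
  rw [hX0, mul_zero] at h1
  have h3 : Y ≤ 0 := by
    by_contra h
    push Not at h
    have := mul_pos ha h
    linarith
  exact le_antisymm h3 hY

lemma eq_zero_of_dt_cr {w z : Pl} (hw : w ≠ 0) (h1 : dt w z = 0) (h2 : cr w z = 0) : z = 0 := by
  have hww := dt_self_pos hw
  unfold dt at h1 hww
  unfold cr at h2
  apply C2305b.ext2
  · show z 0 = 0
    have : z 0 * (w 0 * w 0 + w 1 * w 1) = 0 := by linear_combination w 0 * h1 - w 1 * h2
    exact (mul_eq_zero.1 this).resolve_right hww.ne'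
  · show z 1 = 0
    have : z 1 * (w 0 * w 0 + w 1 * w 1) = 0 := by linear_combination w 1 * h1 + w 0 * h2
    exact (mul_eq_zero.1 this).resolve_right hww.ne'

section side

variable {ι : Type} [Fintype ι] {D K : Set Pl} {P : ι → Set Pl} (h : Vio D P K)
  {T : Pl → Pl} (hT : Frame D P T) {p q : Pl} (hs : Side D P p q)

include h hT hs

/-- A side with a large turning at its start: the maximiser is in the cap or it is the start. -/
lemma max_start {ε : ℝ} (hε : 0 < ε) (hε1 : ε ≤ 1)
    (hbig : ε < InnerProductGeometry.angle (T p) (q - p)) {u x : Pl} {a b : ℝ} (ha : 0 < a)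
    (hb : 0 < b) (hab : b ≤ ε * a) (u0 : u 0 = a * (q - p) 1 + b * -((q - p) 0))
    (u1 : u 1 = a * -((q - p) 0) - b * (q - p) 1) (hx : x ∈ D)
    (hmax : ∀ y ∈ D, dt u y ≤ dt u x) : x ∈ cap D p q ∨ x = p := by
  by_cases hc : cr (q - p) (x - p) < 0
  · exact Or.inl ⟨hx, hc⟩
  push Not at hc
  right
  have hw : q - p ≠ 0 := sub_ne_zero.2 hs.2.2.1
  have hww := dt_self_pos hw
  have hTp := (hT p hs.1).1
  have hcr := cr_start h hT hs
  have hC : 0 < dt (T p) (q - p) → ε * dt (T p) (q - p) < cr (T p) (q - p) := by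
    intro h1
    by_contra h2
    push Not at h2
    exact absurd (angle_le_of_slope hTp hw hε.le hε1 hcr h1 h2) (not_le.2 hbig)
  set w := q - p with hwd
  -- the identity
  have hid : ∀ z : Pl, cr (T p) z * dt w w = dt w z * cr (T p) w + cr w z * dt (T p) w := by
    intro z
    unfold cr dt; ring
  have hS : 0 < cr (T p) w := by
    rcases hcr.eq_or_lt with h0 | h0
    · exfalso
      obtain ⟨z0, hz0⟩ := h.hull
      have hz0D : z0 ∈ D := convexHull_min (fun v hv => (h.vb_mem hv).1) h.til.convD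
        (interior_subset hz0)
      have h3 := side_pos' hs hz0
      have h4 := (hT p hs.1).2 z0 hz0D
      have h5 := hid (z0 - p)
      rw [← h0, mul_zero, zero_add] at h5
      have h6 : 0 ≤ cr w (z0 - p) * dt (T p) w := by rw [← h5]; exact mul_nonneg h4 hww.le
      have h7 : 0 ≤ dt (T p) w := by
        by_contra h8
        push Not at h8
        have := mul_neg_of_pos_of_neg h3 h8
        linarith
      rcases h7.eq_or_lt with h8 | h8
      · apply hTp
        apply eq_zero_of_dt_cr hw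
        · have : dt w (T p) = dt (T p) w := by unfold dt; ring
          rw [this]; exact h8.symm
        · have : cr w (T p) = -cr (T p) w := by unfold cr; ring
          rw [this, ← h0, neg_zero]
      · have := hC h8
        rw [← h0] at this
        have := mul_pos hε h8
        linarith
    · exact h0
  have h1 : 0 ≤ dt w (x - p) * cr (T p) w + cr w (x - p) * dt (T p) w := by
    rw [← hid]; exact mul_nonneg ((hT p hs.1).2 x hx) hww.le
  have h2 : a * cr w (x - p) ≤ b * -dt w (x - p) := by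
    have h3 := hmax p (h.vb_mem hs.1).1
    have h4 : 0 ≤ dt u (x - p) := by rw [dt_sub']; linarith
    have h5 : dt u (x - p) = -(a * cr w (x - p)) - b * dt w (x - p) := by
      unfold dt cr
      rw [u0, u1]; ring
    linarith
  obtain ⟨k1, k2⟩ := alg ha hb hab hc h2 (by linarith : -dt w (x - p) * cr (T p) w ≤
    cr w (x - p) * dt (T p) w) hS hC
  have h9 := eq_zero_of_dt_cr hw (neg_eq_zero.1 k1) k2
  exact sub_eq_zero.1 h9

/-- A side with a large turning at its end: the maximiser is in the cap or it is the end. -/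
lemma max_end {ε : ℝ} (hε : 0 < ε) (hε1 : ε ≤ 1)
    (hbig : ε < InnerProductGeometry.angle (q - p) (T q)) {u x : Pl} {a b : ℝ} (ha : 0 < a)
    (hb : 0 < b) (hab : b ≤ ε * a) (u0 : u 0 = a * (q - p) 1 - b * -((q - p) 0))
    (u1 : u 1 = a * -((q - p) 0) + b * (q - p) 1) (hx : x ∈ D)
    (hmax : ∀ y ∈ D, dt u y ≤ dt u x) : x ∈ cap D p q ∨ x = q := by
  by_cases hc : cr (q - p) (x - p) < 0
  · exact Or.inl ⟨hx, hc⟩
  push Not at hc
  right
  have hw : q - p ≠ 0 := sub_ne_zero.2 hs.2.2.1
  have hww := dt_self_pos hw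
  have hTp := (hT q hs.2.1).1
  have hcr := cr_end h hT hs
  have hC : 0 < dt (q - p) (T q) → ε * dt (q - p) (T q) < cr (q - p) (T q) := by
    intro h1
    by_contra h2
    push Not at h2
    exact absurd (angle_le_of_slope hw hTp hε.le hε1 hcr h1 h2) (not_le.2 hbig)
  have hcq : ∀ v : Pl, cr (q - p) (v - q) = cr (q - p) (v - p) := by
    intro v
    have h1 : v - q = v - p - (q - p) := by abel
    rw [h1, cr_sub', cr_self_zero, sub_zero]
  rw [← hcq] at hc
  set w := q - p with hwd
  -- the identity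
  have hid : ∀ z : Pl, cr (T q) z * dt w w = -(dt w z * cr w (T q)) + cr w z * dt w (T q) := by
    intro z
    unfold cr dt; ring
  have hS : 0 < cr w (T q) := by
    rcases hcr.eq_or_lt with h0 | h0
    · exfalso
      obtain ⟨z0, hz0⟩ := h.hull
      have hz0D : z0 ∈ D := convexHull_min (fun v hv => (h.vb_mem hv).1) h.til.convD
        (interior_subset hz0)
      have h3 := side_pos' hs hz0
      rw [← hwd, ← hcq] at h3
      have h4 := (hT q hs.2.1).2 z0 hz0D
      have h5 := hid (z0 - q)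
      rw [← h0, mul_zero, neg_zero, zero_add] at h5
      have h6 : 0 ≤ cr w (z0 - q) * dt w (T q) := by rw [← h5]; exact mul_nonneg h4 hww.le
      have h7 : 0 ≤ dt w (T q) := by
        by_contra h8
        push Not at h8
        have := mul_neg_of_pos_of_neg h3 h8
        linarith
      rcases h7.eq_or_lt with h8 | h8
      · apply hTp
        exact eq_zero_of_dt_cr hw h8.symm h0.symm
      · have := hC h8
        rw [← h0] at this
        have := mul_pos hε h8
        linarith
    · exact h0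
  have h1 : 0 ≤ -(dt w (x - q) * cr w (T q)) + cr w (x - q) * dt w (T q) := by
    rw [← hid]; exact mul_nonneg ((hT q hs.2.1).2 x hx) hww.le
  have h2 : a * cr w (x - q) ≤ b * dt w (x - q) := by
    have h3 := hmax q (h.vb_mem hs.2.1).1
    have h4 : 0 ≤ dt u (x - q) := by rw [dt_sub']; linarith
    have h5 : dt u (x - q) = -(a * cr w (x - q)) + b * dt w (x - q) := by
      unfold dt cr
      rw [u0, u1]; ring
    linarith
  obtain ⟨k1, k2⟩ := alg ha hb hab hc h2 (by linarith : dt w (x - q) * cr w (T q) ≤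
    cr w (x - q) * dt w (T q)) hS hC
  have h9 := eq_zero_of_dt_cr hw k1 k2
  exact sub_eq_zero.1 h9

end side

lemma cr_eq_zero_smul {w v : Pl} (hw : w ≠ 0) (h : cr w v = 0) :
    v = (dt w v / dt w w) • w := by
  have hww := dt_self_pos hw
  have h1 : dt w (v - (dt w v / dt w w) • w) = 0 := by
    rw [dt_sub']
    have : dt w ((dt w v / dt w w) • w) = (dt w v / dt w w) * dt w w := by
      unfold dt
      show w 0 * (_ * w 0) + w 1 * (_ * w 1) = _
      ring
    rw [this, div_mul_cancel₀ _ hww.ne', sub_self]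
  have h2 : cr w (v - (dt w v / dt w w) • w) = 0 := by
    rw [cr_sub']
    have : cr w ((dt w v / dt w w) • w) = 0 := by
      unfold cr
      show w 0 * (_ * w 1) - w 1 * (_ * w 0) = 0
      ring
    rw [this, h, sub_zero]
  exact sub_eq_zero.1 (eq_zero_of_dt_cr hw h1 h2)

/-- The start determines the side. -/
lemma side_start_unique {ι : Type} [Fintype ι] {D : Set Pl} {P : ι → Set Pl}
    (hi : (interior (convexHull ℝ (Vb D P))).Nonempty) {p q q' : Pl} (hs : Side D P p q)
    (hs' : Side D P p q') : q = q' := by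
  have hw : q - p ≠ 0 := sub_ne_zero.2 hs.2.2.1
  have hw' : q' - p ≠ 0 := sub_ne_zero.2 hs'.2.2.1
  have h1 := hs.2.2.2.1 q' hs'.2.1
  have h2 := hs'.2.2.2.1 q hs.2.1
  have h3 : cr (q' - p) (q - p) = -cr (q - p) (q' - p) := by unfold cr; ring
  have h4 : cr (q - p) (q' - p) = 0 := by linarith
  have h5 := cr_eq_zero_smul hw h4
  set c := dt (q - p) (q' - p) / dt (q - p) (q - p) with hc
  obtain ⟨z0, hz0⟩ := hi
  have h6 := side_pos' hs hz0
  have h7 := side_pos' hs' hz0
  rw [h5] at h7
  have h8 : cr (c • (q - p)) (z0 - p) = c * cr (q - p) (z0 - p) := by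
    unfold cr
    show c * (q - p) 0 * _ - c * (q - p) 1 * _ = _
    ring
  rw [h8] at h7
  have hcpos : 0 < c := by
    by_contra h9
    push Not at h9
    have := mul_nonpos_of_nonpos_of_nonneg h9 h6.le
    linarith
  rcases lt_trichotomy c 1 with h9 | h9 | h9
  · exfalso
    refine hs.2.2.2.2 q' hs'.2.1 ?_
    refine ⟨1 - c, c, by linarith, hcpos, by ring, ?_⟩
    have : q' = p + c • (q - p) := by rw [← h5]; abel
    rw [this, smul_sub, sub_smul, one_smul]; abel
  · rw [h9, one_smul] at h5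
    exact (sub_left_inj.1 h5).symm
  · exfalso
    refine hs'.2.2.2.2 q hs.2.1 ?_
    have hinv : 1 / c < 1 := by rw [div_lt_one hcpos]; exact h9
    refine ⟨1 - 1 / c, 1 / c, by linarith, by positivity, by ring, ?_⟩
    have h10 : q - p = (1 / c) • (q' - p) := by
      rw [h5, smul_smul, one_div, inv_mul_cancel₀ hcpos.ne', one_smul]
    have : q = p + (1 / c) • (q' - p) := by rw [← h10]; abel
    rw [this, smul_sub, sub_smul, one_smul]; abel

/-- The end determines the side. -/
lemma side_end_unique {ι : Type} [Fintype ι] {D : Set Pl} {P : ι → Set Pl}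
    (hi : (interior (convexHull ℝ (Vb D P))).Nonempty) {p p' q : Pl} (hs : Side D P p q)
    (hs' : Side D P p' q) : p = p' := by
  have hw : q - p ≠ 0 := sub_ne_zero.2 hs.2.2.1
  have hw' : q - p' ≠ 0 := sub_ne_zero.2 hs'.2.2.1
  have h1 := hs.2.2.2.1 p' hs'.1
  have h2 := hs'.2.2.2.1 p hs.1
  have e1 : cr (q - p) (p' - p) = -cr (q - p) (q - p') := by
    unfold cr
    simp only [PiLp.sub_apply]
    ring
  have e2 : cr (q - p') (p - p') = cr (q - p) (q - p') := by
    unfold cr
    simp only [PiLp.sub_apply]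
    ring
  have h4 : cr (q - p) (q - p') = 0 := by linarith
  have h5 := cr_eq_zero_smul hw h4
  set c := dt (q - p) (q - p') / dt (q - p) (q - p) with hc
  obtain ⟨z0, hz0⟩ := hi
  have h6 := side_pos' hs hz0
  have h7 := side_pos' hs' hz0
  have h7' : cr (q - p') (z0 - p') = c * cr (q - p) (z0 - p) := by
    have e3 : z0 - p' = (z0 - p) - (q - p) + (q - p') := by abel
    have e4 : cr (q - p') (z0 - p') = cr (q - p') (z0 - p) - cr (q - p') (q - p)
        + cr (q - p') (q - p') := by
      rw [e3]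
      unfold cr
      simp only [PiLp.sub_apply, PiLp.add_apply]
      ring
    rw [e4, cr_self_zero, h5]
    unfold cr
    show c * (q - p) 0 * _ - c * (q - p) 1 * _ - (c * (q - p) 0 * _ - c * (q - p) 1 * _) + 0 = _
    ring
  rw [h7'] at h7
  have hcpos : 0 < c := by
    by_contra h9
    push Not at h9
    have := mul_nonpos_of_nonpos_of_nonneg h9 h6.le
    linarith
  rcases lt_trichotomy c 1 with h9 | h9 | h9
  · exfalso
    refine hs.2.2.2.2 p' hs'.1 ?_
    refine ⟨c, 1 - c, hcpos, by linarith, by ring, ?_⟩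
    have : p' = q - c • (q - p) := by rw [← h5]; abel
    rw [this, smul_sub, sub_smul, one_smul]; abel
  · rw [h9, one_smul] at h5
    exact (sub_right_inj.1 h5).symm
  · exfalso
    refine hs'.2.2.2.2 p hs.1 ?_
    have hinv : 1 / c < 1 := by rw [div_lt_one hcpos]; exact h9
    refine ⟨1 / c, 1 - 1 / c, by positivity, by linarith, by ring, ?_⟩
    have h10 : q - p = (1 / c) • (q - p') := by
      rw [h5, smul_smul, one_div, inv_mul_cancel₀ hcpos.ne', one_smul]
    have : p = q - (1 / c) • (q - p') := by rw [← h10]; abel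
    rw [this, smul_sub, sub_smul, one_smul]; abel

/-- Counting with labels. -/
lemma card_le_of_label {β : Type*} [DecidableEq β] (X : Finset β) {M : ℕ} (R : Fin M → β → Prop)
    (h1 : ∀ s ∈ X, ∃ m, R m s) (h2 : ∀ s ∈ X, ∀ s' ∈ X, ∀ m, R m s → R m s' → s = s') :
    X.card ≤ M := by
  have hch : ∀ s ∈ X, ∃ m : ℕ, ∃ hm : m < M, R ⟨m, hm⟩ s := by
    intro s hs
    obtain ⟨k, hk⟩ := h1 s hs
    exact ⟨k, k.2, hk⟩
  choose! κ hκ1 hκ2 using hch
  rw [← Finset.card_range M]
  refine Finset.card_le_card_of_injOn κ (fun s hs => Finset.mem_coe.2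
    (Finset.mem_range.2 (hκ1 s hs))) ?_
  intro s hs s' hs' he
  have ex : (⟨κ s, hκ1 s hs⟩ : Fin M) = ⟨κ s', hκ1 s' hs'⟩ := Fin.ext he
  exact h2 s hs s' hs' ⟨κ s, hκ1 s hs⟩ (hκ2 s hs) (by rw [ex]; exact hκ2 s' hs')

open Classical in
/-- **Few sides have a large turning.** -/
theorem few_sides {ε : ℝ} (hε : 0 < ε) : ∃ M : ℕ, ∀ (K : Set Pl) (ι : Type) [Fintype ι]
    (D : Set Pl) (P : ι → Set Pl) (h : Vio D P K) (T : Pl → Pl), Frame D P T →
    ((h.til.sides h.hull).filter (fun s => ε < turn T s.1 s.2)).card ≤ M := by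
  set δ : ℝ := min 1 (ε / 2) with hδ
  have hδ0 : 0 < δ := lt_min one_pos (by linarith)
  have hδ1 : δ ≤ 1 := min_le_left _ _
  have hδ2 : δ ≤ ε / 2 := min_le_right _ _
  obtain ⟨M, U, hU⟩ := exists_dirsS hδ0
  refine ⟨M + M + M, ?_⟩
  intro K ι _ D P h T hT
  obtain ⟨z0, hz0⟩ := h.hull
  have hfr : ∀ v ∈ Vb D P, v ∈ D := fun v hv => (h.vb_mem hv).1
  have hz0D : z0 ∈ D := convexHull_min hfr h.til.convD (interior_subset hz0)
  have hex : ∀ k : Fin M, ∃ x ∈ D, ∀ y ∈ D, dt (U k) y ≤ dt (U k) x := by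
    intro k
    have hcont : Continuous fun y : Pl => dt (U k) y := by
      unfold dt
      fun_prop
    obtain ⟨x, hx, hmax⟩ := h.til.compD.exists_isMaxOn ⟨z0, hz0D⟩ hcont.continuousOn
    exact ⟨x, hx, fun y hy => hmax hy⟩
  choose x hxD hxmax using hex
  set X := (h.til.sides h.hull).filter (fun s => ε < turn T s.1 s.2) with hX
  have hXs : ∀ s ∈ X, Side D P s.1 s.2 := fun s hs =>
    (h.til.mem_sides h.hull).1 (Finset.mem_filter.1 hs).1
  have hcase : ∀ s ∈ X, (∃ k, x k ∈ cap D s.1 s.2) ∨ (∃ k, x k = s.1) ∨ (∃ k, x k = s.2) := by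
    intro s hs
    have hS := hXs s hs
    have hturn : ε < turn T s.1 s.2 := (Finset.mem_filter.1 hs).2
    unfold turn at hturn
    have hw : s.2 - s.1 ≠ 0 := sub_ne_zero.2 hS.2.2.1
    set e : Pl := !₂[(s.2 - s.1) 1, -((s.2 - s.1) 0)] with he
    have e0 : e 0 = (s.2 - s.1) 1 := rfl
    have e1 : e 1 = -((s.2 - s.1) 0) := rfl
    have hene : e ≠ 0 := by
      intro h0
      apply hw
      have h1 : (s.2 - s.1) 1 = 0 := by rw [← e0, h0]; rfl
      have h2 : -((s.2 - s.1) 0) = 0 := by rw [← e1, h0]; rfl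
      exact C2305b.ext2 (neg_eq_zero.mp h2) h1
    obtain ⟨⟨k, a, b, ha, hb, hab, u0, u1⟩, ⟨k', a', b', ha', hb', hab', v0, v1⟩⟩ := hU e hene
    rw [e0, e1] at u0 u1 v0 v1
    by_cases hc : δ < InnerProductGeometry.angle (T s.1) (s.2 - s.1)
    · rcases max_start h hT hS hδ0 hδ1 hc ha' hb' hab' v0 v1 (hxD k') (hxmax k') with h1 | h1
      · exact Or.inl ⟨k', h1⟩
      · exact Or.inr (Or.inl ⟨k', h1⟩)
    · have hc' : δ < InnerProductGeometry.angle (s.2 - s.1) (T s.2) := by
        push Not at hc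
        linarith
      rcases max_end h hT hS hδ0 hδ1 hc' ha hb hab u0 u1 (hxD k) (hxmax k) with h1 | h1
      · exact Or.inl ⟨k, h1⟩
      · exact Or.inr (Or.inr ⟨k, h1⟩)
  have hsub : X ⊆ (X.filter (fun s => ∃ k, x k ∈ cap D s.1 s.2) ∪
      X.filter (fun s => ∃ k, x k = s.1)) ∪ X.filter (fun s => ∃ k, x k = s.2) := by
    intro s hs
    rcases hcase s hs with h1 | h1 | h1
    · exact Finset.mem_union_left _ (Finset.mem_union_left _ (Finset.mem_filter.2 ⟨hs, h1⟩))
    · exact Finset.mem_union_left _ (Finset.mem_union_right _ (Finset.mem_filter.2 ⟨hs, h1⟩))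
    · exact Finset.mem_union_right _ (Finset.mem_filter.2 ⟨hs, h1⟩)
  have c1 : (X.filter (fun s => ∃ k, x k ∈ cap D s.1 s.2)).card ≤ M := by
    refine card_le_of_label _ (fun k s => x k ∈ cap D s.1 s.2)
      (fun s hs => (Finset.mem_filter.1 hs).2) ?_
    intro s hs s' hs' m h1 h2
    by_contra hne
    exact Set.disjoint_left.1 (caps_disj h.til h.hull (hXs s (Finset.mem_filter.1 hs).1)
      (hXs s' (Finset.mem_filter.1 hs').1) hne) h1 h2
  have c2 : (X.filter (fun s => ∃ k, x k = s.1)).card ≤ M := by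
    refine card_le_of_label _ (fun k s => x k = s.1)
      (fun s hs => (Finset.mem_filter.1 hs).2) ?_
    intro s hs s' hs' m h1 h2
    have hS := hXs s (Finset.mem_filter.1 hs).1
    have hS' := hXs s' (Finset.mem_filter.1 hs').1
    have h3 : s.1 = s'.1 := h1.symm.trans h2
    rw [← h3] at hS'
    exact Prod.ext h3 (side_start_unique h.hull hS hS')
  have c3 : (X.filter (fun s => ∃ k, x k = s.2)).card ≤ M := by
    refine card_le_of_label _ (fun k s => x k = s.2)
      (fun s hs => (Finset.mem_filter.1 hs).2) ?_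
    intro s hs s' hs' m h1 h2
    have hS := hXs s (Finset.mem_filter.1 hs).1
    have hS' := hXs s' (Finset.mem_filter.1 hs').1
    have h3 : s.2 = s'.2 := h1.symm.trans h2
    rw [← h3] at hS'
    exact Prod.ext (side_end_unique h.hull hS hS') h3
  calc X.card ≤ _ := Finset.card_le_card hsub
    _ ≤ _ := Finset.card_union_le _ _
    _ ≤ _ := by
        have := Finset.card_union_le (X.filter (fun s => ∃ k, x k ∈ cap D s.1 s.2))
          (X.filter (fun s => ∃ k, x k = s.1))
        omega

end C2305bFat
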