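import Pool.Agent.W82_c2305b.AF8
import Pool.Agent.W_c2305b_h68.SpM

/-!
# The fields of the abstract system: the local ones
-/

open MeasureTheory Set Module W82

namespace C2305bFat

open C2305b (Pl t6 HexBound)
open C2305b.TL (cr)
open C2305bH52.Dow (sm)
open C2305bAF (plug plug_E plug_mem bd_iff)

lemma miss_nonneg {ι : Type} [Fintype ι] {D K : Set Pl} {P : ι → Set Pl} (hV : Vio D P K)
    (hK : IsCompact K) (i : ι) : 0 ≤ miss K P i := by
  obtain ⟨φ, hφ⟩ := hV.cop i
  have hfinK : volume K ≠ ⊤ := hK.measure_lt_top.ne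
  have hle : volume (P i) ≤ volume K := (measure_mono hφ).trans (vol_iso φ K).le
  unfold miss
  have := ENNReal.toReal_mono hfinK hle
  linarith

section fields

variable {ι : Type} [Fintype ι] {D K : Set Pl} {P : ι → Set Pl} (hV : Vio D P K)
  {own : Pl × Pl → ι} {T : Pl → Pl} {ls le : ι → Pl × Pl → ℝ} {kk : ι → Pl × Pl → ℤ}
  {A6 τ : ℝ} {c : Pl → Pl} {l0 e1 : ℝ}

/-- Fields `inner` and `bdry`. -/
theorem plug_inner {μ0 CL CL' σ hh : ℝ} (ho : Own hV.til hV.hull own)
    (hL : ∀ i, CL * (hh + miss K P i) ≤ CL' * (σ + miss K P i))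
    (hl : ∀ i (hn : (interior (convexHull ℝ (S P i))).Nonempty), miss K P i ≤ μ0 →
      ¬ SpC hV T own e1 i → ∀ e ∈ (hV.til.toTL hV.hull).edges ⟨i, hn⟩, l0 ≤ dist e.1 e.2 →
      (¬ (Side D P e.1 e.2 ∧ cap D e.1 e.2 ⊆ P i) →
          le i e = ls i e ∧ |ls i e| ≤ CL * (hh + miss K P i))) :
    ∀ i, (plug hV.til hV.hull own T ls le kk (miss K P) A6 τ c l0 e1).m i ≤ μ0 →
      ¬ (plug hV.til hV.hull own T ls le kk (miss K P) A6 τ c l0 e1).Sp i →
      ∀ e ∈ (plug hV.til hV.hull own T ls le kk (miss K P) A6 τ c l0 e1).E i,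
      (plug hV.til hV.hull own T ls le kk (miss K P) A6 τ c l0 e1).lo e →
      ¬ (plug hV.til hV.hull own T ls le kk (miss K P) A6 τ c l0 e1).bd e →
      (plug hV.til hV.hull own T ls le kk (miss K P) A6 τ c l0 e1).le i e =
        (plug hV.til hV.hull own T ls le kk (miss K P) A6 τ c l0 e1).ls i e ∧
      |(plug hV.til hV.hull own T ls le kk (miss K P) A6 τ c l0 e1).ls i e| ≤
        CL' * (σ + (plug hV.til hV.hull own T ls le kk (miss K P) A6 τ c l0 e1).m i) := by
  intro i hm hsp e he hlo hbd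
  obtain ⟨hn, he'⟩ := plug_mem he
  obtain ⟨h1, h2⟩ := hl i hn hm hsp e he' hlo (fun h => hbd ((bd_iff ho he').2 h))
  exact ⟨h1, h2.trans (hL i)⟩

theorem plug_bdry {μ0 CL CL' σ hh : ℝ} (ho : Own hV.til hV.hull own)
    (hL : ∀ i, CL * (hh + miss K P i) ≤ CL' * (σ + miss K P i))
    (hl : ∀ i (hn : (interior (convexHull ℝ (S P i))).Nonempty), miss K P i ≤ μ0 →
      ¬ SpC hV T own e1 i → ∀ e ∈ (hV.til.toTL hV.hull).edges ⟨i, hn⟩, l0 ≤ dist e.1 e.2 →
      ((Side D P e.1 e.2 ∧ cap D e.1 e.2 ⊆ P i) →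
          ls i e ≤ CL * (hh + miss K P i) ∧ -(CL * (hh + miss K P i)) ≤ le i e ∧
          le i e - ls i e = turn T e.1 e.2)) :
    ∀ i, (plug hV.til hV.hull own T ls le kk (miss K P) A6 τ c l0 e1).m i ≤ μ0 →
      ¬ (plug hV.til hV.hull own T ls le kk (miss K P) A6 τ c l0 e1).Sp i →
      ∀ e ∈ (plug hV.til hV.hull own T ls le kk (miss K P) A6 τ c l0 e1).E i,
      (plug hV.til hV.hull own T ls le kk (miss K P) A6 τ c l0 e1).lo e →
      (plug hV.til hV.hull own T ls le kk (miss K P) A6 τ c l0 e1).bd e →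
      (plug hV.til hV.hull own T ls le kk (miss K P) A6 τ c l0 e1).ls i e ≤
        CL' * (σ + (plug hV.til hV.hull own T ls le kk (miss K P) A6 τ c l0 e1).m i) ∧
      -(CL' * (σ + (plug hV.til hV.hull own T ls le kk (miss K P) A6 τ c l0 e1).m i)) ≤
        (plug hV.til hV.hull own T ls le kk (miss K P) A6 τ c l0 e1).le i e ∧
      (plug hV.til hV.hull own T ls le kk (miss K P) A6 τ c l0 e1).le i e -
        (plug hV.til hV.hull own T ls le kk (miss K P) A6 τ c l0 e1).ls i e =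
        (plug hV.til hV.hull own T ls le kk (miss K P) A6 τ c l0 e1).tu e := by
  intro i hm hsp e he hlo hbd
  obtain ⟨hn, he'⟩ := plug_mem he
  obtain ⟨h1, h2, h3⟩ := hl i hn hm hsp e he' hlo ((bd_iff ho he').1 hbd)
  exact ⟨h1.trans (hL i), (neg_le_neg (hL i)).trans h2, h3⟩

/-- Field `tu1`. -/
theorem plug_tu1 {μ0 : ℝ} (ho : Own hV.til hV.hull own) :
    ∀ i, (plug hV.til hV.hull own T ls le kk (miss K P) A6 τ c l0 e1).m i ≤ μ0 →
      ¬ (plug hV.til hV.hull own T ls le kk (miss K P) A6 τ c l0 e1).Sp i →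
      ∀ e ∈ (plug hV.til hV.hull own T ls le kk (miss K P) A6 τ c l0 e1).E i,
      (plug hV.til hV.hull own T ls le kk (miss K P) A6 τ c l0 e1).bd e →
      (plug hV.til hV.hull own T ls le kk (miss K P) A6 τ c l0 e1).tu e ≤ e1 := by
  intro i _ hsp e he hbd
  obtain ⟨hn, he'⟩ := plug_mem he
  by_contra hcon
  exact hsp ⟨e, hbd.1, C2305bAF.own_eq ho he' hbd.1 hbd.2, not_le.1 hcon⟩

/-- Field `tunn`. -/
theorem plug_tunn :
    ∀ i, ∀ e ∈ (plug hV.til hV.hull own T ls le kk (miss K P) A6 τ c l0 e1).E i,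
      (plug hV.til hV.hull own T ls le kk (miss K P) A6 τ c l0 e1).bd e →
      0 ≤ (plug hV.til hV.hull own T ls le kk (miss K P) A6 τ c l0 e1).tu e :=
  fun _ _ _ _ => turn_nonneg _ _ _

/-- Field `mnn`. -/
theorem plug_mnn (hK : IsCompact K) :
    ∀ i, 0 ≤ (plug hV.til hV.hull own T ls le kk (miss K P) A6 τ c l0 e1).m i :=
  fun i => miss_nonneg hV hK i

/-- Field `lossnn`. -/
theorem plug_lossnn (hsym : ∀ v ∈ K, -v ∈ K) (hK : IsCompact K) (hconv : Convex ℝ K)
    (hint : (interior K).Nonempty) :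
    ∀ i, 0 ≤ (plug hV.til hV.hull own T ls le kk (miss K P) (sm (gauge K) 6)
      (sm (gauge K) 6 - sm (gauge K) 5) c l0 e1).loss i :=
  fun i => loss_nonneg hsym hK hconv hint hV.til hV.cop i

/-- Field `acc`. -/
theorem plug_acc (hsym : ∀ v ∈ K, -v ∈ K) (hK : IsCompact K) (hconv : Convex ℝ K)
    (hint : (interior K).Nonempty) :
    0 < (∑ i, ((plug hV.til hV.hull own T ls le kk (miss K P) (sm (gauge K) 6)
        (sm (gauge K) 6 - sm (gauge K) 5) c l0 e1).cap i -
      (plug hV.til hV.hull own T ls le kk (miss K P) (sm (gauge K) 6)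
        (sm (gauge K) 6 - sm (gauge K) 5) c l0 e1).loss i)) -
      (sm (gauge K) 6 - sm (gauge K) 5) * ((Vb D P).ncard : ℝ) :=
  sub_pos.2 (vio_account hV hsym hK hconv hint own)

/-- The parallelogram is the hull of its corners. -/
lemma par_le_t6 {U W : Pl} (hU : 0 < cr U W)
    (hsq : ∀ x y : ℝ, |x| ≤ 1 → |y| ≤ 1 → x • U + y • W ∈ K) :
    ENNReal.ofReal (4 * cr U W) ≤ t6 K := by
  set p : Fin 6 → Pl := ![U + W, -U + W, -U - W, U - W, U - W, U - W] with hp
  have hpK : ∀ k, p k ∈ K := by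
    have h1 : U + W ∈ K := by
      have := hsq 1 1 (by simp) (by simp)
      rwa [one_smul, one_smul] at this
    have h2 : -U + W ∈ K := by
      have := hsq (-1) 1 (by simp) (by simp)
      rwa [neg_one_smul, one_smul] at this
    have h3 : -U - W ∈ K := by
      have := hsq (-1) (-1) (by simp) (by simp)
      rwa [neg_one_smul, neg_one_smul, ← sub_eq_add_neg] at this
    have h4 : U - W ∈ K := by
      have := hsq 1 (-1) (by simp) (by simp)
      rwa [one_smul, neg_one_smul, ← sub_eq_add_neg] at this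
    intro k
    fin_cases k
    · exact h1
    · exact h2
    · exact h3
    · exact h4
    · exact h4
    · exact h4
  refine le_trans ?_ (C2305b.le_t6 hpK)
  set H := convexHull ℝ (range p) with hH
  have hc : Convex ℝ H := convex_convexHull ℝ _
  have hm : ∀ k, p k ∈ H := fun k => subset_convexHull ℝ _ (mem_range_self k)
  have hmem : ∀ x y : ℝ, |x| ≤ 1 → |y| ≤ 1 → x • U + y • W ∈ H := by
    intro x y hx hy
    rw [abs_le] at hx hy
    have a1 : ((1 + x) / 2) • (U + W) + ((1 - x) / 2) • (-U + W) ∈ H :=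
      hc (hm 0) (hm 1) (by linarith) (by linarith) (by ring)
    have a2 : ((1 + x) / 2) • (U - W) + ((1 - x) / 2) • (-U - W) ∈ H :=
      hc (hm 3) (hm 2) (by linarith) (by linarith) (by ring)
    have a3 := hc a1 a2 (show (0 : ℝ) ≤ (1 + y) / 2 by linarith)
      (show (0 : ℝ) ≤ (1 - y) / 2 by linarith) (by ring)
    have e : ((1 + y) / 2) • (((1 + x) / 2) • (U + W) + ((1 - x) / 2) • (-U + W)) +
        ((1 - y) / 2) • (((1 + x) / 2) • (U - W) + ((1 - x) / 2) • (-U - W)) =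
        x • U + y • W := by module
    rwa [e] at a3
  set M : Matrix (Fin 2) (Fin 2) ℝ := !![U 0, W 0; U 1, W 1] with hM
  have hdet : |LinearMap.det (C2305b.mat M)| = cr U W := by
    rw [C2305b.det_mat]
    have : M 0 0 * M 1 1 - M 0 1 * M 1 0 = cr U W := by
      rw [hM]
      simp only [Matrix.of_apply, Matrix.cons_val', Matrix.cons_val_zero, Matrix.cons_val_one,
        Matrix.cons_val_fin_one]
      unfold cr
      ring
    rw [this, abs_of_pos hU]
  have hmat : ∀ v : Pl, C2305b.mat M v = v 0 • U + v 1 • W := by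
    intro v
    apply C2305b.ext2
    · rw [C2305b.mat_0]
      show U 0 * v 0 + W 0 * v 1 = v 0 * U 0 + v 1 * W 0
      ring
    · rw [C2305b.mat_1]
      show U 1 * v 0 + W 1 * v 1 = v 0 * U 1 + v 1 * W 1
      ring
  have hsub : (fun v => (0 : Pl) + C2305b.mat M v) '' (C2305bH68.box (-1) 1 (-1) 1) ⊆ H := by
    rintro z ⟨v, ⟨b1, b2, b3, b4⟩, rfl⟩
    show (0 : Pl) + C2305b.mat M v ∈ H
    rw [hmat, zero_add]
    exact hmem _ _ (abs_le.2 ⟨b1, b2⟩) (abs_le.2 ⟨b3, b4⟩)
  refine le_trans ?_ (measure_mono hsub)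
  rw [C2305b.volume_affine, hdet, C2305bH68.volume_box (by norm_num), ← ENNReal.ofReal_mul hU.le]
  apply ENNReal.ofReal_le_ofReal
  nlinarith

/-- Field `cl`. -/
theorem plug_cl (hsym : ∀ v ∈ K, -v ∈ K) (hK : IsCompact K) (hconv : Convex ℝ K)
    (hint : (interior K).Nonempty) (ho : Own hV.til hV.hull own) {U W : Pl} {α : ℝ}
    (hKα : K ⊆ Metric.closedBall 0 α)
    (hσ1 : sm (gauge K) 6 - sm (gauge K) 5 ≤ 1)
    (H : NearP K U W (11 * (sm (gauge K) 6 - sm (gauge K) 5))) :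
    ∀ i, (plug hV.til hV.hull own T ls le kk (miss K P) (sm (gauge K) 6)
        (sm (gauge K) 6 - sm (gauge K) 5) c l0 e1).cap i -
      (plug hV.til hV.hull own T ls le kk (miss K P) (sm (gauge K) 6)
        (sm (gauge K) 6 - sm (gauge K) 5) c l0 e1).loss i ≤
      (572 * α ^ 2 + 6) * (sm (gauge K) 6 - sm (gauge K) 5) -
      (plug hV.til hV.hull own T ls le kk (miss K P) (sm (gauge K) 6)
        (sm (gauge K) 6 - sm (gauge K) 5) c l0 e1).m i := by
  intro i
  set σ : ℝ := sm (gauge K) 6 - sm (gauge K) 5 with hσ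
  have hσ0 : 0 ≤ σ := C2305bH52.Dow.sig_nonneg hsym hK hconv hint
  have h1 := cell_account hV.til hV.hull ho (A6 := sm (gauge K) 6) hσ0 i
  have hUα : cr U W ≤ α ^ 2 := by
    have hU : ‖U‖ ≤ α := by
      have h1 := hKα (H.sq 1 0 (by simp) (by simp))
      rwa [one_smul, zero_smul, add_zero, Metric.mem_closedBall, dist_zero_right] at h1
    have hW : ‖W‖ ≤ α := by
      have h1 := hKα (H.sq 0 1 (by simp) (by simp))
      rwa [one_smul, zero_smul, zero_add, Metric.mem_closedBall, dist_zero_right] at h1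
    have h2 : cr U W ≤ ‖U‖ * ‖W‖ := (le_abs_self _).trans (abs_cr_le U W)
    have h3 := mul_le_mul hU hW (norm_nonneg _) ((norm_nonneg _).trans hU)
    nlinarith
  have hv := vol_body_le H.pos H.h0 H.box
  have hv' : (volume K).toReal ≤ 4 * cr U W * (1 + 11 * σ) ^ 2 := by
    have := ENNReal.toReal_mono ENNReal.ofReal_ne_top hv
    rwa [ENNReal.toReal_ofReal (mul_nonneg (mul_nonneg (by norm_num) H.pos.le) (sq_nonneg _))]
      at this
  have hp := par_le_t6 (K := K) H.pos H.sq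
  rw [C2305bH52.Dow.t6_eq hsym hK hconv hint] at hp
  have hp' : 4 * cr U W ≤ sm (gauge K) 6 := by
    by_contra hcon
    push Not at hcon
    have h2 : 0 < 4 * cr U W := by linarith [H.pos]
    have := (ENNReal.ofReal_lt_ofReal_iff h2).2 hcon
    exact absurd hp (not_le.2 this)
  have h3 : (volume K).toReal - sm (gauge K) 6 ≤ 572 * α ^ 2 * σ := by
    have hσ2 : σ ^ 2 ≤ σ := by nlinarith
    have e : 4 * cr U W * (1 + 11 * σ) ^ 2 - 4 * cr U W =
        4 * cr U W * (22 * σ + 121 * σ ^ 2) := by ring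
    have e2 : 4 * cr U W * (22 * σ + 121 * σ ^ 2) ≤ 4 * cr U W * (143 * σ) :=
      mul_le_mul_of_nonneg_left (by linarith) (by linarith [H.pos])
    have e3 : cr U W * σ ≤ α ^ 2 * σ := mul_le_mul_of_nonneg_right hUα hσ0
    nlinarith
  show capsOf hV.til hV.hull own i - lossOf P (sm (gauge K) 6) σ i ≤
    (572 * α ^ 2 + 6) * σ - ((volume K).toReal - (volume (P i)).toReal)
  nlinarith

open Classical in
/-- Field `cap`. -/
theorem plug_cap {μ0 α : ℝ} (hKα : K ⊆ Metric.closedBall 0 α) (hT : Frame D P T)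
    (ho : Own hV.til hV.hull own) (he1 : e1 ≤ 1)
    (hnd : ∀ i, miss K P i ≤ μ0 → ¬ SpC hV T own e1 i →
      (interior (convexHull ℝ (S P i))).Nonempty) :
    ∀ i, (plug hV.til hV.hull own T ls le kk (miss K P) A6 τ c l0 e1).m i ≤ μ0 →
      ¬ (plug hV.til hV.hull own T ls le kk (miss K P) A6 τ c l0 e1).Sp i →
      (plug hV.til hV.hull own T ls le kk (miss K P) A6 τ c l0 e1).cap i ≤
      (8 * α ^ 2) * ∑ e ∈ ((plug hV.til hV.hull own T ls le kk (miss K P) A6 τ c l0 e1).E i).filter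
        (fun e => (plug hV.til hV.hull own T ls le kk (miss K P) A6 τ c l0 e1).bd e),
        (plug hV.til hV.hull own T ls le kk (miss K P) A6 τ c l0 e1).tu e := by
  intro i hm hsp
  have hn := hnd i hm hsp
  show capsOf hV.til hV.hull own i ≤ _
  unfold capsOf
  have h1 : ∑ s ∈ (hV.til.sides hV.hull).filter (fun s => own s = i),
      (volume (cap D s.1 s.2)).toReal ≤
      ∑ s ∈ (hV.til.sides hV.hull).filter (fun s => own s = i), 8 * α ^ 2 * turn T s.1 s.2 := by
    refine Finset.sum_le_sum fun s hs => ?_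
    obtain ⟨hs1, hs2⟩ := Finset.mem_filter.1 hs
    exact cap_le_turn hV hKα hT ((hV.til.mem_sides hV.hull).1 hs1)
      ((not_spC (h := hV) hsp hs1 hs2).trans he1)
  refine h1.trans ?_
  rw [Finset.mul_sum]
  refine Finset.sum_le_sum_of_subset_of_nonneg ?_ ?_
  · intro s hs
    obtain ⟨hs1, hs2⟩ := Finset.mem_filter.1 hs
    obtain ⟨h3, h4⟩ := ho s hs1
    rw [hs2] at h3 h4
    have h5 := (C2305bAF.side_edge hV.til hV.hull ((hV.til.mem_sides hV.hull).1 hs1) h3 h4 hn).1
    rw [Finset.mem_filter, plug_E hn]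
    refine ⟨(hV.til.toTL hV.hull).mem_edges.mpr h5, hs1, ?_⟩
    rw [hs2]
    exact hn
  · intro s _ _
    exact mul_nonneg (by positivity) (turn_nonneg _ _ _)

end fields

end C2305bFat
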