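import Pool.Agent.W_c2305b_h35.Far4

/-!
# Support directions at the shared boundary points and the turning of the sides

`Frame D P T`: `T p` is a support direction of `D` at `p` (the body on its left) for every shared
boundary point `p`. `turn T p q` is the turning from `T p` to `T q` along the side `(p, q)`.
-/

open MeasureTheory Set Module W82

namespace C2305bFat

open C2305b (Pl t6 HexBound)
open C2305b.TL (cr)

/-- Support directions. -/
def Frame {ι : Type*} (D : Set Pl) (P : ι → Set Pl) (T : Pl → Pl) : Prop :=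
  ∀ p ∈ Vb D P, T p ≠ 0 ∧ ∀ y ∈ D, 0 ≤ cr (T p) (y - p)

/-- Rotation. -/
noncomputable def rot (θ : ℝ) (v : Pl) : Pl :=
  !₂[Real.cos θ * v 0 - Real.sin θ * v 1, Real.sin θ * v 0 + Real.cos θ * v 1]

/-- The turning of a side. -/
noncomputable def turn (T : Pl → Pl) (p q : Pl) : ℝ :=
  InnerProductGeometry.angle (T p) (q - p) + InnerProductGeometry.angle (q - p) (T q)

lemma turn_nonneg (T : Pl → Pl) (p q : Pl) : 0 ≤ turn T p q :=
  add_nonneg (InnerProductGeometry.angle_nonneg _ _) (InnerProductGeometry.angle_nonneg _ _)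

lemma inner_eq (a b : Pl) : inner ℝ a b = dt a b := by
  rw [PiLp.inner_apply, Fin.sum_univ_two]
  unfold dt
  simp only [RCLike.inner_apply, conj_trivial]
  ring

lemma norm_sq_eq (a : Pl) : ‖a‖ * ‖a‖ = dt a a := by
  rw [dt_self_eq]; ring

lemma cos_mul {a b : Pl} :
    Real.cos (InnerProductGeometry.angle a b) * (‖a‖ * ‖b‖) = dt a b := by
  rw [InnerProductGeometry.cos_angle_mul_norm_mul_norm, inner_eq]

lemma sin_mul {a b : Pl} (h : 0 ≤ cr a b) :
    Real.sin (InnerProductGeometry.angle a b) * (‖a‖ * ‖b‖) = cr a b := by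
  rw [InnerProductGeometry.sin_angle_mul_norm_mul_norm, inner_eq, inner_eq, inner_eq]
  have e : dt a a * dt b b - dt a b * dt a b = cr a b ^ 2 := by
    unfold dt cr; ring
  rw [e, Real.sqrt_sq h]

/-- A vector on the left of `a` is a rotation of `a`. -/
lemma rot_angle {a b : Pl} (ha : a ≠ 0) (h : 0 ≤ cr a b) :
    ‖a‖ • b = ‖b‖ • rot (InnerProductGeometry.angle a b) a := by
  have hn : 0 < ‖a‖ := norm_pos_iff.2 ha
  have h1 := cos_mul (a := a) (b := b)
  have h2 := sin_mul h
  have h3 := norm_sq_eq a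
  set c := Real.cos (InnerProductGeometry.angle a b) with hc
  set s := Real.sin (InnerProductGeometry.angle a b) with hs
  unfold dt at h1 h3
  unfold cr at h2
  apply C2305b.ext2
  · show ‖a‖ * b 0 = ‖b‖ * (c * a 0 - s * a 1)
    have : ‖a‖ * (‖a‖ * b 0) = ‖a‖ * (‖b‖ * (c * a 0 - s * a 1)) := by
      linear_combination b 0 * h3 - a 0 * h1 + a 1 * h2
    exact mul_left_cancel₀ hn.ne' this
  · show ‖a‖ * b 1 = ‖b‖ * (s * a 0 + c * a 1)
    have : ‖a‖ * (‖a‖ * b 1) = ‖a‖ * (‖b‖ * (s * a 0 + c * a 1)) := by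
      linear_combination b 1 * h3 - a 0 * h2 - a 1 * h1
    exact mul_left_cancel₀ hn.ne' this

lemma rot_smul (θ c : ℝ) (v : Pl) : rot θ (c • v) = c • rot θ v := by
  apply C2305b.ext2
  · show Real.cos θ * (c * v 0) - Real.sin θ * (c * v 1) =
      c * (Real.cos θ * v 0 - Real.sin θ * v 1)
    ring
  · show Real.sin θ * (c * v 0) + Real.cos θ * (c * v 1) =
      c * (Real.sin θ * v 0 + Real.cos θ * v 1)
    ring

lemma rot_rot (θ η : ℝ) (v : Pl) : rot θ (rot η v) = rot (η + θ) v := by
  apply C2305b.ext2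
  · show Real.cos θ * (Real.cos η * v 0 - Real.sin η * v 1) -
      Real.sin θ * (Real.sin η * v 0 + Real.cos η * v 1) =
      Real.cos (η + θ) * v 0 - Real.sin (η + θ) * v 1
    rw [Real.cos_add, Real.sin_add]; ring
  · show Real.sin θ * (Real.cos η * v 0 - Real.sin η * v 1) +
      Real.cos θ * (Real.sin η * v 0 + Real.cos η * v 1) =
      Real.sin (η + θ) * v 0 + Real.cos (η + θ) * v 1
    rw [Real.cos_add, Real.sin_add]; ring

lemma Vio.int_D {ι : Type} [Fintype ι] {D K : Set Pl} {P : ι → Set Pl} (h : Vio D P K) :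
    (interior D).Nonempty := h.hull.mono (interior_mono (convexHull_min
    (fun v hv => h.til.compD.isClosed.frontier_subset hv.2) h.til.convD))

lemma Vio.vb_mem {ι : Type} [Fintype ι] {D K : Set Pl} {P : ι → Set Pl} (h : Vio D P K) {v : Pl}
    (hv : v ∈ Vb D P) : v ∈ D ∧ v ∉ interior D :=
  ⟨h.til.compD.isClosed.frontier_subset hv.2, hv.2.2⟩

/-- Frames exist. -/
theorem exists_frame {ι : Type} [Fintype ι] {D K : Set Pl} {P : ι → Set Pl} (h : Vio D P K) :
    ∃ T : Pl → Pl, Frame D P T := by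
  have hex : ∀ p : Pl, ∃ t : Pl, p ∈ Vb D P → t ≠ 0 ∧ ∀ y ∈ D, 0 ≤ cr t (y - p) := by
    intro p
    by_cases hp : p ∈ Vb D P
    · obtain ⟨α, β, hne, hsup⟩ := C2305bH52.exists_support h.til.convD h.int_D (h.vb_mem hp).2
      refine ⟨!₂[-β, α], fun _ => ⟨?_, ?_⟩⟩
      · intro h0
        apply hne
        have h1 : -β = 0 := by
          have := congrArg (fun v : Pl => v 0) h0
          exact this
        have h2 : α = 0 := by
          have := congrArg (fun v : Pl => v 1) h0
          exact this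
        exact ⟨h2, neg_eq_zero.1 h1⟩
      · intro y hy
        have h1 := hsup y hy
        have e : cr !₂[-β, α] (y - p) = -(α * (y - p) 0 + β * (y - p) 1) := by
          unfold cr
          show -β * (y - p) 1 - α * (y - p) 0 = _
          ring
        rw [e]; linarith
    · exact ⟨0, fun hp' => absurd hp' hp⟩
  choose T hT using hex
  exact ⟨T, fun p hp => hT p hp⟩

section side

variable {ι : Type} [Fintype ι] {D K : Set Pl} {P : ι → Set Pl} (h : Vio D P K)
  {T : Pl → Pl} (hT : Frame D P T) {p q : Pl} (hs : Side D P p q)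

include h hT hs

lemma cr_start : 0 ≤ cr (T p) (q - p) := (hT p hs.1).2 q (h.vb_mem hs.2.1).1

lemma cr_end : 0 ≤ cr (q - p) (T q) := by
  have h1 := (hT q hs.2.1).2 p (h.vb_mem hs.1).1
  have e : cr (T q) (p - q) = cr (q - p) (T q) := by
    unfold cr
    show T q 0 * (p 1 - q 1) - T q 1 * (p 0 - q 0) = (q 0 - p 0) * T q 1 - (q 1 - p 1) * T q 0
    ring
  rwa [e] at h1

/-- **The turning of a side**: `T q` is the direction of `T p` rotated by `turn T p q`. -/
theorem turn_rot : ‖T p‖ • T q = ‖T q‖ • rot (turn T p q) (T p) := by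
  have hw : q - p ≠ 0 := sub_ne_zero.2 hs.2.2.1
  have hn : 0 < ‖q - p‖ := norm_pos_iff.2 hw
  have h1 := rot_angle (hT p hs.1).1 (cr_start h hT hs)
  have h2 := rot_angle hw (cr_end h hT hs)
  have h3 : ‖q - p‖ • (‖T p‖ • T q) = ‖q - p‖ • (‖T q‖ • rot (turn T p q) (T p)) := by
    calc ‖q - p‖ • (‖T p‖ • T q) = ‖T p‖ • (‖q - p‖ • T q) := smul_comm _ _ _
      _ = ‖T p‖ • (‖T q‖ • rot (InnerProductGeometry.angle (q - p) (T q)) (q - p)) := by rw [h2]
      _ = ‖T q‖ • rot (InnerProductGeometry.angle (q - p) (T q)) (‖T p‖ • (q - p)) := by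
          rw [rot_smul, smul_comm]
      _ = ‖T q‖ • rot (InnerProductGeometry.angle (q - p) (T q))
          (‖q - p‖ • rot (InnerProductGeometry.angle (T p) (q - p)) (T p)) := by rw [h1]
      _ = ‖q - p‖ • (‖T q‖ • rot (turn T p q) (T p)) := by
          rw [rot_smul, rot_rot, smul_comm]; rfl
  exact smul_right_injective _ hn.ne' h3

end side

/-- Angles and slopes. -/
lemma angle_le_of_slope {a b : Pl} (ha : a ≠ 0) (hb : b ≠ 0) {δ : ℝ} (hδ : 0 ≤ δ)
    (hδ1 : δ ≤ 1) (h0 : 0 ≤ cr a b) (h1 : 0 < dt a b) (h2 : cr a b ≤ δ * dt a b) :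
    InnerProductGeometry.angle a b ≤ δ := by
  by_contra hcon
  push Not at hcon
  have hab : 0 < ‖a‖ * ‖b‖ := mul_pos (norm_pos_iff.2 ha) (norm_pos_iff.2 hb)
  set θ := InnerProductGeometry.angle a b with hθ
  have hθπ : θ ≤ Real.pi := InnerProductGeometry.angle_le_pi _ _
  have hpi := Real.pi_gt_three
  have c1 := cos_mul (a := a) (b := b)
  have s1 := sin_mul h0
  rw [← hθ] at c1 s1
  have hcos : 0 < Real.cos θ := by
    by_contra h
    push Not at h
    have := mul_nonpos_of_nonpos_of_nonneg h hab.le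
    linarith
  have hcd : 0 < Real.cos δ := Real.cos_pos_of_mem_Ioo ⟨by linarith, by linarith⟩
  have htan : δ ≤ Real.tan δ := Real.le_tan hδ (by linarith)
  have hsd : δ * Real.cos δ ≤ Real.sin δ := by
    rw [Real.tan_eq_sin_div_cos, le_div_iff₀ hcd] at htan
    exact htan
  have hst : Real.sin θ ≤ δ * Real.cos θ := by
    rw [← s1, ← c1] at h2
    have : Real.sin θ * (‖a‖ * ‖b‖) ≤ (δ * Real.cos θ) * (‖a‖ * ‖b‖) := by linarith
    exact le_of_mul_le_mul_right this hab
  have h3 : 0 < Real.sin (θ - δ) := Real.sin_pos_of_pos_of_lt_pi (by linarith) (by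
    by_contra h
    push Not at h
    have : δ = 0 := by linarith
    have h4 : θ = Real.pi := by linarith
    rw [h4, Real.cos_pi] at hcos
    linarith)
  rw [Real.sin_sub] at h3
  have h4 : Real.sin θ * Real.cos δ ≤ δ * Real.cos θ * Real.cos δ :=
    mul_le_mul_of_nonneg_right hst hcd.le
  have h5 : Real.cos θ * (δ * Real.cos δ) ≤ Real.cos θ * Real.sin δ :=
    mul_le_mul_of_nonneg_left hsd hcos.le
  linarith

/-- The sine against the cosine of a small angle. -/
lemma sin_le_cos {x : ℝ} (h0 : 0 ≤ x) (h1 : x ≤ 1) :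
    0 < Real.cos x ∧ Real.sin x ≤ 2 * x * Real.cos x := by
  have c1 : 1 / 2 ≤ Real.cos x := by
    have := Real.one_sub_sq_div_two_le_cos (x := x)
    nlinarith
  have s1 : Real.sin x ≤ x := Real.sin_le h0
  refine ⟨by linarith, ?_⟩
  nlinarith [mul_le_mul_of_nonneg_left c1 (by linarith : 0 ≤ 2 * x)]

/-- **The cap of a side is at most a constant times its turning.** -/
theorem cap_le_turn {α : ℝ} {ι : Type} [Fintype ι] {D K : Set Pl} {P : ι → Set Pl}
    (h : Vio D P K) (hKα : K ⊆ Metric.closedBall 0 α) {T : Pl → Pl} (hT : Frame D P T) {p q : Pl}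
    (hs : Side D P p q) (ht : turn T p q ≤ 1) :
    (volume (cap D p q)).toReal ≤ 8 * α ^ 2 * turn T p q := by
  have hw : q - p ≠ 0 := sub_ne_zero.2 hs.2.2.1
  have hwn : 0 < ‖q - p‖ := norm_pos_iff.2 hw
  have hww := dt_self_pos hw
  set w := q - p with hwd
  set β := InnerProductGeometry.angle (T p) w with hβ
  set γ := InnerProductGeometry.angle w (T q) with hγ
  have hturn : turn T p q = β + γ := rfl
  have hβ0 : 0 ≤ β := InnerProductGeometry.angle_nonneg _ _
  have hγ0 : 0 ≤ γ := InnerProductGeometry.angle_nonneg _ _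
  obtain ⟨cβ, sβ⟩ := sin_le_cos hβ0 (by linarith)
  obtain ⟨cγ, sγ⟩ := sin_le_cos hγ0 (by linarith)
  have hTp : 0 < ‖T p‖ := norm_pos_iff.2 (hT p hs.1).1
  have hTq : 0 < ‖T q‖ := norm_pos_iff.2 (hT q hs.2.1).1
  have c1 : Real.cos β * (‖T p‖ * ‖w‖) = dt (T p) w := cos_mul
  have s1 : Real.sin β * (‖T p‖ * ‖w‖) = cr (T p) w := sin_mul (cr_start h hT hs)
  have c2 : Real.cos γ * (‖w‖ * ‖T q‖) = dt w (T q) := cos_mul
  have s2 : Real.sin γ * (‖w‖ * ‖T q‖) = cr w (T q) := sin_mul (cr_end h hT hs)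
  have key : ∀ y ∈ cap D p q, 0 < -cr w (y - p) ∧
      -cr w (y - p) ≤ 2 * turn T p q * dt w (y - p) ∧
      -cr w (y - p) ≤ 2 * turn T p q * (dt w w - dt w (y - p)) := by
    intro y hy
    obtain ⟨hyD, hyc⟩ := hy
    have hN : 0 < -cr w (y - p) := by
      have : cr w (y - p) < 0 := hyc
      linarith
    refine ⟨hN, ?_, ?_⟩
    · have h1 := (hT p hs.1).2 y hyD
      have e : cr (T p) (y - p) * dt w w =
          dt w (y - p) * cr (T p) w - (-cr w (y - p)) * dt (T p) w := by
        unfold cr dt; ring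
      have h2 : (-cr w (y - p)) * dt (T p) w ≤ dt w (y - p) * cr (T p) w := by
        have := mul_nonneg h1 hww.le
        linarith
      rw [← c1, ← s1] at h2
      have hk : 0 < ‖T p‖ * ‖w‖ := mul_pos hTp hwn
      have h3 : (-cr w (y - p)) * Real.cos β ≤ dt w (y - p) * Real.sin β := by
        have : ((-cr w (y - p)) * Real.cos β) * (‖T p‖ * ‖w‖) ≤
            (dt w (y - p) * Real.sin β) * (‖T p‖ * ‖w‖) := by linarith
        exact le_of_mul_le_mul_right this hk
      have hsin0 : 0 ≤ Real.sin β := Real.sin_nonneg_of_nonneg_of_le_pi hβ0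
        (InnerProductGeometry.angle_le_pi _ _)
      have h4 : 0 < dt w (y - p) := by
        by_contra hcon
        push Not at hcon
        have h5 := mul_nonpos_of_nonpos_of_nonneg hcon hsin0
        have h6 := mul_pos hN cβ
        linarith
      have h5 : dt w (y - p) * Real.sin β ≤ dt w (y - p) * (2 * β * Real.cos β) :=
        mul_le_mul_of_nonneg_left sβ h4.le
      have h6 : (-cr w (y - p)) * Real.cos β ≤ (2 * β * dt w (y - p)) * Real.cos β := by
        linarith
      have h7 := le_of_mul_le_mul_right h6 cβ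
      have h8 : 2 * β * dt w (y - p) ≤ 2 * turn T p q * dt w (y - p) :=
        mul_le_mul_of_nonneg_right (by linarith) h4.le
      linarith
    · have h1 := (hT q hs.2.1).2 y hyD
      have e : cr (T q) (y - q) * dt w w =
          (dt w w - dt w (y - p)) * cr w (T q) - (-cr w (y - p)) * dt w (T q) := by
        rw [hwd]
        unfold cr dt
        simp only [PiLp.sub_apply]
        ring
      have h2 : (-cr w (y - p)) * dt w (T q) ≤ (dt w w - dt w (y - p)) * cr w (T q) := by
        have := mul_nonneg h1 hww.le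
        linarith
      rw [← c2, ← s2] at h2
      have hk : 0 < ‖w‖ * ‖T q‖ := mul_pos hwn hTq
      have h3 : (-cr w (y - p)) * Real.cos γ ≤ (dt w w - dt w (y - p)) * Real.sin γ := by
        have : ((-cr w (y - p)) * Real.cos γ) * (‖w‖ * ‖T q‖) ≤
            ((dt w w - dt w (y - p)) * Real.sin γ) * (‖w‖ * ‖T q‖) := by linarith
        exact le_of_mul_le_mul_right this hk
      have hsin0 : 0 ≤ Real.sin γ := Real.sin_nonneg_of_nonneg_of_le_pi hγ0
        (InnerProductGeometry.angle_le_pi _ _)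
      have h4 : 0 < dt w w - dt w (y - p) := by
        by_contra hcon
        push Not at hcon
        have h5 := mul_nonpos_of_nonpos_of_nonneg hcon hsin0
        have h6 := mul_pos hN cγ
        linarith
      have h5 : (dt w w - dt w (y - p)) * Real.sin γ ≤
          (dt w w - dt w (y - p)) * (2 * γ * Real.cos γ) :=
        mul_le_mul_of_nonneg_left sγ h4.le
      have h6 : (-cr w (y - p)) * Real.cos γ ≤ (2 * γ * (dt w w - dt w (y - p))) * Real.cos γ := by
        linarith
      have h7 := le_of_mul_le_mul_right h6 cγ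
      have h8 : 2 * γ * (dt w w - dt w (y - p)) ≤ 2 * turn T p q * (dt w w - dt w (y - p)) :=
        mul_le_mul_of_nonneg_right (by linarith) h4.le
      linarith
  rcases (turn_nonneg T p q).eq_or_lt with h0 | h0
  · have hemp : cap D p q = ∅ := by
      apply eq_empty_of_forall_notMem
      intro y hy
      obtain ⟨k1, k2, -⟩ := key y hy
      rw [← h0] at k2
      linarith
    rw [hemp, measure_empty, ENNReal.toReal_zero]
    positivity
  · have h1 := thin_area (by linarith : 0 < 2 * turn T p q) hw key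
    refine h1.trans ?_
    rw [dt_self_eq]
    obtain ⟨k, hk1, hk2⟩ := h.til.cap_cell hs
    have h2 : ‖w‖ ≤ 2 * α := h.cop.dist_le hKα (hk1 (right_mem_segment ℝ _ _))
      (hk1 (left_mem_segment ℝ _ _))
    have h3 : ‖w‖ ^ 2 ≤ (2 * α) ^ 2 := pow_le_pow_left₀ (norm_nonneg _) h2 2
    have h4 : ‖w‖ ^ 2 ≤ 4 * α ^ 2 := by linarith [h3, mul_pow 2 α 2]
    have := mul_le_mul_of_nonneg_left h4 (by linarith : 0 ≤ 2 * turn T p q)
    linarith

end C2305bFat
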