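import Pool.Agent.W_c2305b_h35.DatPlug

/-!
# Leans, cell by cell
-/

open MeasureTheory Set Module W82

namespace C2305bFat

open C2305b (Pl t6 HexBound)
open C2305b.TL (cr)

/-- The true cell is on the left of every edge which is not one of its own sides. -/
theorem left_of_edge {ι : Type*} [Finite ι] {D : Set Pl} {P : ι → Set Pl} (h : Tiling D P)
    (hi : (interior (convexHull ℝ (Vb D P))).Nonempty)
    {i : {i : ι // (interior (convexHull ℝ (S P i))).Nonempty}} {v w : Pl}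
    (hE : (h.toTL hi).E i v w) (hn : ¬ (Side D P v w ∧ cap D v w ⊆ P i)) :
    ∀ z ∈ P i, 0 ≤ cr (w - v) (z - v) := by
  by_cases hB : (h.toTL hi).Bd v w
  swap
  · exact true_left h hi hE hB
  obtain ⟨p, q, k, a, b, hs, hk1, hk2, hva, hwb, ha, hab, hb⟩ := C2305bAF.edge_side h hi hE hB
  have hwv : w - v = (b - a) • (q - p) := by rw [hva, hwb]; module
  have hcr : ∀ z : Pl, cr (w - v) (z - v) = (b - a) * cr (q - p) (z - p) := by
    intro z
    have e : z - v = (z - p) - a • (q - p) := by rw [hva]; module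
    rw [hwv, e, cr_smul_left', cr_sub', cr_smul_right', cr_self_zero]; ring
  have hki : k ≠ i := by
    intro hki
    apply hn
    have hkn : (interior (convexHull ℝ (S P k))).Nonempty := by rw [hki]; exact i.2
    obtain ⟨hE2, -⟩ := C2305bAF.side_edge h hi hs hk1 hk2 hkn
    have hfree := hE2.2.2.2.2
    have hop : ∀ r : ℝ, 0 < r → r < 1 → p + r • (q - p) ∈ openSegment ℝ p q := by
      intro r h0 h1
      exact ⟨1 - r, r, by linarith, h0, by ring, by module⟩
    have ha0 : a = 0 := by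
      rcases ha.lt_or_eq with h1 | h1
      · exfalso
        apply hfree v hE.1.1
        rw [hva]
        exact hop a h1 (by linarith)
      · exact h1.symm
    have hb1 : b = 1 := by
      rcases hb.lt_or_eq with h1 | h1
      · exfalso
        apply hfree w hE.2.1.1
        rw [hwb]
        exact hop b (by linarith) h1
      · exact h1
    have hv : v = p := by rw [hva, ha0, zero_smul, add_zero]
    have hw : w = q := by rw [hwb, hb1, one_smul]; abel
    rw [hv, hw]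
    exact ⟨hs, by rw [← hki]; exact hk2⟩
  intro z hz
  by_contra hcon
  push Not at hcon
  rw [hcr] at hcon
  have hneg : cr (q - p) (z - p) < 0 := by
    by_contra h0
    push Not at h0
    have := mul_nonneg (by linarith : 0 ≤ b - a) h0
    linarith
  -- interior points of `P i` near `z` are beyond the side
  have hcl : z ∈ closure (interior (P i)) := by
    rw [(h.conv i).closure_interior_eq_closure_of_nonempty_interior (h.int i)]
    exact subset_closure hz
  have hopen : IsOpen {y : Pl | cr (q - p) (y - p) < 0} := by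
    have : {y : Pl | cr (q - p) (y - p) < 0} =
        {y : Pl | C2305b.TL.crL (q - p) y < cr (q - p) p} := by
      ext y
      simp only [mem_setOf_eq]
      rw [C2305b.TL.crL_apply, C2305b.TL.cr_sub_right]
      constructor <;> intro h <;> linarith
    rw [this]
    exact isOpen_lt (C2305b.TL.crL (q - p)).continuous continuous_const
  obtain ⟨y, hy1, hy2⟩ := mem_closure_iff.1 hcl _ hopen hneg
  have hyk : y ∈ P k := hk2 ⟨h.sub i (interior_subset hy2), hy1⟩
  exact h.int_disj (Ne.symm hki) hy2 hyk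

/-- **Leans, cell by cell.** -/
theorem cell_leans {α κ l0 : ℝ} (hα : 0 < α) (hκ : 0 < κ) (hl0 : 0 < l0) : ∃ CL : ℝ, 0 < CL ∧
    ∃ c0 : ℝ, 0 < c0 ∧ ∀ (K : Set Pl) (U W : Pl) (hh : ℝ), IsCompact K → NearP K U W hh →
      K ⊆ Metric.closedBall 0 α → κ ≤ cr U W →
    ∀ (ι : Type) [Fintype ι] (D : Set Pl) (P : ι → Set Pl) (hV : Vio D P K) (T : Pl → Pl),
      Frame D P T →
    ∀ φ : ℝ, (∀ A B : Pl, A ≠ 0 → B ≠ 0 → dt A B = dt U W → cr A B = cr U W →
        C2305bAF.dr B = C2305bAF.dr A + ((φ : ℝ) : AddCircle Real.pi)) →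
    ∀ i (hnd : (interior (convexHull ℝ (S P i))).Nonempty), hh + miss K P i ≤ c0 →
      (∀ s ∈ hV.til.sides hV.hull, cap D s.1 s.2 ⊆ P i → turn T s.1 s.2 ≤ c0) →
    ∃ θ : AddCircle Real.pi, ∀ e ∈ (hV.til.toTL hV.hull).edges ⟨i, hnd⟩, l0 ≤ dist e.1 e.2 →
      ∃ k : ℤ, |k| ≤ 1 ∧ ∃ ls le : ℝ,
        ((Side D P e.1 e.2 ∧ cap D e.1 e.2 ⊆ P i) →
          ls ≤ CL * (hh + miss K P i) ∧ -(CL * (hh + miss K P i)) ≤ le ∧
          le - ls = turn T e.1 e.2 ∧
          C2305bAF.dr (T e.1) = θ + (((k : ℝ) * φ : ℝ) : AddCircle Real.pi) +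
            ((ls : ℝ) : AddCircle Real.pi) ∧
          C2305bAF.dr (T e.2) = θ + (((k : ℝ) * φ : ℝ) : AddCircle Real.pi) +
            ((le : ℝ) : AddCircle Real.pi)) ∧
        (¬ (Side D P e.1 e.2 ∧ cap D e.1 e.2 ⊆ P i) →
          le = ls ∧ |ls| ≤ CL * (hh + miss K P i) ∧
          C2305bAF.dr (e.2 - e.1) = θ + (((k : ℝ) * φ : ℝ) : AddCircle Real.pi) +
            ((ls : ℝ) : AddCircle Real.pi)) := by
  obtain ⟨C, hC, c1, hc1, HA⟩ := lean_arc hα hκ hl0
  obtain ⟨C', hC', c2, hc2, HD⟩ := lean_dart hα hκ hl0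
  refine ⟨max C C', lt_max_of_lt_left hC, min c1 c2, lt_min hc1 hc2, ?_⟩
  intro K U W hh hK H hKα hκU ι _ D P hV T hT φ hφ i hnd hhm hturn
  set TT := hV.til.toTL hV.hull with hTT
  obtain ⟨hm, o, A, B, X, hAB1, hAB2, HF⟩ := cell_frame hV hK H hKα hκU i
  have hCC : C * (hh + miss K P i) ≤ max C C' * (hh + miss K P i) :=
    mul_le_mul_of_nonneg_right (le_max_left _ _) (add_nonneg H.h0 hm)
  have hCC' : C' * (hh + miss K P i) ≤ max C C' * (hh + miss K P i) :=
    mul_le_mul_of_nonneg_right (le_max_right _ _) (add_nonneg H.h0 hm)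
  have hΔ : 0 < cr A B := by rw [hAB1]; exact H.pos
  have hA0 : A ≠ 0 := by
    rintro rfl
    have : cr (0 : Pl) B = 0 := by unfold cr; show 0 * _ - 0 * _ = _; ring
    linarith
  have hB0 : B ≠ 0 := by
    rintro rfl
    have : cr A (0 : Pl) = 0 := by unfold cr; show _ * 0 - _ * 0 = _; ring
    linarith
  have hdrAB := hφ A B hA0 hB0 hAB2 hAB1
  refine ⟨C2305bAF.dr A, fun e he hl => ?_⟩
  have hE := TT.mem_edges.mp he
  have hp1 : e.1 ∈ P i := hV.til.hull_sub i hE.1.2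
  have hp2 : e.2 ∈ P i := hV.til.hull_sub i hE.2.1.2
  have hl' : l0 ≤ ‖e.2 - e.1‖ := by rwa [dist_comm, dist_eq_norm] at hl
  by_cases hS : Side D P e.1 e.2 ∧ cap D e.1 e.2 ⊆ P i
  · obtain ⟨hside, hcap⟩ := hS
    have ht := hturn e ((hV.til.mem_sides hV.hull).2 hside) hcap
    obtain ⟨k, lp, lq, r1, r2, r3, r4, r5⟩ := HA o A B e.1 e.2 (T e.1) (T e.2) X (P i) hh
      (miss K P i) HF hΔ (hhm.trans (min_le_left _ _)) hp1 hp2 hl' (hT _ hside.1).1
      (hT _ hside.2.1).1 (fun y hy => (hT _ hside.1).2 y (hV.til.sub i hy))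
      (fun y hy => (hT _ hside.2.1).2 y (hV.til.sub i hy)) (ht.trans (min_le_left _ _))
    obtain ⟨n, hn, hdn⟩ := dr_side hdrAB k
    have hck := cA_ne hA0 hB0 k
    refine ⟨n, hn, lp, lq, fun _ => ⟨r2.trans hCC, (neg_le_neg hCC).trans r3, ?_, ?_, ?_⟩,
      fun h0 => absurd ⟨hside, hcap⟩ h0⟩
    · rw [r1]
      unfold turn
      ring
    · rw [dr_of_rot hck (hT _ hside.1).1 r4, hdn]
    · rw [dr_of_rot hck (hT _ hside.2.1).1 r5, hdn]
  · have hleft := left_of_edge hV.til hV.hull hE hS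
    obtain ⟨k, l, r1, r2⟩ := HD o A B e.1 e.2 X (P i) hh (miss K P i) HF hΔ
      (hhm.trans (min_le_right _ _)) hp1 hp2 hl' hleft
    obtain ⟨n, hn, hdn⟩ := dr_side hdrAB k
    have hck := cA_ne hA0 hB0 k
    have hw : e.2 - e.1 ≠ 0 := sub_ne_zero.2 hE.2.2.1
    refine ⟨n, hn, l, l, fun h0 => absurd h0 hS, fun _ => ⟨rfl, r1.trans hCC', ?_⟩⟩
    rw [dr_of_rot hck hw r2, hdn]

end C2305bFat
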