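import Pool.Agent.W_c2305b_h35.Twins

/-!
# Sums over the edges of a tiling

Telescoping sums around a tile, the pairing of the inner edges with their twins, and the discrete
divergence identity.
-/

namespace C2305b.TL

open Set Module

namespace Tiling

variable {ι : Type*} (T : Tiling ι)

open Classical in
/-- The directed edges of a tile. -/
noncomputable def edges (i : ι) : Finset (V × V) :=
  (T.W ×ˢ T.W).filter fun p => T.E i p.1 p.2

lemma mem_edges {i : ι} {p : V × V} : p ∈ T.edges i ↔ T.E i p.1 p.2 := by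
  classical
  unfold edges
  rw [Finset.mem_filter, Finset.mem_product]
  exact ⟨fun h => h.2, fun h => ⟨⟨h.1.1, h.2.1.1⟩, h⟩⟩

open Classical in
/-- The vertices of a tile. -/
noncomputable def verts (i : ι) : Finset V := T.W.filter fun v => v ∈ T.P i

lemma mem_verts {i : ι} {v : V} : v ∈ T.verts i ↔ v ∈ T.W ∧ v ∈ T.P i := by
  classical
  unfold verts
  rw [Finset.mem_filter]

lemma sum_edges_fst {M : Type*} [AddCommMonoid M] (i : ι) (g : V → M) :
    ∑ p ∈ T.edges i, g p.1 = ∑ v ∈ T.verts i, g v := by
  apply Finset.sum_bij (fun p _ => p.1)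
  · intro p hp
    rw [mem_verts]
    exact ((T.mem_edges).mp hp).1
  · intro p hp q hq h
    rw [T.mem_edges] at hp hq
    rw [← h] at hq
    exact Prod.ext h (T.next_unique i hq hp)
  · intro v hv
    rw [mem_verts] at hv
    obtain ⟨w, hw⟩ := T.exists_next i hv.1 hv.2
    exact ⟨(v, w), T.mem_edges.mpr hw, rfl⟩
  · intro p _
    rfl

lemma sum_edges_snd {M : Type*} [AddCommMonoid M] (i : ι) (g : V → M) :
    ∑ p ∈ T.edges i, g p.2 = ∑ v ∈ T.verts i, g v := by
  apply Finset.sum_bij (fun p _ => p.2)
  · intro p hp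
    rw [mem_verts]
    exact ((T.mem_edges).mp hp).2.1
  · intro p hp q hq h
    rw [T.mem_edges] at hp hq
    rw [← h] at hq
    exact Prod.ext (T.prev_unique i hq hp) h
  · intro v hv
    rw [mem_verts] at hv
    obtain ⟨w, hw⟩ := T.exists_prev i hv.1 hv.2
    exact ⟨(w, v), T.mem_edges.mpr hw, rfl⟩
  · intro p _
    rfl

/-- Telescoping around a tile. -/
lemma sum_edges_sub {M : Type*} [AddCommGroup M] (i : ι) (g : V → M) :
    ∑ p ∈ T.edges i, (g p.2 - g p.1) = 0 := by
  rw [Finset.sum_sub_distrib, T.sum_edges_fst, T.sum_edges_snd, sub_self]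

/-- The number of edges is the number of vertices. -/
lemma card_edges (i : ι) : (T.edges i).card = (T.verts i).card := by
  have := T.sum_edges_fst i (fun _ => (1 : ℕ))
  simpa using this

/-- A boundary edge. -/
def Bd (v w : V) : Prop := ∀ x ∈ T.R, 0 ≤ cr (w - v) (x - v)

open Classical in
/-- The boundary edges of a tile. -/
noncomputable def bdEdges (i : ι) : Finset (V × V) := (T.edges i).filter fun p => T.Bd p.1 p.2

open Classical in
/-- The inner edges of a tile. -/
noncomputable def inEdges (i : ι) : Finset (V × V) := (T.edges i).filter fun p => ¬ T.Bd p.1 p.2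

lemma sum_edges_split {M : Type*} [AddCommMonoid M] (i : ι) (φ : V × V → M) :
    ∑ p ∈ T.edges i, φ p = ∑ p ∈ T.bdEdges i, φ p + ∑ p ∈ T.inEdges i, φ p := by
  classical
  unfold bdEdges inEdges
  exact (Finset.sum_filter_add_sum_filter_not _ _ _).symm

/-- The twin pairs: `(i, j, v, w)` with the edge `v w` in the tile `i` and `w v` in `j`. -/
def Tw (i j : ι) (v w : V) : Prop := T.E i v w ∧ T.E j w v

open Classical in
/-- The common edges of two tiles, directed around the first one. -/
noncomputable def common (i j : ι) : Finset (V × V) :=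
  (T.edges i).filter fun p => T.E j p.2 p.1

lemma mem_common {i j : ι} {p : V × V} : p ∈ T.common i j ↔ T.Tw i j p.1 p.2 := by
  classical
  unfold common
  rw [Finset.mem_filter, T.mem_edges]
  rfl

lemma common_self (i : ι) : T.common i i = ∅ := by
  classical
  rw [Finset.eq_empty_iff_forall_notMem]
  intro p hp
  rw [mem_common] at hp
  obtain ⟨h1, h2⟩ := hp
  obtain ⟨o, ho⟩ := T.nonem i
  have h3 := cr_pos_of_mem_interior (sub_ne_zero.mpr h1.2.2.1) h1.2.2.2.1 ho
  have h4 := h2.2.2.2.1 o (interior_subset ho)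
  have h5 : cr (p.1 - p.2) (o - p.2) = -cr (p.2 - p.1) (o - p.1) := by simp [cr]; ring
  linarith

lemma common_swap (i j : ι) :
    T.common j i = (T.common i j).map ⟨Prod.swap, Prod.swap_injective⟩ := by
  classical
  ext p
  rw [Finset.mem_map]
  constructor
  · intro hp
    rw [mem_common] at hp
    exact ⟨p.swap, T.mem_common.mpr ⟨hp.2, hp.1⟩, Prod.swap_swap p⟩
  · rintro ⟨q, hq, rfl⟩
    rw [mem_common] at hq ⊢
    exact ⟨hq.2, hq.1⟩

lemma sum_common_swap {M : Type*} [AddCommMonoid M] (i j : ι) (φ : V × V → M) :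
    ∑ p ∈ T.common j i, φ p = ∑ p ∈ T.common i j, φ p.swap := by
  rw [common_swap, Finset.sum_map]
  rfl

/-- The inner edges of a tile are the edges shared with the other tiles. -/
lemma sum_inEdges {M : Type*} [AddCommMonoid M] [Fintype ι] (i : ι) (φ : V × V → M) :
    ∑ p ∈ T.inEdges i, φ p = ∑ j, ∑ p ∈ T.common i j, φ p := by
  classical
  have h1 : T.inEdges i = Finset.univ.biUnion fun j => T.common i j := by
    ext p
    rw [Finset.mem_biUnion]
    unfold inEdges
    rw [Finset.mem_filter, T.mem_edges]
    constructor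
    · rintro ⟨hE, hB⟩
      rcases T.boundary_or_twin hE with h | ⟨j, hj⟩
      · exact absurd h hB
      · exact ⟨j, Finset.mem_univ j, T.mem_common.mpr ⟨hE, hj⟩⟩
    · rintro ⟨j, -, hj⟩
      rw [mem_common] at hj
      exact ⟨hj.1, fun hB => T.not_twin_of_boundary hj.1 hB hj.2⟩
  rw [h1, Finset.sum_biUnion]
  intro j _ k _ hjk
  rw [Function.onFun, Finset.disjoint_left]
  intro p hp hq
  rw [mem_common] at hp hq
  exact hjk (T.edge_unique hp.2 hq.2)

/-- **Pairing of the inner edges with their twins.** -/
theorem sum_all_inEdges {M : Type*} [AddCommMonoid M] [Fintype ι] [LinearOrder ι]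
    (φ : ι → V × V → M) :
    ∑ i, ∑ p ∈ T.inEdges i, φ i p =
      ∑ i, ∑ j ∈ Finset.univ.filter (fun j => i < j), ∑ p ∈ T.common i j, (φ i p + φ j p.swap) := by
  classical
  have h1 : ∀ i, ∑ p ∈ T.inEdges i, φ i p = ∑ j, ∑ p ∈ T.common i j, φ i p :=
    fun i => T.sum_inEdges i _
  simp only [h1]
  have h2 : ∀ i, ∑ j, ∑ p ∈ T.common i j, φ i p =
      ∑ j ∈ Finset.univ.filter (fun j => i < j), ∑ p ∈ T.common i j, φ i p +
      ∑ j ∈ Finset.univ.filter (fun j => j < i), ∑ p ∈ T.common i j, φ i p := by
    intro i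
    rw [← Finset.sum_filter_add_sum_filter_not Finset.univ (fun j => i < j)]
    congr 1
    symm
    apply Finset.sum_subset_zero_on_sdiff
    · intro j hj
      rw [Finset.mem_filter] at hj ⊢
      exact ⟨hj.1, not_lt.mpr hj.2.le⟩
    · intro j hj
      rw [Finset.mem_sdiff, Finset.mem_filter, Finset.mem_filter] at hj
      have : j = i := by
        rcases lt_trichotomy i j with h | h | h
        · exact absurd h hj.1.2
        · exact h.symm
        · exact absurd ⟨Finset.mem_univ j, h⟩ hj.2
      rw [this, common_self, Finset.sum_empty]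
    · intro j _; rfl
  simp only [h2, Finset.sum_add_distrib]
  congr 1
  simp only [Finset.sum_filter]
  rw [Finset.sum_comm]
  apply Finset.sum_congr rfl
  intro i _
  apply Finset.sum_congr rfl
  intro j _
  by_cases h : i < j
  · rw [if_pos h, if_pos h, T.sum_common_swap]
  · rw [if_neg h, if_neg h]

/-- **Discrete divergence identity.** A constant vector in every tile. -/
theorem flux [Fintype ι] [LinearOrder ι] (F : ι → V) :
    ∑ i, ∑ p ∈ T.bdEdges i, cr (F i) (p.2 - p.1) +
      ∑ i, ∑ j ∈ Finset.univ.filter (fun j => i < j), ∑ p ∈ T.common i j,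
        cr (F i - F j) (p.2 - p.1) = 0 := by
  have h1 : ∀ i, ∑ p ∈ T.edges i, cr (F i) (p.2 - p.1) = 0 := by
    intro i
    have := T.sum_edges_sub i (fun v => cr (F i) v)
    simpa only [cr_sub_right] using this
  have h2 : ∑ i, (∑ p ∈ T.bdEdges i, cr (F i) (p.2 - p.1) +
      ∑ p ∈ T.inEdges i, cr (F i) (p.2 - p.1)) = 0 := by
    apply Finset.sum_eq_zero
    intro i _
    rw [← T.sum_edges_split i (fun p => cr (F i) (p.2 - p.1)), h1]
  rw [Finset.sum_add_distrib, T.sum_all_inEdges (fun i p => cr (F i) (p.2 - p.1))] at h2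
  rw [← h2]
  congr 1
  apply Finset.sum_congr rfl
  intro i _
  apply Finset.sum_congr rfl
  intro j _
  apply Finset.sum_congr rfl
  intro p _
  simp only [Prod.fst_swap, Prod.snd_swap]
  rw [cr_sub_left, show p.1 - p.2 = -(p.2 - p.1) by abel, cr_neg_right]
  ring

/-- A common edge is contained in both tiles. -/
lemma common_subset {i j : ι} {p : V × V} (hp : p ∈ T.common i j) :
    segment ℝ p.1 p.2 ⊆ T.P i ∩ T.P j := by
  rw [mem_common] at hp
  exact subset_inter ((T.conv i).segment_subset hp.1.1.2 hp.1.2.1.2)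
    ((T.conv j).segment_subset hp.2.2.1.2 hp.2.1.2)

/-- A tile is the intersection of the half-planes of its edges. -/
theorem hrep (i : ι) : T.P i = {x | ∀ v w, T.E i v w → 0 ≤ cr (w - v) (x - v)} := by
  apply Subset.antisymm
  · intro x hx v w h
    exact h.2.2.2.1 x hx
  · intro x hx
    by_contra hxP
    obtain ⟨o, ho⟩ := T.nonem i
    -- the last point of the segment from o to x in the tile
    have hcont : Continuous fun t : ℝ => o + t • (x - o) := by fun_prop
    have hK : IsCompact ({t : ℝ | o + t • (x - o) ∈ T.P i} ∩ Icc 0 1) :=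
      isCompact_Icc.inter_left ((T.comp i).isClosed.preimage hcont)
    have hne : ({t : ℝ | o + t • (x - o) ∈ T.P i} ∩ Icc 0 1).Nonempty :=
      ⟨0, by simpa using interior_subset ho, by simp⟩
    obtain ⟨t, ht, htmax⟩ := hK.exists_isGreatest hne
    have ht1 : t < 1 := by
      refine lt_of_le_of_ne ht.2.2 ?_
      rintro rfl
      apply hxP
      have := ht.1
      simpa using this
    have hnotint : o + t • (x - o) ∉ interior (T.P i) := by
      intro h0
      have h1 : ∀ᶠ s in nhds t, o + s • (x - o) ∈ interior (T.P i) :=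
        hcont.continuousAt.eventually (isOpen_interior.mem_nhds h0)
      obtain ⟨ε, hε, hball⟩ := Metric.eventually_nhds_iff.mp h1
      set s := min (t + ε / 2) 1 with hs
      have hst : t < s := lt_min (by linarith) ht1
      have hs1 : s ≤ 1 := min_le_right _ _
      have h2 : dist s t < ε := by
        rw [Real.dist_eq, abs_of_pos (by linarith)]
        have : s ≤ t + ε / 2 := min_le_left _ _
        linarith
      have h2' : o + s • (x - o) ∈ T.P i := interior_subset (hball h2)
      have h3 := htmax ⟨h2', by linarith [ht.2.1], hs1⟩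
      linarith
    have ht0 : 0 < t := by
      rcases ht.2.1.lt_or_eq with h | h
      · exact h
      · exfalso
        apply hnotint
        rw [← h]
        simpa using ho
    obtain ⟨v, w, hE, hseg⟩ := T.exists_edge i ht.1 hnotint
    have h1 := cr_pos_of_mem_interior (sub_ne_zero.mpr hE.2.2.1) hE.2.2.2.1 ho
    have h2 := hx v w hE
    have h3 : cr (w - v) (o + t • (x - o) - v) = 0 := by
      rw [segment_eq_image'] at hseg
      obtain ⟨r, _, hr⟩ := hseg
      rw [← hr]
      simp only
      rw [add_sub_cancel_left, cr_smul_right, cr_self, mul_zero]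
    have h4 : o + t • (x - o) - v = (1 - t) • (o - v) + t • (x - v) := by module
    rw [h4, cr_add_right, cr_smul_right, cr_smul_right] at h3
    have h5 : 0 < (1 - t) * cr (w - v) (o - v) := mul_pos (by linarith) h1
    have h6 : 0 ≤ t * cr (w - v) (x - v) := mul_nonneg ht0.le h2
    linarith

end Tiling

end C2305b.TL
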