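import Mathlib

/-!
# Edge structure of tilings of a plane convex set by convex polygons

`E i v w` is the relation: `w` is the next vertex after `v` on the boundary of the tile `i`,
in counterclockwise order, all vertices of the tiling on the boundary being counted.
-/

namespace C2305b.TL

open Set Module

abbrev V := EuclideanSpace ℝ (Fin 2)

/-- The cross product. -/
def cr (u v : V) : ℝ := u 0 * v 1 - u 1 * v 0

lemma cr_self (u : V) : cr u u = 0 := by unfold cr; ring
lemma cr_zero_right (u : V) : cr u 0 = 0 := by simp [cr]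
lemma cr_zero_left (u : V) : cr 0 u = 0 := by simp [cr]
lemma cr_neg_right (u v : V) : cr u (-v) = -cr u v := by simp [cr]; ring
lemma cr_neg_left (u v : V) : cr (-u) v = -cr u v := by simp [cr]; ring
lemma cr_swap (u v : V) : cr v u = -cr u v := by unfold cr; ring
lemma cr_add_right (u v w : V) : cr u (v + w) = cr u v + cr u w := by simp [cr]; ring
lemma cr_sub_right (u v w : V) : cr u (v - w) = cr u v - cr u w := by simp [cr]; ring
lemma cr_add_left (u v w : V) : cr (u + v) w = cr u w + cr v w := by simp [cr]; ring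
lemma cr_sub_left (u v w : V) : cr (u - v) w = cr u w - cr v w := by simp [cr]; ring
lemma cr_smul_right (c : ℝ) (u v : V) : cr u (c • v) = c * cr u v := by simp [cr]; ring
lemma cr_smul_left (c : ℝ) (u v : V) : cr (c • u) v = c * cr u v := by simp [cr]; ring

/-- The cross product with a fixed vector as a functional. -/
noncomputable def crL (u : V) : V →L[ℝ] ℝ :=
  (u 0) • (EuclideanSpace.proj 1 : V →L[ℝ] ℝ) - (u 1) • (EuclideanSpace.proj 0 : V →L[ℝ] ℝ)

lemma crL_apply (u v : V) : crL u v = cr u v := by simp [crL, cr]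

/-- The scalar product in coordinates. -/
def dt (u v : V) : ℝ := u 0 * v 0 + u 1 * v 1

lemma cr_mul_dt (a b c : V) : cr a b * dt c c = cr a c * dt b c - dt a c * cr b c := by
  unfold cr dt; ring

lemma dt_self_pos {u : V} (hu : u ≠ 0) : 0 < dt u u := by
  have h : ¬ (u 0 = 0 ∧ u 1 = 0) := by
    rintro ⟨h0, h1⟩
    apply hu
    ext i
    fin_cases i
    · simpa using h0
    · simpa using h1
  unfold dt
  by_cases h0 : u 0 = 0
  · have h1 : u 1 ≠ 0 := fun h1 => h ⟨h0, h1⟩
    have := mul_self_pos.mpr h1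
    nlinarith [mul_self_nonneg (u 0)]
  · have := mul_self_pos.mpr h0
    nlinarith [mul_self_nonneg (u 1)]

/-- Parallel vectors. -/
lemma exists_smul_of_cr_eq_zero {a b : V} (ha : a ≠ 0) (h : cr a b = 0) : ∃ t : ℝ, b = t • a := by
  have hp := dt_self_pos ha
  refine ⟨dt a b / dt a a, ?_⟩
  have h0 : a 0 * b 1 - a 1 * b 0 = 0 := h
  ext i
  fin_cases i
  · simp only [Fin.zero_eta, PiLp.smul_apply, smul_eq_mul]
    field_simp
    unfold dt
    linear_combination (-(a 1)) * h0
  · simp only [Fin.mk_one, PiLp.smul_apply, smul_eq_mul]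
    field_simp
    unfold dt
    linear_combination (a 0) * h0

/-- A functional vanishing on `u` is a multiple of the cross product with `u`. -/
lemma functional_eq {f : V →L[ℝ] ℝ} {u : V} (hu : u ≠ 0) (h : f u = 0) :
    ∃ l : ℝ, ∀ x, f x = l * cr u x := by
  have hp := dt_self_pos hu
  let J : V := !₂[-(u 1), u 0]
  have hJ0 : J 0 = -(u 1) := by simp [J]
  have hJ1 : J 1 = u 0 := by simp [J]
  refine ⟨f J / dt u u, fun x => ?_⟩
  have hx : x = (dt u x / dt u u) • u + (cr u x / dt u u) • J := by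
    ext i
    fin_cases i
    · simp only [Fin.zero_eta, PiLp.add_apply, PiLp.smul_apply, smul_eq_mul, hJ0]
      field_simp
      unfold dt cr
      ring
    · simp only [Fin.mk_one, PiLp.add_apply, PiLp.smul_apply, smul_eq_mul, hJ1]
      field_simp
      unfold dt cr
      ring
  conv_lhs => rw [hx]
  rw [map_add, map_smul, map_smul, h]
  simp only [smul_eq_mul, mul_zero, zero_add]
  ring

lemma crL_ne_zero {u : V} (hu : u ≠ 0) : crL u ≠ 0 := by
  intro h
  let J : V := !₂[-(u 1), u 0]
  have h1 : crL u J = 0 := by rw [h]; simp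
  rw [crL_apply] at h1
  have h2 : cr u J = dt u u := by simp [cr, dt, J]
  have := dt_self_pos hu
  linarith

/-- An interior point of a set is not on the boundary of a half-plane containing the set. -/
lemma lt_of_mem_interior {f : V →L[ℝ] ℝ} (hf : f ≠ 0) {c : ℝ} {S : Set V}
    (h : ∀ x ∈ S, f x ≤ c) {y : V} (hy : y ∈ interior S) : f y < c := by
  obtain ⟨v, hv⟩ : ∃ v, 0 < f v := by
    obtain ⟨v, hv⟩ : ∃ v, f v ≠ 0 := by
      by_contra h
      push Not at h
      exact hf (ContinuousLinearMap.ext h)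
    rcases lt_or_gt_of_ne hv with h | h
    · exact ⟨-v, by rw [map_neg]; linarith⟩
    · exact ⟨v, h⟩
  rw [mem_interior_iff_mem_nhds] at hy
  have hcont : Filter.Tendsto (fun t : ℝ => y + t • v) (nhds 0) (nhds y) := by
    have : Continuous fun t : ℝ => y + t • v := by fun_prop
    have := this.tendsto 0
    simpa using this
  have h1 := hcont hy
  rw [Filter.mem_map, Metric.mem_nhds_iff] at h1
  obtain ⟨ε, hε, hball⟩ := h1
  have h2 : y + (ε / 2) • v ∈ S := by
    apply hball
    rw [mem_ball_zero_iff, Real.norm_eq_abs, abs_of_pos (by linarith)]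
    linarith
  have h3 := h _ h2
  rw [map_add, map_smul, smul_eq_mul] at h3
  have : 0 < ε / 2 * f v := by positivity
  linarith

lemma cr_pos_of_mem_interior {u v : V} (hu : u ≠ 0) {S : Set V}
    (h : ∀ x ∈ S, 0 ≤ cr u (x - v)) {y : V} (hy : y ∈ interior S) : 0 < cr u (y - v) := by
  have h1 := lt_of_mem_interior (f := -crL u) (c := -cr u v) (S := S)
    (by intro h0; exact crL_ne_zero hu (neg_eq_zero.mp h0))
    (by
      intro x hx
      have := h x hx
      rw [cr_sub_right] at this
      simp only [ContinuousLinearMap.neg_apply, crL_apply]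
      linarith) hy
  simp only [ContinuousLinearMap.neg_apply, crL_apply] at h1
  rw [cr_sub_right]
  linarith

/-- A face of a convex hull. -/
lemma mem_convexHull_face {S : Set V} {x : V} (hx : x ∈ convexHull ℝ S) (f : V →L[ℝ] ℝ)
    (h : ∀ y ∈ S, f y ≤ f x) : x ∈ convexHull ℝ (S ∩ {y | f y = f x}) := by
  obtain ⟨ι, _, z, w, hz, -, hw, hw1, hwz⟩ := eq_pos_convex_span_of_mem_convexHull hx
  have h1 : ∑ i, w i * (f x - f (z i)) = 0 := by
    have : ∑ i, w i * f (z i) = f x := by
      conv_rhs => rw [← hwz]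
      simp
    calc ∑ i, w i * (f x - f (z i)) = (∑ i, w i) * f x - ∑ i, w i * f (z i) := by
          rw [Finset.sum_mul, ← Finset.sum_sub_distrib]
          exact Finset.sum_congr rfl fun i _ => by ring
      _ = 0 := by rw [hw1, this]; ring
  have h2 : ∀ i, f (z i) = f x := by
    intro i
    have h3 := (Finset.sum_eq_zero_iff_of_nonneg (fun i _ => mul_nonneg (hw i).le
      (sub_nonneg.mpr (h (z i) (hz (mem_range_self i)))))).mp h1 i (Finset.mem_univ i)
    rcases mul_eq_zero.mp h3 with h4 | h4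
    · exact absurd h4 (hw i).ne'
    · linarith
  have h3 := (convex_convexHull ℝ (S ∩ {y | f y = f x})).sum_mem (t := Finset.univ) (w := w)
    (z := z) (fun i _ => (hw i).le) hw1
    (fun i _ => subset_convexHull ℝ _ ⟨hz (mem_range_self i), h2 i⟩)
  rw [hwz] at h3
  exact h3

/-- A tiling of a plane convex set by convex polygons, with a finite set of vertices. -/
structure Tiling (ι : Type*) where
  R : Set V
  P : ι → Set V
  W : Finset V
  convR : Convex ℝ R
  conv : ∀ i, Convex ℝ (P i)
  comp : ∀ i, IsCompact (P i)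
  nonem : ∀ i, (interior (P i)).Nonempty
  disj : Pairwise fun i j => Disjoint (interior (P i)) (interior (P j))
  union : ⋃ i, P i = R
  hull : ∀ i, P i = convexHull ℝ ((W : Set V) ∩ P i)
  vert : ∀ i, ∀ v ∈ W, v ∉ interior (P i)

namespace Tiling

variable {ι : Type*} (T : Tiling ι)

/-- `w` is the next vertex after `v` on the boundary of the tile `i`. -/
def E (i : ι) (v w : V) : Prop :=
  (v ∈ T.W ∧ v ∈ T.P i) ∧ (w ∈ T.W ∧ w ∈ T.P i) ∧ w ≠ v ∧
    (∀ x ∈ T.P i, 0 ≤ cr (w - v) (x - v)) ∧ ∀ y ∈ T.W, y ∉ openSegment ℝ v w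

lemma cl (i : ι) : closure (interior (T.P i)) = T.P i := by
  rw [(T.conv i).closure_interior_eq_closure_of_nonempty_interior (T.nonem i),
    (T.comp i).isClosed.closure_eq]

/-- Supporting functional at a point of a tile outside its interior. -/
lemma support (i : ι) {v : V} (hv : v ∉ interior (T.P i)) :
    ∃ f : V →L[ℝ] ℝ, f ≠ 0 ∧ (∀ x ∈ T.P i, f x ≤ f v) ∧ ∀ x ∈ interior (T.P i), f x < f v := by
  obtain ⟨f, hf⟩ := geometric_hahn_banach_open_point (T.conv i).interior isOpen_interior hv
  refine ⟨f, ?_, ?_, hf⟩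
  · rintro rfl
    obtain ⟨o, ho⟩ := T.nonem i
    have := hf o ho
    simp at this
  · intro x hx
    rw [← T.cl i] at hx
    exact closure_minimal (fun y hy => (hf y hy).le)
      (isClosed_le f.continuous continuous_const) hx

/-- Separating functional of two tiles. -/
lemma sep {i j : ι} (hij : i ≠ j) : ∃ f : V →L[ℝ] ℝ, ∃ c : ℝ, f ≠ 0 ∧
    (∀ x ∈ T.P i, f x ≤ c) ∧ ∀ x ∈ T.P j, c ≤ f x := by
  obtain ⟨f, u, h1, h2⟩ := geometric_hahn_banach_open_open (T.conv i).interior isOpen_interior
    (T.conv j).interior isOpen_interior (T.disj hij)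
  refine ⟨f, u, ?_, ?_, ?_⟩
  · rintro rfl
    obtain ⟨a, ha⟩ := T.nonem i
    obtain ⟨b, hb⟩ := T.nonem j
    have h3 := h1 a ha
    have h4 := h2 b hb
    simp only [ContinuousLinearMap.zero_apply] at h3 h4
    linarith
  · intro x hx
    rw [← T.cl i] at hx
    exact closure_minimal (fun y hy => (h1 y hy).le)
      (isClosed_le f.continuous continuous_const) hx
  · intro x hx
    rw [← T.cl j] at hx
    exact closure_minimal (fun y hy => (h2 y hy).le)
      (isClosed_le continuous_const f.continuous) hx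

/-- A condition on the vertices of a tile extends to the tile. -/
lemma forall_of_vert (i : ι) {S : Set V} (hS : Convex ℝ S)
    (h : ∀ v ∈ T.W, v ∈ T.P i → v ∈ S) : ∀ x ∈ T.P i, x ∈ S := by
  intro x hx
  rw [T.hull i] at hx
  exact convexHull_min (fun y hy => h y hy.1 hy.2) hS hx

lemma convex_cr (u v : V) : Convex ℝ {x | 0 ≤ cr u (x - v)} := by
  have : {x | 0 ≤ cr u (x - v)} = {x | cr u v ≤ crL u x} := by
    ext x; rw [mem_setOf_eq, mem_setOf_eq, cr_sub_right, crL_apply]; constructor <;> intro h <;>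
      linarith
  rw [this]
  exact convex_halfSpace_ge (crL u).isLinear _

/-- Among the good vertices take the nearest one. -/
lemma exists_nearest (i : ι) {v w : V} (hv : v ∈ T.W ∧ v ∈ T.P i) (hw : w ∈ T.W ∧ w ∈ T.P i)
    (hne : w ≠ v) (hl : ∀ x ∈ T.P i, 0 ≤ cr (w - v) (x - v)) : ∃ w', T.E i v w' := by
  classical
  let G := T.W.filter fun w => w ∈ T.P i ∧ w ≠ v ∧ ∀ x ∈ T.P i, 0 ≤ cr (w - v) (x - v)
  have hG : G.Nonempty := ⟨w, by simp only [G, Finset.mem_filter]; exact ⟨hw.1, hw.2, hne, hl⟩⟩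
  obtain ⟨w', hw', hmin⟩ := Finset.exists_min_image G (fun w => dist w v) hG
  simp only [G, Finset.mem_filter] at hw'
  refine ⟨w', hv, ⟨hw'.1, hw'.2.1⟩, hw'.2.2.1, hw'.2.2.2, ?_⟩
  intro y hy hys
  rw [openSegment_eq_image'] at hys
  obtain ⟨t, ht, rfl⟩ := hys
  have hyP : v + t • (w' - v) ∈ T.P i := by
    apply (T.conv i).segment_subset hv.2 hw'.2.1
    rw [segment_eq_image']
    exact ⟨t, ⟨ht.1.le, ht.2.le⟩, rfl⟩
  have hsub : v + t • (w' - v) - v = t • (w' - v) := by abel
  have hwv : w' - v ≠ 0 := sub_ne_zero.mpr hw'.2.2.1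
  have hyG : v + t • (w' - v) ∈ G := by
    simp only [G, Finset.mem_filter]
    refine ⟨hy, hyP, ?_, ?_⟩
    · intro h
      have h1 : t • (w' - v) = 0 := by rw [← hsub, h]; simp
      rcases smul_eq_zero.mp h1 with h2 | h2
      · linarith [ht.1]
      · exact hwv h2
    · intro x hx
      rw [hsub, cr_smul_left]
      exact mul_nonneg ht.1.le (hw'.2.2.2 x hx)
  have h1 := hmin _ hyG
  rw [dist_eq_norm, dist_eq_norm, hsub, norm_smul, Real.norm_eq_abs, abs_of_pos ht.1] at h1
  have h2 : 0 < ‖w' - v‖ := norm_pos_iff.mpr hwv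
  nlinarith [ht.2]

/-- Every vertex of a tile has a next vertex. -/
lemma exists_next (i : ι) {v : V} (hv : v ∈ T.W) (hvi : v ∈ T.P i) : ∃ w, T.E i v w := by
  classical
  obtain ⟨o, ho⟩ := T.nonem i
  obtain ⟨f, hf0, hf, hfo⟩ := T.support i (T.vert i v hv)
  have hoc : f (o - v) < 0 := by rw [map_sub]; linarith [hfo o ho]
  have hov : o - v ≠ 0 := by intro h; rw [h, map_zero] at hoc; exact lt_irrefl _ hoc
  let G := T.W.filter fun w => w ∈ T.P i ∧ 0 < cr (w - v) (o - v)
  have hG : G.Nonempty := by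
    by_contra hcon
    rw [Finset.not_nonempty_iff_eq_empty] at hcon
    have h1 : ∀ x ∈ T.P i, x ∈ {x | 0 ≤ cr (o - v) (x - v)} := by
      apply T.forall_of_vert i (convex_cr _ _)
      intro w hw hwi
      rw [mem_setOf_eq, cr_swap]
      by_contra h2
      push Not at h2
      have h3 : w ∈ G := by
        simp only [G, Finset.mem_filter]
        exact ⟨hw, hwi, by linarith⟩
      rw [hcon] at h3
      simp at h3
    have h2 := cr_pos_of_mem_interior hov h1 ho
    rw [cr_self] at h2
    exact lt_irrefl _ h2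
  obtain ⟨w, hw, hmin⟩ := Finset.exists_min_image G
    (fun w => dt (w - v) (o - v) / cr (w - v) (o - v)) hG
  simp only [G, Finset.mem_filter] at hw
  apply T.exists_nearest i ⟨hv, hvi⟩ ⟨hw.1, hw.2.1⟩
  · rintro rfl
    have := hw.2.2
    rw [sub_self, cr_zero_left] at this
    exact lt_irrefl _ this
  · apply T.forall_of_vert i (convex_cr _ _)
    intro x hx hxi
    rw [mem_setOf_eq]
    rcases le_or_gt (cr (x - v) (o - v)) 0 with h1 | h1
    · -- three vectors and the supporting functional
      have hid : cr (w - v) (x - v) * f (o - v) + cr (x - v) (o - v) * f (w - v)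
          + cr (o - v) (w - v) * f (x - v) = 0 := by
        have hvec : cr (w - v) (x - v) • (o - v) + cr (x - v) (o - v) • (w - v)
            + cr (o - v) (w - v) • (x - v) = 0 := by
          ext k
          fin_cases k
          · simp [cr]; ring
          · simp [cr]; ring
        have := congrArg f hvec
        simpa using this
      have hfw : f (w - v) ≤ 0 := by rw [map_sub]; linarith [hf w hw.2.1]
      have hfx : f (x - v) ≤ 0 := by rw [map_sub]; linarith [hf x hxi]
      have h2 : 0 ≤ cr (x - v) (o - v) * f (w - v) := mul_nonneg_of_nonpos_of_nonpos h1 hfw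
      have h3 : 0 ≤ cr (o - v) (w - v) * f (x - v) := by
        apply mul_nonneg_of_nonpos_of_nonpos _ hfx
        rw [cr_swap]; linarith [hw.2.2]
      by_contra h4
      push Not at h4
      have h5 : 0 < cr (w - v) (x - v) * f (o - v) := mul_pos_of_neg_of_neg h4 hoc
      linarith
    · have h2 := hmin x (by simp only [G, Finset.mem_filter]; exact ⟨hx, hxi, h1⟩)
      rw [div_le_div_iff₀ hw.2.2 h1] at h2
      have h3 := cr_mul_dt (w - v) (x - v) (o - v)
      have h4 := dt_self_pos hov
      by_contra h5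
      push Not at h5
      have h6 : cr (w - v) (x - v) * dt (o - v) (o - v) < 0 := mul_neg_of_neg_of_pos h5 h4
      linarith

/-- Two good vertices in the same direction from `v` with free open segments are equal. -/
lemma same_dir {v w w' : V} {t : ℝ} (ht : 0 < t) (h : w' - v = t • (w - v))
    (hw : w ∈ T.W) (hw' : w' ∈ T.W) (h1 : ∀ y ∈ T.W, y ∉ openSegment ℝ v w)
    (h2 : ∀ y ∈ T.W, y ∉ openSegment ℝ v w') : w' = w := by
  rcases lt_trichotomy t 1 with h3 | h3 | h3
  · exfalso
    apply h1 w' hw'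
    rw [openSegment_eq_image']
    refine ⟨t, ⟨ht, h3⟩, ?_⟩
    simp only
    rw [← h]; abel
  · rw [h3, one_smul] at h
    exact sub_left_inj.mp h
  · exfalso
    apply h2 w hw
    rw [openSegment_eq_image']
    refine ⟨t⁻¹, ⟨inv_pos.mpr ht, inv_lt_one_of_one_lt₀ h3⟩, ?_⟩
    simp only
    rw [h, smul_smul, inv_mul_cancel₀ ht.ne', one_smul]; abel

lemma next_unique (i : ι) {v w w' : V} (h : T.E i v w) (h' : T.E i v w') : w' = w := by
  obtain ⟨hv, hw, hne, hl, ho⟩ := h
  obtain ⟨_, hw', hne', hl', ho'⟩ := h'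
  have ha : w - v ≠ 0 := sub_ne_zero.mpr hne
  have h1 := hl w' hw'.2
  have h2 := hl' w hw.2
  rw [cr_swap] at h2
  obtain ⟨t, ht⟩ := exists_smul_of_cr_eq_zero ha (by linarith : cr (w - v) (w' - v) = 0)
  have ht0 : t ≠ 0 := by
    rintro rfl
    rw [zero_smul] at ht
    exact hne' (sub_eq_zero.mp ht)
  rcases lt_or_gt_of_ne ht0 with h3 | h3
  · exfalso
    obtain ⟨o, ho⟩ := T.nonem i
    have h4 := cr_pos_of_mem_interior ha hl ho
    have h5 := hl' o (interior_subset ho)
    rw [ht, cr_smul_left] at h5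
    nlinarith
  · exact T.same_dir h3 ht hw.1 hw'.1 ho ho'

lemma prev_unique (i : ι) {v v' w : V} (h : T.E i v w) (h' : T.E i v' w) : v' = v := by
  obtain ⟨hv, hw, hne, hl, ho⟩ := h
  obtain ⟨hv', _, hne', hl', ho'⟩ := h'
  have ha : v - w ≠ 0 := sub_ne_zero.mpr hne.symm
  have e1 : ∀ x, cr (w - v) (x - v) = -cr (v - w) (x - w) := by
    intro x; simp [cr]; ring
  have e2 : ∀ x, cr (w - v') (x - v') = -cr (v' - w) (x - w) := by
    intro x; simp [cr]; ring
  have h1 := hl v' hv'.2
  have h2 := hl' v hv.2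
  rw [e1] at h1
  rw [e2, cr_swap] at h2
  obtain ⟨t, ht⟩ := exists_smul_of_cr_eq_zero ha (by linarith : cr (v - w) (v' - w) = 0)
  have ht0 : t ≠ 0 := by
    rintro rfl
    rw [zero_smul] at ht
    exact hne' (sub_eq_zero.mp ht).symm
  rcases lt_or_gt_of_ne ht0 with h3 | h3
  · exfalso
    obtain ⟨o, ho⟩ := T.nonem i
    have h4 := cr_pos_of_mem_interior (sub_ne_zero.mpr hne) hl ho
    have h5 := hl' o (interior_subset ho)
    rw [e1] at h4
    rw [e2, ht, cr_smul_left] at h5
    nlinarith
  · refine T.same_dir h3 ht hv.1 hv'.1 ?_ ?_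
    · intro y hy; rw [openSegment_symm]; exact ho y hy
    · intro y hy; rw [openSegment_symm]; exact ho' y hy

/-- Every vertex of a tile has a previous vertex. -/
lemma exists_prev (i : ι) {w : V} (hw : w ∈ T.W) (hwi : w ∈ T.P i) : ∃ v, T.E i v w := by
  classical
  let S := {v : V // v ∈ T.W ∧ v ∈ T.P i}
  haveI : Finite S := Finite.of_injective (fun s : S => (⟨s.1, s.2.1⟩ : {v // v ∈ T.W}))
    (fun a b h => Subtype.ext (congrArg (fun z : {v // v ∈ T.W} => z.1) h))
  choose nx hnx using fun s : S => T.exists_next i s.2.1 s.2.2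
  let F : S → S := fun s => ⟨nx s, (hnx s).2.1⟩
  have hinj : Function.Injective F := by
    intro a b hab
    have h1 : nx a = nx b := congrArg Subtype.val hab
    have h2 := hnx a
    rw [h1] at h2
    exact Subtype.ext (T.prev_unique i (hnx b) h2)
  obtain ⟨s, hs⟩ := (Finite.injective_iff_surjective.mp hinj) ⟨w, hw, hwi⟩
  refine ⟨s.1, ?_⟩
  have h3 : nx s = w := congrArg Subtype.val hs
  rw [← h3]
  exact hnx s

end Tiling

end C2305b.TL
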