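import Pool.Agent.W_c2305b_h35.Area

/-!
# Counting edges by disjoint triangles; common edges of two tiles

Triangles over different edges, seen from points of the tiles, overlap in null sets; two tiles
have at most one common edge when the vertices of the tiling are corners or boundary points.
-/

namespace C2305b.TL

open Set Module MeasureTheory

namespace Tiling

variable {ι : Type*} (T : Tiling ι)

/-- Two tiles overlap in a null set. -/
lemma tile_inter_null {i j : ι} (hij : i ≠ j) : volume (T.P i ∩ T.P j) = 0 := by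
  obtain ⟨f, c, hf, h1, h2⟩ := T.sep hij
  refine measure_mono_null ?_ (volume_line hf c)
  rintro x ⟨hx, hy⟩
  rw [mem_setOf_eq]
  exact le_antisymm (h1 x hx) (h2 x hy)

lemma cone_subset {i : ι} {o : V} (ho : o ∈ T.P i) {p : V × V} (hp : p ∈ T.edges i) :
    cone o p ⊆ T.P i := by
  rw [T.mem_edges] at hp
  apply convexHull_min ?_ (T.conv i)
  rintro y (rfl | rfl | rfl)
  · exact ho
  · exact hp.1.2
  · exact hp.2.1.2

lemma cone_measurable (o : V) (p : V × V) : MeasurableSet (cone o p) := by
  have : IsClosed (cone o p) := ((Set.toFinite _).isCompact_convexHull ℝ).isClosed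
  exact this.measurableSet

/-- A point of an edge strictly between two points of the tile: these are on the edge line. -/
lemma cr_eq_zero_of_between {i : ι} {v w y a b : V} (h : T.E i v w) (hy : y ∈ segment ℝ v w)
    (ha : a ∈ T.P i) (hb : b ∈ T.P i) (hyo : y ∈ openSegment ℝ a b) :
    cr (w - v) (a - v) = 0 := by
  have h1 := h.2.2.2.1 a ha
  have h2 := h.2.2.2.1 b hb
  have h3 : cr (w - v) (y - v) = 0 := by
    rw [segment_eq_image'] at hy
    obtain ⟨s, _, hs⟩ := hy
    rw [← hs]
    simp only
    rw [add_sub_cancel_left, cr_smul_right, cr_self, mul_zero]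
  obtain ⟨α, β, hα, hβ, hαβ, hcomb⟩ := hyo
  have h4 : α * cr (w - v) (a - v) + β * cr (w - v) (b - v) = 0 := by
    rw [← h3, ← hcomb, ← cr_smul_right, ← cr_smul_right, ← cr_add_right]
    congr 1
    have : v = (α + β) • v := by rw [hαβ, one_smul]
    conv_rhs => rw [this]
    module
  have h5 := mul_nonneg hα.le h1
  have h6 := mul_nonneg hβ.le h2
  have h7 : α * cr (w - v) (a - v) = 0 := by linarith
  rcases mul_eq_zero.mp h7 with h8 | h8
  · linarith
  · exact h8

/-- Triangles over different edges, seen from a point of the tile, overlap in a null set. -/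
lemma cone_inter_null' {i : ι} {o : V} (ho : o ∈ T.P i) {p q : V × V}
    (hp : p ∈ T.edges i) (hq : q ∈ T.edges i) (hpq : p ≠ q)
    (hp0 : cr (p.1 - o) (p.2 - o) ≠ 0) (hq0 : cr (q.1 - o) (q.2 - o) ≠ 0) :
    volume (cone o p ∩ cone o q) = 0 := by
  rw [T.mem_edges] at hp hq
  have hv : p.1 - o ≠ 0 := by
    intro h0; apply hp0; rw [h0, cr_zero_left]
  have hw : p.2 - o ≠ 0 := by
    intro h0; apply hp0; rw [h0, cr_zero_right]
  have h1 := volume_line (crL_ne_zero hv) (cr (p.1 - o) o)
  have h2 := volume_line (crL_ne_zero hw) (cr (p.2 - o) o)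
  refine measure_mono_null ?_ (measure_union_null h1 h2)
  rintro x ⟨hx1, hx2⟩
  obtain ⟨y, hy, s, hs, hxs⟩ := exists_segment_of_mem_triangle hx1
  obtain ⟨y', hy', s', hs', hxs'⟩ := exists_segment_of_mem_triangle hx2
  have hline : ∀ (u : V) (r : ℝ), x = o + r • u → crL u x = cr u o := by
    intro u r h
    rw [crL_apply, h, cr_add_right, cr_smul_right, cr_self, mul_zero, add_zero]
  by_cases hxo : x = o
  · left
    rw [mem_setOf_eq, crL_apply, hxo]
  have hs0 : s ≠ 0 := by
    rintro rfl
    rw [zero_smul, add_zero] at hxs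
    exact hxo hxs
  have hs0' : s' ≠ 0 := by
    rintro rfl
    rw [zero_smul, add_zero] at hxs'
    exact hxo hxs'
  have hspos : 0 < s := lt_of_le_of_ne hs.1 hs0.symm
  have hspos' : 0 < s' := lt_of_le_of_ne hs'.1 hs0'.symm
  have hyP : y ∈ T.P i := (T.conv i).segment_subset hp.1.2 hp.2.1.2 hy
  have hyP' : y' ∈ T.P i := (T.conv i).segment_subset hq.1.2 hq.2.1.2 hy'
  have heq : s • (y - o) = s' • (y' - o) := by
    have := hxs.symm.trans hxs'
    exact add_left_cancel this
  have hcr : ∀ v w : V, cr (v - o) (w - o) = cr (w - v) (o - v) := by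
    intro v w; simp [cr]; ring
  have hyy : y = y' := by
    rcases lt_trichotomy s s' with h | h | h
    · exfalso
      apply hq0
      rw [hcr]
      apply T.cr_eq_zero_of_between hq hy' ho hyP
      rw [openSegment_eq_image']
      refine ⟨s / s', ⟨div_pos hspos hspos', by rw [div_lt_one hspos']; exact h⟩, ?_⟩
      simp only
      rw [div_eq_inv_mul, mul_smul, heq, smul_smul, inv_mul_cancel₀ hs0', one_smul]
      abel
    · rw [h] at heq
      have h3 := smul_right_injective V hs0' heq
      exact sub_left_inj.mp h3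
    · exfalso
      apply hp0
      rw [hcr]
      apply T.cr_eq_zero_of_between hp hy ho hyP'
      rw [openSegment_eq_image']
      refine ⟨s' / s, ⟨div_pos hspos' hspos, by rw [div_lt_one hspos]; exact h⟩, ?_⟩
      simp only
      rw [div_eq_inv_mul, mul_smul, ← heq, smul_smul, inv_mul_cancel₀ hs0, one_smul]
      abel
  by_cases hyv : y = p.1
  · left
    exact hline (p.1 - o) s (by rw [← hyv]; exact hxs)
  by_cases hyw : y = p.2
  · right
    exact hline (p.2 - o) s (by rw [← hyw]; exact hxs)
  · exfalso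
    have hopen : y ∈ openSegment ℝ p.1 p.2 :=
      mem_openSegment_of_ne_left_right (Ne.symm hyv) (Ne.symm hyw) hy
    obtain ⟨e1, e2⟩ := T.edge_eq_of_mem hp hq hopen (hyy ▸ hy')
    exact hpq (Prod.ext e1.symm e2.symm)

/-- **Counting.** Edges whose triangles, seen from points of the tiles, have area at least `a₀`
and lie in a set `B`. -/
theorem card_mul_le (o : ι → V) (S : Finset (ι × (V × V))) (a₀ : ℝ) (ha : 0 < a₀) (B : Set V)
    (hB : volume B ≠ ⊤) (hS : ∀ s ∈ S, s.2 ∈ T.edges s.1 ∧ o s.1 ∈ T.P s.1 ∧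
      a₀ ≤ (volume (cone (o s.1) s.2)).toReal ∧ cone (o s.1) s.2 ⊆ B) :
    S.card * a₀ ≤ (volume B).toReal := by
  classical
  have hcr0 : ∀ s ∈ S, cr (s.2.1 - o s.1) (s.2.2 - o s.1) ≠ 0 := by
    intro s hs h0
    have h1 := (hS s hs).2.2.1
    unfold cone at h1
    rw [volume_triangle, h0, abs_zero, zero_div] at h1
    linarith
  have hdis : (↑S : Set (ι × (V × V))).Pairwise
      (Function.onFun (AEDisjoint volume) (fun s => cone (o s.1) s.2)) := by
    intro s hs t ht hst
    rw [Function.onFun, AEDisjoint]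
    have hs' := hS s hs
    have ht' := hS t ht
    by_cases hij : s.1 = t.1
    · have hne : s.2 ≠ t.2 := fun h => hst (Prod.ext hij h)
      have ht1 : t.2 ∈ T.edges s.1 := by rw [hij]; exact ht'.1
      have h0 : cr (t.2.1 - o s.1) (t.2.2 - o s.1) ≠ 0 := by rw [hij]; exact hcr0 t ht
      have := T.cone_inter_null' hs'.2.1 hs'.1 ht1 hne (hcr0 s hs) h0
      rw [← hij]
      exact this
    · refine measure_mono_null ?_ (T.tile_inter_null hij)
      exact inter_subset_inter (T.cone_subset hs'.2.1 hs'.1) (T.cone_subset ht'.2.1 ht'.1)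
  have h1 : volume (⋃ s ∈ S, cone (o s.1) s.2) = ∑ s ∈ S, volume (cone (o s.1) s.2) :=
    measure_biUnion_finset₀ hdis fun s _ => (cone_measurable _ _).nullMeasurableSet
  have h2 : volume (⋃ s ∈ S, cone (o s.1) s.2) ≤ volume B :=
    measure_mono (iUnion₂_subset fun s hs => (hS s hs).2.2.2)
  rw [h1] at h2
  have h3 := ENNReal.toReal_mono hB h2
  rw [ENNReal.toReal_sum (fun s _ => by unfold cone; exact volume_triangle_ne_top _ _ _)] at h3
  calc (S.card : ℝ) * a₀ = ∑ s ∈ S, a₀ := by rw [Finset.sum_const, nsmul_eq_mul]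
    _ ≤ ∑ s ∈ S, (volume (cone (o s.1) s.2)).toReal :=
        Finset.sum_le_sum fun s hs => (hS s hs).2.2.1
    _ ≤ _ := h3

/-- An open set meeting a tile meets its interior. -/
lemma open_meets_interior {i : ι} {U : Set V} (hU : IsOpen U) {x : V} (hx : x ∈ U)
    (hxi : x ∈ T.P i) : (U ∩ interior (T.P i)).Nonempty := by
  rw [← T.cl i] at hxi
  exact mem_closure_iff.mp hxi U hU hx

/-- The interior of a tile is disjoint from the other tiles. -/
lemma interior_disjoint_tile {i j : ι} (hij : i ≠ j) {x : V} (hx : x ∈ interior (T.P i)) :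
    x ∉ T.P j := by
  intro hxj
  obtain ⟨y, hy1, hy2⟩ := T.open_meets_interior isOpen_interior hx hxj
  exact Set.disjoint_left.mp (T.disj hij) hy1 hy2

/-- A point between two points of a common segment of two tiles is interior to their union. -/
lemma mem_interior_union {i j : ι} (hij : i ≠ j) {a b x : V} (hai : a ∈ T.P i)
    (haj : a ∈ T.P j) (hbi : b ∈ T.P i) (hbj : b ∈ T.P j) (hx : x ∈ openSegment ℝ a b)
    (hab : a ≠ b) : x ∈ interior (T.P i ∪ T.P j) := by
  classical
  obtain ⟨oi, hoi⟩ := T.nonem i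
  obtain ⟨oj, hoj⟩ := T.nonem j
  obtain ⟨f, c, hf0, hf1, hf2⟩ := T.sep hij
  have hfa : f a = c := le_antisymm (hf1 a hai) (hf2 a haj)
  have hfb : f b = c := le_antisymm (hf1 b hbi) (hf2 b hbj)
  have hba : b - a ≠ 0 := sub_ne_zero.mpr (Ne.symm hab)
  obtain ⟨l, hfl⟩ := functional_eq hba (f := f) (by rw [map_sub, hfa, hfb, sub_self])
  have hfoi : f oi < c := lt_of_mem_interior hf0 hf1 hoi
  have hfoj : c < f oj := by
    have := lt_of_mem_interior (f := -f) (c := -c) (neg_ne_zero.mpr hf0)
      (fun z hz => by simpa using hf2 z hz) hoj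
    simp only [ContinuousLinearMap.neg_apply] at this
    linarith
  -- barycentric coordinates with respect to a, b, o
  have key : ∀ o : V, f o ≠ c → ∀ᶠ z in nhds x, ((f z - c) / (f o - c) ≥ 0 →
      z ∈ convexHull ℝ ({a, b, o} : Set V)) := by
    intro o hoc
    have hoc' : f o - c ≠ 0 := sub_ne_zero.mpr hoc
    -- z = o-coordinate γ, and the remaining part on the line ab
    have hcoord : ∀ z : V, ∃ γ β : ℝ, γ = (f z - c) / (f o - c) ∧
        z = (1 - γ - β) • a + β • b + γ • o ∧
        β = dt (b - a) (z - a - γ • (o - a)) / dt (b - a) (b - a) := by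
      intro z
      set γ := (f z - c) / (f o - c) with hγ
      have h1 : f (z - a - γ • (o - a)) = 0 := by
        rw [map_sub, map_sub, map_smul, map_sub, hfa, smul_eq_mul, hγ]
        field_simp
        ring
      have hl0 : l ≠ 0 := by
        rintro rfl
        apply hf0
        ext y; rw [hfl]; simp
      have h2 : cr (b - a) (z - a - γ • (o - a)) = 0 := by
        rw [hfl] at h1
        rcases mul_eq_zero.mp h1 with h | h
        · exact absurd h hl0
        · exact h
      obtain ⟨β, hβ⟩ := exists_smul_of_cr_eq_zero hba h2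
      refine ⟨γ, β, rfl, ?_, ?_⟩
      · have h3 : z = a + γ • (o - a) + β • (b - a) := by rw [← hβ]; abel
        rw [h3]; module
      · rw [hβ]
        have h4 : dt (b - a) (β • (b - a)) = β * dt (b - a) (b - a) := by
          simp [dt]; ring
        rw [h4, mul_div_cancel_right₀ _ (dt_self_pos hba).ne']
    -- continuity of the coordinates
    let G : V → ℝ := fun z => (f z - c) / (f o - c)
    let H : V → ℝ := fun z => dt (b - a) (z - a - (G z) • (o - a)) / dt (b - a) (b - a)
    have hG : Continuous G := by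
      have := f.continuous
      exact (this.sub continuous_const).div_const _
    have hH : Continuous H := by
      have h5 : Continuous fun z : V => z - a - (G z) • (o - a) := by fun_prop
      have h6 : Continuous fun z : V => dt (b - a) z := by
        unfold dt
        fun_prop
      exact (h6.comp h5).div_const _
    obtain ⟨s, hs, hxs⟩ : ∃ s ∈ Ioo (0:ℝ) 1, x = a + s • (b - a) := by
      rw [openSegment_eq_image'] at hx
      obtain ⟨s, hs, h1⟩ := hx
      exact ⟨s, hs, h1.symm⟩
    have hGx : G x = 0 := by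
      have : f x = c := by rw [hxs, map_add, map_smul, map_sub, hfa, hfb]; simp
      simp [G, this]
    have hHx : H x = s := by
      simp only [H, hGx, zero_smul, sub_zero]
      have : x - a = s • (b - a) := by rw [hxs]; abel
      rw [this]
      have h4 : dt (b - a) (s • (b - a)) = s * dt (b - a) (b - a) := by
        simp [dt]; ring
      rw [h4, mul_div_cancel_right₀ _ (dt_self_pos hba).ne']
    have e1 : ∀ᶠ z in nhds x, 0 < H z :=
      hH.continuousAt.eventually (lt_mem_nhds (by rw [hHx]; exact hs.1))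
    have e2 : ∀ᶠ z in nhds x, H z + G z < 1 :=
      (hH.add hG).continuousAt.eventually (gt_mem_nhds (by
        simp only [Pi.add_apply, hHx, hGx, add_zero]; exact hs.2))
    filter_upwards [e1, e2] with z h1 h2 h3
    obtain ⟨γ, β, hγ, hz, hβ⟩ := hcoord z
    have hγG : γ = G z := hγ
    have hβH : β = H z := by rw [hβ, hγG]
    have ha : a ∈ convexHull ℝ ({a, b, o} : Set V) := subset_convexHull ℝ _ (by simp)
    have hb : b ∈ convexHull ℝ ({a, b, o} : Set V) := subset_convexHull ℝ _ (by simp)
    have ho : o ∈ convexHull ℝ ({a, b, o} : Set V) := subset_convexHull ℝ _ (by simp)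
    have h4 := (convex_convexHull ℝ ({a, b, o} : Set V)).sum_mem (t := Finset.univ)
      (w := ![1 - γ - β, β, γ]) (z := ![a, b, o]) (by
        intro k _
        fin_cases k
        · simp; rw [hγG, hβH]; linarith
        · simp; rw [hβH]; exact h1.le
        · simp; rw [hγG]; exact h3) (by simp [Fin.sum_univ_three]) (by
        intro k _
        fin_cases k
        · simpa using ha
        · simpa using hb
        · simpa using ho)
    rw [Fin.sum_univ_three] at h4
    simp only [Matrix.cons_val_zero, Matrix.cons_val_one, Matrix.cons_val] at h4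
    rw [← hz] at h4
    exact h4
  rw [mem_interior_iff_mem_nhds]
  filter_upwards [key oi (by linarith), key oj (by linarith)] with z hz1 hz2
  rcases le_total (f z) c with h | h
  · left
    have h1 : z ∈ convexHull ℝ ({a, b, oi} : Set V) := hz1 (by
      rw [ge_iff_le, div_nonneg_iff]; right; constructor <;> linarith)
    apply convexHull_min ?_ (T.conv i) h1
    rintro y (rfl | rfl | rfl)
    · exact hai
    · exact hbi
    · exact interior_subset hoi
  · right
    have h1 : z ∈ convexHull ℝ ({a, b, oj} : Set V) := hz2 (by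
      rw [ge_iff_le, div_nonneg_iff]; left; constructor <;> linarith)
    apply convexHull_min ?_ (T.conv j) h1
    rintro y (rfl | rfl | rfl)
    · exact haj
    · exact hbj
    · exact interior_subset hoj

/-- The vertices of the tiling are corners of tiles or not interior to the tiled set. -/
def Sharp : Prop := ∀ w ∈ T.W, w ∉ interior T.R ∨ ∃ k, w ∈ (T.P k).extremePoints ℝ

/-- In a sharp tiling no vertex is between two points of the common part of two tiles. -/
lemma not_between (hW : T.Sharp) {i j : ι} (hij : i ≠ j) {a b x : V} (hai : a ∈ T.P i)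
    (haj : a ∈ T.P j) (hbi : b ∈ T.P i) (hbj : b ∈ T.P j) (hx : x ∈ openSegment ℝ a b)
    (hab : a ≠ b) : x ∉ T.W := by
  intro hxW
  have hint := T.mem_interior_union hij hai haj hbi hbj hx hab
  rcases hW x hxW with h | ⟨k, hk⟩
  · apply h
    apply interior_mono _ hint
    rw [← T.union]
    exact union_subset (subset_iUnion _ i) (subset_iUnion _ j)
  · by_cases hki : k = i
    · subst hki
      have h1 := hk.2 hai hbi hx
      rw [← h1] at hx
      exact hab (left_mem_openSegment_iff.mp hx)
    by_cases hkj : k = j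
    · subst hkj
      have h1 := hk.2 haj hbj hx
      rw [← h1] at hx
      exact hab (left_mem_openSegment_iff.mp hx)
    obtain ⟨y, hy1, hy2⟩ := T.open_meets_interior isOpen_interior hint hk.1
    rcases interior_subset hy1 with h | h
    · exact T.interior_disjoint_tile hki hy2 h
    · exact T.interior_disjoint_tile hkj hy2 h

/-- Two common points of two tiles give a common edge over every point between them. -/
lemma exists_common (hW : T.Sharp) {i j : ι} (hij : i ≠ j) {a b x : V} (hai : a ∈ T.P i)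
    (haj : a ∈ T.P j) (hbi : b ∈ T.P i) (hbj : b ∈ T.P j) (hx : x ∈ openSegment ℝ a b)
    (hab : a ≠ b) : ∃ d ∈ T.common i j, x ∈ openSegment ℝ d.1 d.2 := by
  have hxW := T.not_between hW hij hai haj hbi hbj hx hab
  have hxi : x ∈ T.P i := (T.conv i).segment_subset hai hbi (openSegment_subset_segment ℝ a b hx)
  have hxj : x ∈ T.P j := (T.conv j).segment_subset haj hbj (openSegment_subset_segment ℝ a b hx)
  have hnot : x ∉ interior (T.P i) := fun h => T.interior_disjoint_tile hij h hxj
  obtain ⟨v, w, hE, hseg⟩ := T.exists_edge i hxi hnot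
  have hopen : x ∈ openSegment ℝ v w :=
    mem_openSegment_of_ne_left_right (fun h => hxW (h ▸ hE.1.1)) (fun h => hxW (h ▸ hE.2.1.1))
      hseg
  exact ⟨(v, w), T.mem_common.mpr ⟨hE, T.twin_of_mem hij hE hopen hxj⟩, hopen⟩

/-- **Common edges.** In a sharp tiling two tiles have at most one common edge. -/
theorem common_unique (hW : T.Sharp) {i j : ι} (hij : i ≠ j) {d e : V × V}
    (hd : d ∈ T.common i j) (he : e ∈ T.common i j) : d = e := by
  have hd' := hd
  have he' := he
  rw [T.mem_common] at hd' he'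
  obtain ⟨hd1, hd2⟩ := hd'
  obtain ⟨he1, he2⟩ := he'
  -- a midpoint of `d`, and the segment from `d.1` to an end of `e`
  have hmid : ∀ p : V × V, (1/2 : ℝ) • p.1 + (1/2 : ℝ) • p.2 ∈ openSegment ℝ p.1 p.2 :=
    fun p => ⟨1/2, 1/2, by norm_num, by norm_num, by norm_num, rfl⟩
  set md := (1/2 : ℝ) • d.1 + (1/2 : ℝ) • d.2 with hmd
  set me := (1/2 : ℝ) • e.1 + (1/2 : ℝ) • e.2 with hme
  have hmdo := hmid d
  have hmeo := hmid e
  -- e.1 and e.2 on the line of d
  obtain ⟨f, c, hf0, hf1, hf2⟩ := T.sep hij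
  have hfc : ∀ z, z ∈ T.P i → z ∈ T.P j → f z = c := fun z h1 h2 =>
    le_antisymm (hf1 z h1) (hf2 z h2)
  have hdd : d.2 - d.1 ≠ 0 := sub_ne_zero.mpr hd1.2.2.1
  obtain ⟨l, hfl⟩ := functional_eq hdd (f := f) (by
    rw [map_sub, hfc _ hd1.2.1.2 hd2.1.2, hfc _ hd1.1.2 hd2.2.1.2, sub_self])
  have hl0 : l ≠ 0 := by
    rintro rfl
    apply hf0
    ext y; rw [hfl]; simp
  have hpar : ∀ z, z ∈ T.P i → z ∈ T.P j → ∃ t : ℝ, z = d.1 + t • (d.2 - d.1) := by
    intro z h1 h2
    have h3 : f (z - d.1) = 0 := by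
      rw [map_sub, hfc z h1 h2, hfc _ hd1.1.2 hd2.2.1.2, sub_self]
    rw [hfl] at h3
    have h4 : cr (d.2 - d.1) (z - d.1) = 0 := by
      rcases mul_eq_zero.mp h3 with h | h
      · exact absurd h hl0
      · exact h
    obtain ⟨t, ht⟩ := exists_smul_of_cr_eq_zero hdd h4
    exact ⟨t, by rw [← ht]; abel⟩
  obtain ⟨α, hα⟩ := hpar e.1 he1.1.2 he2.2.1.2
  obtain ⟨β, hβ⟩ := hpar e.2 he1.2.1.2 he2.1.2
  have hαβ : α ≠ β := by
    rintro rfl
    exact he1.2.2.1 (by rw [hα, hβ])
  -- a vertex of W strictly between two common points is impossible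
  have hbet : ∀ s t u : ℝ, s < t → t < u → d.1 + s • (d.2 - d.1) ∈ T.P i →
      d.1 + s • (d.2 - d.1) ∈ T.P j → d.1 + u • (d.2 - d.1) ∈ T.P i →
      d.1 + u • (d.2 - d.1) ∈ T.P j → d.1 + t • (d.2 - d.1) ∉ T.W := by
    intro s t u hst htu h1 h2 h3 h4
    apply T.not_between hW hij h1 h2 h3 h4
    · rw [openSegment_eq_image']
      refine ⟨(t - s) / (u - s), ⟨div_pos (by linarith) (by linarith),
        by rw [div_lt_one (by linarith)]; linarith⟩, ?_⟩
      simp only
      have h5 : d.1 + u • (d.2 - d.1) - (d.1 + s • (d.2 - d.1)) = (u - s) • (d.2 - d.1) := by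
        module
      have h6 : (t - s) / (u - s) * (u - s) = t - s := by
        have : u - s ≠ 0 := by linarith
        field_simp
      rw [h5, smul_smul, h6]
      module
    · intro h0
      have h5 : (u - s) • (d.2 - d.1) = 0 := by
        have : (u - s) • (d.2 - d.1) =
          (d.1 + u • (d.2 - d.1)) - (d.1 + s • (d.2 - d.1)) := by module
        rw [this, h0, sub_self]
      rcases smul_eq_zero.mp h5 with h6 | h6
      · linarith
      · exact hdd h6
  have d1i : d.1 + (0:ℝ) • (d.2 - d.1) ∈ T.P i := by simpa using hd1.1.2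
  have d1j : d.1 + (0:ℝ) • (d.2 - d.1) ∈ T.P j := by simpa using hd2.2.1.2
  have d2i : d.1 + (1:ℝ) • (d.2 - d.1) ∈ T.P i := by simpa using hd1.2.1.2
  have d2j : d.1 + (1:ℝ) • (d.2 - d.1) ∈ T.P j := by simpa using hd2.1.2
  have d1W : d.1 + (0:ℝ) • (d.2 - d.1) ∈ T.W := by simpa using hd1.1.1
  have d2W : d.1 + (1:ℝ) • (d.2 - d.1) ∈ T.W := by simpa using hd1.2.1.1
  have e1i : d.1 + α • (d.2 - d.1) ∈ T.P i := by rw [← hα]; exact he1.1.2
  have e1j : d.1 + α • (d.2 - d.1) ∈ T.P j := by rw [← hα]; exact he2.2.1.2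
  have e2i : d.1 + β • (d.2 - d.1) ∈ T.P i := by rw [← hβ]; exact he1.2.1.2
  have e2j : d.1 + β • (d.2 - d.1) ∈ T.P j := by rw [← hβ]; exact he2.1.2
  have e1W : d.1 + α • (d.2 - d.1) ∈ T.W := by rw [← hα]; exact he1.1.1
  have e2W : d.1 + β • (d.2 - d.1) ∈ T.W := by rw [← hβ]; exact he1.2.1.1
  -- orientation: α < β
  have hlt : α < β := by
    obtain ⟨o, ho⟩ := T.nonem i
    have h1 := cr_pos_of_mem_interior hdd hd1.2.2.2.1 ho
    have h2 := cr_pos_of_mem_interior (sub_ne_zero.mpr he1.2.2.1) he1.2.2.2.1 ho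
    have h3 : e.2 - e.1 = (β - α) • (d.2 - d.1) := by rw [hα, hβ]; module
    have h4 : cr (e.2 - e.1) (o - e.1) = (β - α) * cr (d.2 - d.1) (o - d.1) := by
      rw [h3, cr_smul_left]
      have h5 : o - e.1 = (o - d.1) - α • (d.2 - d.1) := by rw [hα]; abel
      rw [h5, cr_sub_right, cr_smul_right, cr_self, mul_zero, sub_zero]
    rw [h4] at h2
    by_contra h5
    push Not at h5
    linarith [mul_nonpos_of_nonpos_of_nonneg (sub_nonpos.mpr h5) h1.le]
  have hα0 : α = 0 := by
    rcases lt_trichotomy α 0 with h | h | h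
    · exact absurd d1W (hbet α 0 1 h one_pos e1i e1j d2i d2j)
    · exact h
    · exact absurd e1W (hbet 0 α β h hlt d1i d1j e2i e2j)
  have hβ1 : β = 1 := by
    rcases lt_trichotomy β 1 with h | h | h
    · exact absurd e2W (hbet α β 1 hlt h e1i e1j d2i d2j)
    · exact h
    · exact absurd d2W (hbet 0 1 β one_pos h d1i d1j e2i e2j)
  apply Prod.ext
  · rw [hα, hα0, zero_smul, add_zero]
  · rw [hβ, hβ1, one_smul]; abel

/-- The common part of two tiles with a common edge is this edge. -/
theorem inter_eq_segment (hW : T.Sharp) {i j : ι} (hij : i ≠ j) {d : V × V}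
    (hd : d ∈ T.common i j) : T.P i ∩ T.P j = segment ℝ d.1 d.2 := by
  apply Subset.antisymm
  · rintro x ⟨hxi, hxj⟩
    by_contra hcon
    have hd' := hd
    rw [T.mem_common] at hd'
    obtain ⟨hd1, hd2⟩ := hd'
    -- a point between x and d.1 close to x
    have hclosed : IsClosed (segment ℝ d.1 d.2) := by
      rw [← convexHull_pair]
      exact ((Set.toFinite _).isCompact_convexHull ℝ).isClosed
    have hcont : Continuous fun t : ℝ => x + t • (d.1 - x) := by fun_prop
    have hev : ∀ᶠ t in nhdsWithin (0:ℝ) (Ioi 0), x + t • (d.1 - x) ∉ segment ℝ d.1 d.2 := by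
      have h1 : ∀ᶠ t in nhds (0:ℝ), x + t • (d.1 - x) ∈ (segment ℝ d.1 d.2)ᶜ :=
        hcont.continuousAt.eventually (hclosed.isOpen_compl.mem_nhds (by simpa using hcon))
      exact h1.filter_mono nhdsWithin_le_nhds
    have hev2 : ∀ᶠ t in nhdsWithin (0:ℝ) (Ioi 0), t ∈ Ioo (0:ℝ) 1 := Ioo_mem_nhdsGT one_pos
    obtain ⟨t, ht1, ht2⟩ := (hev.and hev2).exists
    have hxne : x ≠ d.1 := fun h => hcon (h ▸ left_mem_segment ℝ _ _)
    obtain ⟨e, he, hopen⟩ := T.exists_common hW hij hxi hxj hd1.1.2 hd2.2.1.2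
      (x := x + t • (d.1 - x)) (by
        rw [openSegment_eq_image']; exact ⟨t, ht2, rfl⟩) hxne
    have hde := T.common_unique hW hij hd he
    rw [← hde] at hopen
    exact ht1 (openSegment_subset_segment ℝ _ _ hopen)
  · exact T.common_subset hd

end Tiling

end C2305b.TL
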