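import Pool.Agent.W_c2305b_h35.Glue2

/-!
# Existence of the window of a block, final form
-/

namespace C2305b.TL

open Set Module MeasureTheory
open C2305bH68 (Chain ext slope energy)

lemma poly_lowHP : (Cells.Poly lowHP : Set V) = {z | z 1 ≤ 0} := by
  ext z
  exact mem_lowHP

namespace Tiling

variable {ι : Type*} {T : Tiling ι}

/-- The points of an open side of a block are below the base. -/
lemma Block.open_side_neg {m : ℕ} {p : ℕ → V} (B : Block T m p) {r : ℕ} (hr : r < m) {w : V}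
    (hw : w ∈ openSegment ℝ (p r) (p (r + 1))) : w 1 < 0 := by
  obtain ⟨α, β, hα, hβ, hαβ, rfl⟩ := hw
  have hm := B.m_ge
  have h1 : p r 1 ≤ 0 := B.chain.y_nonpos (k := r) hr.le
  have h2 : p (r + 1) 1 ≤ 0 := B.chain.y_nonpos (k := r + 1) hr
  have h3 : p r 1 < 0 ∨ p (r + 1) 1 < 0 := by
    rcases Nat.eq_zero_or_pos r with h | h
    · right; rw [h]; exact B.first_neg
    · left; exact B.below h hr
  simp only [PiLp.add_apply, PiLp.smul_apply, smul_eq_mul]
  rcases h3 with h | h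
  · have := mul_neg_of_pos_of_neg hα h
    have := mul_nonpos_of_nonneg_of_nonpos hβ.le h2
    linarith
  · have := mul_neg_of_pos_of_neg hβ h
    have := mul_nonpos_of_nonneg_of_nonpos hα.le h1
    linarith

open Classical in
/-- The vertices of `T` on the open sides of the chain. -/
noncomputable def sideVerts (T : Tiling ι) (m : ℕ) (p : ℕ → V) : Finset V :=
  T.W.filter fun w => ∃ r < m, w ∈ openSegment ℝ (p r) (p (r + 1))

/-- **The window of a block.** -/
theorem exists_win [Finite ι] (hT : T.Sharp) {m : ℕ} {p : ℕ → V} (hm : 1 ≤ m)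
    (hW : ∀ r ≤ m, p r ∈ T.W) (hR : ∀ r ≤ m, p r ∈ T.R) (hx : ∀ r < m, p r 0 < p (r + 1) 0)
    (hs : ∀ r < m, ∀ z ∈ T.R, 0 ≤ cr (p (r + 1) - p r) (z - p r)) (h0 : p 0 1 = 0)
    (hend : p m 1 = 0) (hlt : ∃ r ≤ m, p r 1 < 0) :
    ∃ Z : Win {i : ι // (interior (T.P i ∩ {z | z 1 ≤ 0})).Nonempty},
      Z.m = m ∧ Z.x = (fun r => p r 0) ∧ Z.y = (fun r => p r 1) ∧ Z.p = p ∧
      Z.T.R = T.R ∩ {z | z 1 ≤ 0} ∧
      (∀ i, Z.T.P i = T.P i.1 ∩ {z | z 1 ≤ 0}) ∧ Z.T.Sharp ∧
      (∀ i j, i ≠ j → ∀ d ∈ Z.T.common i j, ∃ d0 ∈ T.common i.1 j.1,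
        segment ℝ d.1 d.2 ⊆ segment ℝ d0.1 d0.2 ∧ (d0.1 1 < 0 ∨ d0.2 1 < 0)) ∧
      ∀ [Fintype {i : ι // (interior (T.P i ∩ {z | z 1 ≤ 0})).Nonempty}],
        ∑ i, ∑ r ∈ Finset.range m, (Z.low i r).card ≤ m + (sideVerts T m p).card := by
  classical
  have B : Block T m p := ⟨hm, hW, hR, hx, hs, h0, hend, hlt⟩
  have key := B.exists_win_aux hT
  rw [poly_lowHP] at key
  obtain ⟨Z, e1, e2, e3, e4, e5, e6, e7, e8, e9⟩ := key
  refine ⟨Z, e1, e2, e3, e4, e5, e6, e7, ?_, ?_⟩
  · intro i j hij d hd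
    obtain ⟨d0, hd0, hsub⟩ := e9 i j hij d hd
    refine ⟨d0, hd0, hsub, ?_⟩
    by_contra hcon
    push Not at hcon
    have hup : ∀ z ∈ segment ℝ d0.1 d0.2, 0 ≤ z 1 := by
      rintro z ⟨α, β, hα, hβ, _, rfl⟩
      simp only [PiLp.add_apply, PiLp.smul_apply, smul_eq_mul]
      exact add_nonneg (mul_nonneg hα hcon.1) (mul_nonneg hβ hcon.2)
    have hlow : ∀ k, ∀ z ∈ Z.T.P k, z 1 ≤ 0 := by
      intro k z hz
      rw [e6 k] at hz
      exact hz.2
    rw [Z.T.mem_common] at hd
    obtain ⟨E1, E2⟩ := hd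
    have a1 : d.1 1 = 0 := le_antisymm (hlow i _ E1.1.2) (hup _ (hsub (left_mem_segment ℝ _ _)))
    have a2 : d.2 1 = 0 :=
      le_antisymm (hlow i _ E1.2.1.2) (hup _ (hsub (right_mem_segment ℝ _ _)))
    obtain ⟨o, ho⟩ := Z.T.nonem i
    obtain ⟨o', ho'⟩ := Z.T.nonem j
    have f1 := cr_pos_of_mem_interior (sub_ne_zero.mpr E1.2.2.1) E1.2.2.2.1 ho
    have f2 := cr_pos_of_mem_interior (sub_ne_zero.mpr E2.2.2.1) E2.2.2.2.1 ho'
    rw [cr_coord', a1, a2, sub_self, zero_mul, sub_zero, sub_zero] at f1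
    rw [cr_coord', a1, a2, sub_self, zero_mul, sub_zero, sub_zero] at f2
    have g1 := hlow i o (interior_subset ho)
    have g2 := hlow j o' (interior_subset ho')
    have k1 : d.2 0 - d.1 0 < 0 := by
      by_contra hneg
      push Not at hneg
      linarith [mul_nonpos_of_nonneg_of_nonpos hneg g1]
    have k2 : (d.1 0 - d.2 0) * o' 1 ≤ 0 :=
      mul_nonpos_of_nonneg_of_nonpos (by linarith) g2
    linarith
  · intro _
    have h1 : ∑ i, ∑ r ∈ Finset.range m, (Z.low i r).card =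
        ∑ r ∈ Finset.range m, ∑ i, (Z.low i r).card := Finset.sum_comm
    rw [h1]
    have h2 : ∑ r ∈ Finset.range m, ∑ i, (Z.low i r).card ≤
        ∑ r ∈ Finset.range m, (1 + (Z.inner r).card) := by
      apply Finset.sum_le_sum
      intro r hr
      exact Z.card_low_le (by rw [e1]; exact Finset.mem_range.mp hr)
    refine h2.trans ?_
    rw [Finset.sum_add_distrib, Finset.sum_const, Finset.card_range, smul_eq_mul, mul_one]
    apply Nat.add_le_add_left
    have hdis : (↑(Finset.range m) : Set ℕ).PairwiseDisjoint (fun r => Z.inner r) := by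
      intro r hr r' hr' hrr
      rw [Function.onFun, Finset.disjoint_left]
      intro w hw hw'
      unfold Win.inner at hw hw'
      rw [Finset.mem_filter] at hw hw'
      apply hrr
      exact Z.index_unique (by rw [e1]; exact Finset.mem_range.mp hr)
        (by rw [e1]; exact Finset.mem_range.mp hr') hw.2.2.1 hw.2.2.2 hw'.2.2.1 hw'.2.2.2
    rw [← Finset.card_biUnion hdis]
    apply Finset.card_le_card
    intro w hw
    rw [Finset.mem_biUnion] at hw
    obtain ⟨r, hr, hw⟩ := hw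
    have hr' := Finset.mem_range.mp hr
    unfold Win.inner at hw
    rw [Finset.mem_filter] at hw
    obtain ⟨hwW, hon, hx1, hx2⟩ := hw
    -- w is on the open side
    have hopen : w ∈ openSegment ℝ (p r) (p (r + 1)) := by
      have hpos : 0 < p (r + 1) 0 - p r 0 := sub_pos.mpr (hx r hr')
      have hy := hon.2.2
      rw [e2] at hx1 hx2
      rw [e2, e3] at hy
      simp only at hx1 hx2 hy
      rw [openSegment_eq_image']
      refine ⟨(w 0 - p r 0) / (p (r + 1) 0 - p r 0), ⟨div_pos (by linarith) hpos,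
        by rw [div_lt_one hpos]; linarith⟩, ?_⟩
      apply ext_pt
      · simp only [PiLp.add_apply, PiLp.smul_apply, PiLp.sub_apply, smul_eq_mul]
        field_simp
        ring
      · simp only [PiLp.add_apply, PiLp.smul_apply, PiLp.sub_apply, smul_eq_mul]
        rw [hy]
        unfold C2305bH68.slope
        field_simp
    have hneg := B.open_side_neg hr' hopen
    unfold sideVerts
    rw [Finset.mem_filter]
    refine ⟨?_, r, hr', hopen⟩
    rcases e8 w hwW with h | ⟨k, hk, rfl⟩ | h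
    · exact h
    · exact hW k hk
    · linarith

end Tiling

end C2305b.TL
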