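import Pool.Agent.W_c2305b_h35.Counting
import Pool.Agent.W_c2305b_h19.Frame2
import Pool.Agent.W_c2305b_h68.Chain

/-!
# Counting tiles and pairs of tiles
-/

namespace C2305b.TL

open Set Module MeasureTheory
open C2305bB (Fr Fits mis al)

/-- Pairs `i < j` one of whose orientations is in `S`. -/
lemma card_pairs_le {κ : Type*} [LinearOrder κ] {A S : Finset (κ × κ)}
    (h : ∀ q ∈ A, q.1 < q.2 ∧ (q ∈ S ∨ q.swap ∈ S)) : A.card ≤ S.card := by
  classical
  refine Finset.card_le_card_of_injOn (fun q => if q ∈ S then q else q.swap) ?_ ?_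
  · intro q hq
    have h1 := (h q hq).2
    by_cases h2 : q ∈ S
    · simpa [h2] using h2
    · simpa [h2] using h1.resolve_left h2
  · intro q hq q' hq' he
    have h1 := (h q hq).1
    have h1' := (h q' hq').1
    by_cases h2 : q ∈ S <;> by_cases h3 : q' ∈ S
    · simpa [h2, h3] using he
    · simp only [h2, h3, if_true, if_false] at he
      rw [he] at h1
      simp only [Prod.fst_swap, Prod.snd_swap] at h1
      exact absurd h1 (lt_asymm h1')
    · simp only [h2, h3, if_true, if_false] at he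
      rw [← he] at h1'
      simp only [Prod.fst_swap, Prod.snd_swap] at h1'
      exact absurd h1' (lt_asymm h1)
    · simp only [h2, h3, if_false] at he
      exact Prod.swap_injective he

namespace Tiling

variable {ι : Type*} (T : Tiling ι)

lemma tile_volume_ne_top (i : ι) : volume (T.P i) ≠ ⊤ := (T.comp i).measure_lt_top.ne

/-- Tiles of area at least `a` in a set. -/
theorem card_tiles_le {a : ℝ} {S : Finset ι} {B : Set V} (hB : volume B ≠ ⊤)
    (hS : ∀ i ∈ S, a ≤ (volume (T.P i)).toReal ∧ T.P i ⊆ B) :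
    S.card * a ≤ (volume B).toReal := by
  classical
  have h1 : volume (⋃ i ∈ S, T.P i) = ∑ i ∈ S, volume (T.P i) := by
    apply measure_biUnion_finset₀
    · intro i _ j _ hij
      exact T.tile_inter_null hij
    · intro i _
      exact (T.comp i).measurableSet.nullMeasurableSet
  have h2 : volume (⋃ i ∈ S, T.P i) ≤ volume B :=
    measure_mono (Set.iUnion₂_subset fun i hi => (hS i hi).2)
  rw [h1] at h2
  have h3 := ENNReal.toReal_mono hB h2
  rw [ENNReal.toReal_sum fun i _ => T.tile_volume_ne_top i] at h3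
  refine le_trans ?_ h3
  rw [← nsmul_eq_mul, ← Finset.sum_const]
  exact Finset.sum_le_sum fun i hi => (hS i hi).1

/-- The number of neighbours is at most the number of edges. -/
theorem card_neighbours_le (i : ι) (Q : Finset ι)
    (hQ : ∀ j ∈ Q, ∃ d, d ∈ T.common i j) : Q.card ≤ (T.edges i).card := by
  classical
  choose! f hf using hQ
  refine Finset.card_le_card_of_injOn f ?_ ?_
  · intro j hj
    have := hf j hj
    rw [T.mem_common] at this
    exact T.mem_edges.mpr this.1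
  · intro j hj j' hj' he
    have h1 := hf j hj
    have h2 := hf j' hj'
    rw [he] at h1
    rw [T.mem_common] at h1 h2
    exact T.edge_unique h1.2 h2.2

end Tiling

/-- The box around a tile with a flat frame. -/
lemma flat_tile_box {L R Tc x0 x1 H : ℝ} {F : Fr} {z0 : V} {P : Set V} (hT : 0 < Tc)
    (hL : 10 * Tc ≤ L) (hL1 : 1 ≤ L) (hR : 0 ≤ R) (hF : L * |F.S| ≤ Tc * F.c)
    (hP : ∀ z ∈ P, ∀ z' ∈ P, Fits L F R (z 0 - z' 0) (z 1 - z' 1)) (hz : z0 ∈ P)
    (hz0 : x0 ≤ z0 0) (hz1 : z0 0 ≤ x1) (hz2 : -H ≤ z0 1) (hz3 : z0 1 ≤ 0) :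
    P ⊆ C2305bH68.box (x0 - R) (x1 + R) (-H - (102 / 100 + Tc) * R) ((102 / 100 + Tc) * R) := by
  intro z hzP
  have hfit := hP z hzP z0 hz
  have h1 := hfit.x_le hL1 hR
  have h2 := C2305bB.flat_fit hT hL hR hF hfit
  have h3 := C2305bB.abs_al_le hT hL F
  have h4 : |al L Tc F * (z 0 - z0 0)| ≤ Tc * R := by
    rw [abs_mul]
    exact mul_le_mul h3 h1 (abs_nonneg _) hT.le
  have h5 := abs_le.1 h1
  have h6 := abs_le.1 h2
  have h7 := abs_le.1 h4
  refine ⟨by linarith [h5.1], by linarith [h5.2], ?_, ?_⟩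
  · linarith [h6.1, h7.1]
  · linarith [h6.2, h7.2]

lemma fits_y_le {L R x y : ℝ} {F : Fr} (hL : 1 ≤ L) (hR : 0 ≤ R) (h : Fits L F R x y) :
    |y| ≤ R * L := by
  apply abs_le_of_sq_le_sq _ (by positivity)
  unfold Fits at h
  set a := F.c * x + F.S * y / L with ha
  set b := F.c * y - L * F.S * x with hb
  have hL0 : (0 : ℝ) < L := by linarith
  have hn := F.nrm
  have e : y = F.c * b + L * F.S * a := by
    rw [ha, hb]
    have e1 : F.c * (F.c * y - L * F.S * x) + L * F.S * (F.c * x + F.S * y / L) =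
        (F.c ^ 2 + F.S ^ 2) * y := by
      field_simp
      ring
    rw [e1, hn, one_mul]
  have e2 : y ^ 2 ≤ (F.c ^ 2 + L ^ 2 * F.S ^ 2) * (a ^ 2 + b ^ 2) := by
    rw [e]
    nlinarith [sq_nonneg (F.c * a - L * F.S * b)]
  have e3 : F.c ^ 2 + L ^ 2 * F.S ^ 2 ≤ L ^ 2 := by
    have : 1 ≤ L ^ 2 := by nlinarith
    nlinarith [sq_nonneg F.c, sq_nonneg F.S]
  calc y ^ 2 ≤ (F.c ^ 2 + L ^ 2 * F.S ^ 2) * (a ^ 2 + b ^ 2) := e2
    _ ≤ L ^ 2 * R ^ 2 := by
        apply mul_le_mul e3 h (by positivity) (by positivity)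
    _ = (R * L) ^ 2 := by ring

/-- The box around any tile. -/
lemma tile_box {L R x0 x1 H : ℝ} {F : Fr} {z0 : V} {P : Set V}
    (hL1 : 1 ≤ L) (hR : 0 ≤ R)
    (hP : ∀ z ∈ P, ∀ z' ∈ P, Fits L F R (z 0 - z' 0) (z 1 - z' 1)) (hz : z0 ∈ P)
    (hz0 : x0 ≤ z0 0) (hz1 : z0 0 ≤ x1) (hz2 : -H ≤ z0 1) (hz3 : z0 1 ≤ 0) :
    P ⊆ C2305bH68.box (x0 - R) (x1 + R) (-H - R * L) (R * L) := by
  intro z hzP
  have hfit := hP z hzP z0 hz
  have h1 := hfit.x_le hL1 hR
  have h2 := fits_y_le hL1 hR hfit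
  have h5 := abs_le.1 h1
  have h6 := abs_le.1 h2
  exact ⟨by linarith [h5.1], by linarith [h5.2], by linarith [h6.1], by linarith [h6.2]⟩

lemma box_volume {a b c d : ℝ} (hab : a ≤ b) (hcd : c ≤ d) :
    volume (C2305bH68.box a b c d : Set V) ≠ ⊤ ∧
      (volume (C2305bH68.box a b c d : Set V)).toReal = (b - a) * (d - c) := by
  rw [C2305bH68.volume_box hab]
  refine ⟨ENNReal.ofReal_ne_top, ?_⟩
  rw [ENNReal.toReal_ofReal (mul_nonneg (by linarith) (by linarith))]

end C2305b.TL
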