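import Pool.Agent.W_c2305b_h19.Blk
import Pool.Agent.W_c2305b_h35.Count2

/-!
# The sum of the jumps in a window
-/

namespace C2305b.TL

open Set Module MeasureTheory
open C2305bB (Fr Fits mis al Lvl1 Lvl2 Meets)

/-- Pairs of adjacent tiles, counted by the first one. -/
theorem card_good_pairs {J0 K : Type*} {T : Tiling J0} {e : K → J0} (he : Function.Injective e)
    {S : Finset (K × K)} {Bx : Set V} (hB : volume Bx ≠ ⊤) {a : ℝ} (ha : 0 ≤ a)
    (h : ∀ q ∈ S, (∃ d, d ∈ T.common (e q.1) (e q.2)) ∧ (T.edges (e q.1)).card ≤ 6 ∧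
      a ≤ (volume (T.P (e q.1))).toReal ∧ T.P (e q.1) ⊆ Bx) :
    S.card * a ≤ 6 * (volume Bx).toReal := by
  classical
  have h1 : S.card ≤ 6 * (S.image fun q => e q.1).card := by
    apply Finset.card_le_mul_card_image
    intro i hi
    obtain ⟨q0, hq0, rfl⟩ := Finset.mem_image.mp hi
    have h2 : ({x ∈ S | e x.1 = e q0.1} : Finset (K × K)).card ≤
        (({x ∈ S | e x.1 = e q0.1} : Finset (K × K)).image fun q => e q.2).card := by
      rw [Finset.card_image_of_injOn]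
      intro x hx y hy hxy
      have hx1 := (Finset.mem_filter.mp (Finset.mem_coe.mp hx)).2
      have hy1 := (Finset.mem_filter.mp (Finset.mem_coe.mp hy)).2
      exact Prod.ext (he (hx1.trans hy1.symm)) (he hxy)
    refine h2.trans ((T.card_neighbours_le (e q0.1) _ ?_).trans (h q0 hq0).2.1)
    intro j hj
    obtain ⟨x, hx, rfl⟩ := Finset.mem_image.mp hj
    obtain ⟨hxS, hx1⟩ := Finset.mem_filter.mp hx
    have := (h x hxS).1
    rwa [hx1] at this
  have h3 : ((S.image fun q => e q.1).card : ℝ) * a ≤ (volume Bx).toReal := by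
    apply T.card_tiles_le hB
    intro i hi
    obtain ⟨q0, hq0, rfl⟩ := Finset.mem_image.mp hi
    exact ⟨(h q0 hq0).2.2.1, (h q0 hq0).2.2.2⟩
  have h4 : (S.card : ℝ) ≤ 6 * ((S.image fun q => e q.1).card : ℝ) := by exact_mod_cast h1
  calc (S.card : ℝ) * a ≤ 6 * ((S.image fun q => e q.1).card : ℝ) * a :=
        mul_le_mul_of_nonneg_right h4 ha
    _ = 6 * (((S.image fun q => e q.1).card : ℝ) * a) := by ring
    _ ≤ 6 * (volume Bx).toReal := by linarith

open Classical in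
/-- The sum of the jumps in a window, general index type. -/
theorem jump_le_aux {J0 K : Type} {T : Tiling J0} {e : K → J0} (he : Function.Injective e)
    (Z : Win K) [Fintype K] [LinearOrder K]
    (hP : ∀ i, Z.T.P i = T.P (e i) ∩ {z | z 1 ≤ 0}) (hS : Z.T.Sharp)
    (hc : ∀ i j, i ≠ j → ∀ d ∈ Z.T.common i j, ∃ d0 ∈ T.common (e i) (e j),
      segment ℝ d.1 d.2 ⊆ segment ℝ d0.1 d0.2)
    {F : J0 → Fr} {L R T0 a κ κ' H X : ℝ}
    (hfit : ∀ i, ∀ z ∈ T.P i, ∀ z' ∈ T.P i, Fits L (F i) R (z 0 - z' 0) (z 1 - z' 1))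
    (hR : 1 ≤ R) (hT0 : 2 ≤ T0) (hL : 10 * T0 ≤ L) (ha : 0 < a) (hκ : 0 ≤ κ) (hκ1 : κ ≤ 1)
    (hκ' : 0 ≤ κ') (hX : X = Z.x Z.m - Z.x 0) (hH : 0 ≤ H) (hH2 : ∀ z ∈ Z.T.R, -H ≤ z 1)
    {A B : V} (hAB : ∀ z ∈ Z.T.R, cr (B - A) (z - A) < 0) {Bad1 Bad2 : Finset (J0 × J0)}
    (h1 : Lvl1 L κ a T F Bad1) (h2 : Lvl2 L κ' T F Bad2) :
    ∃ N1 N2 : ℝ, 0 ≤ N1 ∧ 0 ≤ N2 ∧ N1 ≤ 12 / a * (X + 2 * R) * (H + 3 * R * T0) ∧
      N2 ≤ 12 / a * (X + 2 * R) * (H + 2 * R * L) ∧
      ∑ i, ∑ j ∈ Finset.univ.filter (fun j => i < j), ∑ d ∈ Z.T.common i j,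
        |C2305bB.J (al L T0 (F (e i))) (al L T0 (F (e j))) (d.2 0 - d.1 0) (d.2 1 - d.1 1)| ≤
      7 * R * T0 * ((Bad1.filter fun s => Meets T A B s).card : ℝ) + 3 * R * κ * N1 +
        21 / 10 * (T0 / L) * (H + T0 * R) *
          (κ' * N2 + ((Bad2.filter fun s => Meets T A B s).card : ℝ)) := by
  have hL0 : 0 < L := by linarith
  have hL1 : 1 ≤ L := by linarith
  have hT00 : 0 < T0 := by linarith
  have hR0 : 0 ≤ R := by linarith
  -- the tiles of the window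
  have hmemR : ∀ i, Z.T.P i ⊆ Z.T.R := fun i => Z.tile_sub i
  have hX0 : 0 < X := by rw [hX]; exact Z.C.width_pos
  have hpt : ∀ i : K, ∃ z ∈ T.P (e i), Z.x 0 ≤ z 0 ∧ z 0 ≤ Z.x Z.m ∧ -H ≤ z 1 ∧ z 1 ≤ 0 := by
    intro i
    obtain ⟨z, hz⟩ := Z.T.nonem i
    have hz' := interior_subset hz
    have hzR := hmemR i hz'
    have hzP := hz'
    rw [hP i] at hzP
    obtain ⟨b1, b2, b3⟩ := Z.region_box hzR
    exact ⟨z, hzP.1, b1, b2, hH2 z hzR, hzP.2⟩
  -- a common dart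
  have hdart : ∀ i j : K, i ≠ j → ∀ d ∈ Z.T.common i j,
      (∃ d0 ∈ T.common (e i) (e j), Meets T A B (e i, e j)) ∧
      Fits L (F (e i)) R (d.2 0 - d.1 0) (d.2 1 - d.1 1) ∧
      Fits L (F (e j)) R (d.2 0 - d.1 0) (d.2 1 - d.1 1) ∧ |d.2 1 - d.1 1| ≤ H := by
    intro i j hij d hd
    obtain ⟨d0, hd0, hsub⟩ := hc i j hij d hd
    have hd' := hd
    rw [Z.T.mem_common] at hd'
    obtain ⟨E1, E2⟩ := hd'
    have m1 := E1.1.2
    have m2 := E1.2.1.2
    have n2 := E2.1.2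
    have n1 := E2.2.1.2
    have r1 := hmemR i m1
    have r2 := hmemR i m2
    have a1 := m1; rw [hP i] at a1
    have a2 := m2; rw [hP i] at a2
    have b1 := n1; rw [hP j] at b1
    have b2 := n2; rw [hP j] at b2
    refine ⟨⟨d0, hd0, d0.1, d0.2, T.mem_common.mp hd0, ?_⟩, hfit (e i) _ a2.1 _ a1.1,
      hfit (e j) _ b2.1 _ b1.1, ?_⟩
    · by_contra hcon
      push Not at hcon
      have hin := hsub (left_mem_segment ℝ d.1 d.2)
      have hneg := hAB _ r1
      obtain ⟨s, t, hs, ht, hst, hee⟩ := hin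
      rw [← hee] at hneg
      have e2 : cr (B - A) (s • d0.1 + t • d0.2 - A) =
          s * cr (B - A) (d0.1 - A) + t * cr (B - A) (d0.2 - A) := by
        have : t = 1 - s := by linarith
        subst this
        unfold cr
        simp only [PiLp.sub_apply, PiLp.add_apply, PiLp.smul_apply, smul_eq_mul]
        ring
      rw [e2] at hneg
      have := mul_nonneg hs hcon.1
      have := mul_nonneg ht hcon.2
      linarith
    · have c1 := hH2 _ r1
      have c2 := hH2 _ r2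
      have c3 : d.1 1 ≤ 0 := a1.2
      have c4 : d.2 1 ≤ 0 := a2.2
      rw [abs_le]
      constructor <;> linarith
  obtain ⟨steep, hsteep⟩ : ∃ st : K → Prop, ∀ i, st i ↔ T0 * (F (e i)).c < L * |(F (e i)).S| :=
    ⟨_, fun _ => Iff.rfl⟩
  set A0 : Finset (K × K) :=
    Finset.univ.filter (fun q => q.1 < q.2 ∧ (Z.T.common q.1 q.2).Nonempty) with hA0
  obtain ⟨P1, hP1⟩ : ∃ Q : K × K → Prop, ∀ q, Q q ↔
      (e q.1, e q.2) ∈ Bad1 ∨ (e q.2, e q.1) ∈ Bad1 := ⟨_, fun _ => Iff.rfl⟩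
  obtain ⟨P2, hP2⟩ : ∃ Q : K × K → Prop, ∀ q, Q q ↔
      (e q.1, e q.2) ∈ Bad2 ∨ (e q.2, e q.1) ∈ Bad2 := ⟨_, fun _ => Iff.rfl⟩
  obtain ⟨Q2, hQ2⟩ : ∃ Q : K × K → Prop, ∀ q, Q q ↔
      (¬ P1 q ∧ ¬ (steep q.1 ∧ steep q.2)) := ⟨_, fun _ => Iff.rfl⟩
  obtain ⟨Q3, hQ3⟩ : ∃ Q : K × K → Prop, ∀ q, Q q ↔
      (¬ P1 q ∧ (steep q.1 ∧ steep q.2) ∧ ¬ P2 q) := ⟨_, fun _ => Iff.rfl⟩
  obtain ⟨Q4, hQ4⟩ : ∃ Q : K × K → Prop, ∀ q, Q q ↔
      (¬ P1 q ∧ (steep q.1 ∧ steep q.2) ∧ P2 q) := ⟨_, fun _ => Iff.rfl⟩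
  set t : K × K → ℝ := fun q => ∑ d ∈ Z.T.common q.1 q.2,
    |C2305bB.J (al L T0 (F (e q.1))) (al L T0 (F (e q.2))) (d.2 0 - d.1 0) (d.2 1 - d.1 1)| with ht
  set c3 : ℝ := 21 / 10 * (T0 / L) * (H + T0 * R) with hc3
  have hc30 : 0 ≤ c3 := by positivity
  -- the adjacency data of a pair of `A0`
  have hA0d : ∀ q ∈ A0, q.1 < q.2 ∧ (∃ d, d ∈ T.common (e q.1) (e q.2)) ∧
      (∃ d, d ∈ T.common (e q.2) (e q.1)) ∧ Meets T A B ((e q.1), (e q.2)) ∧
      Meets T A B ((e q.2), (e q.1)) := by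
    intro q hq
    rw [hA0, Finset.mem_filter] at hq
    obtain ⟨_, hlt, d, hd⟩ := hq
    obtain ⟨⟨d0, hd0, v, w, htw, hm⟩, _⟩ := hdart q.1 q.2 hlt.ne d hd
    exact ⟨hlt, ⟨d0, hd0⟩, ⟨d0.swap, T.mem_common.mpr ⟨(T.mem_common.mp hd0).2, (T.mem_common.mp hd0).1⟩⟩, ⟨v, w, htw, hm⟩,
      ⟨w, v, ⟨htw.2, htw.1⟩, hm.symm⟩⟩
  -- termwise bound
  have hterm : ∀ q ∈ A0, t q ≤ 7 * R * T0 * (if P1 q then 1 else 0) +
      3 * R * κ * (if Q2 q then 1 else 0) + c3 * κ' * (if Q3 q then 1 else 0) +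
      c3 * (if Q4 q then 1 else 0) := by
    intro q hq
    have hq' := hq
    rw [hA0, Finset.mem_filter] at hq'
    obtain ⟨_, hlt, d, hd⟩ := hq'
    have hone : Z.T.common q.1 q.2 = {d} := by
      apply Finset.eq_singleton_iff_unique_mem.mpr
      exact ⟨hd, fun e he => Z.T.common_unique hS hlt.ne he hd⟩
    obtain ⟨⟨d0, hd0, hmeet⟩, f1, f2, hy⟩ := hdart q.1 q.2 hlt.ne d hd
    have htq : t q = |C2305bB.J (al L T0 (F (e q.1))) (al L T0 (F (e q.2))) (d.2 0 - d.1 0)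
        (d.2 1 - d.1 1)| := by
      rw [ht]
      simp only
      rw [hone, Finset.sum_singleton]
    rw [htq]
    rw [T.mem_common] at hd0
    have hd0' : T.Tw (e q.2) (e q.1) d0.2 d0.1 := ⟨hd0.2, hd0.1⟩
    by_cases hp1 : P1 q
    · have n2 : ¬ Q2 q := fun h => ((hQ2 q).mp h).1 hp1
      have n3 : ¬ Q3 q := fun h => ((hQ3 q).mp h).1 hp1
      have n4 : ¬ Q4 q := fun h => ((hQ4 q).mp h).1 hp1
      rw [if_pos hp1, if_neg n2, if_neg n3, if_neg n4]
      have := C2305bB.J_le hT00 hL hR0 (F (e q.1)) (F (e q.2)) f1 f2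
      linarith
    · have hp1' := hp1
      rw [hP1, not_or] at hp1'
      obtain ⟨m1, _, _⟩ := h1 _ _ _ _ hd0 hp1'.1
      have m1' : mis L (F (e q.1)) (F (e q.2)) ≤ 1 := m1.trans hκ1
      have mnn : 0 ≤ mis L (F (e q.1)) (F (e q.2)) := by
        unfold mis
        exact mul_nonneg hL0.le (C2305bB.sn_nonneg _ _)
      by_cases hst : steep q.1 ∧ steep q.2
      · have n2 : ¬ Q2 q := fun h => ((hQ2 q).mp h).2 hst
        have hJ := C2305bB.J_small_steep (x := d.2 0 - d.1 0) (y := d.2 1 - d.1 1) hT0 hL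
          ((hsteep _).mp hst.1) ((hsteep _).mp hst.2) m1'
        have hx := f1.x_le hL1 hR0
        have hxy : |d.2 1 - d.1 1| + T0 * |d.2 0 - d.1 0| ≤ H + T0 * R :=
          add_le_add hy (mul_le_mul_of_nonneg_left hx hT00.le)
        have hJ2 : |C2305bB.J (al L T0 (F (e q.1))) (al L T0 (F (e q.2))) (d.2 0 - d.1 0)
            (d.2 1 - d.1 1)| ≤ c3 * mis L (F (e q.1)) (F (e q.2)) := by
          refine hJ.trans ?_
          have e : c3 * mis L (F (e q.1)) (F (e q.2)) =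
              21 / 10 * (T0 * (mis L (F (e q.1)) (F (e q.2)) / L)) * (H + T0 * R) := by
            rw [hc3]; ring
          rw [e]
          exact mul_le_mul_of_nonneg_left hxy (by positivity)
        by_cases hp2 : P2 q
        · have n3 : ¬ Q3 q := fun h => ((hQ3 q).mp h).2.2 hp2
          have y4 : Q4 q := (hQ4 q).mpr ⟨hp1, hst, hp2⟩
          rw [if_neg hp1, if_neg n2, if_neg n3, if_pos y4]
          have := mul_le_mul_of_nonneg_left m1' hc30
          linarith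
        · have y3 : Q3 q := (hQ3 q).mpr ⟨hp1, hst, hp2⟩
          have n4 : ¬ Q4 q := fun h => hp2 ((hQ4 q).mp h).2.2
          rw [if_neg hp1, if_neg n2, if_pos y3, if_neg n4]
          have hp2' := hp2
          rw [hP2, not_or] at hp2'
          have m2 := h2 _ _ _ _ hd0 hp2'.1
          have := mul_le_mul_of_nonneg_left m2 hc30
          linarith
      · have y2 : Q2 q := (hQ2 q).mpr ⟨hp1, hst⟩
        have n3 : ¬ Q3 q := fun h => hst ((hQ3 q).mp h).2.1
        have n4 : ¬ Q4 q := fun h => hst ((hQ4 q).mp h).2.1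
        rw [if_neg hp1, if_pos y2, if_neg n3, if_neg n4]
        have hJ : |C2305bB.J (al L T0 (F (e q.1))) (al L T0 (F (e q.2))) (d.2 0 - d.1 0)
            (d.2 1 - d.1 1)| ≤ 3 * R * mis L (F (e q.1)) (F (e q.2)) := by
          by_cases hs1 : steep q.1
          · have hs2 : ¬ steep q.2 := fun h => hst ⟨hs1, h⟩
            rw [C2305bB.J_swap, C2305bB.mis_comm]
            exact C2305bB.J_small hT0 hL hR0 (not_lt.mp fun h => hs2 ((hsteep _).mpr h)) f2 f1
              (by rw [C2305bB.mis_comm]; exact m1')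
          · exact C2305bB.J_small hT0 hL hR0 (not_lt.mp fun h => hs1 ((hsteep _).mpr h)) f1 f2 m1'
        have h3R : 0 ≤ 3 * R := by positivity
        have := mul_le_mul_of_nonneg_left m1 h3R
        linarith
  have hsum : ∑ i, ∑ j ∈ Finset.univ.filter (fun j => i < j), ∑ d ∈ Z.T.common i j,
      |C2305bB.J (al L T0 (F (e i))) (al L T0 (F (e j))) (d.2 0 - d.1 0) (d.2 1 - d.1 1)| =
      ∑ q ∈ A0, t q := by
    have e1 : ∑ i, ∑ j ∈ Finset.univ.filter (fun j => i < j), ∑ d ∈ Z.T.common i j,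
        |C2305bB.J (al L T0 (F (e i))) (al L T0 (F (e j))) (d.2 0 - d.1 0) (d.2 1 - d.1 1)| =
        ∑ i : K, ∑ j : K, if i < j then t (i, j) else 0 := by
      apply Finset.sum_congr rfl
      intro i _
      rw [Finset.sum_filter]
    rw [e1, ← Fintype.sum_prod_type', hA0, Finset.sum_filter]
    apply Finset.sum_congr rfl
    rintro ⟨i, j⟩ _
    by_cases hlt : i < j
    · by_cases hne : (Z.T.common i j).Nonempty
      · simp [hlt, hne]
      · have hemp : Z.T.common i j = ∅ := Finset.not_nonempty_iff_eq_empty.mp hne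
        have : t (i, j) = 0 := by
          rw [ht]
          simp [hemp]
        simp [hlt, hne, this]
    · simp [hlt]
  have hcount : ∀ (c : ℝ) (Q : K × K → Prop),
      ∑ q ∈ A0, c * (if Q q then (1 : ℝ) else 0) = c * ((A0.filter Q).card : ℝ) := by
    intro c Q
    rw [← Finset.mul_sum, Finset.sum_boole]
  have htot : ∑ q ∈ A0, t q ≤ 7 * R * T0 * ((A0.filter P1).card : ℝ) +
      3 * R * κ * ((A0.filter Q2).card : ℝ) + c3 * κ' * ((A0.filter Q3).card : ℝ) +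
      c3 * ((A0.filter Q4).card : ℝ) := by
    refine (Finset.sum_le_sum hterm).trans (le_of_eq ?_)
    rw [Finset.sum_add_distrib, Finset.sum_add_distrib, Finset.sum_add_distrib, hcount, hcount,
      hcount, hcount]
  -- bad pairs
  have hbad : ∀ (Bad : Finset (J0 × J0)) (Q : K × K → Prop),
      (∀ q, Q q → ((e q.1), (e q.2)) ∈ Bad ∨ ((e q.2), (e q.1)) ∈ Bad) →
      ((A0.filter Q).card : ℝ) ≤ ((Bad.filter fun s => Meets T A B s).card : ℝ) := by
    intro Bad Q hQ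
    have e1 : (A0.filter Q).card ≤ ((Finset.univ : Finset (K × K)).filter
        (fun q => ((e q.1), (e q.2)) ∈ Bad ∧ Meets T A B ((e q.1), (e q.2)))).card := by
      apply card_pairs_le
      intro q hq
      obtain ⟨hqA, hqQ⟩ := Finset.mem_filter.mp hq
      obtain ⟨hlt, _, _, k1, k2⟩ := hA0d q hqA
      refine ⟨hlt, ?_⟩
      rcases hQ q hqQ with h | h
      · exact Or.inl (Finset.mem_filter.mpr ⟨Finset.mem_univ _, h, k1⟩)
      · exact Or.inr (Finset.mem_filter.mpr ⟨Finset.mem_univ _, h, k2⟩)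
    have e2 : ((Finset.univ : Finset (K × K)).filter
        (fun q => ((e q.1), (e q.2)) ∈ Bad ∧ Meets T A B ((e q.1), (e q.2)))).card ≤
        (Bad.filter fun s => Meets T A B s).card := by
      refine Finset.card_le_card_of_injOn (fun q => ((e q.1), (e q.2))) ?_ ?_
      · intro q hq
        have hq' := (Finset.mem_filter.mp (Finset.mem_coe.mp hq)).2
        exact Finset.mem_coe.mpr (Finset.mem_filter.mpr hq')
      · rintro ⟨i, j⟩ _ ⟨i', j'⟩ _ he'
        simp only [Prod.mk.injEq] at he'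
        exact Prod.ext (he he'.1) (he he'.2)
    exact_mod_cast e1.trans e2
  -- good pairs
  have hgood : ∀ (Q : K × K → Prop) (st : K → Prop) (Bx : Set V), volume Bx ≠ ⊤ →
      (∀ q, Q q → ¬ P1 q ∧ (st q.1 ∨ st q.2)) → (∀ i : K, st i → T.P (e i) ⊆ Bx) →
      ((A0.filter Q).card : ℝ) * a ≤ 6 * (volume Bx).toReal := by
    intro Q st Bx hBx hQ hst
    set S : Finset (K × K) := (Finset.univ : Finset (K × K)).filter
      (fun q => st q.1 ∧ ((e q.1), (e q.2)) ∉ Bad1 ∧ ∃ d, d ∈ T.common (e q.1) (e q.2)) with hSdef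
    have e1 : (A0.filter Q).card ≤ S.card := by
      apply card_pairs_le
      intro q hq
      obtain ⟨hqA, hqQ⟩ := Finset.mem_filter.mp hq
      obtain ⟨hlt, k1, k2, _, _⟩ := hA0d q hqA
      obtain ⟨g1, g2⟩ := hQ q hqQ
      rw [hP1, not_or] at g1
      refine ⟨hlt, ?_⟩
      rcases g2 with h | h
      · exact Or.inl (Finset.mem_filter.mpr ⟨Finset.mem_univ _, h, g1.1, k1⟩)
      · exact Or.inr (Finset.mem_filter.mpr ⟨Finset.mem_univ _, h, g1.2, k2⟩)
    have e2 : (S.card : ℝ) * a ≤ 6 * (volume Bx).toReal := by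
      apply card_good_pairs (T := T) he hBx ha.le
      intro q hq
      obtain ⟨_, g1, g2, d, hd⟩ := Finset.mem_filter.mp hq
      have hd' := hd
      rw [T.mem_common] at hd'
      obtain ⟨_, m2, m3⟩ := h1 _ _ _ _ hd' g2
      exact ⟨⟨d, hd⟩, m2, m3, hst q.1 g1⟩
    have e3 : ((A0.filter Q).card : ℝ) ≤ (S.card : ℝ) := by exact_mod_cast e1
    exact (mul_le_mul_of_nonneg_right e3 ha.le).trans e2
  refine ⟨((A0.filter Q2).card : ℝ), ((A0.filter Q3).card : ℝ), Nat.cast_nonneg _,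
    Nat.cast_nonneg _, ?_, ?_, ?_⟩
  · -- flat pairs
    have hxx : Z.x 0 - R ≤ Z.x Z.m + R := by rw [hX] at hX0; linarith
    have hyy : -H - (102 / 100 + T0) * R ≤ (102 / 100 + T0) * R := by nlinarith
    obtain ⟨v1, v2⟩ := box_volume hxx hyy
    have := hgood Q2 (fun i => ¬ steep i) _ v1
      (fun q hq => ⟨((hQ2 q).mp hq).1, not_and_or.mp ((hQ2 q).mp hq).2⟩)
      (fun i hi => by
        obtain ⟨z, hz, z1, z2, z3, z4⟩ := hpt i
        exact flat_tile_box hT00 hL hL1 hR0 (not_lt.mp fun h => hi ((hsteep _).mpr h))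
          (hfit (e i)) hz z1 z2 z3 z4)
    rw [v2] at this
    rw [show (12 / a * (X + 2 * R) * (H + 3 * R * T0)) =
      12 * (X + 2 * R) * (H + 3 * R * T0) / a by ring, le_div_iff₀ ha]
    refine this.trans ?_
    have e1 : (Z.x Z.m + R - (Z.x 0 - R)) = X + 2 * R := by rw [hX]; ring
    rw [e1]
    have e2 : (102 / 100 + T0) * R - (-H - (102 / 100 + T0) * R) ≤ 2 * (H + 3 * R * T0) := by
      nlinarith
    have e3 : 0 ≤ X + 2 * R := by linarith
    nlinarith [mul_le_mul_of_nonneg_left e2 e3]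
  · have hxx : Z.x 0 - R ≤ Z.x Z.m + R := by rw [hX] at hX0; linarith
    have hRL : 0 ≤ R * L := by positivity
    have hyy : -H - R * L ≤ R * L := by linarith
    obtain ⟨v1, v2⟩ := box_volume hxx hyy
    have := hgood Q3 (fun i => steep i) _ v1
      (fun q hq => ⟨((hQ3 q).mp hq).1, Or.inl ((hQ3 q).mp hq).2.1.1⟩)
      (fun i _ => by
        obtain ⟨z, hz, z1, z2, z3, z4⟩ := hpt i
        exact tile_box hL1 hR0 (hfit (e i)) hz z1 z2 z3 z4)
    rw [v2] at this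
    rw [show (12 / a * (X + 2 * R) * (H + 2 * R * L)) =
      12 * (X + 2 * R) * (H + 2 * R * L) / a by ring, le_div_iff₀ ha]
    refine this.trans ?_
    have e1 : (Z.x Z.m + R - (Z.x 0 - R)) = X + 2 * R := by rw [hX]; ring
    rw [e1]
    have e2 : R * L - (-H - R * L) ≤ 2 * (H + 2 * R * L) := by linarith
    have e3 : 0 ≤ X + 2 * R := by linarith
    nlinarith [mul_le_mul_of_nonneg_left e2 e3]
  · rw [hsum]
    refine htot.trans ?_
    have b1 := hbad Bad1 P1 (fun q hq => (hP1 q).mp hq)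
    have b2 := hbad Bad2 Q4 (fun q hq => (hP2 q).mp ((hQ4 q).mp hq).2.2)
    have c1 : 7 * R * T0 * ((A0.filter P1).card : ℝ) ≤
        7 * R * T0 * ((Bad1.filter fun s => Meets T A B s).card : ℝ) :=
      mul_le_mul_of_nonneg_left b1 (by positivity)
    have c2 : c3 * ((A0.filter Q4).card : ℝ) ≤
        c3 * ((Bad2.filter fun s => Meets T A B s).card : ℝ) :=
      mul_le_mul_of_nonneg_left b2 hc30
    linarith

end C2305b.TL
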