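import Pool.Agent.W_c2305b_h35.JumpG4

/-!
# The signed flux of a window, class Gap + Sym (row 552, section 5)
-/

namespace C2305bG

open Set C2305b.TL
open C2305bB (Fr J mis al Fits sn Meets)

lemma jump_num {κ3 b3 b4 P w1 S N1 N2 N4 x1 x2 : ℝ} (h3 : 6 * b3 ≤ κ3 / 3 + κ3 / 3)
    (h4 : 0 ≤ b4) (hS : 0 ≤ S) (h1 : 0 ≤ N1) (h2 : 0 ≤ N2) (hX : 6 * x1 * N4 ≤ x2 * N4) :
    κ3 / 3 * S + (P * w1 + 6 * b3 * S + 6 * b4 * (N1 + N2 + 2 * w1) + 6 * x1 * N4) ≤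
      P * w1 + κ3 * S + 12 * b4 * (w1 + N1 + N2) + x2 * N4 := by
  have m1 := mul_le_mul_of_nonneg_right h3 hS
  have m2 : 0 ≤ b4 * N1 := mul_nonneg h4 h1
  have m3 : 0 ≤ b4 * N2 := mul_nonneg h4 h2
  linarith

open Classical in
/-- **The signed flux of a window.** The constants are chosen in the order `κ`, (`c1`, `ω`), `ε`,
`Cb`, `C4`, `θ`. -/
theorem jump_leG (R μ c0 m0 a : ℝ) (hR : 1 ≤ R) (hμ : 0 ≤ μ) (hc0 : 0 < c0) (hc01 : c0 ≤ 1)
    (hm0 : 0 < m0) (hm01 : m0 ≤ 1) (_ha : 0 < a) (κ3 : ℝ) (hκ3 : 0 < κ3) :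
    ∃ κ : ℝ, 0 < κ ∧ κ ≤ 1 ∧ ∀ c1 : ℝ, 0 < c1 → c1 ≤ 1 → ∀ ω : ℝ, 0 < ω →
    ∃ ε : ℝ, 0 < ε ∧ ∃ Cb : ℝ, 0 ≤ Cb ∧ ∃ C4 : ℝ, 2 ≤ C4 ∧ ∃ θ : ℝ, 0 < θ ∧ θ ≤ 1 / 10 ∧
    ∀ {J0 : Type} {T : Tiling J0} (F : J0 → Fr)
      (Z : Win {i : J0 // (interior (T.P i ∩ {z | z 1 ≤ 0})).Nonempty})
      (_ : Z.T.R = T.R ∩ {z | z 1 ≤ 0}) (_ : ∀ i, Z.T.P i = T.P i.1 ∩ {z | z 1 ≤ 0})
      (_ : Z.T.Sharp)
      (_ : ∀ i j, i ≠ j → ∀ d ∈ Z.T.common i j, ∃ d0 ∈ T.common i.1 j.1,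
        segment ℝ d.1 d.2 ⊆ segment ℝ d0.1 d0.2)
      [Fintype {i : J0 // (interior (T.P i ∩ {z | z 1 ≤ 0})).Nonempty}]
      [LinearOrder {i : J0 // (interior (T.P i ∩ {z | z 1 ≤ 0})).Nonempty}]
      (L Tc T0 H : ℝ)
      (_ : ∀ i, ∀ z ∈ T.P i, ∀ z' ∈ T.P i, Fits L (F i) R (z 0 - z' 0) (z 1 - z' 1))
      (_ : 1 ≤ L) (_ : C4 ≤ T0) (_ : T0 ≤ Tc) (_ : Tc ≤ 2 * T0) (_ : Tc ≤ θ * L) (_ : 0 ≤ H)
      (_ : H + 1 ≤ c0 * θ * L) (_ : ∀ z ∈ Z.T.R, -H ≤ z 1)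
      (A B : V) (_ : ∀ z ∈ Z.T.R, cr (B - A) (z - A) < 0)
      (Bad : Finset (J0 × J0)) (m g : J0 → V) (_ : Lvl L μ ε c0 a T F Bad)
      (_ : Field L R m0 ω (κ * c1 ^ 2) κ c1 T F Bad m g)
      (S0 : Finset {i : J0 // (interior (T.P i ∩ {z | z 1 ≤ 0})).Nonempty})
      (_ : ∀ i, i ∈ S0 ↔ RegTile L ε c0 a T F i.1 ∧
        L * |(F i.1).S| ≤ 3 * T0 * (F i.1).c),
    ∃ fa : {i : J0 // (interior (T.P i ∩ {z | z 1 ≤ 0})).Nonempty} → ℝ,
      (∀ i r, ∀ d ∈ Z.low i r, fa i = al L Tc (F i.1)) ∧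
      |Z.T.Sg fa| ≤ 7 * R * Tc * ((Bad.filter fun s => Meets T A B s).card : ℝ) +
        κ3 * (S0.card : ℝ) +
        Cb * (((Bad.filter fun s => Meets T A B s).card : ℝ) +
          ((S0.filter fun i => ∃ z ∈ T.P i.1, 0 ≤ z 1).card : ℝ) +
          ((S0.filter fun i => |L * |(F i.1).S| / (F i.1).c - Tc| ≤ C4).card : ℝ)) +
        2 * Tc * (μ / L) * (H + Tc * R) *
          ((Finset.univ.filter fun i : {i : J0 // (interior (T.P i ∩ {z | z 1 ≤ 0})).Nonempty} =>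
            RegTile L ε c0 a T F i.1).card : ℝ) := by
  obtain ⟨C5, hC5, hpair⟩ := uf_pair hR hm0 hm01
  have hR0 : 0 < R := by linarith
  refine ⟨min 1 (κ3 / (54 * R * C5)), lt_min one_pos (by positivity), min_le_left _ _, ?_⟩
  set κ := min 1 (κ3 / (54 * R * C5)) with hκd
  have hκ0 : 0 < κ := lt_min one_pos (by positivity)
  have hκ1 : κ ≤ 1 := min_le_left _ _
  have hκ2 : 6 * (C5 * κ * (3 * R)) ≤ κ3 / 3 := by
    have h1 : κ ≤ κ3 / (54 * R * C5) := min_le_right _ _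
    rw [le_div_iff₀ (by positivity)] at h1
    linarith
  intro c1 hc1 hc11 ω hω
  obtain ⟨θ1, hθ1, hclose⟩ := uf_close hR hm0 hm01 hc1 hc11
  obtain ⟨θ2, hθ2, hpair2⟩ := hpair c1 hc1 hc11
  set C3 := 3 * R * (1 / m0 + 1 / c1) with hC3d
  have hC3 : 0 < C3 := by positivity
  set om := min (ω / 2) (1 / C3) with homd
  have hom : 0 < om := lt_min (by linarith) (by positivity)
  have hom1 : om ≤ ω / 2 := min_le_left _ _
  have hom2 : C3 * om ≤ 1 := by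
    have h1 : om ≤ 1 / C3 := min_le_right _ _
    rw [le_div_iff₀ hC3] at h1
    linarith
  set CJ := (2 * C3 + 2 * μ) * ((C3 + 2) * R) with hCJd
  have hCJ : 0 < CJ := by positivity
  set q := min 1 (κ3 / (18 * CJ)) with hqd
  have hq0 : 0 < q := lt_min one_pos (by positivity)
  have hq1 : q ≤ 1 := min_le_left _ _
  have hq2 : 6 * (q ^ 2 * CJ) ≤ κ3 / 3 := by
    have h1 : q ≤ κ3 / (18 * CJ) := min_le_right _ _
    rw [le_div_iff₀ (by positivity)] at h1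
    have h2 : q ^ 2 ≤ q := by nlinarith
    have h3 := mul_le_mul_of_nonneg_right h2 hCJ.le
    linarith
  set δ := om * q with hδd
  have hδ : 0 < δ := by positivity
  have hδom : δ / om = q := by rw [hδd]; field_simp
  set Kφ := 3 * (((C3 + 2) * R) ^ 2 / (2 * δ ^ 2) + ((C3 + 2) * R) / (2 * δ)) * (C3 + 2) with hKφd
  have hKφ : 0 < Kφ := by positivity
  set ε := κ3 / (3 * Kφ) with hεd
  have hε : 0 < ε := by positivity
  have hb1 : 3 * ((((C3 + 2) * R) ^ 2 / (2 * δ ^ 2) + ((C3 + 2) * R) / (2 * δ)) *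
      ((C3 + 2) * ε)) = κ3 / 3 := by
    have h1 : 3 * ((((C3 + 2) * R) ^ 2 / (2 * δ ^ 2) + ((C3 + 2) * R) / (2 * δ)) *
      ((C3 + 2) * ε)) = Kφ * ε := by rw [hKφd]; ring
    rw [h1, hεd]
    field_simp
  set b4 := (2 * (C3 + 4 * μ) + 2 * μ) * ((C3 + 4 * μ + 2) * R) +
      ((C3 + 4 * μ + 2) * R) ^ 2 / (4 * δ) + ((C3 + 4 * μ + 2) * R) ^ 2 / (4 * δ) with hb4d
  have hb4 : 0 ≤ b4 := by positivity
  refine ⟨ε, hε, 12 * b4, by positivity, C3 + 2 + 4 * μ, by linarith,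
    min (1 / 10) (min θ1 (min θ2 (ω / (4 * R)))),
    lt_min (by norm_num) (lt_min hθ1 (lt_min hθ2 (by positivity))), min_le_left _ _, ?_⟩
  set θ := min (1 / 10) (min θ1 (min θ2 (ω / (4 * R)))) with hθd
  have hθa : θ ≤ 1 / 10 := min_le_left _ _
  have hθb : θ ≤ θ1 := (min_le_right _ _).trans (min_le_left _ _)
  have hθc : θ ≤ θ2 := (min_le_right _ _).trans ((min_le_right _ _).trans (min_le_left _ _))
  have hθe : θ * R ≤ ω / 4 := by
    have h1 : θ ≤ ω / (4 * R) :=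
      (min_le_right _ _).trans ((min_le_right _ _).trans (min_le_right _ _))
    rw [le_div_iff₀ (by positivity)] at h1
    linarith
  intro J0 T F Z hZR hZP hZS hZc _ _ L Tc T0 H hfit hL hT04 hT0c hTc2 hTcθ hH hHθ hdep A B hAB
    Bad m g hlvl hfld S0 hS0
  have hTc0 : 0 < Tc := by linarith
  have hTcL : 10 * Tc ≤ L := by
    have h1 : θ * L ≤ 1 / 10 * L := mul_le_mul_of_nonneg_right hθa (by linarith)
    linarith
  have hctx : Ctx L R μ ε c0 a m0 ω κ c1 θ C3 C5 om Tc T0 H T F Subtype.val Z A B Bad m g :=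
    { reg := hZR
      tile := hZP
      sharp := hZS
      comm := hZc
      fit := hfit
      depth := hdep
      side := hAB
      lvl := hlvl
      fld := hfld
      R1 := hR
      L1 := hL
      μ0 := hμ
      c00 := hc0
      c01 := hc01
      H0 := hH
      θ1 := hθa
      flat := hHθ
      Tc0 := hTc0
      TcL := hTcL
      TcT := hTc2
      T0c := by linarith
      μT := by linarith
      C30 := hC3.le
      κ0 := hκ0.le
      C50 := hC5.le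
      omω := hom1
      omC := hom2
      θω := hθe
      close := fun i hi hmg => hclose L (F i) (m i) (g i) hL (hi.trans hθb) hmg
      pair := fun i j hi hj hmi hmj r1 r2 r3 => hpair2 κ L (F i) (F j) (m i) (g i) (m j) (g j)
        hκ0.le hκ1 hL (hi.trans hθc) (hj.trans hθc) hmi hmj r1 r2 r3 }
  have hb3 : 6 * (C5 * κ * (3 * R) + (δ / om) ^ 2 * CJ) ≤ κ3 / 3 + κ3 / 3 := by
    rw [hδom]
    linarith
  have key := hctx.sum_le Subtype.val_injective (C4 := C3 + 2 + 4 * μ) hδ hom (by linarith)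
    (by linarith) hε.le rfl rfl rfl rfl S0 hS0
  refine ⟨fun i => fav L ε c0 a (Tc - C3 - 1) Tc c1 T F Bad m g i.1, ?_, key.trans ?_⟩
  · intro i r d hd
    beta_reduce
    apply fav_neg
    intro hU
    have h1 := (hctx.full (i := i) hU).2.2.2.1
    have h2 : d ∈ Z.T.bdEdges i := by
      unfold Win.low at hd
      exact (Finset.mem_filter.mp hd).1
    rw [h1] at h2
    exact absurd h2 (Finset.notMem_empty _)
  · rw [hb1]
    refine jump_num hb3 hb4 (Nat.cast_nonneg _) (Nat.cast_nonneg _) (Nat.cast_nonneg _) ?_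
    have hL0 : 0 < L := by linarith
    have hx : 0 ≤ 1 / 4 * (Tc * (μ / L)) * (H + Tc * R) := by positivity
    have e1 : 2 * Tc * (μ / L) * (H + Tc * R) =
        8 * (1 / 4 * (Tc * (μ / L)) * (H + Tc * R)) := by ring
    rw [e1]
    exact mul_le_mul_of_nonneg_right (by linarith) (Nat.cast_nonneg _)

end C2305bG
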