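import Pool.Agent.W_c2305b_h35.Flux

/-!
# Areas of triangles and polygons

The area of a triangle, and the area of a tile as the half sum of the cross products of its edges.
-/

namespace C2305b.TL

open Set Module MeasureTheory

/-- A line has measure zero. -/
lemma volume_line {f : V →L[ℝ] ℝ} (hf : f ≠ 0) (c : ℝ) : volume {x : V | f x = c} = 0 := by
  have hconv : Convex ℝ {x : V | f x = c} := by
    intro x hx y hy a b _ _ hab
    rw [mem_setOf_eq] at hx hy ⊢
    rw [map_add, map_smul, map_smul, hx, hy, ← add_smul, hab, one_smul]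
  have hcl : IsClosed {x : V | f x = c} := isClosed_eq f.continuous continuous_const
  have hint : interior {x : V | f x = c} = ∅ := by
    rw [Set.eq_empty_iff_forall_notMem]
    intro y hy
    have h1 := lt_of_mem_interior hf (c := c) (fun x hx => le_of_eq hx) hy
    have h2 : y ∈ {x : V | f x = c} := interior_subset hy
    rw [mem_setOf_eq] at h2
    linarith
  have h1 := hconv.addHaar_frontier volume
  rw [frontier, hcl.closure_eq, hint, sdiff_empty] at h1
  exact h1

/-- The linear map with columns `a`, `b`. -/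
noncomputable def lin2 (a b : V) : V →ₗ[ℝ] V :=
  Matrix.toLin (PiLp.basisFun 2 ℝ (Fin 2)) (PiLp.basisFun 2 ℝ (Fin 2)) !![a 0, b 0; a 1, b 1]

lemma lin2_det (a b : V) : LinearMap.det (lin2 a b) = cr a b := by
  unfold lin2
  rw [LinearMap.det_toLin, Matrix.det_fin_two_of]
  unfold cr
  ring

lemma lin2_apply (a b x : V) : lin2 a b x = x 0 • a + x 1 • b := by
  have h1 : lin2 a b x = WithLp.toLp 2 (!![a 0, b 0; a 1, b 1].mulVec (WithLp.ofLp x)) := rfl
  rw [h1]
  ext i
  fin_cases i
  · simp [Matrix.mulVec, dotProduct, Fin.sum_univ_two]; ring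
  · simp [Matrix.mulVec, dotProduct, Fin.sum_univ_two]; ring

/-- The standard triangle. -/
def tri0 : Set V := {x | 0 ≤ x 0 ∧ 0 ≤ x 1 ∧ x 0 + x 1 ≤ 1}

lemma volume_unit_square : volume {x : V | 0 ≤ x 0 ∧ x 0 ≤ 1 ∧ 0 ≤ x 1 ∧ x 1 ≤ 1} = 1 := by
  have hpre : {x : V | 0 ≤ x 0 ∧ x 0 ≤ 1 ∧ 0 ≤ x 1 ∧ x 1 ≤ 1} =
      (MeasurableEquiv.toLp 2 (Fin 2 → ℝ)).symm ⁻¹' (Set.Icc ![0, 0] ![1, 1]) := by
    ext v
    simp only [Set.mem_setOf_eq, Set.mem_preimage, Set.mem_Icc, Pi.le_def,
      Fin.forall_fin_two]
    simp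
    tauto
  rw [hpre, (EuclideanSpace.volume_preserving_symm_measurableEquiv_toLp
    (Fin 2)).measure_preimage_equiv]
  rw [Real.volume_Icc_pi]
  simp

lemma continuous_coord (i : Fin 2) : Continuous fun x : V => x i := by fun_prop

lemma isClosed_tri0 : IsClosed tri0 := by
  have h0 := continuous_coord 0
  have h1 := continuous_coord 1
  exact (isClosed_le continuous_const h0).inter ((isClosed_le continuous_const h1).inter
    (isClosed_le (h0.add h1) continuous_const))

lemma volume_tri0 : (volume tri0).toReal = 1 / 2 := by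
  let c : V := !₂[1, 1]
  have hc0 : c 0 = 1 := by simp [c]
  have hc1 : c 1 = 1 := by simp [c]
  set S1 : Set V := (fun x => c - x) ⁻¹' tri0 with hS1
  have hmeas : MeasurableSet tri0 := isClosed_tri0.measurableSet
  have hvol : volume S1 = volume tri0 :=
    (Measure.measurePreserving_sub_left volume c).measure_preimage hmeas.nullMeasurableSet
  have hmeas1 : MeasurableSet S1 := by
    have : Continuous fun x : V => c - x := by fun_prop
    exact (isClosed_tri0.preimage this).measurableSet
  have hunion : tri0 ∪ S1 = {x : V | 0 ≤ x 0 ∧ x 0 ≤ 1 ∧ 0 ≤ x 1 ∧ x 1 ≤ 1} := by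
    ext x
    simp only [tri0, hS1, mem_union, mem_setOf_eq, mem_preimage, PiLp.sub_apply, hc0, hc1]
    constructor
    · rintro (⟨h1, h2, h3⟩ | ⟨h1, h2, h3⟩)
      · refine ⟨h1, ?_, h2, ?_⟩ <;> linarith
      · refine ⟨?_, ?_, ?_, ?_⟩ <;> linarith
    · rintro ⟨h1, h2, h3, h4⟩
      rcases le_total (x 0 + x 1) 1 with h5 | h5
      · exact Or.inl ⟨h1, h3, h5⟩
      · refine Or.inr ⟨?_, ?_, ?_⟩ <;> linarith
  have hinter : volume (tri0 ∩ S1) = 0 := by
    have hf : crL (!₂[1, -1] : V) ≠ 0 := by
      apply crL_ne_zero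
      intro h0
      have := congrFun (congrArg WithLp.ofLp h0) 0
      simp at this
    have h1 := volume_line hf 1
    refine measure_mono_null ?_ h1
    intro x hx
    simp only [tri0, hS1, mem_inter_iff, mem_setOf_eq, mem_preimage, PiLp.sub_apply, hc0,
      hc1] at hx
    rw [mem_setOf_eq, crL_apply]
    simp [cr]
    linarith [hx.1.2.2, hx.2.2.2]
  have h1 := measure_union_add_inter (μ := volume) tri0 hmeas1
  rw [hunion, volume_unit_square, hinter, hvol, add_zero] at h1
  have h2 : volume tri0 ≠ ⊤ := by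
    intro h
    rw [h] at h1
    simp at h1
  have h3 := congrArg ENNReal.toReal h1
  rw [ENNReal.toReal_add h2 h2] at h3
  simp at h3
  linarith

/-- The triangle as an affine image of the standard one. -/
lemma triangle_eq (o v w : V) :
    convexHull ℝ ({o, v, w} : Set V) = (fun x => o + x) '' (lin2 (v - o) (w - o) '' tri0) := by
  apply Subset.antisymm
  · apply convexHull_min
    · rintro y (rfl | rfl | rfl)
      · exact ⟨0, ⟨0, by simp [tri0], by simp⟩, by simp⟩
      · refine ⟨y - o, ⟨EuclideanSpace.single 0 1, by simp [tri0], ?_⟩, by simp⟩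
        rw [lin2_apply]; simp
      · refine ⟨y - o, ⟨EuclideanSpace.single 1 1, by simp [tri0], ?_⟩, by simp⟩
        rw [lin2_apply]; simp
    · have h1 : Convex ℝ tri0 := by
        intro x hx y hy a b ha hb hab
        obtain ⟨h1, h2, h3⟩ := hx
        obtain ⟨h4, h5, h6⟩ := hy
        refine ⟨?_, ?_, ?_⟩
        · simp only [PiLp.add_apply, PiLp.smul_apply, smul_eq_mul]
          positivity
        · simp only [PiLp.add_apply, PiLp.smul_apply, smul_eq_mul]
          positivity
        · simp only [PiLp.add_apply, PiLp.smul_apply, smul_eq_mul]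
          have : a * x 0 + b * y 0 + (a * x 1 + b * y 1) =
            a * (x 0 + x 1) + b * (y 0 + y 1) := by ring
          rw [this]
          calc a * (x 0 + x 1) + b * (y 0 + y 1) ≤ a * 1 + b * 1 :=
                add_le_add (mul_le_mul_of_nonneg_left h3 ha) (mul_le_mul_of_nonneg_left h6 hb)
            _ = 1 := by linarith
      exact (h1.linear_image _).translate o
  · rintro _ ⟨_, ⟨x, ⟨h1, h2, h3⟩, rfl⟩, rfl⟩
    simp only
    rw [lin2_apply]
    have ho : o ∈ convexHull ℝ ({o, v, w} : Set V) := subset_convexHull ℝ _ (by simp)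
    have hv : v ∈ convexHull ℝ ({o, v, w} : Set V) := subset_convexHull ℝ _ (by simp)
    have hw : w ∈ convexHull ℝ ({o, v, w} : Set V) := subset_convexHull ℝ _ (by simp)
    have h4 := (convex_convexHull ℝ ({o, v, w} : Set V)).sum_mem (t := Finset.univ)
      (w := ![1 - x 0 - x 1, x 0, x 1]) (z := ![o, v, w]) (by
        intro i _
        fin_cases i
        · simp; linarith
        · simpa using h1
        · simpa using h2) (by simp [Fin.sum_univ_three]; ring) (by
        intro i _
        fin_cases i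
        · simpa using ho
        · simpa using hv
        · simpa using hw)
    rw [Fin.sum_univ_three] at h4
    simp only [Matrix.cons_val_zero, Matrix.cons_val_one, Matrix.cons_val] at h4
    have h5 : o + (x 0 • (v - o) + x 1 • (w - o)) =
      (1 - x 0 - x 1) • o + x 0 • v + x 1 • w := by module
    rw [h5]
    exact h4

/-- **Area of a triangle.** -/
theorem volume_triangle (o v w : V) :
    (volume (convexHull ℝ ({o, v, w} : Set V))).toReal = |cr (v - o) (w - o)| / 2 := by
  rw [triangle_eq, image_add_left, measure_preimage_add, Measure.addHaar_image_linearMap,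
    ENNReal.toReal_mul, lin2_det, volume_tri0, ENNReal.toReal_ofReal (abs_nonneg _)]
  ring

lemma volume_triangle_ne_top (o v w : V) :
    volume (convexHull ℝ ({o, v, w} : Set V)) ≠ ⊤ :=
  ((Set.toFinite _).isCompact_convexHull ℝ).measure_lt_top.ne

lemma mem_triangle_of_segment {o v w y x : V} {s : ℝ} (hy : y ∈ segment ℝ v w)
    (hs : s ∈ Icc (0:ℝ) 1) (hx : x = o + s • (y - o)) :
    x ∈ convexHull ℝ ({o, v, w} : Set V) := by
  have ho : o ∈ convexHull ℝ ({o, v, w} : Set V) := subset_convexHull ℝ _ (by simp)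
  have hv : v ∈ convexHull ℝ ({o, v, w} : Set V) := subset_convexHull ℝ _ (by simp)
  have hw : w ∈ convexHull ℝ ({o, v, w} : Set V) := subset_convexHull ℝ _ (by simp)
  have hyT : y ∈ convexHull ℝ ({o, v, w} : Set V) :=
    (convex_convexHull ℝ _).segment_subset hv hw hy
  apply (convex_convexHull ℝ _).segment_subset ho hyT
  rw [segment_eq_image']
  exact ⟨s, hs, hx.symm⟩

lemma exists_segment_of_mem_triangle {o v w x : V}
    (hx : x ∈ convexHull ℝ ({o, v, w} : Set V)) :
    ∃ y ∈ segment ℝ v w, ∃ s ∈ Icc (0:ℝ) 1, x = o + s • (y - o) := by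
  rw [triangle_eq] at hx
  obtain ⟨_, ⟨z, ⟨h1, h2, h3⟩, rfl⟩, rfl⟩ := hx
  simp only
  rw [lin2_apply]
  by_cases h0 : z 0 + z 1 = 0
  · have e0 : z 0 = 0 := by linarith
    have e1 : z 1 = 0 := by linarith
    exact ⟨v, left_mem_segment ℝ v w, 0, by simp, by rw [e0, e1]; simp⟩
  · have hpos : 0 < z 0 + z 1 := lt_of_le_of_ne (by linarith) (Ne.symm h0)
    refine ⟨(z 0 / (z 0 + z 1)) • v + (z 1 / (z 0 + z 1)) • w,
      ⟨z 0 / (z 0 + z 1), z 1 / (z 0 + z 1), div_nonneg h1 hpos.le, div_nonneg h2 hpos.le,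
        by rw [← add_div, div_self h0], rfl⟩, z 0 + z 1, ⟨hpos.le, h3⟩, ?_⟩
    have e0 : (z 0 + z 1) * (z 0 / (z 0 + z 1)) = z 0 := by field_simp
    have e1 : (z 0 + z 1) * (z 1 / (z 0 + z 1)) = z 1 := by field_simp
    have e2 : (z 0 + z 1) • ((z 0 / (z 0 + z 1)) • v + (z 1 / (z 0 + z 1)) • w - o) =
        ((z 0 + z 1) * (z 0 / (z 0 + z 1))) • v + ((z 0 + z 1) * (z 1 / (z 0 + z 1))) • w -
          (z 0 + z 1) • o := by module
    rw [e2, e0, e1]
    module

namespace Tiling

variable {ι : Type*} (T : Tiling ι)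

/-- A point of an open edge of a tile is on no other edge of the tile. -/
lemma edge_eq_of_mem {i : ι} {v w v' w' m : V} (h : T.E i v w) (h' : T.E i v' w')
    (hm : m ∈ openSegment ℝ v w) (hm' : m ∈ segment ℝ v' w') : v' = v ∧ w' = w := by
  have hmW : m ∉ T.W := fun h0 => h.2.2.2.2 m h0 hm
  obtain ⟨hv, hw, hne, hl, ho⟩ := h
  obtain ⟨hv', hw', hne', hl', ho'⟩ := h'
  have hwv : w - v ≠ 0 := sub_ne_zero.mpr hne
  have hwv' : w' - v' ≠ 0 := sub_ne_zero.mpr hne'
  obtain ⟨s, hs, hms⟩ : ∃ s ∈ Ioo (0:ℝ) 1, m = v + s • (w - v) := by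
    rw [openSegment_eq_image'] at hm
    obtain ⟨s, hs, h1⟩ := hm
    exact ⟨s, hs, h1.symm⟩
  obtain ⟨r, hr, hmr⟩ : ∃ r ∈ Icc (0:ℝ) 1, m = v' + r • (w' - v') := by
    rw [segment_eq_image'] at hm'
    obtain ⟨r, hr, h1⟩ := hm'
    exact ⟨r, hr, h1.symm⟩
  have hr0 : r ≠ 0 := by
    rintro rfl
    rw [zero_smul, add_zero] at hmr
    exact hmW (hmr ▸ hv'.1)
  have hr1 : r ≠ 1 := by
    rintro rfl
    rw [one_smul] at hmr
    exact hmW (by rw [hmr]; simpa using hw'.1)
  have hr0' : 0 < r := lt_of_le_of_ne hr.1 hr0.symm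
  have hr1' : r < 1 := lt_of_le_of_ne hr.2 hr1
  have e1 := hl v' hv'.2
  have e2 := hl w' hw'.2
  have e3 : (1 - r) * cr (w - v) (v' - v) + r * cr (w - v) (w' - v) = 0 := by
    have h1 : cr (w - v) (m - v) = 0 := by
      rw [hms, add_sub_cancel_left, cr_smul_right, cr_self, mul_zero]
    have h2 : m - v = (1 - r) • (v' - v) + r • (w' - v) := by
      rw [hmr]; module
    rw [h2, cr_add_right, cr_smul_right, cr_smul_right] at h1
    exact h1
  have f1 : 0 ≤ (1 - r) * cr (w - v) (v' - v) := mul_nonneg (by linarith) e1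
  have f2 : 0 ≤ r * cr (w - v) (w' - v) := mul_nonneg hr.1 e2
  have e4 : cr (w - v) (v' - v) = 0 := by
    have : (1 - r) * cr (w - v) (v' - v) = 0 := by linarith
    rcases mul_eq_zero.mp this with h1 | h1
    · linarith
    · exact h1
  have e5 : cr (w - v) (w' - v) = 0 := by
    have : r * cr (w - v) (w' - v) = 0 := by linarith
    rcases mul_eq_zero.mp this with h1 | h1
    · linarith
    · exact h1
  obtain ⟨α, hα⟩ := exists_smul_of_cr_eq_zero hwv e4
  obtain ⟨β, hβ⟩ := exists_smul_of_cr_eq_zero hwv e5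
  have hsub : w' - v' = (β - α) • (w - v) := by
    rw [sub_smul, ← hα, ← hβ]; abel
  have hβα : α < β := by
    obtain ⟨o, ho1⟩ := T.nonem i
    have h1 := cr_pos_of_mem_interior hwv' hl' ho1
    rw [hsub, cr_smul_left] at h1
    have h2 : cr (w - v) (o - v') = cr (w - v) (o - v) - cr (w - v) (v' - v) := by
      rw [← cr_sub_right]; congr 1; abel
    rw [h2, e4, sub_zero] at h1
    have h3 := hl o (interior_subset ho1)
    by_contra h4
    push Not at h4
    linarith [mul_nonneg (sub_nonneg.mpr h4) h3]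
  have hmid : s = α + r * (β - α) := by
    have h1 : s • (w - v) = (α + r * (β - α)) • (w - v) := by
      have h2 : m - v = s • (w - v) := by rw [hms]; abel
      have h3 : m - v = (α + r * (β - α)) • (w - v) := by
        rw [hmr, hsub, add_smul, mul_smul, ← hα]; abel
      rw [← h2, h3]
    have h2 : (s - (α + r * (β - α))) • (w - v) = 0 := by rw [sub_smul, h1, sub_self]
    rcases smul_eq_zero.mp h2 with h3 | h3
    · linarith
    · exact absurd h3 hwv
  have hsα : α < s := by nlinarith
  have hβs : s < β := by nlinarith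
  have hα0 : α ≤ 0 := by
    by_contra h1
    push Not at h1
    apply ho v' hv'.1
    rw [openSegment_eq_image']
    exact ⟨α, ⟨h1, by linarith [hs.2]⟩, by simp only; rw [← hα]; abel⟩
  have hβ1 : 1 ≤ β := by
    by_contra h1
    push Not at h1
    apply ho w' hw'.1
    rw [openSegment_eq_image']
    exact ⟨β, ⟨by linarith [hs.1], h1⟩, by simp only; rw [← hβ]; abel⟩
  have hmem : ∀ t : ℝ, α < t → t < β → v + t • (w - v) ∈ openSegment ℝ v' w' := by
    intro t h1 h2
    rw [openSegment_eq_image']
    refine ⟨(t - α) / (β - α), ⟨div_pos (by linarith) (by linarith),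
      by rw [div_lt_one (by linarith)]; linarith⟩, ?_⟩
    simp only
    have h3 : (t - α) / (β - α) * (β - α) = t - α := by
      have : β - α ≠ 0 := by linarith
      field_simp
    rw [hsub, smul_smul, h3, sub_smul, ← hα]; abel
  have hα2 : α = 0 := by
    by_contra h1
    have h2 : α < 0 := lt_of_le_of_ne hα0 h1
    have h3 := hmem 0 h2 (by linarith)
    rw [zero_smul, add_zero] at h3
    exact ho' v hv.1 h3
  have hβ2 : β = 1 := by
    by_contra h1
    have h2 : (1 : ℝ) < β := lt_of_le_of_ne hβ1 (Ne.symm h1)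
    have h3 := hmem 1 (by linarith) h2
    rw [one_smul, add_sub_cancel] at h3
    exact ho' w hw.1 h3
  rw [hα2, zero_smul, sub_eq_zero] at hα
  rw [hβ2, one_smul, sub_left_inj] at hβ
  exact ⟨hα, hβ⟩

/-- Points of an edge are not interior to the tile. -/
lemma not_interior_of_edge {i : ι} {v w m : V} (h : T.E i v w) (hm : m ∈ segment ℝ v w) :
    m ∉ interior (T.P i) := by
  intro h0
  have h1 := cr_pos_of_mem_interior (sub_ne_zero.mpr h.2.2.1) h.2.2.2.1 h0
  rw [segment_eq_image'] at hm
  obtain ⟨s, _, hs⟩ := hm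
  rw [← hs] at h1
  simp only at h1
  rw [add_sub_cancel_left, cr_smul_right, cr_self, mul_zero] at h1
  exact lt_irrefl _ h1

/-- The cone of an edge seen from a point. -/
def cone (o : V) (p : V × V) : Set V := convexHull ℝ ({o, p.1, p.2} : Set V)

/-- The tile is the union of the triangles over its edges, seen from an interior point. -/
lemma eq_iUnion_cone {i : ι} {o : V} (ho : o ∈ interior (T.P i)) :
    T.P i = ⋃ p ∈ T.edges i, cone o p := by
  apply Subset.antisymm
  · intro x hx
    by_cases hxo : x = o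
    · obtain ⟨y, hy⟩ : (T.edges i).Nonempty := by
        have hne : (T.P i).Nonempty := ⟨x, hx⟩
        rw [T.hull i, convexHull_nonempty_iff] at hne
        obtain ⟨v, hv⟩ := hne
        obtain ⟨w, hw⟩ := T.exists_next i hv.1 hv.2
        exact ⟨(v, w), T.mem_edges.mpr hw⟩
      refine mem_iUnion₂.mpr ⟨y, hy, ?_⟩
      rw [hxo]
      exact subset_convexHull ℝ _ (by simp)
    · -- the exit point of the ray from o through x
      have hcont : Continuous fun t : ℝ => o + t • (x - o) := by fun_prop
      have hbd : Bornology.IsBounded (T.P i) := (T.comp i).isBounded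
      obtain ⟨M, hM⟩ := hbd.exists_norm_le
      have hxo' : 0 < ‖x - o‖ := norm_pos_iff.mpr (sub_ne_zero.mpr hxo)
      have hS : IsCompact ({t : ℝ | o + t • (x - o) ∈ T.P i} ∩
          Icc 1 ((M + ‖o‖) / ‖x - o‖ + 1)) :=
        isCompact_Icc.inter_left ((T.comp i).isClosed.preimage hcont)
      have hM0 : 0 ≤ M := (norm_nonneg x).trans (hM x hx)
      have hne : ({t : ℝ | o + t • (x - o) ∈ T.P i} ∩
          Icc 1 ((M + ‖o‖) / ‖x - o‖ + 1)).Nonempty := by
        refine ⟨1, by simpa using hx, le_refl _, ?_⟩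
        have : 0 ≤ (M + ‖o‖) / ‖x - o‖ := by positivity
        linarith
      obtain ⟨t, ht, htmax⟩ := hS.exists_isGreatest hne
      have hbound : ∀ s : ℝ, 0 ≤ s → o + s • (x - o) ∈ T.P i → s ≤ (M + ‖o‖) / ‖x - o‖ := by
        intro s hs0 hs
        rw [le_div_iff₀ hxo']
        have h1 : s * ‖x - o‖ = ‖s • (x - o)‖ := by
          rw [norm_smul, Real.norm_eq_abs, abs_of_nonneg hs0]
        have h2 : s • (x - o) = (o + s • (x - o)) - o := by abel
        rw [h1, h2]
        exact (norm_sub_le _ _).trans (add_le_add (hM _ hs) le_rfl)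
      have ht1 : 1 ≤ t := ht.2.1
      have hnotint : o + t • (x - o) ∉ interior (T.P i) := by
        intro h0
        have h1 : ∀ᶠ s in nhds t, o + s • (x - o) ∈ interior (T.P i) :=
          hcont.continuousAt.eventually (isOpen_interior.mem_nhds h0)
        obtain ⟨ε, hε, hball⟩ := Metric.eventually_nhds_iff.mp h1
        have h2 : dist (t + ε / 2) t < ε := by
          rw [Real.dist_eq, show t + ε / 2 - t = ε / 2 by ring, abs_of_pos (by linarith)]
          linarith
        have h3 : o + (t + ε / 2) • (x - o) ∈ T.P i := interior_subset (hball h2)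
        have h4 := hbound (t + ε / 2) (by linarith) h3
        have h5 := htmax ⟨h3, by linarith, by linarith⟩
        linarith
      obtain ⟨v, w, hE, hseg⟩ := T.exists_edge i ht.1 hnotint
      refine mem_iUnion₂.mpr ⟨(v, w), T.mem_edges.mpr hE, ?_⟩
      apply mem_triangle_of_segment hseg (s := 1 / t)
      · exact ⟨by positivity, by rw [div_le_one (by linarith)]; exact ht1⟩
      · rw [add_sub_cancel_left, smul_smul, one_div, inv_mul_cancel₀ (by linarith), one_smul]
        abel
  · intro x hx
    obtain ⟨p, hp, hxp⟩ := mem_iUnion₂.mp hx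
    rw [T.mem_edges] at hp
    refine convexHull_min ?_ (T.conv i) hxp
    rintro y (rfl | rfl | rfl)
    · exact interior_subset ho
    · exact hp.1.2
    · exact hp.2.1.2

/-- Two triangles over different edges, seen from an interior point, overlap in a null set. -/
lemma cone_inter_null {i : ι} {o : V} (ho : o ∈ interior (T.P i)) {p q : V × V}
    (hp : p ∈ T.edges i) (hq : q ∈ T.edges i) (hpq : p ≠ q) :
    volume (cone o p ∩ cone o q) = 0 := by
  rw [T.mem_edges] at hp hq
  have hv : p.1 - o ≠ 0 := by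
    intro h0
    rw [sub_eq_zero] at h0
    exact T.vert i p.1 hp.1.1 (h0 ▸ ho)
  have hw : p.2 - o ≠ 0 := by
    intro h0
    rw [sub_eq_zero] at h0
    exact T.vert i p.2 hp.2.1.1 (h0 ▸ ho)
  have h1 := volume_line (crL_ne_zero hv) (cr (p.1 - o) o)
  have h2 := volume_line (crL_ne_zero hw) (cr (p.2 - o) o)
  refine measure_mono_null ?_ (measure_union_null h1 h2)
  rintro x ⟨hx1, hx2⟩
  obtain ⟨y, hy, s, hs, hxs⟩ := exists_segment_of_mem_triangle hx1
  obtain ⟨y', hy', s', hs', hxs'⟩ := exists_segment_of_mem_triangle hx2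
  have hline : ∀ (u : V) (r : ℝ), x = o + r • u → crL u x = cr u o := by
    intro u r h
    rw [crL_apply, h, cr_add_right, cr_smul_right, cr_self, mul_zero, add_zero]
  by_cases hxo : x = o
  · left
    rw [mem_setOf_eq, crL_apply, hxo]
  have hs0 : s ≠ 0 := by
    rintro rfl
    rw [zero_smul, add_zero] at hxs
    exact hxo hxs
  have hs0' : s' ≠ 0 := by
    rintro rfl
    rw [zero_smul, add_zero] at hxs'
    exact hxo hxs'
  have hspos : 0 < s := lt_of_le_of_ne hs.1 hs0.symm
  have hspos' : 0 < s' := lt_of_le_of_ne hs'.1 hs0'.symm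
  have hyP : y ∈ T.P i := (T.conv i).segment_subset hp.1.2 hp.2.1.2 hy
  have hyP' : y' ∈ T.P i := (T.conv i).segment_subset hq.1.2 hq.2.1.2 hy'
  have hyi := T.not_interior_of_edge hp hy
  have hyi' := T.not_interior_of_edge hq hy'
  have heq : s • (y - o) = s' • (y' - o) := by
    have := hxs.symm.trans hxs'
    exact add_left_cancel this
  have hyy : y = y' := by
    rcases lt_trichotomy s s' with h | h | h
    · exfalso
      apply hyi'
      -- y' = o + (s / s') (y - o)
      apply (T.conv i).openSegment_interior_self_subset_interior ho hyP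
      rw [openSegment_eq_image']
      refine ⟨s / s', ⟨div_pos hspos hspos', by rw [div_lt_one hspos']; exact h⟩, ?_⟩
      simp only
      rw [div_eq_inv_mul, mul_smul, heq, smul_smul, inv_mul_cancel₀ hs0', one_smul]
      abel
    · rw [h] at heq
      have h3 := smul_right_injective V hs0' heq
      exact sub_left_inj.mp h3
    · exfalso
      apply hyi
      apply (T.conv i).openSegment_interior_self_subset_interior ho hyP'
      rw [openSegment_eq_image']
      refine ⟨s' / s, ⟨div_pos hspos' hspos, by rw [div_lt_one hspos]; exact h⟩, ?_⟩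
      simp only
      rw [div_eq_inv_mul, mul_smul, ← heq, smul_smul, inv_mul_cancel₀ hs0, one_smul]
      abel
  by_cases hyv : y = p.1
  · left
    exact hline (p.1 - o) s (by rw [← hyv]; exact hxs)
  by_cases hyw : y = p.2
  · right
    exact hline (p.2 - o) s (by rw [← hyw]; exact hxs)
  · exfalso
    have hopen : y ∈ openSegment ℝ p.1 p.2 :=
      mem_openSegment_of_ne_left_right (Ne.symm hyv) (Ne.symm hyw) hy
    obtain ⟨e1, e2⟩ := T.edge_eq_of_mem hp hq hopen (hyy ▸ hy')
    exact hpq (Prod.ext e1.symm e2.symm)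

lemma cr_edge {i : ι} {v w o : V} (h : T.E i v w) (ho : o ∈ T.P i) : 0 ≤ cr (v - o) (w - o) := by
  have h1 := h.2.2.2.1 o ho
  have h2 : cr (v - o) (w - o) = cr (w - v) (o - v) := by simp [cr]; ring
  rw [h2]; exact h1

/-- **Area of a tile.** -/
theorem volume_tile (i : ι) (o : V) :
    (volume (T.P i)).toReal = (∑ p ∈ T.edges i, cr (p.1 - o) (p.2 - o)) / 2 := by
  obtain ⟨c, hc⟩ := T.nonem i
  have h1 : volume (T.P i) = ∑ p ∈ T.edges i, volume (cone c p) := by
    rw [T.eq_iUnion_cone hc]
    apply measure_biUnion_finset₀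
    · intro p hp q hq hpq
      exact T.cone_inter_null hc hp hq hpq
    · intro p _
      have : IsClosed (cone c p) := ((Set.toFinite _).isCompact_convexHull ℝ).isClosed
      exact this.measurableSet.nullMeasurableSet
  have h2 : (volume (T.P i)).toReal = (∑ p ∈ T.edges i, cr (p.1 - c) (p.2 - c)) / 2 := by
    rw [h1, ENNReal.toReal_sum (fun p _ => by unfold cone; exact volume_triangle_ne_top _ _ _),
      Finset.sum_div]
    apply Finset.sum_congr rfl
    intro p hp
    rw [T.mem_edges] at hp
    unfold cone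
    rw [volume_triangle, abs_of_nonneg (T.cr_edge hp (interior_subset hc))]
  rw [h2]
  have h3 : ∀ z : V, ∑ p ∈ T.edges i, cr (p.1 - z) (p.2 - z) =
      ∑ p ∈ T.edges i, cr p.1 p.2 := by
    intro z
    have h4 := T.sum_edges_sub i (fun v => cr z v)
    have h5 : ∀ p : V × V, cr (p.1 - z) (p.2 - z) = cr p.1 p.2 - (cr z p.2 - cr z p.1) := by
      intro p; simp [cr]; ring
    simp only [h5]
    rw [Finset.sum_sub_distrib, h4, sub_zero]
  rw [h3 c, h3 o]

/-- Area of a tile from the origin. -/
theorem volume_tile' (i : ι) :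
    (volume (T.P i)).toReal = (∑ p ∈ T.edges i, cr p.1 p.2) / 2 := by
  have := T.volume_tile i 0
  simpa using this

end Tiling

end C2305b.TL
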