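import Pool.Agent.W_c2305b_h35.CellsPoly
import Pool.Agent.W_c2305b_h35.Flux

/-!
# Construction of tilings

Finitely many compact convex polygons given by half-planes, with interiors nonempty and pairwise
disjoint and convex union, form a tiling; tilings can be clipped by half-planes.
-/

namespace C2305b.TL

open Set Module C2305b.Cells

/-- A nonzero vector in the kernel of a functional. -/
lemma exists_ker (f : V →L[ℝ] ℝ) : ∃ u : V, u ≠ 0 ∧ f u = 0 := by
  by_cases h : f (EuclideanSpace.single 0 1) = 0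
  · refine ⟨EuclideanSpace.single 0 1, ?_, h⟩
    intro h0
    have := congrFun (congrArg WithLp.ofLp h0) 0
    simp at this
  · refine ⟨f (EuclideanSpace.single 1 1) • EuclideanSpace.single 0 1 -
      f (EuclideanSpace.single 0 1) • EuclideanSpace.single 1 1, ?_, ?_⟩
    · intro h0
      have := congrFun (congrArg WithLp.ofLp h0) 1
      simp at this
      exact h this
    · rw [map_sub, map_smul, map_smul, smul_eq_mul, smul_eq_mul]; ring

/-- Two functionals with a common nonzero kernel vector: the kernel of a nonzero one is in the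
kernel of the other. -/
lemma ker_sub {f g : V →L[ℝ] ℝ} (hf : f ≠ 0) {u u' : V} (hu' : u' ≠ 0) (h1 : f u' = 0)
    (h2 : g u' = 0) (h3 : f u = 0) : g u = 0 := by
  obtain ⟨l, hl⟩ := functional_eq hu' h1
  have hl0 : l ≠ 0 := by
    rintro rfl
    apply hf
    ext y; rw [hl]; simp
  obtain ⟨l', hl'⟩ := functional_eq hu' h2
  rw [hl] at h3
  rcases mul_eq_zero.mp h3 with h4 | h4
  · exact absurd h4 hl0
  · rw [hl', h4, mul_zero]

/-- The extreme points of an intersection of finitely many half-planes are finitely many. -/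
theorem extremePoints_poly_finite (s : Finset ((V →L[ℝ] ℝ) × ℝ)) :
    ((Cells.Poly s).extremePoints ℝ).Finite := by
  classical
  have hsub : (Cells.Poly s).extremePoints ℝ ⊆ ⋃ pq ∈ s ×ˢ s,
      {v | pq.1.1 v = pq.1.2 ∧ pq.2.1 v = pq.2.2 ∧
        ∀ u, pq.1.1 u = 0 → pq.2.1 u = 0 → u = 0} := by
    intro v hv
    by_contra hcon
    have hall : ∀ p ∈ s, ∀ q ∈ s, p.1 v = p.2 → q.1 v = q.2 →
        ∃ u, u ≠ 0 ∧ p.1 u = 0 ∧ q.1 u = 0 := by
      intro p hp q hq h1 h2
      by_contra h3
      push Not at h3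
      apply hcon
      refine mem_iUnion₂.mpr ⟨(p, q), Finset.mem_product.mpr ⟨hp, hq⟩, h1, h2, ?_⟩
      intro u hu1 hu2
      by_contra hu0
      exact h3 u hu0 hu1 hu2
    obtain ⟨u, hu0, hu⟩ : ∃ u : V, u ≠ 0 ∧ ∀ p ∈ s, p.1 v = p.2 → p.1 u = 0 := by
      by_cases hz : ∃ p ∈ s, p.1 v = p.2 ∧ p.1 ≠ 0
      · obtain ⟨p, hp, hpv, hp0⟩ := hz
        obtain ⟨u, hu0, hu⟩ := exists_ker p.1
        refine ⟨u, hu0, fun q hq hqv => ?_⟩
        obtain ⟨u', hu'0, h1, h2⟩ := hall p hp q hq hpv hqv
        exact ker_sub hp0 hu'0 h1 h2 hu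
      · push Not at hz
        refine ⟨EuclideanSpace.single 0 1, ?_, fun p hp hpv => by rw [hz p hp hpv]; simp⟩
        intro h0
        have := congrFun (congrArg WithLp.ofLp h0) 0
        simp at this
    -- a small move in both directions
    have hev : ∀ᶠ t : ℝ in nhds 0, ∀ p ∈ s, p.1 (v + t • u) ≤ p.2 := by
      rw [Filter.eventually_all_finset]
      intro p hp
      rcases (hv.1 p hp).lt_or_eq with h | h
      · have hc : Continuous fun t : ℝ => p.1 (v + t • u) := by fun_prop
        have h1 : p.1 (v + (0:ℝ) • u) < p.2 := by simpa using h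
        filter_upwards [hc.continuousAt.eventually (gt_mem_nhds h1)] with t ht
        exact ht.le
      · filter_upwards with t
        rw [map_add, map_smul, hu p hp h, smul_zero, add_zero, h]
    obtain ⟨ε, hε, hball⟩ := Metric.eventually_nhds_iff.mp hev
    have h1 : v + (ε / 2) • u ∈ Cells.Poly s := hball (by
      rw [Real.dist_eq, sub_zero, abs_of_pos (by linarith)]; linarith)
    have h2 : v + (-(ε / 2)) • u ∈ Cells.Poly s := hball (by
      rw [Real.dist_eq, sub_zero, abs_neg, abs_of_pos (by linarith)]; linarith)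
    have h3 : v ∈ openSegment ℝ (v + (ε / 2) • u) (v + (-(ε / 2)) • u) :=
      ⟨1/2, 1/2, by norm_num, by norm_num, by norm_num, by module⟩
    have h4 := hv.2 h1 h2 h3
    have h5 : (ε / 2) • u = 0 := by
      have := h4
      rwa [add_eq_left] at this
    rcases smul_eq_zero.mp h5 with h6 | h6
    · linarith
    · exact hu0 h6
  refine Set.Finite.subset (Set.Finite.biUnion (s ×ˢ s).finite_toSet ?_) hsub
  intro pq _
  apply Set.Subsingleton.finite
  intro a ha b hb
  have h1 : pq.1.1 (a - b) = 0 := by rw [map_sub, ha.1, hb.1, sub_self]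
  have h2 : pq.2.1 (a - b) = 0 := by rw [map_sub, ha.2.1, hb.2.1, sub_self]
  exact sub_eq_zero.mp (ha.2.2 _ h1 h2)

/-- Extreme points are not interior. -/
lemma not_interior_of_extreme {S : Set V} {w : V} (hw : w ∈ S.extremePoints ℝ) :
    w ∉ interior S := by
  intro h
  set u : V := EuclideanSpace.single 0 1 with hu
  have hu0 : u ≠ 0 := by
    intro h0
    have := congrFun (congrArg WithLp.ofLp h0) 0
    simp [hu] at this
  have hc : Continuous fun t : ℝ => w + t • u := by fun_prop
  have hev : ∀ᶠ t : ℝ in nhds 0, w + t • u ∈ interior S :=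
    hc.continuousAt.eventually (isOpen_interior.mem_nhds (by simpa using h))
  obtain ⟨ε, hε, hball⟩ := Metric.eventually_nhds_iff.mp hev
  have h1 : w + (ε / 2) • u ∈ interior S := hball (by
    rw [Real.dist_eq, sub_zero, abs_of_pos (by linarith)]; linarith)
  have h2 : w + (-(ε / 2)) • u ∈ interior S := hball (by
    rw [Real.dist_eq, sub_zero, abs_neg, abs_of_pos (by linarith)]; linarith)
  have h3 : w ∈ openSegment ℝ (w + (ε / 2) • u) (w + (-(ε / 2)) • u) :=
    ⟨1/2, 1/2, by norm_num, by norm_num, by norm_num, by module⟩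
  have h4 := hw.2 (interior_subset h1) (interior_subset h2) h3
  have h5 : (ε / 2) • u = 0 := by
    have := h4
    rwa [add_eq_left] at this
  rcases smul_eq_zero.mp h5 with h6 | h6
  · linarith
  · exact hu0 h6

/-- **Constructor.** Finitely many compact convex sets with finitely many extreme points. -/
theorem exists_tiling {ι : Type*} [Finite ι] (P : ι → Set V) (hconv : ∀ i, Convex ℝ (P i))
    (hc : ∀ i, IsCompact (P i)) (hi : ∀ i, (interior (P i)).Nonempty)
    (hd : Pairwise fun i j => Disjoint (interior (P i)) (interior (P j)))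
    (hfin : ∀ i, ((P i).extremePoints ℝ).Finite) (hR : Convex ℝ (⋃ i, P i))
    (A : Finset V) (hA : ∀ a ∈ A, ∀ i, a ∉ interior (P i)) :
    ∃ T : Tiling ι, T.P = P ∧ T.R = ⋃ i, P i ∧
      ∀ w, w ∈ T.W ↔ w ∈ A ∨ ∃ i, w ∈ (P i).extremePoints ℝ := by
  classical
  have hWfin : (⋃ i, (P i).extremePoints ℝ).Finite := Set.finite_iUnion hfin
  let W : Finset V := A ∪ hWfin.toFinset
  have hmemW : ∀ w, w ∈ W ↔ w ∈ A ∨ ∃ i, w ∈ (P i).extremePoints ℝ := by
    intro w
    simp only [W, Finset.mem_union, Set.Finite.mem_toFinset, mem_iUnion]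
  have hclos : ∀ i, closure (interior (P i)) = P i := by
    intro i
    rw [(hconv i).closure_interior_eq_closure_of_nonempty_interior (hi i),
      (hc i).isClosed.closure_eq]
  refine ⟨⟨⋃ i, P i, P, W, hR, hconv, hc, hi, hd, rfl, ?_, ?_⟩, rfl, rfl, hmemW⟩
  · intro i
    apply Subset.antisymm
    · have h1 : convexHull ℝ ((P i).extremePoints ℝ) = P i := by
        have h2 := closure_convexHull_extremePoints (hc i) (hconv i)
        rw [← ((hfin i).isClosed_convexHull ℝ).closure_eq]
        exact h2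
      rw [← h1]
      apply convexHull_mono
      rw [h1]
      intro x hx
      exact ⟨(hmemW x).mpr (Or.inr ⟨i, hx⟩), hx.1⟩
    · exact convexHull_min inter_subset_right (hconv i)
  · intro i w hw
    rcases (hmemW w).mp hw with h | ⟨j, hj⟩
    · exact hA w h i
    · by_cases hij : i = j
      · rw [hij]; exact not_interior_of_extreme hj
      · intro hwi
        have h1 : w ∈ closure (interior (P j)) := by rw [hclos j]; exact hj.1
        obtain ⟨y, hy1, hy2⟩ := mem_closure_iff.mp h1 _ isOpen_interior hwi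
        exact Set.disjoint_left.mp (hd hij) hy1 hy2

/-- Half-plane form of a tile. -/
lemma Tiling.exists_poly {ι : Type*} (T : Tiling ι) (i : ι) :
    ∃ s : Finset ((V →L[ℝ] ℝ) × ℝ), T.P i = Cells.Poly s := by
  classical
  refine ⟨(T.edges i).image fun p => (-crL (p.2 - p.1), -cr (p.2 - p.1) p.1), ?_⟩
  rw [T.hrep i]
  ext x
  simp only [Cells.Poly, Finset.mem_image, mem_setOf_eq]
  constructor
  · rintro h q ⟨p, hp, rfl⟩
    have := h p.1 p.2 ((T.mem_edges).mp hp)
    rw [cr_sub_right] at this
    simp only [ContinuousLinearMap.neg_apply, crL_apply]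
    linarith
  · intro h v w hE
    have := h _ ⟨(v, w), (T.mem_edges).mpr hE, rfl⟩
    simp only [ContinuousLinearMap.neg_apply, crL_apply] at this
    rw [cr_sub_right]
    linarith

lemma poly_inter (s t : Finset ((V →L[ℝ] ℝ) × ℝ)) [DecidableEq ((V →L[ℝ] ℝ) × ℝ)] :
    Cells.Poly s ∩ Cells.Poly t = Cells.Poly (s ∪ t) := by
  ext y
  simp only [Cells.Poly, Finset.mem_union, mem_inter_iff, mem_setOf_eq]
  constructor
  · rintro ⟨h1, h2⟩ p hp
    exact hp.elim (h1 p) (h2 p)
  · intro h
    exact ⟨fun p hp => h p (Or.inl hp), fun p hp => h p (Or.inr hp)⟩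

/-- **Clipping.** The tiles which meet the polygon `Q` in a set with interior tile `R ∩ Q`. -/
theorem Tiling.exists_clip {ι : Type*} [Finite ι] (T : Tiling ι)
    (q : Finset ((V →L[ℝ] ℝ) × ℝ)) (hq : (interior (T.R ∩ Cells.Poly q)).Nonempty)
    (A : Finset V) (hA : ∀ a ∈ A, ∀ i, a ∉ interior (T.P i ∩ Cells.Poly q)) :
    ∃ T' : Tiling {i : ι // (interior (T.P i ∩ Cells.Poly q)).Nonempty},
      (∀ i, T'.P i = T.P i.1 ∩ Cells.Poly q) ∧ T'.R = T.R ∩ Cells.Poly q ∧
      ∀ w, w ∈ T'.W ↔ w ∈ A ∨ ∃ i, w ∈ (T'.P i).extremePoints ℝ := by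
  classical
  haveI := Fintype.ofFinite ι
  have hconvQ : Convex ℝ (Cells.Poly q) := convex_poly q
  have hclQ : IsClosed (Cells.Poly q) := isClosed_poly q
  have hRcl : IsClosed (T.R ∩ Cells.Poly q) := by
    rw [← T.union]
    exact (isClosed_iUnion_of_finite fun i => (T.comp i).isClosed).inter hclQ
  have hRconv : Convex ℝ (T.R ∩ Cells.Poly q) := T.convR.inter hconvQ
  have hunion : ⋃ i : {i : ι // (interior (T.P i ∩ Cells.Poly q)).Nonempty}, T.P i.1 ∩ Cells.Poly q =
      T.R ∩ Cells.Poly q := by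
    apply Subset.antisymm
    · intro x hx
      obtain ⟨i, hi⟩ := mem_iUnion.mp hx
      exact ⟨by rw [← T.union]; exact mem_iUnion.mpr ⟨i.1, hi.1⟩, hi.2⟩
    · set U := ⋃ i : {i : ι // (interior (T.P i ∩ Cells.Poly q)).Nonempty}, T.P i.1 ∩ Cells.Poly q with hU
      have hUcl : IsClosed U := isClosed_iUnion_of_finite fun i =>
        (T.comp i.1).isClosed.inter hclQ
      have hW : interior (T.R ∩ Cells.Poly q) \ U = ∅ := by
        apply open_subset_cells_empty
          (Finset.univ.filter fun i => ¬ (interior (T.P i ∩ Cells.Poly q)).Nonempty)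
          (fun i => T.P i ∩ Cells.Poly q) (fun i _ => (T.comp i).isClosed.inter hclQ)
          (isOpen_interior.sdiff hUcl)
        · intro x hx
          have h1 := interior_subset hx.1
          rw [← T.union] at h1
          obtain ⟨i, hi⟩ := mem_iUnion.mp h1.1
          refine mem_iUnion₂.mpr ⟨i, ?_, hi, h1.2⟩
          rw [Finset.mem_filter]
          refine ⟨Finset.mem_univ i, fun hI => hx.2 ?_⟩
          exact mem_iUnion.mpr ⟨⟨i, hI⟩, hi, h1.2⟩
        · intro i hi
          rw [Finset.mem_filter, Set.not_nonempty_iff_eq_empty] at hi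
          rw [hi.2]
          exact disjoint_bot_right
      have h1 : interior (T.R ∩ Cells.Poly q) ⊆ U := diff_eq_empty.mp hW
      calc T.R ∩ Cells.Poly q = closure (interior (T.R ∩ Cells.Poly q)) := by
            rw [hRconv.closure_interior_eq_closure_of_nonempty_interior hq, hRcl.closure_eq]
        _ ⊆ U := closure_minimal h1 hUcl
  obtain ⟨T', h1, h2, h3⟩ := exists_tiling
    (fun i : {i : ι // (interior (T.P i ∩ Cells.Poly q)).Nonempty} => T.P i.1 ∩ Cells.Poly q)
    (fun i => (T.conv i.1).inter hconvQ) (fun i => (T.comp i.1).inter_right hclQ)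
    (fun i => i.2)
    (fun i j hij => (T.disj (fun h => hij (Subtype.ext h))).mono
      (interior_mono inter_subset_left) (interior_mono inter_subset_left))
    (fun i => by
      obtain ⟨s, hs⟩ := T.exists_poly i.1
      rw [hs, poly_inter]
      exact extremePoints_poly_finite _)
    (by rw [hunion]; exact hRconv) A (fun a ha i => hA a ha i.1)
  refine ⟨T', fun i => by rw [h1], by rw [h2, hunion], fun w => ?_⟩
  rw [h3 w, h1]

end C2305b.TL
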