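import Pool.Agent.W_c2305b_h35.Cross

/-!
# The cells lemma for noncrossing coverings (partition lemma of helper82)

For compact convex sets in a plane which are pairwise noncrossing and cover a convex body,
there are compact convex cells with pairwise disjoint interiors whose union is the body, one
inside each member of the covering.
-/

namespace C2305b.Cells

open Set Module

variable {E : Type*} [NormedAddCommGroup E] [NormedSpace ℝ E]

/-- Finite intersections of closed half-spaces (the functional may vanish). -/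
def Poly (s : Finset ((E →L[ℝ] ℝ) × ℝ)) : Set E := {y | ∀ p ∈ s, p.1 y ≤ p.2}

lemma convex_poly (s : Finset ((E →L[ℝ] ℝ) × ℝ)) : Convex ℝ (Poly s) := by
  intro x hx y hy a b ha hb hab p hp
  have h1 := hx p hp
  have h2 := hy p hp
  rw [map_add, map_smul, map_smul, smul_eq_mul, smul_eq_mul]
  calc a * p.1 x + b * p.1 y ≤ a * p.2 + b * p.2 :=
        add_le_add (mul_le_mul_of_nonneg_left h1 ha) (mul_le_mul_of_nonneg_left h2 hb)
    _ = p.2 := by rw [← add_mul, hab, one_mul]

lemma isClosed_poly (s : Finset ((E →L[ℝ] ℝ) × ℝ)) : IsClosed (Poly s) := by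
  have : Poly s = ⋂ p ∈ s, {y | p.1 y ≤ p.2} := by
    ext y; simp [Poly]
  rw [this]
  exact isClosed_biInter fun p _ => isClosed_le p.1.continuous continuous_const

/-- The type of a member: beyond the line it lies in the first set, or before the line it lies in
the second one. -/
lemma nc_same {X F H : Set E} (hn : ¬ Cross X F) : ¬ Cross (X ∩ H) (F ∩ H) := by
  rintro ⟨x, hx, x', hx', e, he, e', he', hz⟩
  exact hn ⟨x, ⟨hx.1.1, fun h => hx.2 ⟨h, hx.1.2⟩⟩, x', ⟨hx'.1.1, fun h => hx'.2 ⟨h, hx'.1.2⟩⟩,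
    e, ⟨he.1.1, fun h => he.2 ⟨h, he.1.2⟩⟩, e', ⟨he'.1.1, fun h => he'.2 ⟨h, he'.1.2⟩⟩, hz⟩

lemma both_eq {f : E →L[ℝ] ℝ} {c : ℝ} {S : Set E} {x x' z : E} (hx : f x ≤ c) (hx' : f x' ≤ c)
    (hz : z ∈ segment ℝ x x') (hzc : c ≤ f z) (hzS : z ∈ S) (hxS : x ∉ S) (hxS' : x' ∉ S) :
    f x = c ∧ f x' = c := by
  obtain ⟨p, q, hp, hq, hpq, hpz⟩ := hz
  have hp0 : 0 < p := by
    rcases hp.lt_or_eq with h | h
    · exact h
    · exfalso
      rw [← h] at hpz hpq
      have : q = 1 := by linarith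
      rw [this] at hpz
      simp at hpz
      exact hxS' (hpz ▸ hzS)
  have hq0 : 0 < q := by
    rcases hq.lt_or_eq with h | h
    · exact h
    · exfalso
      rw [← h] at hpz hpq
      have : p = 1 := by linarith
      rw [this] at hpz
      simp at hpz
      exact hxS (hpz ▸ hzS)
  have h1 : c ≤ p * f x + q * f x' := by
    rw [← hpz] at hzc; simpa using hzc
  have h2 : p * (c - f x) + q * (c - f x') ≤ 0 := by
    have : p * (c - f x) + q * (c - f x') = (p + q) * c - (p * f x + q * f x') := by ring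
    rw [this, hpq, one_mul]; linarith
  constructor
  · nlinarith [mul_nonneg hq0.le (sub_nonneg.mpr hx'), mul_nonneg hp0.le (sub_nonneg.mpr hx)]
  · nlinarith [mul_nonneg hq0.le (sub_nonneg.mpr hx'), mul_nonneg hp0.le (sub_nonneg.mpr hx)]

lemma nc_opposite {X F : Set E} (hX : Convex ℝ X) (hF : Convex ℝ F) (f : E →L[ℝ] ℝ) (c : ℝ)
    (hn : ¬ Cross X F) : ¬ Cross (X ∩ {y | f y ≤ c}) (F ∩ {y | c ≤ f y}) := by
  rintro ⟨x, hx, x', hx', e, he, e', he', z, hz1, hz2⟩
  have hc1 : Convex ℝ {y | f y ≤ c} := convex_halfSpace_le f.isLinear c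
  have hc2 : Convex ℝ {y | c ≤ f y} := convex_halfSpace_ge f.isLinear c
  have hzX : z ∈ X ∩ {y | f y ≤ c} := (hX.inter hc1).segment_subset hx.1 hx'.1 hz1
  have hzF : z ∈ F ∩ {y | c ≤ f y} := (hF.inter hc2).segment_subset he.1 he'.1 hz2
  have h1 := both_eq hx.1.2 hx'.1.2 hz1 hzF.2 hzF hx.2 hx'.2
  have h2 : (-f) e = -c ∧ (-f) e' = -c := by
    apply both_eq (f := -f) (c := -c) (S := X ∩ {y | f y ≤ c}) (z := z)
    · have := he.1.2; simpa using this
    · have := he'.1.2; simpa using this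
    · exact hz2
    · have := hzX.2; simpa using this
    · exact hzX
    · exact he.2
    · exact he'.2
  have h3 : f e = c := by have := h2.1; simpa using this
  have h4 : f e' = c := by have := h2.2; simpa using this
  exact hn ⟨x, ⟨hx.1.1, fun h => hx.2 ⟨h, h1.1.ge⟩⟩, x', ⟨hx'.1.1, fun h => hx'.2 ⟨h, h1.2.ge⟩⟩,
    e, ⟨he.1.1, fun h => he.2 ⟨h, h3.le⟩⟩, e', ⟨he'.1.1, fun h => he'.2 ⟨h, h4.le⟩⟩, z, hz1, hz2⟩

/-- The half-plane with which a member is cut. -/
lemma exists_cut (f : E →L[ℝ] ℝ) (c : ℝ) (A B X : Set E) :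
    ∃ X' : Set E, (X' = X ∩ {y | f y ≤ c} ∧ (∀ x ∈ X, c < f x → x ∈ A)) ∨
      (X' = X ∩ {y | c ≤ f y} ∧ (∀ x ∈ X, f x < c → x ∈ B) ∧ ¬ (∀ x ∈ X, c < f x → x ∈ A)) ∨
      (X' = X ∧ ¬ (∀ x ∈ X, f x < c → x ∈ B) ∧ ¬ (∀ x ∈ X, c < f x → x ∈ A)) := by
  by_cases h1 : ∀ x ∈ X, c < f x → x ∈ A
  · exact ⟨_, Or.inl ⟨rfl, h1⟩⟩
  by_cases h2 : ∀ x ∈ X, f x < c → x ∈ B
  · exact ⟨_, Or.inr (Or.inl ⟨rfl, h2, h1⟩)⟩
  · exact ⟨_, Or.inr (Or.inr ⟨rfl, h2, h1⟩)⟩

lemma key' [FiniteDimensional ℝ E] (hE : finrank ℝ E = 2) {X F : Set E}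
    (hX : Convex ℝ X) (hF : Convex ℝ F) (f : E →L[ℝ] ℝ) (c : ℝ) (hn : ¬ Cross X F)
    (hc : Cross (X ∩ {y | c ≤ f y}) F) : ∀ w ∈ F, f w < c → w ∈ X := by
  have hset : {y | c ≤ f y} = {y | (-f) y ≤ -c} := by ext y; simp
  rw [hset] at hc
  intro w hw hwc
  exact key hE hX hF (-f) (-c) hn hc w hw (by simpa using hwc)

/-- Cutting keeps the family noncrossing. -/
lemma cut_not_cross [FiniteDimensional ℝ E] (hE : finrank ℝ E = 2) {X F X' F' A B : Set E}
    (hX : Convex ℝ X) (hF : Convex ℝ F) (f : E →L[ℝ] ℝ) (c : ℝ) (hn : ¬ Cross X F)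
    (h1 : (X' = X ∩ {y | f y ≤ c} ∧ (∀ x ∈ X, c < f x → x ∈ A)) ∨
      (X' = X ∩ {y | c ≤ f y} ∧ (∀ x ∈ X, f x < c → x ∈ B) ∧ ¬ (∀ x ∈ X, c < f x → x ∈ A)) ∨
      (X' = X ∧ ¬ (∀ x ∈ X, f x < c → x ∈ B) ∧ ¬ (∀ x ∈ X, c < f x → x ∈ A)))
    (h2 : (F' = F ∩ {y | f y ≤ c} ∧ (∀ x ∈ F, c < f x → x ∈ A)) ∨
      (F' = F ∩ {y | c ≤ f y} ∧ (∀ x ∈ F, f x < c → x ∈ B) ∧ ¬ (∀ x ∈ F, c < f x → x ∈ A)) ∨
      (F' = F ∧ ¬ (∀ x ∈ F, f x < c → x ∈ B) ∧ ¬ (∀ x ∈ F, c < f x → x ∈ A))) :
    ¬ Cross X' F' := by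
  have hn' : ¬ Cross F X := fun h => hn h.symm
  rcases h1 with ⟨rfl, hL1⟩ | ⟨rfl, hR1, hN1⟩ | ⟨rfl, hM1, hN1⟩ <;>
    rcases h2 with ⟨rfl, hL2⟩ | ⟨rfl, hR2, hN2⟩ | ⟨rfl, hM2, hN2⟩
  · exact nc_same hn
  · exact nc_opposite hX hF f c hn
  · intro h
    exact hN2 fun w hw hwc => hL1 w (key hE hX hF f c hn h w hw hwc) hwc
  · exact fun h => nc_opposite hF hX f c hn' h.symm
  · exact nc_same hn
  · intro h
    exact hM2 fun w hw hwc => hR1 w (key' hE hX hF f c hn h w hw hwc) hwc
  · intro h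
    exact hN1 fun w hw hwc => hL2 w (key hE hF hX f c hn' h.symm w hw hwc) hwc
  · intro h
    exact hM1 fun w hw hwc => hR2 w (key' hE hF hX f c hn' h.symm w hw hwc) hwc
  · exact hn

lemma interior_level {f : E →L[ℝ] ℝ} (hf : f ≠ 0) (c : ℝ) :
    interior {y | f y ≤ c} ∩ interior {y | c ≤ f y} = ∅ := by
  rw [← interior_inter, Set.eq_empty_iff_forall_notMem]
  intro x hx
  obtain ⟨v, hv⟩ : ∃ v, f v ≠ 0 := by
    by_contra h
    push Not at h
    exact hf (ContinuousLinearMap.ext h)
  rw [mem_interior_iff_mem_nhds] at hx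
  have hcont : Filter.Tendsto (fun t : ℝ => x + t • v) (nhds 0) (nhds x) := by
    have : Continuous fun t : ℝ => x + t • v := by fun_prop
    have := this.tendsto 0
    simpa using this
  have h1 := hcont hx
  rw [Filter.mem_map, Metric.mem_nhds_iff] at h1
  obtain ⟨ε, hε, hball⟩ := h1
  have h2 : ∀ t ∈ Metric.ball (0:ℝ) ε, f x + t * f v = c := by
    intro t ht
    have h3 := hball ht
    have h4 : f (x + t • v) ≤ c := h3.1
    have h5 : c ≤ f (x + t • v) := h3.2
    rw [map_add, map_smul, smul_eq_mul] at h4 h5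
    linarith
  have h3 := h2 0 (by simpa using hε)
  have h4 := h2 (ε / 2) (by rw [mem_ball_zero_iff, Real.norm_eq_abs, abs_of_pos (by linarith)]; linarith)
  rw [zero_mul, add_zero] at h3
  rw [h3] at h4
  have h5 : ε / 2 * f v = 0 := by linarith
  rcases mul_eq_zero.mp h5 with h | h
  · linarith
  · exact hv h

open Classical in
/-- The number of ordered overlapping pairs. -/
noncomputable def ov {ι : Type*} [Fintype ι] (X : ι → Set E) : ℕ :=
  (Finset.univ.filter fun p : ι × ι =>
    p.1 ≠ p.2 ∧ (interior (X p.1) ∩ interior (X p.2)).Nonempty).card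

lemma ov_lt {ι : Type*} [Fintype ι] {X Y : ι → Set E} (h : ∀ i, Y i ⊆ X i) {a b : ι}
    (hab : a ≠ b) (h1 : (interior (X a) ∩ interior (X b)).Nonempty)
    (h2 : ¬ (interior (Y a) ∩ interior (Y b)).Nonempty) : ov Y < ov X := by
  classical
  unfold ov
  apply Finset.card_lt_card
  rw [Finset.ssubset_iff_of_subset]
  · exact ⟨(a, b), by simp [hab, h1], by simp [hab, h2]⟩
  · intro p hp
    rw [Finset.mem_filter] at hp ⊢
    exact ⟨hp.1, hp.2.1, hp.2.2.mono (inter_subset_inter (interior_mono (h _))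
      (interior_mono (h _)))⟩

/-- The induction: a noncrossing covering can be cut down to a covering without overlaps. -/
lemma exists_cells_aux [FiniteDimensional ℝ E] (hE : finrank ℝ E = 2) {ι : Type*} [Fintype ι]
    (D : Set E) : ∀ (m : ℕ) (X : ι → Set E), (∀ i, Convex ℝ (X i)) → (∀ i, IsClosed (X i)) →
      (Pairwise fun i j => ¬ Cross (X i) (X j)) → D ⊆ ⋃ i, X i → ov X ≤ m →
      ∃ s : ι → Finset ((E →L[ℝ] ℝ) × ℝ), D ⊆ ⋃ i, X i ∩ Poly (s i) ∧
        Pairwise fun i j => Disjoint (interior (X i ∩ Poly (s i))) (interior (X j ∩ Poly (s j))) := by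
  classical
  intro m
  induction m with
  | zero =>
    intro X hX hXc hn hD hm
    refine ⟨fun _ => ∅, ?_, ?_⟩
    · simpa [Poly] using hD
    · intro i j hij
      rw [Set.disjoint_iff_inter_eq_empty, ← Set.not_nonempty_iff_eq_empty]
      intro h
      unfold ov at hm
      rw [Nat.le_zero, Finset.card_eq_zero, Finset.filter_eq_empty_iff] at hm
      apply hm (Finset.mem_univ (i, j))
      refine ⟨hij, ?_⟩
      simpa [Poly] using h
  | succ m ih =>
    intro X hX hXc hn hD hm
    by_cases hov : ∃ a b, a ≠ b ∧ (interior (X a) ∩ interior (X b)).Nonempty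
    swap
    · push Not at hov
      refine ⟨fun _ => ∅, ?_, ?_⟩
      · simpa [Poly] using hD
      · intro i j hij
        rw [Set.disjoint_iff_inter_eq_empty]
        have := hov i j hij
        simpa [Poly] using this
    obtain ⟨a, b, hab, hint⟩ := hov
    -- a general reduction: it is enough to find a smaller family of the required form
    suffices hred : ∃ t : ι → Finset ((E →L[ℝ] ℝ) × ℝ),
        (Pairwise fun i j => ¬ Cross (X i ∩ Poly (t i)) (X j ∩ Poly (t j))) ∧
        D ⊆ ⋃ i, X i ∩ Poly (t i) ∧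
        ¬ (interior (X a ∩ Poly (t a)) ∩ interior (X b ∩ Poly (t b))).Nonempty by
      obtain ⟨t, ht1, ht2, ht3⟩ := hred
      have hlt := ov_lt (X := X) (Y := fun i => X i ∩ Poly (t i)) (fun i => inter_subset_left)
        hab hint ht3
      obtain ⟨s, hs1, hs2⟩ := ih (fun i => X i ∩ Poly (t i))
        (fun i => (hX i).inter (convex_poly _)) (fun i => (hXc i).inter (isClosed_poly _))
        ht1 ht2 (by omega)
      have hun : ∀ i, X i ∩ Poly (t i ∪ s i) = X i ∩ Poly (t i) ∩ Poly (s i) := by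
        intro i
        ext y
        simp only [Poly, Finset.mem_union, mem_inter_iff, mem_setOf_eq]
        constructor
        · rintro ⟨h1, h2⟩
          exact ⟨⟨h1, fun p hp => h2 p (Or.inl hp)⟩, fun p hp => h2 p (Or.inr hp)⟩
        · rintro ⟨⟨h1, h2⟩, h3⟩
          exact ⟨h1, fun p hp => hp.elim (h2 p) (h3 p)⟩
      refine ⟨fun i => t i ∪ s i, ?_, ?_⟩
      · simpa only [hun] using hs1
      · simpa only [hun] using hs2
    have hempty : Poly ({((0 : E →L[ℝ] ℝ), (-1 : ℝ))} : Finset _) = (∅ : Set E) := by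
      ext y; simp [Poly]
    have hfull : Poly (∅ : Finset ((E →L[ℝ] ℝ) × ℝ)) = (univ : Set E) := by
      ext y; simp [Poly]
    have hle : ∀ (f : E →L[ℝ] ℝ) (c : ℝ), Poly {(f, c)} = {y | f y ≤ c} := by
      intro f c; ext y; simp [Poly]
    have hge : ∀ (f : E →L[ℝ] ℝ) (c : ℝ), Poly {(-f, -c)} = {y | c ≤ f y} := by
      intro f c; ext y; simp [Poly]
    have hnest : ∀ a b : ι, a ≠ b → X a ⊆ X b → ∃ t : ι → Finset ((E →L[ℝ] ℝ) × ℝ),
        (Pairwise fun i j => ¬ Cross (X i ∩ Poly (t i)) (X j ∩ Poly (t j))) ∧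
        D ⊆ ⋃ i, X i ∩ Poly (t i) ∧ X a ∩ Poly (t a) = ∅ := by
      intro a b hab hsub
      refine ⟨fun i => if i = a then {((0 : E →L[ℝ] ℝ), (-1 : ℝ))} else ∅, ?_, ?_, ?_⟩
      · intro i j hij
        by_cases hi : i = a
        · intro hc
          obtain ⟨x, hx, _⟩ := hc
          simp only [hi, if_true, hempty, inter_empty] at hx
          exact hx.1
        by_cases hj : j = a
        · intro hc
          obtain ⟨x, _, x', _, e, he, _⟩ := hc
          simp only [hj, if_true, hempty, inter_empty] at he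
          exact he.1
        · simp only [hi, hj, if_false, hfull, inter_univ]
          exact hn hij
      · intro x hx
        obtain ⟨i, hi⟩ := mem_iUnion.mp (hD hx)
        by_cases hia : i = a
        · refine mem_iUnion.mpr ⟨b, ?_⟩
          simp only [hab.symm, if_false, hfull, inter_univ]
          exact hsub (hia ▸ hi)
        · refine mem_iUnion.mpr ⟨i, ?_⟩
          simp only [hia, if_false, hfull, inter_univ]
          exact hi
      · simp [hempty]
    by_cases h1 : X a ⊆ X b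
    · obtain ⟨t, ht1, ht2, ht3⟩ := hnest a b hab h1
      exact ⟨t, ht1, ht2, by rw [ht3]; simp⟩
    by_cases h2 : X b ⊆ X a
    · obtain ⟨t, ht1, ht2, ht3⟩ := hnest b a hab.symm h2
      exact ⟨t, ht1, ht2, by rw [ht3]; simp⟩
    obtain ⟨f, c, hf0, hf1, hf2⟩ := exists_sep hE (hX a) (hX b) (hXc a) (hXc b) (hn hab) h1 h2
      (hint.mono inter_subset_left)
    choose X' hX' using fun i => exists_cut f c (X a) (X b) (X i)
    -- the cut of each member as a polyhedron
    have hpol : ∀ i, ∃ t : Finset ((E →L[ℝ] ℝ) × ℝ), X' i = X i ∩ Poly t := by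
      intro i
      rcases hX' i with ⟨h, _⟩ | ⟨h, _⟩ | ⟨h, _⟩
      · exact ⟨{(f, c)}, by rw [h, hle]⟩
      · exact ⟨{(-f, -c)}, by rw [h, hge]⟩
      · exact ⟨∅, by rw [h, hfull, inter_univ]⟩
    choose t ht using hpol
    have hXa : X' a = X a ∩ {y | f y ≤ c} := by
      rcases hX' a with ⟨h, _⟩ | ⟨_, _, h⟩ | ⟨_, _, h⟩
      · exact h
      · exact absurd (fun x hx _ => hx) h
      · exact absurd (fun x hx _ => hx) h
    have hXb : X' b = X b ∩ {y | c ≤ f y} := by
      rcases hX' b with ⟨_, h⟩ | ⟨h, _⟩ | ⟨_, h, _⟩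
      · exfalso
        -- a point of the second set outside the first one and off the line
        obtain ⟨y, hyb, hya⟩ := not_subset.mp h2
        have hcy : c ≤ f y := hf2 y ⟨hyb, hya⟩
        rcases hcy.lt_or_eq with h3 | h3
        · exact hya (h y hyb h3)
        -- move towards an interior point off the line
        obtain ⟨p, hp⟩ := hint
        have hopen : IsOpen (interior (X b)) := isOpen_interior
        obtain ⟨v, hv⟩ : ∃ v, f v ≠ 0 := by
          by_contra h
          push Not at h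
          exact hf0 (ContinuousLinearMap.ext h)
        obtain ⟨p', hp', hfp'⟩ : ∃ p' ∈ X b, f p' ≠ c := by
          by_contra hcon
          push Not at hcon
          have h4 : p ∈ interior {y | f y ≤ c} ∩ interior {y | c ≤ f y} :=
            ⟨interior_mono (fun y hy => (hcon y hy).le) hp.2,
              interior_mono (fun y hy => (hcon y hy).ge) hp.2⟩
          rw [interior_level hf0] at h4
          exact h4
        have hcont : Filter.Tendsto (fun t : ℝ => y + t • (p' - y)) (nhdsWithin 0 (Ioi 0))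
            (nhds y) := by
          have : Continuous fun t : ℝ => y + t • (p' - y) := by fun_prop
          have := this.tendsto 0
          rw [zero_smul, add_zero] at this
          exact this.mono_left nhdsWithin_le_nhds
        have hev1 := Filter.mem_map.mp (hcont ((hXc a).isOpen_compl.mem_nhds hya))
        have hev2 : Ioc (0:ℝ) 1 ∈ nhdsWithin (0:ℝ) (Ioi 0) := Ioc_mem_nhdsGT one_pos
        obtain ⟨t, ht1, ht2⟩ := Filter.nonempty_of_mem (Filter.inter_mem hev1 hev2)
        have hyt : y + t • (p' - y) ∈ X b := by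
          apply (hX b).segment_subset hyb hp'
          rw [segment_eq_image']
          exact ⟨t, ⟨ht2.1.le, ht2.2⟩, rfl⟩
        have hft : f (y + t • (p' - y)) = c + t * (f p' - c) := by
          rw [map_add, map_smul, map_sub, smul_eq_mul, ← h3]
        have hne : f (y + t • (p' - y)) ≠ c := by
          rw [hft]
          intro h5
          have h6 : t * (f p' - c) = 0 := by linarith
          rcases mul_eq_zero.mp h6 with h7 | h7
          · linarith [ht2.1]
          · exact hfp' (by linarith)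
        have hge' := hf2 _ ⟨hyt, ht1⟩
        exact ht1 (h _ hyt (lt_of_le_of_ne hge' hne.symm))
      · exact h
      · exfalso
        apply h
        intro x hx _
        exact hx
    refine ⟨t, ?_, ?_, ?_⟩
    · intro i j hij
      rw [← ht i, ← ht j]
      exact cut_not_cross hE (hX i) (hX j) f c (hn hij) (hX' i) (hX' j)
    · intro x hx
      obtain ⟨i, hi⟩ := mem_iUnion.mp (hD hx)
      by_cases hxi : x ∈ X' i
      · exact mem_iUnion.mpr ⟨i, by rw [← ht i]; exact hxi⟩
      rcases hX' i with ⟨h, hL⟩ | ⟨h, hR, _⟩ | ⟨h, _⟩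
      · rw [h] at hxi
        have hcx : c < f x := by
          by_contra h3
          exact hxi ⟨hi, not_lt.mp h3⟩
        have hxa := hL x hi hcx
        have hxb : x ∈ X b := by
          by_contra h3
          exact absurd (hf1 x ⟨hxa, h3⟩) (not_le.mpr hcx)
        exact mem_iUnion.mpr ⟨b, by rw [← ht b, hXb]; exact ⟨hxb, hcx.le⟩⟩
      · rw [h] at hxi
        have hcx : f x < c := by
          by_contra h3
          exact hxi ⟨hi, not_lt.mp h3⟩
        have hxb := hR x hi hcx
        have hxa : x ∈ X a := by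
          by_contra h3
          exact absurd (hf2 x ⟨hxb, h3⟩) (not_le.mpr hcx)
        exact mem_iUnion.mpr ⟨a, by rw [← ht a, hXa]; exact ⟨hxa, hcx.le⟩⟩
      · rw [h] at hxi
        exact absurd hi hxi
    · rw [← ht a, ← ht b, hXa, hXb, Set.not_nonempty_iff_eq_empty, Set.eq_empty_iff_forall_notMem]
      intro x hx
      have h3 : x ∈ interior {y | f y ≤ c} ∩ interior {y | c ≤ f y} :=
        ⟨interior_mono inter_subset_right hx.1, interior_mono inter_subset_right hx.2⟩
      rw [interior_level hf0] at h3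
      exact h3

/-- **Cells lemma.** A noncrossing covering of a compact convex set in a plane by compact convex
sets can be replaced by compact convex cells with pairwise disjoint interiors, each inside the
corresponding member; the cells are cut out by finitely many half-planes. -/
theorem cells [FiniteDimensional ℝ E] (hE : finrank ℝ E = 2) {ι : Type*} [Fintype ι]
    (K : ι → Set E) (hK : ∀ i, Convex ℝ (K i)) (hKc : ∀ i, IsCompact (K i))
    (hn : Pairwise fun i j => IsPreconnected (K i \ K j)) {D : Set E} (hD : Convex ℝ D)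
    (hDc : IsCompact D) (hcov : D ⊆ ⋃ i, K i) :
    ∃ C : ι → Set E, (∀ i, Convex ℝ (C i)) ∧ (∀ i, IsCompact (C i)) ∧ (∀ i, C i ⊆ K i) ∧
      ⋃ i, C i = D ∧ (Pairwise fun i j => Disjoint (interior (C i)) (interior (C j))) ∧
      ∀ i, ∃ s : Finset ((E →L[ℝ] ℝ) × ℝ), C i = D ∩ (K i ∩ Poly s) := by
  obtain ⟨s, hs1, hs2⟩ := exists_cells_aux hE D (ov K) K hK (fun i => (hKc i).isClosed)
    (fun i j hij => not_cross_of_preconnected hE (hK i) (hK j) (hn hij)) hcov le_rfl
  refine ⟨fun i => D ∩ (K i ∩ Poly (s i)), fun i => hD.inter ((hK i).inter (convex_poly _)),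
    fun i => hDc.inter_right ((hKc i).isClosed.inter (isClosed_poly _)),
    fun i => inter_subset_right.trans inter_subset_left, ?_, ?_, fun i => ⟨s i, rfl⟩⟩
  · rw [← inter_iUnion]
    exact inter_eq_left.mpr hs1
  · intro i j hij
    exact (hs2 hij).mono (interior_mono inter_subset_right) (interior_mono inter_subset_right)

end C2305b.Cells
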