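import Pool.Agent.W_c2305b_h35.Cells

/-!
# Cells without degenerate members

If the covered body has interior, the cells with empty interior can be dropped, and every other
cell is the intersection of the body with finitely many half-planes.
-/

namespace C2305b.Cells

open Set Module

variable {E : Type*} [NormedAddCommGroup E] [NormedSpace ℝ E]

/-- A finite union of closed sets with empty interior has empty interior. -/
lemma interior_biUnion_empty {ι : Type*} (s : Finset ι) (F : ι → Set E)
    (hF : ∀ i ∈ s, IsClosed (F i)) (h0 : ∀ i ∈ s, interior (F i) = ∅) :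
    interior (⋃ i ∈ s, F i) = ∅ := by
  classical
  induction s using Finset.induction_on with
  | empty => simp
  | insert a s ha ih =>
    rw [Finset.set_biUnion_insert, union_comm,
      interior_union_isClosed_of_interior_empty _ (h0 a (Finset.mem_insert_self a s))]
    · exact ih (fun i hi => hF i (Finset.mem_insert_of_mem hi))
        (fun i hi => h0 i (Finset.mem_insert_of_mem hi))
    · exact isClosed_biUnion_finset fun i hi => hF i (Finset.mem_insert_of_mem hi)

/-- An open set inside a finite union of closed convex sets, disjoint from their interiors, is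
empty. -/
lemma open_subset_cells_empty {ι : Type*} (s : Finset ι) (C : ι → Set E)
    (hC : ∀ i ∈ s, IsClosed (C i)) {W : Set E} (hW : IsOpen W) (hsub : W ⊆ ⋃ i ∈ s, C i)
    (hdis : ∀ i ∈ s, Disjoint W (interior (C i))) : W = ∅ := by
  have h1 : W ⊆ ⋃ i ∈ s, (C i \ interior (C i)) := by
    intro x hx
    obtain ⟨i, hi, hxi⟩ := mem_iUnion₂.mp (hsub hx)
    exact mem_iUnion₂.mpr ⟨i, hi, hxi, fun h => Set.disjoint_left.mp (hdis i hi) hx h⟩
  have h2 : interior (⋃ i ∈ s, (C i \ interior (C i))) = ∅ := by
    apply interior_biUnion_empty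
    · intro i hi
      exact (hC i hi).sdiff isOpen_interior
    · intro i _
      rw [Set.eq_empty_iff_forall_notMem]
      intro x hx
      have h3 : interior (C i \ interior (C i)) ⊆ interior (C i) := interior_mono diff_subset
      exact (interior_subset hx).2 (h3 hx)
  have h3 : W ⊆ interior (⋃ i ∈ s, (C i \ interior (C i))) := interior_maximal h1 hW
  rw [h2] at h3
  exact subset_empty_iff.mp h3

/-- **Cells lemma, nondegenerate form.** -/
theorem cells_poly [FiniteDimensional ℝ E] (hE : finrank ℝ E = 2) {ι : Type*} [Fintype ι]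
    (K : ι → Set E) (hK : ∀ i, Convex ℝ (K i)) (hKc : ∀ i, IsCompact (K i))
    (hn : Pairwise fun i j => IsPreconnected (K i \ K j)) {D : Set E} (hD : Convex ℝ D)
    (hDc : IsCompact D) (hDi : (interior D).Nonempty) (hcov : D ⊆ ⋃ i, K i) :
    ∃ C : ι → Set E, (∀ i, Convex ℝ (C i)) ∧ (∀ i, IsCompact (C i)) ∧ (∀ i, C i ⊆ K i) ∧
      ⋃ i, C i = D ∧ (Pairwise fun i j => Disjoint (interior (C i)) (interior (C j))) ∧
      ∀ i, C i = ∅ ∨ ((interior (C i)).Nonempty ∧
        ∃ s : Finset ((E →L[ℝ] ℝ) × ℝ), (∀ p ∈ s, p.1 ≠ 0) ∧ C i = D ∩ Poly s) := by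
  classical
  obtain ⟨C0, hC1, hC2, hC3, hC4, hC5, -⟩ := cells hE K hK hKc hn hD hDc hcov
  let I := Finset.univ.filter fun i => (interior (C0 i)).Nonempty
  have hmemI : ∀ i, i ∈ I ↔ (interior (C0 i)).Nonempty := by intro i; simp [I]
  have hclos : ∀ S : Set E, Convex ℝ S → IsClosed S → (interior S).Nonempty →
      closure (interior S) = S := by
    intro S h1 h2 h3
    rw [h1.closure_interior_eq_closure_of_nonempty_interior h3, h2.closure_eq]
  have hUnion : ⋃ i ∈ I, C0 i = D := by
    apply Subset.antisymm
    · intro x hx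
      obtain ⟨i, _, hxi⟩ := mem_iUnion₂.mp hx
      rw [← hC4]
      exact mem_iUnion.mpr ⟨i, hxi⟩
    · have hcl : IsClosed (⋃ i ∈ I, C0 i) :=
        isClosed_biUnion_finset fun i _ => (hC2 i).isClosed
      have hW : interior D \ (⋃ i ∈ I, C0 i) = ∅ := by
        apply open_subset_cells_empty (Finset.univ.filter fun i => i ∉ I) C0
          (fun i _ => (hC2 i).isClosed) (isOpen_interior.sdiff hcl)
        · intro x hx
          have h1 : x ∈ ⋃ i, C0 i := by rw [hC4]; exact interior_subset hx.1
          obtain ⟨i, hi⟩ := mem_iUnion.mp h1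
          refine mem_iUnion₂.mpr ⟨i, ?_, hi⟩
          rw [Finset.mem_filter]
          exact ⟨Finset.mem_univ _, fun hI => hx.2 (mem_iUnion₂.mpr ⟨i, hI, hi⟩)⟩
        · intro i hi
          rw [Finset.mem_filter, hmemI, Set.not_nonempty_iff_eq_empty] at hi
          rw [hi.2]
          exact disjoint_bot_right
      have h1 : interior D ⊆ ⋃ i ∈ I, C0 i := diff_eq_empty.mp hW
      calc D = closure (interior D) := (hclos D hD hDc.isClosed hDi).symm
        _ ⊆ ⋃ i ∈ I, C0 i := closure_minimal h1 hcl
  -- separating half-planes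
  have hsep : ∀ i j, i ∈ I → j ∈ I → i ≠ j → ∃ p : (E →L[ℝ] ℝ) × ℝ, p.1 ≠ 0 ∧
      (∀ x ∈ C0 i, p.1 x ≤ p.2) ∧ ∀ x ∈ C0 j, p.2 ≤ p.1 x := by
    intro i j hi hj hij
    rw [hmemI] at hi hj
    obtain ⟨f, u, h1, h2⟩ := geometric_hahn_banach_open_open (hC1 i).interior isOpen_interior
      (hC1 j).interior isOpen_interior (hC5 hij)
    refine ⟨(f, u), ?_, ?_, ?_⟩
    · rintro h0
      obtain ⟨a, ha⟩ := hi
      obtain ⟨b, hb⟩ := hj
      have h3 := h1 a ha
      have h4 := h2 b hb
      simp only at h0
      rw [h0] at h3 h4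
      simp only [ContinuousLinearMap.zero_apply] at h3 h4
      linarith
    · intro x hx
      rw [← hclos _ (hC1 i) (hC2 i).isClosed hi] at hx
      exact closure_minimal (fun y hy => (h1 y hy).le)
        (isClosed_le f.continuous continuous_const) hx
    · intro x hx
      rw [← hclos _ (hC1 j) (hC2 j).isClosed hj] at hx
      exact closure_minimal (fun y hy => (h2 y hy).le)
        (isClosed_le continuous_const f.continuous) hx
  have hsep' : ∀ i j, ∃ p : (E →L[ℝ] ℝ) × ℝ, i ∈ I → j ∈ I → i ≠ j → p.1 ≠ 0 ∧
      (∀ x ∈ C0 i, p.1 x ≤ p.2) ∧ ∀ x ∈ C0 j, p.2 ≤ p.1 x := by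
    intro i j
    by_cases h : i ∈ I ∧ j ∈ I ∧ i ≠ j
    · obtain ⟨p, hp⟩ := hsep i j h.1 h.2.1 h.2.2
      exact ⟨p, fun _ _ _ => hp⟩
    · exact ⟨0, fun h1 h2 h3 => absurd ⟨h1, h2, h3⟩ h⟩
  choose p hp using hsep'
  refine ⟨fun i => if i ∈ I then C0 i else ∅, ?_, ?_, ?_, ?_, ?_, ?_⟩
  · intro i
    by_cases hi : i ∈ I
    · simpa [hi] using hC1 i
    · simp [hi, convex_empty]
  · intro i
    by_cases hi : i ∈ I
    · simpa [hi] using hC2 i
    · simp [hi]
  · intro i
    by_cases hi : i ∈ I
    · simpa [hi] using hC3 i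
    · simp [hi]
  · rw [← hUnion]
    ext x
    simp only [mem_iUnion]
    constructor
    · rintro ⟨i, hi⟩
      by_cases h : i ∈ I
      · exact ⟨i, h, by simpa [h] using hi⟩
      · simp [h] at hi
    · rintro ⟨i, h, hi⟩
      exact ⟨i, by simpa [h] using hi⟩
  · intro i j hij
    by_cases hi : i ∈ I
    · by_cases hj : j ∈ I
      · simpa only [hi, hj, if_true] using hC5 hij
      · simp only [hj, if_false, interior_empty]
        exact disjoint_bot_right
    · simp only [hi, if_false, interior_empty]
      exact disjoint_bot_left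
  · intro i
    by_cases hi : i ∈ I
    swap
    · left; simp [hi]
    right
    simp only [hi, if_true]
    refine ⟨(hmemI i).mp hi, (I.erase i).image (p i), ?_, ?_⟩
    · intro q hq
      rw [Finset.mem_image] at hq
      obtain ⟨j, hj, rfl⟩ := hq
      rw [Finset.mem_erase] at hj
      exact (hp i j hi hj.2 hj.1.symm).1
    · set P := D ∩ Poly ((I.erase i).image (p i)) with hP
      have hsub : C0 i ⊆ P := by
        intro x hx
        refine ⟨?_, ?_⟩
        · rw [← hC4]; exact mem_iUnion.mpr ⟨i, hx⟩
        · intro q hq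
          rw [Finset.mem_image] at hq
          obtain ⟨j, hj, rfl⟩ := hq
          rw [Finset.mem_erase] at hj
          exact (hp i j hi hj.2 hj.1.symm).2.1 x hx
      apply Subset.antisymm hsub
      have hPi : (interior P).Nonempty := ((hmemI i).mp hi).mono (interior_mono hsub)
      have hPconv : Convex ℝ P := hD.inter (convex_poly _)
      have hPcl : IsClosed P := hDc.isClosed.inter (isClosed_poly _)
      have hW : interior P \ C0 i = ∅ := by
        apply open_subset_cells_empty (I.erase i) C0 (fun j _ => (hC2 j).isClosed)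
          (isOpen_interior.sdiff (hC2 i).isClosed)
        · intro x hx
          have h1 : x ∈ ⋃ j ∈ I, C0 j := by rw [hUnion]; exact (interior_subset hx.1).1
          obtain ⟨j, hj, hxj⟩ := mem_iUnion₂.mp h1
          refine mem_iUnion₂.mpr ⟨j, ?_, hxj⟩
          rw [Finset.mem_erase]
          refine ⟨?_, hj⟩
          rintro rfl
          exact hx.2 hxj
        · intro j hj
          have hj' := Finset.mem_erase.mp hj
          obtain ⟨hp0, -, hp2⟩ := hp i j hi hj'.2 hj'.1.symm
          rw [Set.disjoint_left]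
          intro x hx hxj
          have h1 : x ∈ interior {y | (p i j).1 y ≤ (p i j).2} := by
            refine interior_mono ?_ hx.1
            intro y hy
            exact hy.2 (p i j) (Finset.mem_image_of_mem _ hj)
          have h2 : x ∈ interior {y | (p i j).2 ≤ (p i j).1 y} :=
            interior_mono (fun y hy => hp2 y hy) hxj
          have h3 : x ∈ interior {y | (p i j).1 y ≤ (p i j).2} ∩
            interior {y | (p i j).2 ≤ (p i j).1 y} := ⟨h1, h2⟩
          rw [interior_level hp0] at h3
          exact h3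
      calc P = closure (interior P) := (hclos P hPconv hPcl hPi).symm
        _ ⊆ C0 i := closure_minimal (diff_eq_empty.mp hW) (hC2 i).isClosed

end C2305b.Cells
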