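import Pool.Agent.W_c2305b_h35.Count2

/-!
# More counting (row 552, G8)

Numbers of tiles with flat frames in a region and at the base, number of pairs with a member in a
given set of tiles, pigeonhole for the level of the clamp.
-/

namespace C2305b.TL

open Set Module MeasureTheory
open C2305bB (Fr Fits mis al)

/-- Tiles with flat frames which meet a box. -/
theorem card_flat_le {ι : Type*} (T : Tiling ι) {S : Finset ι} {F : ι → Fr}
    {L R Tc a x0 x1 H : ℝ} (hT : 0 < Tc) (hL : 10 * Tc ≤ L) (hL1 : 1 ≤ L) (hR : 0 ≤ R)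
    (hfit : ∀ i, ∀ z ∈ T.P i, ∀ z' ∈ T.P i, Fits L (F i) R (z 0 - z' 0) (z 1 - z' 1))
    (hx : x0 ≤ x1) (hH : 0 ≤ H)
    (hS : ∀ i ∈ S, a ≤ (volume (T.P i)).toReal ∧ L * |(F i).S| ≤ Tc * (F i).c ∧
      ∃ z ∈ T.P i, x0 ≤ z 0 ∧ z 0 ≤ x1 ∧ -H ≤ z 1 ∧ z 1 ≤ 0) :
    S.card * a ≤ (x1 - x0 + 2 * R) * (H + 2 * ((102 / 100 + Tc) * R)) := by
  have hxx : x0 - R ≤ x1 + R := by linarith
  have h0 : 0 ≤ (102 / 100 + Tc) * R := by positivity
  have hyy : -H - (102 / 100 + Tc) * R ≤ (102 / 100 + Tc) * R := by linarith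
  obtain ⟨v1, v2⟩ := box_volume hxx hyy
  have h := T.card_tiles_le v1 (S := S) (a := a) (fun i hi => by
    obtain ⟨h1, h2, z, hz, z1, z2, z3, z4⟩ := hS i hi
    exact ⟨h1, flat_tile_box hT hL hL1 hR h2 (hfit i) hz z1 z2 z3 z4⟩)
  rw [v2] at h
  refine h.trans (le_of_eq ?_)
  ring

/-- Tiles with flat frames which meet the base. -/
theorem card_base_le {ι : Type*} (T : Tiling ι) {S : Finset ι} {F : ι → Fr}
    {L R Tc a x0 x1 : ℝ} (hT : 0 < Tc) (hL : 10 * Tc ≤ L) (hL1 : 1 ≤ L) (hR : 0 ≤ R)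
    (hfit : ∀ i, ∀ z ∈ T.P i, ∀ z' ∈ T.P i, Fits L (F i) R (z 0 - z' 0) (z 1 - z' 1))
    (hx : x0 ≤ x1)
    (hS : ∀ i ∈ S, a ≤ (volume (T.P i)).toReal ∧ L * |(F i).S| ≤ Tc * (F i).c ∧
      (∃ z ∈ T.P i, x0 ≤ z 0 ∧ z 0 ≤ x1 ∧ z 1 ≤ 0) ∧ ∃ z ∈ T.P i, 0 ≤ z 1) :
    S.card * a ≤ (x1 - x0 + 2 * R) * (2 * ((102 / 100 + Tc) * R)) := by
  have hxx : x0 - R ≤ x1 + R := by linarith
  have h0 : 0 ≤ (102 / 100 + Tc) * R := by positivity
  have hyy : -((102 / 100 + Tc) * R) ≤ (102 / 100 + Tc) * R := by linarith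
  obtain ⟨v1, v2⟩ := box_volume hxx hyy
  have h := T.card_tiles_le v1 (S := S) (a := a) (fun i hi => by
    obtain ⟨h1, h2, ⟨z, hz, z1, z2, z3⟩, w, hw, hw0⟩ := hS i hi
    refine ⟨h1, ?_⟩
    intro y hy
    have hd : ∀ v ∈ T.P i, |y 0 - v 0| ≤ R ∧ |y 1 - v 1| ≤ (102 / 100 + Tc) * R := by
      intro v hv
      have hf := hfit i y hy v hv
      have k1 := hf.x_le hL1 hR
      have k2 := C2305bB.flat_fit hT hL hR h2 hf
      have k3 := C2305bB.abs_al_le hT hL (F i)
      have k4 : |al L Tc (F i) * (y 0 - v 0)| ≤ Tc * R := by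
        rw [abs_mul]
        exact mul_le_mul k3 k1 (abs_nonneg _) hT.le
      refine ⟨k1, ?_⟩
      have k5 := abs_le.1 k2
      have k6 := abs_le.1 k4
      rw [abs_le]
      constructor <;> linarith [k5.1, k5.2, k6.1, k6.2]
    have e1 := abs_le.1 (hd z hz).1
    have e2 := abs_le.1 (hd z hz).2
    have e3 := abs_le.1 (hd w hw).2
    exact ⟨by linarith [e1.1], by linarith [e1.2], by linarith [e3.1], by linarith [e2.2]⟩)
  rw [v2] at h
  refine h.trans (le_of_eq ?_)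
  ring

/-- Pairs of adjacent tiles with a member in `N`. -/
theorem card_pairs_tiles {J0 K : Type*} {T : Tiling J0} {e : K → J0}
    (he : Function.Injective e) [LinearOrder K] {A : Finset (K × K)} {N : Finset J0}
    (hA : ∀ q ∈ A, q.1 < q.2 ∧ (∃ d, d ∈ T.common (e q.1) (e q.2)) ∧ (e q.1 ∈ N ∨ e q.2 ∈ N))
    (hN : ∀ i ∈ N, (T.edges i).card ≤ 6) : A.card ≤ 6 * N.card := by
  classical
  set S : Finset (K × K) := (A ∪ A.image Prod.swap).filter fun q => e q.1 ∈ N with hS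
  have h1 : A.card ≤ S.card := by
    apply card_pairs_le
    intro q hq
    obtain ⟨hlt, _, hn⟩ := hA q hq
    refine ⟨hlt, ?_⟩
    rcases hn with h | h
    · exact Or.inl (Finset.mem_filter.mpr ⟨Finset.mem_union_left _ hq, h⟩)
    · exact Or.inr (Finset.mem_filter.mpr
        ⟨Finset.mem_union_right _ (Finset.mem_image_of_mem _ hq), h⟩)
  have hadj : ∀ q ∈ S, e q.1 ∈ N ∧ ∃ d, d ∈ T.common (e q.1) (e q.2) := by
    intro q hq
    obtain ⟨hq1, hq2⟩ := Finset.mem_filter.mp hq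
    refine ⟨hq2, ?_⟩
    rcases Finset.mem_union.mp hq1 with h | h
    · exact (hA q h).2.1
    · obtain ⟨q', hq', rfl⟩ := Finset.mem_image.mp h
      obtain ⟨d, hd⟩ := (hA q' hq').2.1
      exact ⟨d.swap, T.mem_common.mpr ⟨(T.mem_common.mp hd).2, (T.mem_common.mp hd).1⟩⟩
  have h2 : S.card ≤ 6 * (S.image fun q => e q.1).card := by
    apply Finset.card_le_mul_card_image
    intro i hi
    obtain ⟨q0, hq0, rfl⟩ := Finset.mem_image.mp hi
    have h2 : ({x ∈ S | e x.1 = e q0.1} : Finset (K × K)).card ≤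
        (({x ∈ S | e x.1 = e q0.1} : Finset (K × K)).image fun q => e q.2).card := by
      rw [Finset.card_image_of_injOn]
      intro x hx y hy hxy
      have hx1 := (Finset.mem_filter.mp (Finset.mem_coe.mp hx)).2
      have hy1 := (Finset.mem_filter.mp (Finset.mem_coe.mp hy)).2
      exact Prod.ext (he (hx1.trans hy1.symm)) (he hxy)
    refine h2.trans ((T.card_neighbours_le (e q0.1) _ ?_).trans (hN _ (hadj q0 hq0).1))
    intro j hj
    obtain ⟨x, hx, rfl⟩ := Finset.mem_image.mp hj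
    obtain ⟨hxS, hx1⟩ := Finset.mem_filter.mp hx
    have := (hadj x hxS).2
    rwa [hx1] at this
  have h3 : (S.image fun q => e q.1) ⊆ N := by
    intro i hi
    obtain ⟨q, hq, rfl⟩ := Finset.mem_image.mp hi
    exact (hadj q hq).1
  have h4 := Finset.card_le_card h3
  omega

/-- Pigeonhole: one of the `K` disjoint intervals of radius `C` about `T0 + s k` contains at most
the `K`-th part of the values. -/
theorem exists_level {ι : Type*} (S : Finset ι) (f : ι → ℝ) {T0 s C : ℝ} (hs : 2 * C < s)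
    {K : ℕ} (hK : 1 ≤ K) :
    ∃ k < K, (S.filter fun i => |f i - (T0 + s * k)| ≤ C).card * K ≤ S.card := by
  classical
  by_contra hcon
  push Not at hcon
  have hdis : (↑(Finset.range K) : Set ℕ).PairwiseDisjoint
      (fun k : ℕ => S.filter fun i => |f i - (T0 + s * (k : ℝ))| ≤ C) := by
    intro k _ l _ hkl
    rw [Function.onFun, Finset.disjoint_left]
    intro i hi hi'
    have h1 := abs_le.1 (Finset.mem_filter.mp hi).2
    have h2 := abs_le.1 (Finset.mem_filter.mp hi').2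
    have hs0 : 0 ≤ s := by
      have : 0 ≤ C := le_trans (abs_nonneg _) (Finset.mem_filter.mp hi).2
      linarith
    rcases lt_or_gt_of_ne hkl with h | h
    · have h3 : (k : ℝ) + 1 ≤ l := by exact_mod_cast h
      have h4 := mul_le_mul_of_nonneg_left h3 hs0
      linarith [h1.1, h1.2, h2.1, h2.2]
    · have h3 : (l : ℝ) + 1 ≤ k := by exact_mod_cast h
      have h4 := mul_le_mul_of_nonneg_left h3 hs0
      linarith [h1.1, h1.2, h2.1, h2.2]
  have h1 : ∑ k ∈ Finset.range K, (S.filter fun i => |f i - (T0 + s * (k : ℝ))| ≤ C).card ≤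
      S.card := by
    rw [← Finset.card_biUnion hdis]
    apply Finset.card_le_card
    intro i hi
    obtain ⟨k, _, hk⟩ := Finset.mem_biUnion.mp hi
    exact (Finset.mem_filter.mp hk).1
  have h2 : ∑ _k ∈ Finset.range K, (S.card + 1) ≤
      ∑ k ∈ Finset.range K, (S.filter fun i => |f i - (T0 + s * (k : ℝ))| ≤ C).card * K :=
    Finset.sum_le_sum fun k hk => hcon k (Finset.mem_range.mp hk)
  rw [Finset.sum_const, Finset.card_range, smul_eq_mul, ← Finset.sum_mul] at h2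
  have h3 := Nat.mul_le_mul_right K h1
  nlinarith

end C2305b.TL
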