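import Mathlib

/-!
# Crossing pairs of planar convex sets (for the cells lemma)

A pair of planar convex sets crosses when a segment between two points of the first difference
meets a segment between two points of the second one.  Pairs with a connected difference do not
cross; overlapping noncrossing pairs have a separating line; cutting keeps a family noncrossing.
-/

namespace C2305b.Cells

open Set Module

variable {E : Type*} [NormedAddCommGroup E] [NormedSpace ℝ E]

/-- A segment between two points of the first difference meets a segment between two points of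
the second difference. -/
def Cross (A B : Set E) : Prop :=
  ∃ a ∈ A \ B, ∃ a' ∈ A \ B, ∃ b ∈ B \ A, ∃ b' ∈ B \ A,
    (segment ℝ a a' ∩ segment ℝ b b').Nonempty

/-- In a plane, every line direction is the kernel of a functional. -/
lemma exists_functional [FiniteDimensional ℝ E] (hE : finrank ℝ E = 2) {v : E} (hv : v ≠ 0) :
    ∃ g : E →L[ℝ] ℝ, ∀ w, g w = 0 ↔ ∃ t : ℝ, w = t • v := by
  let b := finBasisOfFinrankEq ℝ E hE
  let g0 : E →ₗ[ℝ] ℝ := (b.coord 0 v) • b.coord 1 - (b.coord 1 v) • b.coord 0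
  refine ⟨LinearMap.toContinuousLinearMap g0, fun w => ?_⟩
  have hg : (LinearMap.toContinuousLinearMap g0) w
      = b.coord 0 v * b.coord 1 w - b.coord 1 v * b.coord 0 w := by
    simp [g0]
  rw [hg]
  constructor
  · intro h
    by_cases h0 : b.coord 0 v = 0
    · have h1 : b.coord 1 v ≠ 0 := by
        intro h1
        apply hv
        apply b.ext_elem
        intro i
        fin_cases i
        · simpa using h0
        · simpa using h1
      refine ⟨b.coord 1 w / b.coord 1 v, ?_⟩
      apply b.ext_elem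
      intro i
      rw [h0, zero_mul, zero_sub, neg_eq_zero] at h
      rcases mul_eq_zero.mp h with h2 | h2
      · exact absurd h2 h1
      fin_cases i
      · simp only [Basis.coord_apply] at h0 h2 ⊢
        simp [h0, h2]
      · simp only [Basis.coord_apply] at h1 ⊢
        simp
        field_simp
    · refine ⟨b.coord 0 w / b.coord 0 v, ?_⟩
      apply b.ext_elem
      intro i
      fin_cases i
      · simp only [Basis.coord_apply] at h0 ⊢
        simp
        field_simp
      · simp only [Basis.coord_apply] at h0 h ⊢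
        simp
        field_simp
        linarith
  · rintro ⟨t, rfl⟩
    simp
    ring

lemma Cross.symm {A B : Set E} (h : Cross A B) : Cross B A := by
  obtain ⟨a, ha, a', ha', b, hb, b', hb', z, hz1, hz2⟩ := h
  exact ⟨b, hb, b', hb', a, ha, a', ha', z, hz2, hz1⟩

/-- A convex set containing a point of a segment, but neither end, meets the line only inside
the segment. -/
lemma exists_line [FiniteDimensional ℝ E] (hE : finrank ℝ E = 2) {A : Set E} (hA : Convex ℝ A)
    {b b' z : E} (hb : b ∉ A) (hb' : b' ∉ A) (hz : z ∈ A) (hzb : z ∈ segment ℝ b b') :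
    ∃ g : E →L[ℝ] ℝ, g z = g b ∧ ∀ y ∈ A, g y = g b → y ∈ segment ℝ b b' := by
  have hv : b' - b ≠ 0 := by
    intro h0
    have : b' = b := sub_eq_zero.mp h0
    rw [this, segment_same] at hzb
    rw [mem_singleton_iff] at hzb
    exact hb (hzb ▸ hz)
  obtain ⟨g, hg⟩ := exists_functional hE hv
  obtain ⟨s, hs, hzs⟩ : ∃ s ∈ Icc (0:ℝ) 1, z = b + s • (b' - b) := by
    rw [segment_eq_image'] at hzb
    obtain ⟨s, hs, h1⟩ := hzb
    exact ⟨s, hs, h1.symm⟩
  refine ⟨g, ?_, ?_⟩
  · rw [hzs, map_add, map_smul, (hg (b' - b)).mpr ⟨1, by simp⟩]; simp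
  intro y hy hgy
  have h1 : g (y - b) = 0 := by rw [map_sub, hgy, sub_self]
  obtain ⟨t, ht⟩ := (hg _).mp h1
  have hy' : y = b + t • (b' - b) := by rw [← ht]; abel
  rcases lt_or_ge t 0 with h0 | h0
  · exfalso
    apply hb
    have hst : 0 < s - t := by linarith [hs.1]
    have : b ∈ segment ℝ y z := by
      refine ⟨s / (s - t), -t / (s - t), div_nonneg hs.1 hst.le,
        div_nonneg (by linarith) hst.le, by field_simp; ring, ?_⟩
      rw [hy', hzs]
      have e1 : s / (s - t) * t + -t / (s - t) * s = 0 := by field_simp; ring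
      have e2 : s / (s - t) + -t / (s - t) = 1 := by field_simp; ring
      calc (s / (s - t)) • (b + t • (b' - b)) + (-t / (s - t)) • (b + s • (b' - b))
          = (s / (s - t) + -t / (s - t)) • b
            + (s / (s - t) * t + -t / (s - t) * s) • (b' - b) := by module
        _ = b := by rw [e1, e2]; simp
    exact hA.segment_subset hy hz this
  rcases lt_or_ge 1 t with h2 | h2
  · exfalso
    apply hb'
    have hst : 0 < t - s := by linarith [hs.2]
    have : b' ∈ segment ℝ z y := by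
      refine ⟨(t - 1) / (t - s), (1 - s) / (t - s), div_nonneg (by linarith) hst.le,
        div_nonneg (by linarith [hs.2]) hst.le, by field_simp; ring, ?_⟩
      rw [hy', hzs]
      have e1 : (t - 1) / (t - s) * s + (1 - s) / (t - s) * t = 1 := by field_simp; ring
      have e2 : (t - 1) / (t - s) + (1 - s) / (t - s) = 1 := by field_simp; ring
      calc ((t - 1) / (t - s)) • (b + s • (b' - b)) + ((1 - s) / (t - s)) • (b + t • (b' - b))
          = ((t - 1) / (t - s) + (1 - s) / (t - s)) • b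
            + ((t - 1) / (t - s) * s + (1 - s) / (t - s) * t) • (b' - b) := by module
        _ = b' := by rw [e1, e2]; simp
    exact hA.segment_subset hz hy this
  · rw [segment_eq_image']
    exact ⟨t, ⟨h0, h2⟩, hy'.symm⟩

/-- If the first difference is connected, the two sets do not cross. -/
lemma not_cross_of_preconnected [FiniteDimensional ℝ E] (hE : finrank ℝ E = 2) {A B : Set E}
    (hA : Convex ℝ A) (hB : Convex ℝ B) (h : IsPreconnected (A \ B)) : ¬ Cross A B := by
  rintro ⟨a, ha, a', ha', b, hb, b', hb', z, hza, hzb⟩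
  have hzA : z ∈ A := hA.segment_subset ha.1 ha'.1 hza
  obtain ⟨g, hgz, hg⟩ := exists_line hE hA hb.2 hb'.2 hzA hzb
  have hne : ∀ y ∈ A \ B, g y ≠ g b := fun y hy h0 =>
    hy.2 (hB.segment_subset hb.1 hb'.1 (hg y hy.1 h0))
  have hpre : IsPreconnected (g '' (A \ B)) := h.image _ g.continuous.continuousOn
  have hord := hpre.ordConnected
  have hmem : g b ∈ uIcc (g a) (g a') := by
    rw [← hgz]
    obtain ⟨p, q, hp, hq, hpq, rfl⟩ := hza
    rw [map_add, map_smul, map_smul, ← segment_eq_uIcc]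
    exact ⟨p, q, hp, hq, hpq, rfl⟩
  obtain ⟨y, hy, hyb⟩ := hord.uIcc_subset (mem_image_of_mem _ ha) (mem_image_of_mem _ ha') hmem
  exact hne y hy hyb

/-- A common point of two planar convex hulls: one generator lies in the other hull, or two
segments between generators meet. -/
lemma hull_inter_cases [FiniteDimensional ℝ E] (hE : finrank ℝ E = 2) {P Q : Set E} {x : E}
    (hP : x ∈ convexHull ℝ P) (hQ : x ∈ convexHull ℝ Q) :
    (∃ p ∈ P, p ∈ convexHull ℝ Q) ∨ (∃ q ∈ Q, q ∈ convexHull ℝ P) ∨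
      ∃ p ∈ P, ∃ p' ∈ P, ∃ q ∈ Q, ∃ q' ∈ Q, (segment ℝ p p' ∩ segment ℝ q q').Nonempty := by
  classical
  set S : Set (E × ℝ) := P ×ˢ {(1 : ℝ)} ∪ (-Q) ×ˢ {(-1 : ℝ)} with hS
  have h1 : ((x, 1) : E × ℝ) ∈ convexHull ℝ S := by
    apply convexHull_mono (subset_union_left)
    rw [convexHull_prod]
    simp [hP]
  have h2 : ((-x, -1) : E × ℝ) ∈ convexHull ℝ S := by
    apply convexHull_mono (subset_union_right)
    rw [convexHull_prod, convexHull_neg]
    simp [hQ]
  have h0 : (0 : E × ℝ) ∈ convexHull ℝ S := by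
    have := (convex_convexHull ℝ S) h1 h2 (a := 1/2) (b := 1/2) (by norm_num) (by norm_num)
      (by norm_num)
    have h3 : (1 / 2 : ℝ) • ((x, 1) : E × ℝ) + (1 / 2 : ℝ) • ((-x, -1) : E × ℝ) = 0 := by
      ext <;> simp
    rwa [h3] at this
  obtain ⟨ι, _, z, w, hz, haff, hw, hw1, hwz⟩ := eq_pos_convex_span_of_mem_convexHull h0
  have hcard : Fintype.card ι ≤ 4 := by
    have := haff.card_le_finrank_succ
    have h3 : finrank ℝ (vectorSpan ℝ (Set.range z)) ≤ 3 := by
      refine (Submodule.finrank_le _).trans ?_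
      rw [finrank_prod, hE]; simp
    omega
  have hcase : ∀ i, ((z i).1 ∈ P ∧ (z i).2 = 1) ∨ (-(z i).1 ∈ Q ∧ (z i).2 = -1) := by
    intro i
    have : z i ∈ S := hz (mem_range_self i)
    rw [hS] at this
    rcases this with h | h
    · left; exact ⟨h.1, h.2⟩
    · right; exact ⟨h.1, h.2⟩
  set I1 := Finset.univ.filter (fun i => (z i).2 = 1) with hI1
  set I2 := Finset.univ.filter (fun i => ¬ (z i).2 = 1) with hI2
  have hI1P : ∀ i ∈ I1, (z i).1 ∈ P := by
    intro i hi
    rcases hcase i with h | h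
    · exact h.1
    · rw [hI1, Finset.mem_filter] at hi
      exfalso; linarith [h.2, hi.2]
  have hI2Q : ∀ i ∈ I2, -(z i).1 ∈ Q ∧ (z i).2 = -1 := by
    intro i hi
    rcases hcase i with h | h
    · rw [hI2, Finset.mem_filter] at hi
      exact absurd h.2 hi.2
    · exact h
  have hsplit : ∀ (f : ι → ℝ),
      ∑ i, f i = ∑ i ∈ I1, f i + ∑ i ∈ I2, f i := by
    intro f
    exact (Finset.sum_filter_add_sum_filter_not _ _ _).symm
  have hsplitE : ∀ (f : ι → E),
      ∑ i, f i = ∑ i ∈ I1, f i + ∑ i ∈ I2, f i := by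
    intro f
    exact (Finset.sum_filter_add_sum_filter_not _ _ _).symm
  have hsum2 : ∑ i ∈ I1, w i = ∑ i ∈ I2, w i := by
    have h3 : ∑ i, w i * (z i).2 = 0 := by
      have := congrArg Prod.snd hwz
      simpa [Prod.snd_sum] using this
    rw [hsplit] at h3
    have h4 : ∑ i ∈ I1, w i * (z i).2 = ∑ i ∈ I1, w i := by
      apply Finset.sum_congr rfl
      intro i hi
      rw [hI1, Finset.mem_filter] at hi
      rw [hi.2, mul_one]
    have h5 : ∑ i ∈ I2, w i * (z i).2 = - ∑ i ∈ I2, w i := by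
      rw [← Finset.sum_neg_distrib]
      apply Finset.sum_congr rfl
      intro i hi
      rw [(hI2Q i hi).2]; ring
    linarith
  have hhalf1 : ∑ i ∈ I1, w i = 1 / 2 := by
    have := hsplit w
    linarith
  have hhalf2 : ∑ i ∈ I2, w i = 1 / 2 := by linarith
  have hfst : ∑ i ∈ I1, w i • (z i).1 = ∑ i ∈ I2, w i • (-(z i).1) := by
    have h3 : ∑ i, w i • (z i).1 = 0 := by
      have := congrArg Prod.fst hwz
      simpa [Prod.fst_sum] using this
    rw [hsplitE] at h3
    rw [eq_neg_of_add_eq_zero_left h3, ← Finset.sum_neg_distrib]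
    apply Finset.sum_congr rfl
    intro i _
    rw [smul_neg]
  set y := (2 : ℝ) • ∑ i ∈ I1, w i • (z i).1 with hy
  have hy1 : y = ∑ i ∈ I1, (2 * w i) • (z i).1 := by
    rw [hy, Finset.smul_sum]; simp only [smul_smul]
  have hy2 : y = ∑ i ∈ I2, (2 * w i) • (-(z i).1) := by
    rw [hy, hfst, Finset.smul_sum]; simp only [smul_smul]
  have hs1 : ∑ i ∈ I1, 2 * w i = 1 := by rw [← Finset.mul_sum, hhalf1]; norm_num
  have hs2 : ∑ i ∈ I2, 2 * w i = 1 := by rw [← Finset.mul_sum, hhalf2]; norm_num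
  have hyP : y ∈ convexHull ℝ P := by
    rw [hy1]
    exact (convex_convexHull ℝ P).sum_mem (fun i _ => by linarith [hw i]) hs1
      (fun i hi => subset_convexHull ℝ P (hI1P i hi))
  have hyQ : y ∈ convexHull ℝ Q := by
    rw [hy2]
    exact (convex_convexHull ℝ Q).sum_mem (fun i _ => by linarith [hw i]) hs2
      (fun i hi => subset_convexHull ℝ Q (hI2Q i hi).1)
  have hc : I1.card + I2.card = Fintype.card ι := by
    rw [hI1, hI2, Finset.card_filter_add_card_filter_not, Finset.card_univ]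
  have hc1 : I1.card ≠ 0 := by
    intro h; rw [Finset.card_eq_zero] at h; rw [h] at hs1; simp at hs1
  have hc2 : I2.card ≠ 0 := by
    intro h; rw [Finset.card_eq_zero] at h; rw [h] at hs2; simp at hs2
  by_cases h11 : I1.card = 1
  · left
    obtain ⟨i, hi⟩ := Finset.card_eq_one.mp h11
    rw [hi, Finset.sum_singleton] at hs1 hy1
    rw [hs1, one_smul] at hy1
    exact ⟨(z i).1, hI1P i (by rw [hi]; simp), hy1 ▸ hyQ⟩
  by_cases h21 : I2.card = 1
  · right; left
    obtain ⟨i, hi⟩ := Finset.card_eq_one.mp h21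
    rw [hi, Finset.sum_singleton] at hs2 hy2
    rw [hs2, one_smul] at hy2
    exact ⟨-(z i).1, (hI2Q i (by rw [hi]; simp)).1, hy2 ▸ hyP⟩
  · right; right
    obtain ⟨i, j, hij, hI⟩ := Finset.card_eq_two.mp (show I1.card = 2 by omega)
    obtain ⟨k, l, hkl, hJ⟩ := Finset.card_eq_two.mp (show I2.card = 2 by omega)
    rw [hI, Finset.sum_pair hij] at hs1 hy1
    rw [hJ, Finset.sum_pair hkl] at hs2 hy2
    refine ⟨(z i).1, hI1P i (by rw [hI]; simp), (z j).1, hI1P j (by rw [hI]; simp),
      -(z k).1, (hI2Q k (by rw [hJ]; simp)).1, -(z l).1, (hI2Q l (by rw [hJ]; simp)).1, y,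
      ⟨2 * w i, 2 * w j, by linarith [hw i], by linarith [hw j], hs1, hy1.symm⟩,
      ⟨2 * w k, 2 * w l, by linarith [hw k], by linarith [hw l], hs2, hy2.symm⟩⟩

lemma exists_on_segment (g : E →L[ℝ] ℝ) {u w : E} {k : ℝ} (h : (g u - k) * (g w - k) < 0) :
    ∃ y ∈ segment ℝ u w, g y = k := by
  have hk : k ∈ uIcc (g u) (g w) := by
    rw [mem_uIcc]
    rcases mul_neg_iff.mp h with h | h
    · right; constructor <;> linarith [h.1, h.2]
    · left; constructor <;> linarith [h.1, h.2]
  rw [← segment_eq_uIcc] at hk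
  obtain ⟨p, q, hp, hq, hpq, h2⟩ := hk
  exact ⟨p • u + q • w, ⟨p, q, hp, hq, hpq, rfl⟩, by simpa using h2⟩

lemma key_aux [FiniteDimensional ℝ E] (hE : finrank ℝ E = 2) {X F : Set E}
    (hX : Convex ℝ X) (hF : Convex ℝ F) (f : E →L[ℝ] ℝ) (c : ℝ) (hn : ¬ Cross X F)
    {x x' e e' z : E} (hx : x ∈ X) (hxF : x ∉ F) (hxc : f x ≤ c)
    (hx' : x' ∈ X) (hxF' : x' ∉ F) (hxc' : f x' ≤ c) (he : e ∈ F) (hec : c < f e)
    (he' : e' ∈ F) (heX' : ¬ (e' ∈ X ∧ f e' ≤ c)) (hz1 : z ∈ segment ℝ x x')
    (hz2 : z ∈ segment ℝ e e') : ∀ w ∈ F, c < f w → w ∈ X := by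
  have hzF : z ∈ F := hF.segment_subset he he' hz2
  obtain ⟨g, hgz, hg⟩ := exists_line hE hF hxF hxF' hzF hz1
  have hseg : ∀ y ∈ segment ℝ x x', y ∈ X ∧ f y ≤ c := by
    intro y hy
    refine ⟨hX.segment_subset hx hx' hy, ?_⟩
    have hcv : Convex ℝ {y | f y ≤ c} := convex_halfSpace_le f.isLinear c
    exact hcv.segment_subset hxc hxc' hy
  have hge : g e ≠ g x := by
    intro h0
    linarith [(hseg e (hg e he h0)).2]
  have hge' : g e' ≠ g x := fun h0 => heX' (hseg e' (hg e' he' h0))
  obtain ⟨p, q, hp, hq, hpq, hpz⟩ := hz2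
  have hgz2 : p * (g e - g x) + q * (g e' - g x) = 0 := by
    have : p * g e + q * g e' = g x := by
      rw [← hgz, ← hpz]; simp
    have : p * g e + q * g e' = (p + q) * g x := by rw [hpq, one_mul]; exact this
    linarith
  have hp0 : 0 < p := by
    rcases hp.lt_or_eq with h | h
    · exact h
    · exfalso
      rw [← h] at hgz2 hpq
      have hq1 : q = 1 := by linarith
      rw [hq1] at hgz2
      apply hge'; linarith
  have hq0 : 0 < q := by
    rcases hq.lt_or_eq with h | h
    · exact h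
    · exfalso
      rw [← h] at hgz2 hpq
      have hp1 : p = 1 := by linarith
      rw [hp1] at hgz2
      apply hge; linarith
  have hopp : (g e - g x) * (g e' - g x) < 0 := by
    have h1 : g e - g x ≠ 0 := sub_ne_zero.mpr hge
    have h2 : g e' - g x = -(p / q) * (g e - g x) := by
      field_simp
      linarith
    rw [h2]
    have : 0 < (p / q) * ((g e - g x) * (g e - g x)) :=
      mul_pos (div_pos hp0 hq0) (mul_self_pos.mpr h1)
    linarith
  have hfe' : f e' ≤ c := by
    have h1 : f z ≤ c := (hseg z hz1).2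
    have h2 : p * f e + q * f e' ≤ c := by
      rw [← hpz] at h1; simpa using h1
    by_contra h3
    push Not at h3
    have h4 : (p + q) * c < p * f e + q * f e' := by nlinarith
    rw [hpq, one_mul] at h4
    linarith
  have heX2 : e' ∉ X := fun h => heX' ⟨h, hfe'⟩
  intro w hw hwc
  by_contra hwX
  have hgw : g w ≠ g x := by
    intro h0
    linarith [(hseg w (hg w hw h0)).2]
  have hside : 0 < (g e - g x) * (g w - g x) := by
    by_contra h0
    have h1 : (g e - g x) * (g w - g x) < 0 := by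
      refine lt_of_le_of_ne (not_lt.mp h0) ?_
      exact mul_ne_zero (sub_ne_zero.mpr hge) (sub_ne_zero.mpr hgw)
    obtain ⟨y, hy, hgy⟩ := exists_on_segment g h1
    have hyF : y ∈ F := hF.segment_subset he hw hy
    have hcv : Convex ℝ {y | c < f y} := convex_halfSpace_gt f.isLinear c
    have h2 : c < f y := hcv.segment_subset hec hwc hy
    linarith [(hseg y (hg y hyF hgy)).2]
  have hopp2 : (g w - g x) * (g e' - g x) < 0 := by
    by_contra h0
    push Not at h0
    have h1 : 0 ≤ ((g e - g x) * (g w - g x)) * ((g w - g x) * (g e' - g x)) :=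
      mul_nonneg hside.le h0
    have h2 : ((g e - g x) * (g w - g x)) * ((g w - g x) * (g e' - g x))
        = ((g w - g x) * (g w - g x)) * ((g e - g x) * (g e' - g x)) := by ring
    rw [h2] at h1
    have h3 : 0 < (g w - g x) * (g w - g x) := mul_self_pos.mpr (sub_ne_zero.mpr hgw)
    nlinarith
  obtain ⟨y, hy, hgy⟩ := exists_on_segment g hopp2
  have hyF : y ∈ F := hF.segment_subset hw he' hy
  exact hn ⟨x, ⟨hx, hxF⟩, x', ⟨hx', hxF'⟩, w, ⟨hw, hwX⟩, e', ⟨he', heX2⟩, y,
    hg y hyF hgy, hy⟩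

/-- If cutting the first set off creates a crossing, the second set beyond the line is contained
in the first set. -/
lemma key [FiniteDimensional ℝ E] (hE : finrank ℝ E = 2) {X F : Set E}
    (hX : Convex ℝ X) (hF : Convex ℝ F) (f : E →L[ℝ] ℝ) (c : ℝ) (hn : ¬ Cross X F)
    (hc : Cross (X ∩ {y | f y ≤ c}) F) : ∀ w ∈ F, c < f w → w ∈ X := by
  obtain ⟨x, hx, x', hx', e, he, e', he', z, hz1, hz2⟩ := hc
  have hf : ∀ y ∈ F \ (X ∩ {y | f y ≤ c}), y ∈ X → c < f y := by
    intro y hy hyX
    by_contra h0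
    exact hy.2 ⟨hyX, not_lt.mp h0⟩
  by_cases h1 : e ∈ X
  · exact key_aux hE hX hF f c hn hx.1.1 hx.2 hx.1.2 hx'.1.1 hx'.2 hx'.1.2 he.1 (hf e he h1)
      he'.1 (fun h => he'.2 h) hz1 hz2
  by_cases h2 : e' ∈ X
  · exact key_aux hE hX hF f c hn hx.1.1 hx.2 hx.1.2 hx'.1.1 hx'.2 hx'.1.2 he'.1 (hf e' he' h2)
      he.1 (fun h => he.2 h) hz1 (by rw [segment_symm]; exact hz2)
  · exact absurd ⟨x, ⟨hx.1.1, hx.2⟩, x', ⟨hx'.1.1, hx'.2⟩, e, ⟨he.1, h1⟩, e', ⟨he'.1, h2⟩, z,
      hz1, hz2⟩ hn

/-- The separating line of two overlapping noncrossing sets, none inside the other. -/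
lemma exists_sep [FiniteDimensional ℝ E] (hE : finrank ℝ E = 2) {A B : Set E}
    (hA : Convex ℝ A) (hB : Convex ℝ B) (hAc : IsClosed A) (hBc : IsClosed B)
    (hn : ¬ Cross A B) (hAB : ¬ A ⊆ B) (hBA : ¬ B ⊆ A) (hint : (interior A).Nonempty) :
    ∃ f : E →L[ℝ] ℝ, ∃ c : ℝ, f ≠ 0 ∧ (∀ a ∈ A \ B, f a ≤ c) ∧ ∀ b ∈ B \ A, c ≤ f b := by
  have hcl : A \ B ⊆ closure (interior A \ B) := by
    intro a ha
    have h1 : closure (interior A) = closure A :=
      hA.closure_interior_eq_closure_of_nonempty_interior hint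
    have h2 : a ∈ closure (interior A) := by rw [h1]; exact subset_closure ha.1
    have h3 := hBc.isOpen_compl.inter_closure (s := Bᶜ) (t := interior A) ⟨ha.2, h2⟩
    rw [inter_comm, ← diff_eq] at h3
    exact h3
  have hdisj : Disjoint (convexHull ℝ (interior A \ B)) (convexHull ℝ (B \ A)) := by
    rw [Set.disjoint_left]
    intro x hx1 hx2
    have hi : interior A \ B ⊆ A \ B := diff_subset_diff_left interior_subset
    rcases hull_inter_cases hE hx1 hx2 with ⟨p, hp, hq⟩ | ⟨q, hq, hp⟩ | ⟨p, hp, p', hp', q, hq,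
      q', hq', hz⟩
    · exact hp.2 (convexHull_min (diff_subset) hB hq)
    · exact hq.2 (convexHull_min (diff_subset.trans interior_subset) hA hp)
    · exact hn ⟨p, hi hp, p', hi hp', q, hq, q', hq', hz⟩
  obtain ⟨f, u, hf1, hf2⟩ := geometric_hahn_banach_open (convex_convexHull ℝ _)
    ((isOpen_interior.sdiff hBc).convexHull) (convex_convexHull ℝ _) hdisj
  refine ⟨f, u, ?_, ?_, ?_⟩
  · rintro rfl
    obtain ⟨b, hb, hb'⟩ := not_subset.mp hBA
    obtain ⟨a, ha, ha'⟩ := not_subset.mp hAB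
    have h1 := hf2 b (subset_convexHull ℝ _ ⟨hb, hb'⟩)
    obtain ⟨a1, ha1⟩ := closure_nonempty_iff.mp ⟨a, hcl ⟨ha, ha'⟩⟩
    have h2 := hf1 a1 (subset_convexHull ℝ _ ha1)
    simp at h1 h2
    linarith
  · intro a ha
    have h1 : IsClosed {y | f y ≤ u} := isClosed_le f.continuous continuous_const
    exact closure_minimal (fun y hy => (hf1 y (subset_convexHull ℝ _ hy)).le) h1 (hcl ha)
  · intro b hb
    exact hf2 b (subset_convexHull ℝ _ hb)

end C2305b.Cells
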