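import Pool.Agent.W_c2305b_h35.CellFrame
import Pool.Agent.W82_c2305b.AF4
import Pool.Agent.W82_c2305b.AF6

/-!
# The data of the identity for a tiling by copies of a body near a parallelogram
-/

open MeasureTheory Set Module W82

namespace C2305bFat

open C2305b (Pl t6 HexBound)
open C2305b.TL (cr)

/-- A functional which vanishes on `u` is a multiple of the cross product with `u`. -/
lemma func_cr {f : Pl →L[ℝ] ℝ} {u : Pl} (hu : u ≠ 0) (hfu : f u = 0) (hf : f ≠ 0) :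
    ∃ μ : ℝ, μ ≠ 0 ∧ ∀ x, f x = μ * cr u x := by
  set J : Pl := !₂[-u 1, u 0] with hJ
  have huu := dt_self_pos hu
  have hx : ∀ x : Pl, f x = f J / dt u u * cr u x := by
    intro x
    have e : dt u u • x = dt u x • u + cr u x • J := by
      apply C2305b.ext2
      · show (u 0 * u 0 + u 1 * u 1) * x 0 =
          (u 0 * x 0 + u 1 * x 1) * u 0 + (u 0 * x 1 - u 1 * x 0) * -u 1
        ring
      · show (u 0 * u 0 + u 1 * u 1) * x 1 =
          (u 0 * x 0 + u 1 * x 1) * u 1 + (u 0 * x 1 - u 1 * x 0) * u 0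
        ring
    have h1 := congrArg f e
    rw [map_smul, map_add, map_smul, map_smul, hfu, smul_eq_mul, smul_eq_mul, smul_eq_mul,
      mul_zero, zero_add] at h1
    field_simp
    linarith
  refine ⟨f J / dt u u, ?_, hx⟩
  intro h0
  apply hf
  ext x
  rw [hx, h0, zero_mul]
  rfl

/-- The true cell is on the left of its inner edges. -/
lemma true_left {ι : Type*} [Finite ι] {D : Set Pl} {P : ι → Set Pl} (h : Tiling D P)
    (hi : (interior (convexHull ℝ (Vb D P))).Nonempty)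
    {i : {i : ι // (interior (convexHull ℝ (S P i))).Nonempty}} {v w : Pl}
    (hE : (h.toTL hi).E i v w) (hB : ¬ (h.toTL hi).Bd v w) :
    ∀ y ∈ P i, 0 ≤ cr (w - v) (y - v) := by
  rcases (h.toTL hi).boundary_or_twin hE with h0 | ⟨j, hj⟩
  · exact absurd h0 hB
  have hwv : w - v ≠ 0 := sub_ne_zero.2 hE.2.2.1
  have hne : i ≠ j := by
    rintro rfl
    exact absurd hj (by
      intro hj'
      obtain ⟨o, ho⟩ := (h.toTL hi).nonem i
      have h1 := C2305b.TL.cr_pos_of_mem_interior hwv hE.2.2.2.1 ho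
      have h2 := hj'.2.2.2.1 o (interior_subset ho)
      have h3 : cr (v - w) (o - w) = -cr (w - v) (o - v) := by simp [cr]; ring
      linarith)
  have hij : (i : ι) ≠ (j : ι) := fun h0 => hne (Subtype.ext h0)
  obtain ⟨f, c, hf, hfi, hfj⟩ := h.sep hij
  have hsubi : ∀ x ∈ (h.toTL hi).P i, x ∈ P i := fun x hx => h.hull_sub i hx
  have hsubj : ∀ x ∈ (h.toTL hi).P j, x ∈ P j := fun x hx => h.hull_sub j hx
  have hv : f v = c := le_antisymm (hfi v (hsubi v hE.1.2)) (hfj v (hsubj v hj.2.1.2))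
  have hw : f w = c := le_antisymm (hfi w (hsubi w hE.2.1.2)) (hfj w (hsubj w hj.1.2))
  obtain ⟨μ, hμ, hfx⟩ := func_cr hwv (by rw [map_sub, hv, hw, sub_self]) hf
  have hle : ∀ y ∈ P i, μ * cr (w - v) (y - v) ≤ 0 := by
    intro y hy
    rw [← hfx, map_sub, hv]
    linarith [hfi y hy]
  obtain ⟨o, ho⟩ := (h.toTL hi).nonem i
  have h1 := C2305b.TL.cr_pos_of_mem_interior hwv hE.2.2.2.1 ho
  have h2 := hle o (hsubi o (interior_subset ho))
  have hμ0 : μ < 0 := by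
    by_contra hcon
    push Not at hcon
    have h3 : 0 < μ := lt_of_le_of_ne hcon (Ne.symm hμ)
    have := mul_pos h3 h1
    linarith
  intro y hy
  by_contra hcon
  push Not at hcon
  have := mul_pos_of_neg_of_neg hμ0 hcon
  linarith [hle y hy]

/-- Directions modulo `π` and rotations. -/
lemma dr_of_rot {a b : Pl} {l : ℝ} (ha : a ≠ 0) (hb : b ≠ 0)
    (h : ‖a‖ • b = ‖b‖ • rot l a) :
    C2305bAF.dr b = C2305bAF.dr a + ((l : ℝ) : AddCircle Real.pi) := by
  rw [C2305bAF.dr_iff ha hb]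
  have hn : 0 < ‖a‖ := norm_pos_iff.2 ha
  have h1 : dt a (‖a‖ • b) = dt a (‖b‖ • rot l a) := by rw [h]
  have h2 : cr a (‖a‖ • b) = cr a (‖b‖ • rot l a) := by rw [h]
  rw [dt_smul_right, dt_smul_right, dt_self_rot] at h1
  rw [cr_smul_right', cr_smul_right', cr_self_rot] at h2
  show Real.sin l * dt a b = Real.cos l * cr a b
  have h3 : ‖a‖ * (Real.sin l * dt a b) = ‖a‖ * (Real.cos l * cr a b) := by
    linear_combination Real.sin l * h1 - Real.cos l * h2
  exact mul_left_cancel₀ hn.ne' h3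

lemma dr_side {A B : Pl} {φ : ℝ}
    (hφ : C2305bAF.dr B = C2305bAF.dr A + ((φ : ℝ) : AddCircle Real.pi)) (k : Fin 4) :
    ∃ n : ℤ, |n| ≤ 1 ∧
      C2305bAF.dr (cA A B k) = C2305bAF.dr A + (((n : ℝ) * φ : ℝ) : AddCircle Real.pi) := by
  fin_cases k
  · refine ⟨0, by norm_num, ?_⟩
    show C2305bAF.dr A = _
    simp
  · refine ⟨1, by norm_num, ?_⟩
    show C2305bAF.dr B = _
    rw [hφ]; simp
  · refine ⟨0, by norm_num, ?_⟩
    show C2305bAF.dr (-A) = _
    rw [C2305bAF.dr_neg]; simp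
  · refine ⟨1, by norm_num, ?_⟩
    show C2305bAF.dr (-B) = _
    rw [C2305bAF.dr_neg, hφ]; simp

lemma cA_ne {A B : Pl} (hA : A ≠ 0) (hB : B ≠ 0) (k : Fin 4) : cA A B k ≠ 0 := by
  fin_cases k
  · exact hA
  · exact hB
  · exact neg_ne_zero.2 hA
  · exact neg_ne_zero.2 hB

/-- **The data of the identity.** -/
theorem exists_dat {α κ l0 : ℝ} (hα : 0 < α) (hκ : 0 < κ) (hl0 : 0 < l0) : ∃ C : ℝ, 0 < C ∧
    ∃ c0 : ℝ, 0 < c0 ∧ ∀ (K : Set Pl) (U W : Pl) (h : ℝ), IsCompact K → NearP K U W h →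
      K ⊆ Metric.closedBall 0 α → κ ≤ cr U W →
    ∀ (ι : Type) [Fintype ι] (D : Set Pl) (P : ι → Set Pl)
      [Fintype {i : ι // (interior (convexHull ℝ (S P i))).Nonempty}] (hV : Vio D P K)
      (T : Pl → Pl), Frame D P T →
    ∀ bad : Set ι, (∀ i, i ∉ bad → h + miss K P i ≤ c0) →
      (∀ i, i ∉ bad → (interior (convexHull ℝ (S P i))).Nonempty) →
      (∀ i, i ∉ bad → ∀ p q, Side D P p q → segment ℝ p q ⊆ P i → cap D p q ⊆ P i →
        turn T p q ≤ c0) →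
    ∀ (c : Pl → Pl) (f : Pl → ℝ),
      (∀ v ∈ (hV.til.toTL hV.hull).W, ∀ w ∈ (hV.til.toTL hV.hull).W, c v = c w → f v = f w) →
      (∀ v ∈ (hV.til.toTL hV.hull).W, ∀ w ∈ (hV.til.toTL hV.hull).W, dist v w < l0 → c v = c w) →
      (∀ v, 0 ≤ f v) → (∀ v ∈ (hV.til.toTL hV.hull).W, ∀ i ∈ bad, v ∈ P i → f v = 0) →
    ∀ φ : ℝ, (∀ A B : Pl, A ≠ 0 → B ≠ 0 → dt A B = dt U W → cr A B = cr U W →
        C2305bAF.dr B = C2305bAF.dr A + ((φ : ℝ) : AddCircle Real.pi)) →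
    ∃ (θ : {i : ι // (interior (convexHull ℝ (S P i))).Nonempty} → AddCircle Real.pi)
      (n : {i : ι // (interior (convexHull ℝ (S P i))).Nonempty} → Pl × Pl → ℤ)
      (la lb : {i : ι // (interior (convexHull ℝ (S P i))).Nonempty} → Pl × Pl → ℝ),
      (∀ i p, |n i p| ≤ 1) ∧
      C2305bAF.Dat (hV.til.toTL hV.hull) (fun p => ‖p.2 - p.1‖ < l0) c f
        (fun v => C2305bAF.dr (T v)) θ (fun _ => 1) n la lb (fun p => turn T p.1 p.2)
        (fun i => C * (h + miss K P i)) φ := by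
  obtain ⟨C, hC, c1, hc1, HA⟩ := lean_arc hα hκ hl0
  obtain ⟨C', hC', c2, hc2, HD⟩ := lean_dart hα hκ hl0
  refine ⟨max C C', lt_max_of_lt_left hC, min c1 c2, lt_min hc1 hc2, ?_⟩
  intro K U W h hK H hKα hκU ι _ D P _ hV T hT bad hb1 hb2 hb3 c f hf hc f0 fbad φ hφ
  set TT := hV.til.toTL hV.hull with hTT
  have hWmem : ∀ v ∈ TT.W, ∃ i, v ∈ S P i := fun v hv => hV.til.mem_M.mp hv
  have hCC : ∀ i, C * (h + miss K P i) ≤ max C C' * (h + miss K P i) := by
    intro i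
    exact mul_le_mul_of_nonneg_right (le_max_left _ _)
      (add_nonneg H.h0 (cell_frame hV hK H hKα hκU i).1)
  have hCC' : ∀ i, C' * (h + miss K P i) ≤ max C C' * (h + miss K P i) := by
    intro i
    exact mul_le_mul_of_nonneg_right (le_max_right _ _)
      (add_nonneg H.h0 (cell_frame hV hK H hKα hκU i).1)
  have key : ∀ i : {i : ι // (interior (convexHull ℝ (S P i))).Nonempty},
      ∃ θ : AddCircle Real.pi, ∀ p : Pl × Pl, ∃ (n : ℤ) (la lb : ℝ), |n| ≤ 1 ∧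
        (p ∈ TT.edges i → ¬ (‖p.2 - p.1‖ < l0) → ¬ TT.Bd p.1 p.2 → (f p.1 ≠ 0 ∨ f p.2 ≠ 0) →
          la = lb ∧ |la| ≤ max C C' * (h + miss K P i) ∧
          C2305bAF.dr (p.2 - p.1) = θ + (((n : ℝ) * φ : ℝ) : AddCircle Real.pi) +
            ((la : ℝ) : AddCircle Real.pi)) ∧
        (p ∈ TT.edges i → ¬ (‖p.2 - p.1‖ < l0) → TT.Bd p.1 p.2 → (f p.1 ≠ 0 ∨ f p.2 ≠ 0) →
          lb = la + turn T p.1 p.2 ∧ la ≤ max C C' * (h + miss K P i) ∧
          -(max C C' * (h + miss K P i)) ≤ lb ∧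
          C2305bAF.dr (T p.1) = θ + (((n : ℝ) * φ : ℝ) : AddCircle Real.pi) +
            ((la : ℝ) : AddCircle Real.pi) ∧
          C2305bAF.dr (T p.2) = θ + (((n : ℝ) * φ : ℝ) : AddCircle Real.pi) +
            ((lb : ℝ) : AddCircle Real.pi)) := by
    intro i
    obtain ⟨hm, o, A, B, X, hAB1, hAB2, HF⟩ := cell_frame hV hK H hKα hκU (i : ι)
    have hΔ : 0 < cr A B := by rw [hAB1]; exact H.pos
    have hA0 : A ≠ 0 := by
      rintro rfl
      have : cr (0 : Pl) B = 0 := by unfold cr; show 0 * _ - 0 * _ = _; ring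
      linarith
    have hB0 : B ≠ 0 := by
      rintro rfl
      have : cr A (0 : Pl) = 0 := by unfold cr; show _ * 0 - _ * 0 = _; ring
      linarith
    have hdrAB := hφ A B hA0 hB0 hAB2 hAB1
    refine ⟨C2305bAF.dr A, fun p => ?_⟩
    by_cases hp : p ∈ TT.edges i ∧ ¬ (‖p.2 - p.1‖ < l0) ∧ (f p.1 ≠ 0 ∨ f p.2 ≠ 0)
    · obtain ⟨hpe, hpl, hpf⟩ := hp
      have hE := TT.mem_edges.mp hpe
      have hp1 : p.1 ∈ P i := hV.til.hull_sub i hE.1.2
      have hp2 : p.2 ∈ P i := hV.til.hull_sub i hE.2.1.2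
      have hgood : (i : ι) ∉ bad := by
        intro hbad
        rcases hpf with h1 | h1
        · exact h1 (fbad p.1 hE.1.1 i hbad hp1)
        · exact h1 (fbad p.2 hE.2.1.1 i hbad hp2)
      have hhm := hb1 i hgood
      push Not at hpl
      by_cases hB : TT.Bd p.1 p.2
      · have hnd : (∀ l, p.1 ∈ P l → (interior (convexHull ℝ (S P l))).Nonempty) ∨
            (∀ l, p.2 ∈ P l → (interior (convexHull ℝ (S P l))).Nonempty) := by
          rcases hpf with h1 | h1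
          · exact Or.inl fun l hl => hb2 l fun hbl => h1 (fbad p.1 hE.1.1 l hbl hl)
          · exact Or.inr fun l hl => hb2 l fun hbl => h1 (fbad p.2 hE.2.1.1 l hbl hl)
        obtain ⟨hside, hseg, hcap⟩ := C2305bAF.bd_side hV.til hV.hull hE hB hnd
        have hturn := hb3 i hgood p.1 p.2 hside hseg hcap
        obtain ⟨k, lp, lq, r1, r2, r3, r4, r5⟩ := HA o A B p.1 p.2 (T p.1) (T p.2) X (P i) h
          (miss K P i) HF hΔ (hhm.trans (min_le_left _ _)) hp1 hp2 hpl (hT _ hside.1).1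
          (hT _ hside.2.1).1 (fun y hy => (hT _ hside.1).2 y (hV.til.sub i hy))
          (fun y hy => (hT _ hside.2.1).2 y (hV.til.sub i hy)) (hturn.trans (min_le_left _ _))
        obtain ⟨n, hn, hdn⟩ := dr_side hdrAB k
        have hck := cA_ne hA0 hB0 k
        refine ⟨n, lp, lq, hn, fun _ _ h3 => absurd hB h3, fun _ _ _ _ => ⟨r1, ?_, ?_, ?_, ?_⟩⟩
        · exact r2.trans (hCC i)
        · exact (neg_le_neg (hCC i)).trans r3
        · rw [dr_of_rot hck (hT _ hside.1).1 r4, hdn]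
        · rw [dr_of_rot hck (hT _ hside.2.1).1 r5, hdn]
      · have hleft := true_left hV.til hV.hull hE hB
        obtain ⟨k, l, r1, r2⟩ := HD o A B p.1 p.2 X (P i) h (miss K P i) HF hΔ
          (hhm.trans (min_le_right _ _)) hp1 hp2 hpl hleft
        obtain ⟨n, hn, hdn⟩ := dr_side hdrAB k
        have hck := cA_ne hA0 hB0 k
        have hw : p.2 - p.1 ≠ 0 := sub_ne_zero.2 hE.2.2.1
        refine ⟨n, l, l, hn, fun _ _ _ _ => ⟨rfl, r1.trans (hCC' i), ?_⟩,
          fun _ _ h3 => absurd h3 hB⟩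
        rw [dr_of_rot hck hw r2, hdn]
    · refine ⟨0, 0, 0, by norm_num, fun h1 h2 _ h4 => absurd ⟨h1, h2, h4⟩ hp,
        fun h1 h2 _ h4 => absurd ⟨h1, h2, h4⟩ hp⟩
  choose θ hθ using key
  choose n la lb hn hinn hbd using hθ
  refine ⟨θ, n, la, lb, hn, ?_⟩
  have hone : ∀ (m : ℤ), ((((1 : ℤ) : ℝ) * (m : ℝ) * φ : ℝ) : AddCircle Real.pi) =
      (((m : ℝ) * φ : ℝ) : AddCircle Real.pi) := by
    intro m
    rw [Int.cast_one, one_mul]
  refine ⟨hf, ?_, f0, ?_, ?_, ?_⟩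
  · intro i p hp hs
    have hE := TT.mem_edges.mp hp
    refine hc p.1 hE.1.1 p.2 hE.2.1.1 ?_
    rw [dist_comm, dist_eq_norm]
    exact hs
  · intro i p hp hs hB h0
    obtain ⟨h1, h2, h3⟩ := hinn i p hp hs hB h0
    exact ⟨h1, h2, by rw [hone]; exact h3⟩
  · intro i p hp hs hB h0
    obtain ⟨h1, h2, h3, h4, h5⟩ := hbd i p hp hs hB h0
    exact ⟨h1, h2, h3, by rw [hone]; exact h4, by rw [hone]; exact h5⟩
  · intro i p hp hs hB h0
    have hE := TT.mem_edges.mp hp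
    have hnd : (∀ l, p.1 ∈ P l → (interior (convexHull ℝ (S P l))).Nonempty) :=
      fun l hl => hb2 l fun hbl => h0 (fbad p.1 hE.1.1 l hbl hl)
    obtain ⟨hside, -, -⟩ := C2305bAF.bd_side hV.til hV.hull hE hB (Or.inl hnd)
    exact dr_of_rot (hT _ hside.1).1 (hT _ hside.2.1).1 (turn_rot hV hT hside)

end C2305bFat
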