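import Pool.Agent.W_c2305b_h73.Top
import Pool.Agent.W82_c2305b.WalkB
import Pool.Agent.W82_c2305b.Account

/-!
# Bounded eccentricity: a bound for the number of shared boundary points is enough

`frame_bound`: if `(Vb D P).ncard ≤ B` for every violation (partition of a convex body `D` into
convex cells in congruent copies of `K`, with `volume D > card * t6 K`), then the hexagon bound
holds for all `n ≥ N`, with `N` depending only on `B` and on the eccentricity of `K`.
-/

open MeasureTheory Set Module W82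

namespace C2305bFat

open C2305b (Pl t6 HexBound)

/-- The cells lie in congruent copies of `K`. -/
def InCopies {ι : Type*} (P : ι → Set Pl) (K : Set Pl) : Prop :=
  ∀ i, ∃ φ : Pl ≃ᵢ Pl, P i ⊆ φ '' K

/-- A violation of the hexagon bound for `K` by a partition. -/
structure Vio {ι : Type} [Fintype ι] (D : Set Pl) (P : ι → Set Pl) (K : Set Pl) : Prop where
  til : Tiling D P
  hull : (interior (convexHull ℝ (Vb D P))).Nonempty
  cop : InCopies P K
  two : ∃ i j : ι, i ≠ j
  big : (Fintype.card ι : ENNReal) * t6 K < volume D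

lemma InCopies.dist_le {ι : Type*} {P : ι → Set Pl} {K : Set Pl} {α : ℝ} (h : InCopies P K)
    (hK : K ⊆ Metric.closedBall 0 α) {i : ι} {p q : Pl} (hp : p ∈ P i) (hq : q ∈ P i) :
    ‖p - q‖ ≤ 2 * α := by
  obtain ⟨φ, hφ⟩ := h i
  obtain ⟨x, hx, rfl⟩ := hφ hp
  obtain ⟨y, hy, rfl⟩ := hφ hq
  rw [← dist_eq_norm, φ.dist_eq]
  have h1 := hK hx
  have h2 := hK hy
  rw [Metric.mem_closedBall, dist_zero_right] at h1 h2
  rw [dist_eq_norm]
  exact (norm_sub_le _ _).trans (by linarith)

lemma coord_le (v : Pl) (k : Fin 2) : |v k| ≤ ‖v‖ := by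
  have := PiLp.norm_apply_le v k
  rwa [Real.norm_eq_abs] at this

lemma norm_le_coords {v : Pl} {c : ℝ} (h : ∀ k, |v k| ≤ c) : ‖v‖ ≤ 2 * c := by
  have hc : 0 ≤ c := (abs_nonneg _).trans (h 0)
  rw [EuclideanSpace.norm_eq]
  apply Real.sqrt_le_iff.2
  refine ⟨by linarith, ?_⟩
  rw [Fin.sum_univ_two]
  have h0 : ‖v 0‖ ^ 2 ≤ c ^ 2 := by
    rw [Real.norm_eq_abs]; exact pow_le_pow_left₀ (abs_nonneg _) (h 0) 2
  have h1 : ‖v 1‖ ^ 2 ≤ c ^ 2 := by
    rw [Real.norm_eq_abs]; exact pow_le_pow_left₀ (abs_nonneg _) (h 1) 2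
  nlinarith

/-- The diameter of `D`. -/
lemma Vio.diam_le {ι : Type} [Fintype ι] {D : Set Pl} {P : ι → Set Pl} {K : Set Pl}
    (h : Vio D P K) {α : ℝ} (hα : 0 ≤ α) (hK : K ⊆ Metric.closedBall 0 α) {x y : Pl}
    (hx : x ∈ D) (hy : y ∈ D) :
    ‖x - y‖ ≤ 8 * α * ((Vb D P).ncard + 1) := by
  have hb : (0 : ℝ) ≤ ((Vb D P).ncard : ℝ) := Nat.cast_nonneg _
  have hnear : ∀ z ∈ D, ∃ z' ∈ convexHull ℝ (Vb D P), ‖z - z'‖ ≤ 2 * α := by
    intro z hz
    rcases h.til.cover_caps h.hull hz with h1 | h1
    · exact ⟨z, h1, by rw [sub_self, norm_zero]; linarith⟩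
    · obtain ⟨p, hp, hzp⟩ := mem_iUnion₂.mp h1
      rw [h.til.mem_sides h.hull] at hp
      obtain ⟨k, hk1, hk2⟩ := h.til.cap_cell hp
      exact ⟨p.1, subset_convexHull ℝ _ hp.1,
        h.cop.dist_le hK (hk2 hzp) (hk1 (left_mem_segment ℝ _ _))⟩
  obtain ⟨x', hx', hxx⟩ := hnear x hx
  obtain ⟨y', hy', hyy⟩ := hnear y hy
  have hco : ∀ k : Fin 2, |(x' - y') k| ≤ 4 * α * (Vb D P).ncard := by
    intro k
    let f : Pl →ₗ[ℝ] ℝ := (EuclideanSpace.proj k : Pl →L[ℝ] ℝ).toLinearMap
    have hf : ∀ v, f v = v k := fun v => rfl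
    have hm : ∀ i, ∀ p ∈ P i, ∀ q ∈ P i, |f p - f q| ≤ 2 * α := by
      intro i p hp q hq
      have h1 : f p - f q = (p - q) k := by rw [hf, hf]; rfl
      rw [h1]
      exact (coord_le _ _).trans (h.cop.dist_le hK hp hq)
    have w1 := h.til.width h.hull f hm hx' hy'
    have w2 := h.til.width h.hull f hm hy' hx'
    have e1 : (x' - y') k = f x' - f y' := by rw [hf, hf]; rfl
    rw [e1, abs_le]
    constructor <;> linarith
  have h1 := norm_le_coords hco
  have e : x - y = (x - x') + (x' - y') - (y - y') := by abel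
  rw [e]
  refine (norm_sub_le _ _).trans ?_
  have := norm_add_le (x - x') (x' - y')
  linarith

/-- **A bound for the number of shared boundary points is enough.** -/
theorem frame_bound (α : ℝ) (B : ℕ) : ∃ N : ℕ, ∀ K : Set Pl, Convex ℝ K → IsCompact K →
    Metric.closedBall 0 1 ⊆ K → K ⊆ Metric.closedBall 0 α →
    (∀ (ι : Type) [Fintype ι] (D : Set Pl) (P : ι → Set Pl), Vio D P K →
      (Vb D P).ncard ≤ B) → HexBound K N := by
  have hT0 : 0 < t6 (Metric.closedBall (0 : Pl) 1) :=
    C2305b.t6_pos ⟨0, Metric.ball_subset_interior_closedBall (Metric.mem_ball_self one_pos)⟩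
  set ρ : ℝ := 8 * α * (B + 1) with hρ
  have hfin : 2 * volume (Metric.closedBall (0 : Pl) α) + volume (Metric.closedBall (0 : Pl) ρ) ≠
      ⊤ := by
    apply ENNReal.add_ne_top.2
    exact ⟨ENNReal.mul_ne_top (by norm_num) (isCompact_closedBall _ _).measure_lt_top.ne,
      (isCompact_closedBall _ _).measure_lt_top.ne⟩
  obtain ⟨N, hN⟩ := ENNReal.exists_nat_mul_gt hT0.ne' hfin
  refine ⟨N, ?_⟩
  intro K hKc hKcomp hK1 hKα hB D hDc hDcomp hDi n hn φ hnc hcov
  by_contra hcon
  push Not at hcon
  have hNn : 2 * volume (Metric.closedBall (0 : Pl) α) + volume (Metric.closedBall (0 : Pl) ρ) <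
      n * t6 K := by
    refine hN.trans_le ?_
    gcongr
    exact C2305b.t6_mono hK1
  have hKint : (interior K).Nonempty :=
    ⟨0, interior_mono hK1 (Metric.ball_subset_interior_closedBall (Metric.mem_ball_self one_pos))⟩
  have hα : 0 ≤ α := by
    have h1 : (0 : Pl) ∈ Metric.closedBall (0 : Pl) α :=
      hKα (hK1 (Metric.mem_closedBall_self zero_le_one))
    exact Metric.nonneg_of_mem_closedBall h1
  -- the copies
  have hvolK : ∀ i, volume (φ i '' K) = volume K := by
    intro i
    obtain ⟨o, c, s, σ, hcs, hσ, hφ⟩ := C2305b.isometry_form (φ i)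
    have h1 : φ i '' K = C2305b.body o c s 1 σ 1 0 K := by
      unfold C2305b.body
      apply image_congr
      intro x _
      rw [hφ]
      congr 1
      apply C2305b.ext2 <;> simp [C2305b.dil]
    rw [h1, C2305b.volume_body hcs (by norm_num) one_ne_zero hσ]
  have hKi_conv : ∀ i, Convex ℝ (φ i '' K) := by
    intro i
    obtain ⟨o, c, s, σ, hcs, hσ, hφ⟩ := C2305b.isometry_form (φ i)
    have h1 : φ i '' K = C2305b.body o c s 1 σ 1 0 K := by
      unfold C2305b.body
      apply image_congr
      intro x _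
      rw [hφ]
      congr 1
      apply C2305b.ext2 <;> simp [C2305b.dil]
    rw [h1]
    exact C2305b.convex_body hKc
  have hKi_comp : ∀ i, IsCompact (φ i '' K) := fun i => hKcomp.image (φ i).continuous
  have hKi_int : ∀ i, (interior (φ i '' K)).Nonempty := by
    intro i
    have : interior (φ i '' K) = (φ i).toHomeomorph '' interior K := by
      rw [Homeomorph.image_interior]; rfl
    rw [this]
    exact hKint.image _
  obtain ⟨J, P, f, d, hfd, hP, hPK, hPi, hDU⟩ := W82.partition_noncrossing (K := fun i => φ i '' K)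
    hKi_conv hKi_comp hKi_int (fun i j hij => hnc i j hij) hDc hDcomp hDi hcov
  classical
  haveI : Fintype J := Fintype.ofFinite J
  have hJn : Fintype.card J ≤ n := by
    simpa using (Fintype.card_le_of_injective (Subtype.val : J → Fin n) Subtype.val_injective)
  -- the tiling
  have htil : Tiling D (fun i : J => P i) := by
    have hcl : ∀ i ∈ J, IsClosed (P i) := by
      intro i hi
      rw [hP i hi]
      have : {x | x ∈ D ∧ ∀ j ∈ J, i ≠ j → f i j x ≤ d i j} =
          D ∩ ⋂ j ∈ J, ⋂ _ : i ≠ j, {x | f i j x ≤ d i j} := by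
        ext x; simp
      rw [this]
      exact hDcomp.isClosed.inter (isClosed_biInter fun j _ => isClosed_iInter fun _ =>
        isClosed_le (f i j).continuous continuous_const)
    have hco : ∀ i ∈ J, Convex ℝ (P i) := by
      intro i hi
      rw [hP i hi]
      have : {x | x ∈ D ∧ ∀ j ∈ J, i ≠ j → f i j x ≤ d i j} =
          D ∩ ⋂ j ∈ J, ⋂ _ : i ≠ j, {x | f i j x ≤ d i j} := by
        ext x; simp
      rw [this]
      exact hDc.inter (convex_iInter fun j => convex_iInter fun _ => convex_iInter fun _ =>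
        convex_halfSpace_le (f i j).isLinear _)
    refine ⟨hDc, hDcomp, fun i => hco i i.2, fun i => ?_, fun i => hPi i i.2, ?_, ?_⟩
    · refine hDcomp.of_isClosed_subset (hcl i i.2) ?_
      intro x hx
      rw [hP i i.2] at hx
      exact hx.1
    · rw [hDU]
      ext x
      simp
    · intro i j hij
      have hij' : (i : Fin n) ≠ j := fun h0 => hij (Subtype.ext h0)
      obtain ⟨h1, h2, h3⟩ := hfd i i.2 j j.2 hij'
      rw [disjoint_left]
      intro x hx hx'
      have h4 : ∀ y ∈ P i, f i j y ≤ d i j := by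
        intro y hy
        rw [hP i i.2] at hy
        exact hy.2 j j.2 hij'
      have h5 := W82.lt_of_mem_interior (f i j) h1 h4 hx
      have h6 := interior_subset hx'
      rw [hP j j.2] at h6
      have h7 := h6.2 i i.2 hij'.symm
      rw [h2, h3, neg_apply] at h7
      linarith
  have hcop : InCopies (fun i : J => P i) K := fun i => ⟨φ i, hPK i i.2⟩
  have hDle : volume D ≤ ∑ i : J, volume (P i) := by
    have h1 : D = ⋃ i : J, P i := htil.cover
    calc volume D = volume (⋃ i : J, P i) := by rw [← h1]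
      _ ≤ ∑ i : J, volume (P i) := measure_iUnion_fintype_le _ _
  have hPle : ∀ i : J, volume (P i) ≤ volume (Metric.closedBall (0 : Pl) α) := by
    intro i
    exact (measure_mono (hPK i i.2)).trans ((hvolK i).le.trans (measure_mono hKα))
  have hDbig : (Fintype.card J : ENNReal) * t6 K < volume D := by
    refine lt_of_le_of_lt ?_ hcon
    gcongr
  by_cases h2 : Fintype.card J ≤ 2
  · have h3 : volume D ≤ 2 * volume (Metric.closedBall (0 : Pl) α) := by
      refine hDle.trans ((Finset.sum_le_sum fun i _ => hPle i).trans ?_)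
      rw [Finset.sum_const, Finset.card_univ, nsmul_eq_mul]
      gcongr
      exact_mod_cast h2
    have h4 : volume D < n * t6 K := lt_of_le_of_lt (h3.trans le_self_add) hNn
    exact absurd hcon (not_lt.2 h4.le)
  · push Not at h2
    have hhull : (interior (convexHull ℝ (Vb D (fun i : J => P i)))).Nonempty := by
      by_contra h3
      have := htil.two_cells_of_degenerate h3
      omega
    obtain ⟨i, j, hij⟩ := Fintype.exists_pair_of_one_lt_card (by omega : 1 < Fintype.card J)
    have hV : Vio D (fun i : J => P i) K := ⟨htil, hhull, hcop, ⟨i, j, hij⟩, hDbig⟩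
    have hb := hB J D (fun i : J => P i) hV
    obtain ⟨x0, hx0⟩ := hDi
    have hx0' := interior_subset hx0
    have hsub : D ⊆ Metric.closedBall x0 ρ := by
      intro y hy
      rw [Metric.mem_closedBall, dist_eq_norm]
      refine (hV.diam_le hα hKα hy hx0').trans ?_
      rw [hρ]
      have : (((Vb D (fun i : J => P i)).ncard : ℕ) : ℝ) ≤ (B : ℝ) := by exact_mod_cast hb
      gcongr
    have h3 : volume D ≤ volume (Metric.closedBall (0 : Pl) ρ) := by
      refine (measure_mono hsub).trans (le_of_eq ?_)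
      rw [Measure.addHaar_closedBall_center]
    have h4 : volume D < n * t6 K := lt_of_le_of_lt (h3.trans le_add_self) hNn
    exact absurd hcon (not_lt.2 h4.le)

end C2305bFat
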