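import Pool.Agent.W_c2305b_h35.Far1
import Pool.Agent.W_c2305b_h52.Good

/-!
# Small caps

Finitely many directions are fixed. A cap of a convex body beyond a chord `p q` which contains no
extreme point in one of these directions is thin.
-/

open MeasureTheory Set Module W82

namespace C2305bFat

open C2305b (Pl t6 HexBound)
open C2305b.TL (cr)

/-- Finitely many directions, such that every direction has close neighbours on both sides. -/
theorem exists_dirs {ε : ℝ} (hε : 0 < ε) : ∃ (M : ℕ) (U : Fin M → Pl), ∀ e : Pl, e ≠ 0 →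
    (∃ k, ∃ a b : ℝ, 0 < a ∧ 0 ≤ b ∧ b ≤ ε * a ∧ U k 0 = a * e 0 - b * e 1 ∧
      U k 1 = a * e 1 + b * e 0) ∧
    (∃ k, ∃ a b : ℝ, 0 < a ∧ 0 ≤ b ∧ b ≤ ε * a ∧ U k 0 = a * e 0 + b * e 1 ∧
      U k 1 = a * e 1 - b * e 0) := by
  have hpi := Real.pi_pos
  obtain ⟨N, hN⟩ := exists_nat_gt (2 * Real.pi / min 1 (ε / 2))
  have hm : 0 < min 1 (ε / 2) := lt_min one_pos (by linarith)
  have hN0 : (0 : ℝ) < N := lt_of_le_of_lt (by positivity) hN
  set δ : ℝ := 2 * Real.pi / N with hδ
  have hδ0 : 0 < δ := by positivity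
  have hδm : δ < min 1 (ε / 2) := by
    rw [hδ, div_lt_iff₀ hN0]
    rw [div_lt_iff₀ hm] at hN
    linarith
  have hδ1 : δ < 1 := hδm.trans_le (min_le_left _ _)
  have hδ2 : δ < ε / 2 := hδm.trans_le (min_le_right _ _)
  -- small angles
  have hang : ∀ x : ℝ, 0 ≤ x → x ≤ δ → 0 < Real.cos x ∧ 0 ≤ Real.sin x ∧
      Real.sin x ≤ ε * Real.cos x := by
    intro x h0 h1
    have c1 : 1 / 2 ≤ Real.cos x := by
      have := Real.one_sub_sq_div_two_le_cos (x := x)
      nlinarith
    have s1 : Real.sin x ≤ x := Real.sin_le h0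
    have s0 : 0 ≤ Real.sin x := Real.sin_nonneg_of_nonneg_of_le_pi h0 (by
      have : (1 : ℝ) ≤ Real.pi := by linarith [Real.pi_gt_three]
      linarith)
    refine ⟨by linarith, s0, ?_⟩
    have : ε * (1 / 2) ≤ ε * Real.cos x := mul_le_mul_of_nonneg_left c1 hε.le
    linarith
  refine ⟨2 * N + 2, fun i => !₂[Real.cos (((i : ℕ) : ℝ) * δ - N * δ),
    Real.sin (((i : ℕ) : ℝ) * δ - N * δ)], ?_⟩
  intro e he
  set z : ℂ := ⟨e 0, e 1⟩ with hz
  have hz0 : z ≠ 0 := by
    intro h
    apply he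
    have h0 : e 0 = 0 := congrArg Complex.re h
    have h1 : e 1 = 0 := congrArg Complex.im h
    exact C2305b.ext2 h0 h1
  set r := ‖z‖ with hr
  have hr0 : 0 < r := norm_pos_iff.2 hz0
  set θ := Complex.arg z with hθ
  have e0 : e 0 = r * Real.cos θ := (Complex.norm_mul_cos_arg z).symm
  have e1 : e 1 = r * Real.sin θ := (Complex.norm_mul_sin_arg z).symm
  have hθ1 : -Real.pi < θ := Complex.neg_pi_lt_arg z
  have hθ2 : θ ≤ Real.pi := Complex.arg_le_pi z
  have hNδ : N * δ = 2 * Real.pi := by rw [hδ]; field_simp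
  set k : ℤ := ⌊θ / δ⌋ with hk
  have k1 : (k : ℝ) * δ ≤ θ := by
    have := Int.floor_le (θ / δ)
    rwa [le_div_iff₀ hδ0] at this
  have k2 : θ < ((k : ℝ) + 1) * δ := by
    have := Int.lt_floor_add_one (θ / δ)
    rwa [div_lt_iff₀ hδ0] at this
  have k3 : -(N : ℤ) ≤ k := by
    rw [hk, Int.le_floor, le_div_iff₀ hδ0]
    push_cast
    linarith
  have k4 : k ≤ N := by
    by_contra hcon
    push Not at hcon
    have h1 : ((N : ℤ) : ℝ) + 1 ≤ (k : ℝ) := by exact_mod_cast hcon
    push_cast at h1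
    have h2 := mul_le_mul_of_nonneg_right h1 hδ0.le
    nlinarith
  obtain ⟨i, hi⟩ : ∃ i : ℕ, (i : ℤ) = k + N := ⟨(k + N).toNat, Int.toNat_of_nonneg (by omega)⟩
  have hi' : (i : ℝ) = k + N := by exact_mod_cast hi
  have hilt : i < 2 * N + 1 := by omega
  constructor
  · -- the next direction
    set y := ((k : ℝ) + 1) * δ - θ with hy
    obtain ⟨c1, s1, s2⟩ := hang y (by linarith) (by rw [hy]; linarith)
    refine ⟨⟨i + 1, by omega⟩, Real.cos y / r, Real.sin y / r, by positivity, by positivity,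
      ?_, ?_, ?_⟩
    · rw [mul_div_assoc']
      exact div_le_div_of_nonneg_right s2 hr0.le
    · show Real.cos (((i + 1 : ℕ) : ℝ) * δ - N * δ) = _
      have ha : ((i + 1 : ℕ) : ℝ) * δ - N * δ = θ + y := by
        push_cast
        rw [hi', hy]; ring
      rw [ha, Real.cos_add, e0, e1]
      field_simp
    · show Real.sin (((i + 1 : ℕ) : ℝ) * δ - N * δ) = _
      have ha : ((i + 1 : ℕ) : ℝ) * δ - N * δ = θ + y := by
        push_cast
        rw [hi', hy]; ring
      rw [ha, Real.sin_add, e0, e1]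
      field_simp
  · set x := θ - (k : ℝ) * δ with hx
    obtain ⟨c1, s1, s2⟩ := hang x (by linarith) (by rw [hx]; linarith)
    refine ⟨⟨i, by omega⟩, Real.cos x / r, Real.sin x / r, by positivity, by positivity,
      ?_, ?_, ?_⟩
    · rw [mul_div_assoc']
      exact div_le_div_of_nonneg_right s2 hr0.le
    · show Real.cos ((i : ℝ) * δ - N * δ) = _
      have ha : (i : ℝ) * δ - N * δ = θ - x := by
        rw [hi', hx]; ring
      rw [ha, Real.cos_sub, e0, e1]
      field_simp
    · show Real.sin ((i : ℝ) * δ - N * δ) = _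
      have ha : (i : ℝ) * δ - N * δ = θ - x := by
        rw [hi', hx]; ring
      rw [ha, Real.sin_sub, e0, e1]
      field_simp

/-- The scalar product. -/
def dt (w v : Pl) : ℝ := w 0 * v 0 + w 1 * v 1

/-- One end of the chord: the slope of `D` there. `σ = ±1` is the orientation of the normal. -/
lemma slope_end {D : Set Pl} (hD : Convex ℝ D) (hi : (interior D).Nonempty) {q w : Pl}
    (hq : q ∉ interior D) (hw : w ≠ 0) {σ : ℝ} (hσ : σ = 1 ∨ σ = -1)
    (hp : q - w ∈ D) {x y z0 : Pl} (hx : x ∈ D) (hy : y ∈ D) (hz : z0 ∈ D)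
    (hz0 : 0 < σ * cr w (z0 - q)) (hyc : σ * cr w (y - q) < 0) (hxc : 0 ≤ σ * cr w (x - q))
    {a b : ℝ} (ha : 0 < a) (hb : 0 ≤ b)
    (hmax : a * -(σ * cr w (y - q)) + b * dt w (y - q) ≤
      a * -(σ * cr w (x - q)) + b * dt w (x - q)) :
    a * -(σ * cr w (y - q)) + b * dt w (y - q) ≤ 0 := by
  by_contra hcon
  push Not at hcon
  obtain ⟨α, β, hne, hsup⟩ := C2305bH52.exists_support hD hi hq
  have hσ2 : σ * σ = 1 := by rcases hσ with rfl | rfl <;> norm_num
  set A := α * w 0 + β * w 1 with hA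
  set B := σ * (α * w 1 - β * w 0) with hB
  have hww : 0 < w 0 * w 0 + w 1 * w 1 := by
    by_contra h
    apply hw
    have h0 : w 0 = 0 := by nlinarith [mul_self_nonneg (w 0), mul_self_nonneg (w 1)]
    have h1 : w 1 = 0 := by nlinarith [mul_self_nonneg (w 0), mul_self_nonneg (w 1)]
    exact C2305b.ext2 h0 h1
  have hid : ∀ v : Pl, (α * v 0 + β * v 1) * (w 0 * w 0 + w 1 * w 1) =
      A * dt w v + B * -(σ * cr w v) := by
    intro v
    have e : B * -(σ * cr w v) = (σ * σ) * ((α * w 1 - β * w 0) * -(cr w v)) := by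
      rw [hB]; ring
    rw [e, hσ2, hA]
    unfold dt cr
    ring
  have hle : ∀ z ∈ D, A * dt w (z - q) + B * -(σ * cr w (z - q)) ≤ 0 := by
    intro z hz'
    rw [← hid]
    exact mul_nonpos_of_nonpos_of_nonneg (hsup z hz') hww.le
  have hAnn : 0 ≤ A := by
    have h1 := hle _ hp
    have e1 : q - w - q = -w := by abel
    have e2 : dt w (-w) = -(w 0 * w 0 + w 1 * w 1) := by
      unfold dt
      show w 0 * -(w 0) + w 1 * -(w 1) = _
      ring
    have e3 : cr w (-w) = 0 := by
      unfold cr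
      show w 0 * -(w 1) - w 1 * -(w 0) = 0
      ring
    rw [e1, e2, e3, mul_zero, neg_zero, mul_zero, add_zero] at h1
    by_contra h
    push Not at h
    nlinarith
  have hY := hle _ hy
  have hX := hle _ hx
  have hZ := hle _ hz
  set Ny := -(σ * cr w (y - q)) with hNy
  set Ty := dt w (y - q) with hTy
  set Nx := -(σ * cr w (x - q)) with hNx
  set Tx := dt w (x - q) with hTx
  set Nz := -(σ * cr w (z0 - q)) with hNz
  set Tz := dt w (z0 - q) with hTz
  have hNy0 : 0 < Ny := by rw [hNy]; linarith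
  have hNx0 : Nx ≤ 0 := by rw [hNx]; linarith
  have hNz0 : Nz < 0 := by rw [hNz]; linarith
  have hxpos : 0 < a * Nx + b * Tx := by linarith
  have hbT : 0 < b * Tx := by
    have := mul_nonneg ha.le (neg_nonneg.2 hNx0)
    linarith
  have hb0 : 0 < b := by
    rcases hb.eq_or_lt with h | h
    · rw [← h, zero_mul] at hbT; exact absurd hbT (lt_irrefl _)
    · exact h
  rcases hAnn.eq_or_lt with hA0 | hA0
  · rw [← hA0, zero_mul, zero_add] at hY hZ
    have hB1 : B ≤ 0 := by
      by_contra h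
      push Not at h
      have := mul_pos h hNy0
      linarith
    have hB2 : 0 ≤ B := by
      by_contra h
      push Not at h
      have := mul_pos_of_neg_of_neg h hNz0
      linarith
    have hB0 : B = 0 := le_antisymm hB1 hB2
    have hB' : α * w 1 - β * w 0 = 0 := by
      rcases hσ with h | h <;> rw [h] at hB <;> linarith
    have hA' : α * w 0 + β * w 1 = 0 := by rw [← hA]; exact hA0.symm
    apply hne
    have h1 : α * (w 0 * w 0 + w 1 * w 1) = 0 := by linear_combination w 0 * hA' + w 1 * hB'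
    have h2 : β * (w 0 * w 0 + w 1 * w 1) = 0 := by linear_combination w 1 * hA' - w 0 * hB'
    exact ⟨(mul_eq_zero.1 h1).resolve_right hww.ne', (mul_eq_zero.1 h2).resolve_right hww.ne'⟩
  · -- `A b Tx ≤ B b (-Nx)` and `b Tx > a (-Nx)`
    have h1 : A * (b * Tx) ≤ B * b * -Nx := by nlinarith [mul_le_mul_of_nonneg_left hX hb0.le]
    have h2 : A * (a * -Nx) < A * (b * Tx) := mul_lt_mul_of_pos_left (by linarith) hA0
    have h3 : 0 < (B * b - A * a) * -Nx := by linarith
    have h4 : 0 < B * b - A * a := by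
      by_contra h
      push Not at h
      have := mul_nonpos_of_nonpos_of_nonneg h (neg_nonneg.2 hNx0)
      linarith
    have h5 : A * (b * Ty) ≤ -(B * b * Ny) := by nlinarith [mul_le_mul_of_nonneg_left hY hb0.le]
    have h6 : 0 < (B * b - A * a) * Ny := mul_pos h4 hNy0
    have h7 : 0 < A * (a * Ny + b * Ty) := mul_pos hA0 hcon
    nlinarith

end C2305bFat
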