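import Pool.Agent.W_c2305b_h35.Far2
import Pool.Agent.W_c2305b_h52.Line
import Pool.Agent.W_c2305b_h52.CapDisj
import Pool.Agent.W_c2305b_h68.Chain

/-!
# Thin caps have small area
-/

open MeasureTheory Set Module W82

namespace C2305bFat

open C2305b (Pl t6 HexBound)
open C2305b.TL (cr)

lemma cr_self_zero (w : Pl) : cr w w = 0 := by unfold cr; ring

lemma cr_sub' (w a b : Pl) : cr w (a - b) = cr w a - cr w b := by
  unfold cr
  show w 0 * (a 1 - b 1) - w 1 * (a 0 - b 0) = _
  ring

lemma dt_sub' (w a b : Pl) : dt w (a - b) = dt w a - dt w b := by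
  unfold dt
  show w 0 * (a 0 - b 0) + w 1 * (a 1 - b 1) = _
  ring

lemma dt_self_pos {w : Pl} (hw : w ≠ 0) : 0 < dt w w := by
  unfold dt
  by_contra h
  apply hw
  have h0 : w 0 = 0 := by nlinarith [mul_self_nonneg (w 0), mul_self_nonneg (w 1)]
  have h1 : w 1 = 0 := by nlinarith [mul_self_nonneg (w 0), mul_self_nonneg (w 1)]
  exact C2305b.ext2 h0 h1

lemma dt_self_eq (w : Pl) : dt w w = ‖w‖ ^ 2 := by
  rw [EuclideanSpace.norm_eq, Real.sq_sqrt (by positivity), Fin.sum_univ_two, Real.norm_eq_abs,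
    Real.norm_eq_abs, sq_abs, sq_abs]
  unfold dt
  ring

/-- The property of the fixed directions. -/
def Dirs (ε : ℝ) {M : ℕ} (U : Fin M → Pl) : Prop := ∀ e : Pl, e ≠ 0 →
    (∃ k, ∃ a b : ℝ, 0 < a ∧ 0 ≤ b ∧ b ≤ ε * a ∧ U k 0 = a * e 0 - b * e 1 ∧
      U k 1 = a * e 1 + b * e 0) ∧
    (∃ k, ∃ a b : ℝ, 0 < a ∧ 0 ≤ b ∧ b ≤ ε * a ∧ U k 0 = a * e 0 + b * e 1 ∧
      U k 1 = a * e 1 - b * e 0)

/-- **A cap without extreme points in the fixed directions is thin.** -/
theorem cap_thin {ε : ℝ} {M : ℕ} {U : Fin M → Pl} (hU : Dirs ε U) {D : Set Pl}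
    (hD : Convex ℝ D) (hi : (interior D).Nonempty) {p q : Pl} (hpD : p ∈ D) (hqD : q ∈ D)
    (hp : p ∉ interior D) (hq : q ∉ interior D) (hne : q ≠ p) {z0 : Pl} (hz0 : z0 ∈ D)
    (hz : 0 < cr (q - p) (z0 - p)) {x : Fin M → Pl} (hx : ∀ k, x k ∈ D)
    (hmax : ∀ k, ∀ y ∈ D, dt (U k) y ≤ dt (U k) (x k)) (hout : ∀ k, x k ∉ cap D p q) {y : Pl}
    (hy : y ∈ cap D p q) :
    0 < -cr (q - p) (y - p) ∧ -cr (q - p) (y - p) ≤ ε * dt (q - p) (y - p) ∧
      -cr (q - p) (y - p) ≤ ε * (dt (q - p) (q - p) - dt (q - p) (y - p)) := by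
  set w := q - p with hw
  have hw0 : w ≠ 0 := sub_ne_zero.2 hne
  obtain ⟨hyD, hyc⟩ := hy
  have hyc' : cr w (y - p) < 0 := hyc
  set e : Pl := !₂[w 1, -(w 0)] with he
  have e0 : e 0 = w 1 := rfl
  have e1 : e 1 = -(w 0) := rfl
  have hene : e ≠ 0 := by
    intro h
    apply hw0
    have h1 : w 1 = 0 := by rw [← e0, h]; rfl
    have h0 : -(w 0) = 0 := by rw [← e1, h]; rfl
    exact C2305b.ext2 (neg_eq_zero.mp h0) h1
  have hxc : ∀ k, 0 ≤ cr w (x k - p) := by
    intro k
    by_contra h
    push Not at h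
    exact hout k ⟨hx k, h⟩
  have hcq : ∀ v : Pl, cr w (v - q) = cr w (v - p) := by
    intro v
    have h1 : v - q = v - p - w := by rw [hw]; abel
    rw [h1, cr_sub', cr_self_zero, sub_zero]
  obtain ⟨⟨k, a, b, ha, hb, hab, u0, u1⟩, ⟨k', a', b', ha', hb', hab', v0, v1⟩⟩ := hU e hene
  have hdU : ∀ v, dt (U k) v = a * -(cr w v) + b * dt w v := by
    intro v
    unfold dt cr
    rw [u0, u1, e0, e1]
    ring
  have hdU' : ∀ v, dt (U k') v = a' * -(cr w v) - b' * dt w v := by
    intro v
    unfold dt cr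
    rw [v0, v1, e0, e1]
    ring
  refine ⟨by linarith, ?_, ?_⟩
  · -- the end `p`
    have h1 := slope_end hD hi (q := p) (w := -w) hp (neg_ne_zero.2 hw0) (σ := -1) (Or.inr rfl)
      (x := x k') (y := y) (z0 := z0) (a := a') (b := b')
      (by have : p - -w = q := by rw [hw]; abel
          rw [this]; exact hqD) (hx k') hyD hz0
      (by have : cr (-w) (z0 - p) = -cr w (z0 - p) := by unfold cr; show -(w 0) * _ - -(w 1) * _ = _; ring
          rw [this]; linarith)
      (by have : cr (-w) (y - p) = -cr w (y - p) := by unfold cr; show -(w 0) * _ - -(w 1) * _ = _; ring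
          rw [this]; linarith)
      (by have : cr (-w) (x k' - p) = -cr w (x k' - p) := by
            unfold cr; show -(w 0) * _ - -(w 1) * _ = _; ring
          rw [this]; have := hxc k'; linarith)
      ha' hb'
    have hneg : ∀ v : Pl, a' * -(-1 * cr (-w) v) + b' * dt (-w) v = dt (U k') v := by
      intro v
      rw [hdU']
      unfold cr dt
      show a' * -(-1 * (-(w 0) * v 1 - -(w 1) * v 0)) + b' * (-(w 0) * v 0 + -(w 1) * v 1) = _
      ring
    rw [hneg, hneg, dt_sub', dt_sub'] at h1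
    have h2 := h1 (by have := hmax k' y hyD; linarith)
    rw [← dt_sub', hdU'] at h2
    have h3 : 0 < a' * -(cr w (y - p)) := mul_pos ha' (by linarith)
    have h4 : 0 < b' * dt w (y - p) := by linarith
    have h5 : 0 < dt w (y - p) := by
      by_contra h
      push Not at h
      have := mul_nonpos_of_nonneg_of_nonpos hb' h
      linarith
    have h6 : b' * dt w (y - p) ≤ ε * a' * dt w (y - p) := mul_le_mul_of_nonneg_right hab' h5.le
    have h7 : a' * -(cr w (y - p)) ≤ a' * (ε * dt w (y - p)) := by linarith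
    exact le_of_mul_le_mul_left h7 ha'
  · have h1 := slope_end hD hi (q := q) (w := w) hq hw0 (σ := 1) (Or.inl rfl)
      (x := x k) (y := y) (z0 := z0) (a := a) (b := b)
      (by have : q - w = p := by rw [hw]; abel
          rw [this]; exact hpD) (hx k) hyD hz0
      (by rw [one_mul, hcq]; exact hz) (by rw [one_mul, hcq]; exact hyc')
      (by rw [one_mul, hcq]; exact hxc k) ha hb
    have hneg : ∀ v : Pl, a * -(1 * cr w v) + b * dt w v = dt (U k) v := by
      intro v
      rw [hdU, one_mul]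
    rw [hneg, hneg, dt_sub', dt_sub'] at h1
    have h2 := h1 (by have := hmax k y hyD; linarith)
    rw [← dt_sub', hdU, hcq] at h2
    have hTq : dt w (y - q) = dt w (y - p) - dt w w := by
      have h8 : y - q = y - p - w := by rw [hw]; abel
      rw [h8, dt_sub']
    rw [hTq] at h2
    have h3 : 0 < a * -(cr w (y - p)) := mul_pos ha (by linarith)
    have h4 : 0 < b * (dt w w - dt w (y - p)) := by linarith
    have h5 : 0 < dt w w - dt w (y - p) := by
      by_contra h
      push Not at h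
      have := mul_nonpos_of_nonneg_of_nonpos hb h
      linarith
    have h6 : b * (dt w w - dt w (y - p)) ≤ ε * a * (dt w w - dt w (y - p)) :=
      mul_le_mul_of_nonneg_right hab h5.le
    have h7 : a * -(cr w (y - p)) ≤ a * (ε * (dt w w - dt w (y - p))) := by linarith
    exact le_of_mul_le_mul_left h7 ha

/-- Thin sets have small area. -/
theorem thin_area {ε : ℝ} (hε : 0 < ε) {Q : Set Pl} {p w : Pl} (hw : w ≠ 0)
    (hQ : ∀ y ∈ Q, 0 < -cr w (y - p) ∧ -cr w (y - p) ≤ ε * dt w (y - p) ∧
      -cr w (y - p) ≤ ε * (dt w w - dt w (y - p))) :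
    (volume Q).toReal ≤ ε * dt w w := by
  have hww := dt_self_pos hw
  set A : Matrix (Fin 2) (Fin 2) ℝ := !![w 0, ε * w 1; w 1, -(ε * w 0)] with hA
  have hdet : |LinearMap.det (C2305b.mat A)| = ε * dt w w := by
    rw [C2305b.det_mat]
    have : A 0 0 * A 1 1 - A 0 1 * A 1 0 = -(ε * dt w w) := by
      rw [hA]
      simp only [Matrix.of_apply, Matrix.cons_val', Matrix.cons_val_zero, Matrix.cons_val_one,
        Matrix.cons_val_fin_one]
      unfold dt
      ring
    rw [this, abs_neg, abs_of_pos (mul_pos hε hww)]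
  have hsub : Q ⊆ (fun v => p + C2305b.mat A v) '' (C2305bH68.box 0 1 0 1) := by
    intro y hy
    obtain ⟨h1, h2, h3⟩ := hQ y hy
    set N := -cr w (y - p) with hN
    set T := dt w (y - p) with hT
    have hT0 : 0 < T := by
      by_contra h
      push Not at h
      have := mul_nonpos_of_nonneg_of_nonpos hε.le h
      linarith
    have hT1 : T < dt w w := by
      by_contra h
      push Not at h
      have := mul_nonpos_of_nonneg_of_nonpos hε.le (by linarith : dt w w - T ≤ 0)
      linarith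
    refine ⟨!₂[T / dt w w, N / (ε * dt w w)], ⟨?_, ?_, ?_, ?_⟩, ?_⟩
    · show 0 ≤ T / dt w w
      positivity
    · show T / dt w w ≤ 1
      rw [div_le_one hww]; exact hT1.le
    · show 0 ≤ N / (ε * dt w w)
      positivity
    · show N / (ε * dt w w) ≤ 1
      rw [div_le_one (by positivity)]
      have := mul_le_mul_of_nonneg_left hT1.le hε.le
      linarith
    · have hy' : ∀ i : Fin 2, (p + C2305b.mat A !₂[T / dt w w, N / (ε * dt w w)]) i = y i := by
        intro i
        have hsum : dt w w = w 0 * w 0 + w 1 * w 1 := rfl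
        have hTe : T = w 0 * (y 0 - p 0) + w 1 * (y 1 - p 1) := rfl
        have hNe : N = w 1 * (y 0 - p 0) - w 0 * (y 1 - p 1) := by
          rw [hN]; unfold cr
          show -(w 0 * (y 1 - p 1) - w 1 * (y 0 - p 0)) = _
          ring
        fin_cases i
        · show p 0 + (C2305b.mat A !₂[T / dt w w, N / (ε * dt w w)]) 0 = y 0
          rw [C2305b.mat_0]
          show p 0 + (w 0 * (T / dt w w) + ε * w 1 * (N / (ε * dt w w))) = y 0
          have e : w 0 * (T / dt w w) + ε * w 1 * (N / (ε * dt w w)) =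
              (w 0 * T + w 1 * N) / dt w w := by field_simp
          have e2 : w 0 * T + w 1 * N = (y 0 - p 0) * dt w w := by
            rw [hTe, hNe, hsum]; ring
          rw [e, e2, mul_div_cancel_right₀ _ hww.ne']
          ring
        · show p 1 + (C2305b.mat A !₂[T / dt w w, N / (ε * dt w w)]) 1 = y 1
          rw [C2305b.mat_1]
          show p 1 + (w 1 * (T / dt w w) + -(ε * w 0) * (N / (ε * dt w w))) = y 1
          have e : w 1 * (T / dt w w) + -(ε * w 0) * (N / (ε * dt w w)) =
              (w 1 * T - w 0 * N) / dt w w := by field_simp; ring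
          have e2 : w 1 * T - w 0 * N = (y 1 - p 1) * dt w w := by
            rw [hTe, hNe, hsum]; ring
          rw [e, e2, mul_div_cancel_right₀ _ hww.ne']
          ring
      exact C2305b.ext2 (hy' 0) (hy' 1)
  have hvol : volume ((fun v => p + C2305b.mat A v) '' (C2305bH68.box 0 1 0 1)) =
      ENNReal.ofReal (ε * dt w w) := by
    rw [C2305b.volume_affine, hdet, C2305bH68.volume_box zero_le_one]
    norm_num
  calc (volume Q).toReal ≤ (ENNReal.ofReal (ε * dt w w)).toReal :=
        ENNReal.toReal_mono ENNReal.ofReal_ne_top (hvol ▸ measure_mono hsub)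
    _ = ε * dt w w := ENNReal.toReal_ofReal (by positivity)

end C2305bFat
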