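import Pool.Agent.W_c2305b_h35.Far3
import Pool.Agent.W_c2305b_h52.Smooth5

/-!
# The far part

For symmetric bodies `K` with `closedBall 0 1 ⊆ K ⊆ closedBall 0 α` and `t6 K - t5 K ≥ s0 > 0` the
hexagon bound holds with one `N` which depends only on `α` and `s0`.
-/

open MeasureTheory Set Module W82

namespace C2305bFat

open C2305b (Pl t6 HexBound)
open C2305b.TL (cr)
open C2305bH52.Dow (sm)

/-- Isometries keep the area. -/
lemma vol_iso (φ : Pl ≃ᵢ Pl) (X : Set Pl) : volume (φ '' X) = volume X := by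
  obtain ⟨o, c, s, σ, hcs, hσ, hφ⟩ := C2305b.isometry_form φ
  have h1 : φ '' X = C2305b.body o c s 1 σ 1 0 X := by
    unfold C2305b.body
    apply image_congr
    intro x _
    rw [hφ]
    congr 1
    apply C2305b.ext2 <;> simp [C2305b.dil]
  rw [h1, C2305b.volume_body hcs (by norm_num) one_ne_zero hσ]

/-- Isometries and convex hulls. -/
lemma hull_iso (φ : Pl ≃ᵢ Pl) (X : Set Pl) : φ '' convexHull ℝ X = convexHull ℝ (φ '' X) := by
  have h := AffineMap.image_convexHull (φ.toRealAffineIsometryEquiv.toAffineEquiv.toAffineMap) X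
  have e : ∀ Y : Set Pl, (φ.toRealAffineIsometryEquiv.toAffineEquiv.toAffineMap : Pl → Pl) '' Y =
      φ '' Y := by
    intro Y
    apply image_congr
    intro x _
    rfl
  rw [e, e] at h
  exact h

section body

variable {K : Set Pl} (hsym : ∀ v ∈ K, -v ∈ K) (hK : IsCompact K)
  (hconv : Convex ℝ K) (hint : (interior K).Nonempty)

include hsym hK hconv hint

/-- The losses are nonnegative. -/
lemma loss_nonneg {ι : Type} [Fintype ι] {D : Set Pl} {P : ι → Set Pl} (h : Tiling D P)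
    (hc : InCopies P K) (i : ι) :
    0 ≤ lossOf P (sm (gauge K) 6) (sm (gauge K) 6 - sm (gauge K) 5) i := by
  classical
  have hN := C2305bH52.Dow.nrm_gauge hK hconv hsym hint
  have hτ := C2305bH52.Dow.sig_nonneg hsym hK hconv hint
  have h6 := C2305bH52.Dow.six_ear' hN
  unfold lossOf
  obtain ⟨φ, hφ⟩ := hc i
  have hfin := h.S_finite i
  set F : Finset Pl := hfin.toFinset.image φ.symm with hF
  have hFc : F.card = (S P i).ncard := by
    rw [hF, Finset.card_image_of_injective _ φ.symm.injective, ← Set.ncard_eq_toFinset_card _ hfin]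
  have hFK : ∀ s ∈ F, s ∈ K := by
    intro s hs
    obtain ⟨v, hv, rfl⟩ := Finset.mem_image.1 hs
    have hv' : v ∈ S P i := hfin.mem_toFinset.1 hv
    obtain ⟨x, hx, hxv⟩ := hφ hv'.1.1
    rw [← hxv, φ.symm_apply_apply]
    exact hx
  have himg : φ '' (F : Set Pl) = S P i := by
    rw [hF, Finset.coe_image, ← image_comp]
    have : (φ ∘ φ.symm : Pl → Pl) = id := by
      funext x; exact φ.apply_symm_apply x
    rw [this, image_id, hfin.coe_toFinset]
  have hvol : volume (convexHull ℝ (S P i)) = volume (convexHull ℝ (F : Set Pl)) := by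
    rw [← himg, ← hull_iso, vol_iso]
  rw [hvol]
  rcases Nat.lt_or_ge F.card 2 with h2 | h2
  · have hsub : (F : Set Pl).Subsingleton := by
      intro x hx y hy
      exact Finset.card_le_one.1 (by omega) x hx y hy
    have h0 : volume (convexHull ℝ (F : Set Pl)) = 0 := by
      rcases hsub.eq_empty_or_singleton with h | ⟨x, h⟩
      · rw [h, convexHull_empty, measure_empty]
      · rw [h, convexHull_singleton, measure_singleton]
    rw [h0, ENNReal.toReal_zero]
    have : (0 : ℝ) ≤ ((S P i).ncard : ℝ) := Nat.cast_nonneg _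
    nlinarith [mul_nonneg hτ this]
  · have := C2305bH52.Dow.vol_le_line hsym hK hconv hint hFK h2
    rw [hFc] at this
    linarith

end body

/-- A cap of a tiling that contains no extreme point in the fixed directions is small. -/
lemma cap_small {ε α : ℝ} (hε : 0 < ε) (hα : 0 ≤ α) {M : ℕ} {U : Fin M → Pl} (hU : Dirs ε U)
    {ι : Type} [Fintype ι] {D K : Set Pl} {P : ι → Set Pl} (h : Vio D P K)
    (hKα : K ⊆ Metric.closedBall 0 α) {p q : Pl} (hs : Side D P p q) {x : Fin M → Pl}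
    (hx : ∀ k, x k ∈ D) (hmax : ∀ k, ∀ y ∈ D, dt (U k) y ≤ dt (U k) (x k))
    (hout : ∀ k, x k ∉ cap D p q) {z0 : Pl} (hz0 : z0 ∈ D) (hz : 0 < cr (q - p) (z0 - p)) :
    (volume (cap D p q)).toReal ≤ ε * (4 * α ^ 2) := by
  have hDi : (interior D).Nonempty := h.hull.mono (interior_mono (convexHull_min
    (fun v hv => h.til.compD.isClosed.frontier_subset hv.2) h.til.convD))
  have hfr : ∀ v ∈ Vb D P, v ∈ D ∧ v ∉ interior D := by
    intro v hv
    exact ⟨h.til.compD.isClosed.frontier_subset hv.2, hv.2.2⟩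
  have hp := hfr p hs.1
  have hq := hfr q hs.2.1
  have hw : q - p ≠ 0 := sub_ne_zero.2 hs.2.2.1
  have h1 := thin_area hε (Q := cap D p q) (p := p) hw fun y hy =>
    cap_thin hU h.til.convD hDi hp.1 hq.1 hp.2 hq.2 hs.2.2.1 hz0 hz hx hmax hout hy
  refine h1.trans ?_
  rw [dt_self_eq]
  obtain ⟨k, hk1, hk2⟩ := h.til.cap_cell hs
  have h2 : ‖q - p‖ ≤ 2 * α := h.cop.dist_le hKα (hk1 (right_mem_segment ℝ _ _))
    (hk1 (left_mem_segment ℝ _ _))
  have h3 : ‖q - p‖ ^ 2 ≤ (2 * α) ^ 2 := pow_le_pow_left₀ (norm_nonneg _) h2 2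
  have h4 : ‖q - p‖ ^ 2 ≤ 4 * α ^ 2 := by linarith [h3, mul_pow 2 α 2]
  exact mul_le_mul_of_nonneg_left h4 hε.le

/-- The caps of a tiling are pairwise disjoint. -/
lemma caps_inj {ι : Type} [Fintype ι] {D K : Set Pl} {P : ι → Set Pl} (h : Vio D P K)
    {p q p' q' z0 x : Pl} (hs : Side D P p q) (hs' : Side D P p' q')
    (hz0 : z0 ∈ D) (hz : 0 < cr (q - p) (z0 - p)) (hz' : 0 < cr (q' - p') (z0 - p'))
    (hx : x ∈ cap D p q) (hx' : x ∈ cap D p' q') : (p, q) = (p', q') := by
  by_contra hne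
  have hDi : (interior D).Nonempty := h.hull.mono (interior_mono (convexHull_min
    (fun v hv => h.til.compD.isClosed.frontier_subset hv.2) h.til.convD))
  have hfr : ∀ v ∈ Vb D P, v ∈ D ∧ v ∉ interior D := by
    intro v hv
    exact ⟨h.til.compD.isClosed.frontier_subset hv.2, hv.2.2⟩
  exact C2305bH52.caps_disjoint h.til.convD hDi (hfr _ hs.1).1 (hfr _ hs.2.1).1
    (hfr _ hs'.1).1 (hfr _ hs'.2.1).1 (hfr _ hs.1).2 (hfr _ hs.2.1).2 (hfr _ hs'.1).2
    (hfr _ hs'.2.1).2 hs.2.2.1.symm hs'.2.2.1.symm hne (hs.2.2.2.1 _ hs'.1)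
    (hs.2.2.2.1 _ hs'.2.1) (hs'.2.2.2.1 _ hs.1) (hs'.2.2.2.1 _ hs.2.1) hz0 hz0 hz hz' hx.1
    hx.2 hx'.2

/-- Interior points of the hull of the shared boundary points are strictly inside every side. -/
lemma side_pos {ι : Type} [Fintype ι] {D K : Set Pl} {P : ι → Set Pl} (_h : Vio D P K)
    {p q z0 : Pl} (hs : Side D P p q) (hz0 : z0 ∈ interior (convexHull ℝ (Vb D P))) :
    0 < cr (q - p) (z0 - p) := by
  have hw : q - p ≠ 0 := sub_ne_zero.2 hs.2.2.1
  have hg : -(C2305b.TL.crL (q - p)) ≠ 0 := neg_ne_zero.mpr (C2305b.TL.crL_ne_zero hw)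
  have hle : ∀ y ∈ convexHull ℝ (Vb D P), (-(C2305b.TL.crL (q - p))) y ≤ - cr (q - p) p := by
    have hc : Convex ℝ {y : Pl | (-(C2305b.TL.crL (q - p))) y ≤ - cr (q - p) p} :=
      convex_halfSpace_le (-(C2305b.TL.crL (q - p))).isLinear _
    intro y hy
    refine convexHull_min ?_ hc hy
    intro z hz
    show (-(C2305b.TL.crL (q - p))) z ≤ - cr (q - p) p
    have := hs.2.2.2.1 z hz
    rw [C2305b.TL.cr_sub_right] at this
    rw [neg_apply, C2305b.TL.crL_apply]
    linarith
  have h1 := W82.lt_of_mem_interior _ hg hle hz0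
  rw [neg_apply, C2305b.TL.crL_apply] at h1
  rw [C2305b.TL.cr_sub_right]
  linarith

/-- **The far part.** One `N` for all symmetric bodies of bounded eccentricity whose best hexagon
is larger than the best pentagon by a fixed amount. -/
theorem far (α s0 : ℝ) (hs0 : 0 < s0) : ∃ N : ℕ, ∀ K : Set Pl, Convex ℝ K → IsCompact K →
    (∀ v ∈ K, -v ∈ K) → Metric.closedBall 0 1 ⊆ K → K ⊆ Metric.closedBall 0 α →
    C2305bH52.Dow.tm 5 K + ENNReal.ofReal s0 ≤ t6 K → HexBound K N := by
  set G : ℝ := (volume (Metric.closedBall (0 : Pl) α)).toReal with hG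
  set ε : ℝ := s0 / (8 * (α ^ 2 + 1)) with hε
  have hε0 : 0 < ε := by positivity
  obtain ⟨M, U, hU⟩ := exists_dirs hε0
  obtain ⟨B, hB⟩ := exists_nat_ge (2 * G * M / s0)
  obtain ⟨N, hN⟩ := frame_bound α B
  refine ⟨N, fun K hKc hK hsym hK1 hKα ht => ?_⟩
  refine hN K hKc hK hK1 hKα ?_
  intro ι _ D P h
  classical
  have hint : (interior K).Nonempty :=
    ⟨0, interior_mono hK1 (Metric.ball_subset_interior_closedBall (Metric.mem_ball_self one_pos))⟩
  have hα : 0 ≤ α := by
    have h1 : (0 : Pl) ∈ Metric.closedBall (0 : Pl) α :=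
      hKα (hK1 (Metric.mem_closedBall_self zero_le_one))
    exact Metric.nonneg_of_mem_closedBall h1
  have hNr := C2305bH52.Dow.nrm_gauge hK hKc hsym hint
  have hτ0 := C2305bH52.Dow.sig_nonneg hsym hK hKc hint
  have h6 := C2305bH52.Dow.six_ear' hNr
  set τ : ℝ := sm (gauge K) 6 - sm (gauge K) 5 with hτ
  have hsm6 : 0 ≤ sm (gauge K) 6 := by linarith
  -- the gap
  have hgap : s0 ≤ τ := by
    rw [C2305bH52.Dow.tm_eq hsym hK hKc hint (by norm_num),
      C2305bH52.Dow.t6_eq hsym hK hKc hint, ← ENNReal.ofReal_add] at ht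
    · have := (ENNReal.ofReal_le_ofReal_iff hsm6).1 ht
      linarith
    · exact ENNReal.toReal_nonneg.trans (C2305bH52.Dow.area_le_sm hNr (show 2 ≤ 5 by norm_num)
        (S := ∅) (by simp) (by simp))
    · exact hs0.le
  have hτpos : 0 < τ := by linarith
  -- interior point
  obtain ⟨z0, hz0⟩ := h.hull
  have hfr : ∀ v ∈ Vb D P, v ∈ D := fun v hv => h.til.compD.isClosed.frontier_subset hv.2
  have hz0D : z0 ∈ D := convexHull_min hfr h.til.convD (interior_subset hz0)
  -- extreme points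
  have hex : ∀ k : Fin M, ∃ x ∈ D, ∀ y ∈ D, dt (U k) y ≤ dt (U k) x := by
    intro k
    have hcont : Continuous fun y : Pl => dt (U k) y := by
      unfold dt
      fun_prop
    obtain ⟨x, hx, hmax⟩ := h.til.compD.exists_isMaxOn ⟨z0, hz0D⟩ hcont.continuousOn
    exact ⟨x, hx, fun y hy => hmax hy⟩
  choose x hxD hxmax using hex
  -- the account
  obtain ⟨i₀, j₀, hij⟩ := h.two
  have hacc := h.til.account h.hull hij (A6 := sm (gauge K) 6) hτ0
  have hloss : 0 ≤ ∑ i, lossOf P (sm (gauge K) 6) τ i :=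
    Finset.sum_nonneg fun i _ => loss_nonneg hsym hK hKc hint h.til h.cop i
  have hTv : 0 ≤ τ * ((Tv D P).ncard + 2 * ∑ v ∈ h.til.M, (exc D P v : ℝ)) := by
    apply mul_nonneg hτ0
    apply add_nonneg (Nat.cast_nonneg _)
    apply mul_nonneg (by norm_num)
    exact Finset.sum_nonneg fun v _ => Nat.cast_nonneg _
  have hbig : (Fintype.card ι : ℝ) * sm (gauge K) 6 < (volume D).toReal := by
    have hb := h.big
    rw [C2305bH52.Dow.t6_eq hsym hK hKc hint] at hb
    have hfin : volume D ≠ ⊤ := h.til.compD.measure_lt_top.ne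
    have h2 := (ENNReal.toReal_lt_toReal (hb.trans_le le_top).ne hfin).2 hb
    rw [ENNReal.toReal_mul, ENNReal.toReal_natCast, ENNReal.toReal_ofReal hsm6] at h2
    exact h2
  have hpos : 0 < ∑ p ∈ h.til.sides h.hull, ((volume (cap D p.1 p.2)).toReal - τ) := by
    linarith
  -- the caps
  have hcapG : ∀ p ∈ h.til.sides h.hull, (volume (cap D p.1 p.2)).toReal ≤ G := by
    intro p hp
    rw [h.til.mem_sides h.hull] at hp
    refine h.til.cap_le ?_ hp
    intro i
    obtain ⟨φ, hφ⟩ := h.cop i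
    rw [hG]
    apply ENNReal.toReal_mono (isCompact_closedBall _ _).measure_lt_top.ne
    exact (measure_mono hφ).trans ((vol_iso φ K).le.trans (measure_mono hKα))
  have hcapS : ∀ p ∈ h.til.sides h.hull, (∀ k, x k ∉ cap D p.1 p.2) →
      (volume (cap D p.1 p.2)).toReal ≤ τ / 2 := by
    intro p hp hout
    rw [h.til.mem_sides h.hull] at hp
    have h1 := cap_small hε0 hα hU h hKα hp hxD hxmax hout hz0D (side_pos h hp hz0)
    refine h1.trans ?_
    have h2 : ε * (4 * α ^ 2) ≤ s0 / 2 := by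
      rw [hε, div_mul_eq_mul_div, div_le_iff₀ (by positivity)]
      nlinarith [sq_nonneg α]
    linarith
  -- the sides with an extreme point
  set X := (h.til.sides h.hull).filter (fun p => ∃ k, x k ∈ cap D p.1 p.2) with hX
  have hXcard : X.card ≤ M := by
    have hch : ∀ p ∈ X, ∃ m : ℕ, ∃ hm : m < M, x ⟨m, hm⟩ ∈ cap D p.1 p.2 := by
      intro p hp
      obtain ⟨k, hk⟩ := (Finset.mem_filter.1 hp).2
      exact ⟨k, k.2, hk⟩
    choose! κ hκ1 hκ2 using hch
    rw [← Finset.card_range M]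
    refine Finset.card_le_card_of_injOn κ (fun p hp => Finset.mem_coe.2
      (Finset.mem_range.2 (hκ1 p hp))) ?_
    intro p hp p' hp' he
    have hp1 := (h.til.mem_sides h.hull).1 (Finset.mem_filter.1 (Finset.mem_coe.1 hp)).1
    have hp1' := (h.til.mem_sides h.hull).1 (Finset.mem_filter.1 (Finset.mem_coe.1 hp')).1
    have ex : x ⟨κ p, hκ1 p hp⟩ = x ⟨κ p', hκ1 p' hp'⟩ := by
      congr 2
    have e := caps_inj h hp1 hp1' hz0D (side_pos h hp1 hz0) (side_pos h hp1' hz0)
      (hκ2 p hp) (by rw [ex]; exact hκ2 p' hp')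
    exact e
  have hG0 : 0 ≤ G := ENNReal.toReal_nonneg
  have hsum : ∑ p ∈ h.til.sides h.hull, ((volume (cap D p.1 p.2)).toReal - τ) ≤
      ∑ p ∈ h.til.sides h.hull, ((if ∃ k, x k ∈ cap D p.1 p.2 then G else 0) - τ / 2) := by
    apply Finset.sum_le_sum
    intro p hp
    split_ifs with hc
    · have := hcapG p hp
      linarith
    · push Not at hc
      have := hcapS p hp hc
      linarith
  have hsum2 : ∑ p ∈ h.til.sides h.hull, ((if ∃ k, x k ∈ cap D p.1 p.2 then G else 0) - τ / 2) =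
      X.card * G - (Vb D P).ncard * (τ / 2) := by
    rw [Finset.sum_sub_distrib, Finset.sum_const, h.til.card_sides h.hull, nsmul_eq_mul,
      ← Finset.sum_filter, Finset.sum_const, nsmul_eq_mul]
  rw [hsum2] at hsum
  have hXM : (X.card : ℝ) ≤ M := by exact_mod_cast hXcard
  have h7 : ((Vb D P).ncard : ℝ) * (τ / 2) < M * G := by
    have := mul_le_mul_of_nonneg_right hXM hG0
    linarith
  have h8 : ((Vb D P).ncard : ℝ) ≤ B := by
    refine le_trans ?_ hB
    rw [le_div_iff₀ hs0]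
    have h9 : ((Vb D P).ncard : ℝ) * s0 ≤ (Vb D P).ncard * τ :=
      mul_le_mul_of_nonneg_left hgap (Nat.cast_nonneg _)
    linarith
  exact_mod_cast h8

end C2305bFat
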