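import Pool.Agent.W_c2305b_h86.FieldDefs

/-!
# The values of the field (row 552, section 5)

The value `uf` interpolates between the direction of the first vector `m` and the direction of the
second vector `g`.  It is close to the slope of the frame (`uf_close`), and the values of two tiles
at a nearly vertical common edge are close to each other (`uf_pair`).
-/

namespace C2305bG

open C2305bB (Fr J)
open C2305b.TL (V cr)

lemma thf_nonneg (c1 x : ℝ) : 0 ≤ thf c1 x := le_min zero_le_one (le_max_left _ _)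

lemma thf_le_one (c1 x : ℝ) : thf c1 x ≤ 1 := min_le_left _ _

lemma thf_lt_one {c1 x : ℝ} (hc : 0 < c1) (h : thf c1 x < 1) : |x| < 2 * c1 := by
  by_contra hx
  push Not at hx
  apply h.ne
  unfold thf
  apply min_eq_left
  apply le_max_of_le_right
  have : 2 ≤ |x| / c1 := (le_div_iff₀ hc).2 hx
  linarith

lemma thf_pos {c1 x : ℝ} (hc : 0 < c1) (h : 0 < thf c1 x) : c1 < |x| := by
  by_contra hx
  push Not at hx
  apply h.ne'
  unfold thf
  have h1 : |x| / c1 ≤ 1 := (div_le_one hc).2 hx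
  rw [max_eq_left (by linarith)]
  exact min_eq_right zero_le_one

lemma thf_zero {c1 x : ℝ} (hc : 0 < c1) (h : |x| ≤ c1) : thf c1 x = 0 := by
  rcases (thf_nonneg c1 x).eq_or_lt with h1 | h1
  · exact h1.symm
  · exact absurd (thf_pos hc h1) (not_lt.2 h)

lemma thf_lip {c1 : ℝ} (hc : 0 < c1) (x y : ℝ) : |thf c1 x - thf c1 y| ≤ |x - y| / c1 := by
  unfold thf
  have h1 : |min 1 (max 0 (|x| / c1 - 1)) - min 1 (max 0 (|y| / c1 - 1))| ≤
      |max 0 (|x| / c1 - 1) - max 0 (|y| / c1 - 1)| := by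
    refine (abs_min_sub_min_le_max _ _ _ _).trans (max_le ?_ le_rfl)
    rw [sub_self, abs_zero]; exact abs_nonneg _
  have h2 : |max 0 (|x| / c1 - 1) - max 0 (|y| / c1 - 1)| ≤
      |(|x| / c1 - 1) - (|y| / c1 - 1)| := by
    refine (abs_max_sub_max_le_max _ _ _ _).trans (max_le ?_ le_rfl)
    rw [sub_self, abs_zero]; exact abs_nonneg _
  refine h1.trans (h2.trans ?_)
  have e : (|x| / c1 - 1) - (|y| / c1 - 1) = (|x| - |y|) / c1 := by ring
  rw [e, abs_div, abs_of_pos hc]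
  exact div_le_div_of_nonneg_right (abs_abs_sub_abs_le_abs_sub x y) hc.le

/-! ### Coordinates -/

lemma cr_lxly {L : ℝ} (hL : L ≠ 0) (F : Fr) (u v : V) :
    lx L F u * ly L F v - ly L F u * lx L F v = cr u v := by
  unfold lx ly cr
  have e : (F.c * u 0 + F.S * u 1 / L) * (F.c * v 1 - L * F.S * v 0) -
      (F.c * u 1 - L * F.S * u 0) * (F.c * v 0 + F.S * v 1 / L) =
      (F.c ^ 2 + F.S ^ 2) * (u 0 * v 1 - u 1 * v 0) := by
    field_simp
    ring
  rw [e, F.nrm, one_mul]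

/-- First window coordinate. -/
lemma v0_eq {L : ℝ} (hL : L ≠ 0) (F : Fr) (v : V) :
    v 0 = F.c * lx L F v - F.S / L * ly L F v := (frame_inv (F := F) hL).1

/-- Second window coordinate. -/
lemma v1_eq {L : ℝ} (hL : L ≠ 0) (F : Fr) (v : V) :
    v 1 = F.c * ly L F v + L * F.S * lx L F v := (frame_inv (F := F) hL).2

lemma c_ge {F : Fr} (hS : |F.S| ≤ 1 / 10) : 99 / 100 ≤ F.c := by
  have h := F.nrm
  have h0 := F.c0
  have h1 : F.S ^ 2 ≤ (1 / 10) ^ 2 := by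
    rw [← sq_abs]; exact pow_le_pow_left₀ (abs_nonneg _) hS 2
  by_contra hc
  push Not at hc
  nlinarith

/-- The error of the first coordinate. -/
lemma v0_err {L P θ : ℝ} (hL : 1 ≤ L) {F : Fr} (hS : |F.S| ≤ θ) {v : V}
    (hP : |ly L F v| ≤ P) : |v 0 - F.c * lx L F v| ≤ θ * P := by
  have hL0 : 0 < L := by linarith
  have h := v0_eq hL0.ne' F v
  have e : v 0 - F.c * lx L F v = -(F.S / L * ly L F v) := by rw [h]; ring
  rw [e, abs_neg, abs_mul, abs_div, abs_of_pos hL0]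
  refine mul_le_mul ?_ hP (abs_nonneg _) ((abs_nonneg _).trans hS)
  exact (div_le_self (abs_nonneg _) hL).trans hS

/-- The slope of a vector is close to the slope of the frame. -/
lemma slope_near {L P ξ : ℝ} {F : Fr} (hc : 99 / 100 ≤ F.c) {v : V}
    (hP : |ly L F v| ≤ P) (hξ : 0 < ξ) (hx : ξ ≤ |v 0|) :
    |v 1 / v 0 - L * F.S / F.c| ≤ 2 * P / ξ := by
  have hc0 : 0 < F.c := by linarith
  have hv0 : v 0 ≠ 0 := by
    intro h; rw [h, abs_zero] at hx; linarith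
  have e : v 1 / v 0 - L * F.S / F.c = ly L F v / (F.c * v 0) := by
    unfold ly
    field_simp
  have hP0 : 0 ≤ P := (abs_nonneg _).trans hP
  rw [e, abs_div, abs_mul, abs_of_pos hc0, div_le_div_iff₀
    (mul_pos hc0 (hξ.trans_le hx)) hξ]
  have h1 : |ly L F v| * ξ ≤ P * |v 0| := mul_le_mul hP hx hξ.le hP0
  have h2 : 1 * (P * |v 0|) ≤ 2 * F.c * (P * |v 0|) :=
    mul_le_mul_of_nonneg_right (by linarith) (mul_nonneg hP0 (abs_nonneg _))
  nlinarith [h1, h2]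

lemma MG.m_pos {L R m0 θ : ℝ} {F : Fr} {m g : V} (h : MG L R m0 F m g) (hL : 1 ≤ L)
    (hm : 0 < m0) (hS : |F.S| ≤ θ) (hθ : θ ≤ 1 / 10) (hθm : θ * R ≤ m0 / 10) :
    4 / 5 * m0 ≤ m 0 := by
  have h1 := abs_le.1 (v0_err hL hS h.2.2.1)
  have h2 := c_ge (hS.trans hθ)
  have h3 : 99 / 100 * m0 ≤ F.c * lx L F m :=
    mul_le_mul h2 h.1 hm.le (by linarith)
  linarith [h1.1]

/-- **The field value is close to the slope of the frame.** -/
theorem uf_close {R m0 : ℝ} (hR : 1 ≤ R) (hm0 : 0 < m0) (hm01 : m0 ≤ 1) {c1 : ℝ} (hc : 0 < c1)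
    (hc1 : c1 ≤ 1) : ∃ θ : ℝ, 0 < θ ∧ ∀ (L : ℝ) (F : Fr) (m g : V), 1 ≤ L → |F.S| ≤ θ →
      MG L R m0 F m g → |uf c1 m g - L * F.S / F.c| ≤ 3 * R * (1 / m0 + 1 / c1) := by
  refine ⟨m0 / (10 * R), by positivity, ?_⟩
  intro L F m g hL hS h
  have hθ : m0 / (10 * R) ≤ 1 / 10 := by
    rw [div_le_div_iff₀ (by positivity) (by norm_num)]; nlinarith
  have hθm : m0 / (10 * R) * R ≤ m0 / 10 := by
    apply le_of_eq; field_simp
  have hc' := c_ge (hS.trans hθ)
  have hmp := h.m_pos hL hm0 hS hθ hθm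
  have hR0 : 0 ≤ R := by linarith
  have hA : |m 1 / m 0 - L * F.S / F.c| ≤ 3 * R * (1 / m0) := by
    have h45 : 0 < 4 / 5 * m0 := by positivity
    have := slope_near hc' h.2.2.1 h45 (hmp.trans (le_abs_self _))
    refine this.trans ?_
    have e : 2 * R / (4 / 5 * m0) = 5 / 2 * R * (1 / m0) := by field_simp; norm_num
    rw [e]
    have : 0 ≤ R * (1 / m0) := by positivity
    linarith
  have h0 := thf_nonneg c1 (g 0)
  have h1 := thf_le_one c1 (g 0)
  have e : uf c1 m g - L * F.S / F.c =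
      (1 - thf c1 (g 0)) * (m 1 / m 0 - L * F.S / F.c) +
      thf c1 (g 0) * (g 1 / g 0 - L * F.S / F.c) := by
    unfold uf; ring
  rw [e, mul_add]
  refine (abs_add_le _ _).trans (add_le_add ?_ ?_)
  · rw [abs_mul, abs_of_nonneg (by linarith : 0 ≤ 1 - thf c1 (g 0))]
    calc (1 - thf c1 (g 0)) * |m 1 / m 0 - L * F.S / F.c| ≤ 1 * (3 * R * (1 / m0)) :=
          mul_le_mul (by linarith) hA (abs_nonneg _) zero_le_one
      _ = _ := one_mul _
  · rw [abs_mul, abs_of_nonneg h0]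
    rcases h0.eq_or_lt with h2 | h2
    · rw [← h2, zero_mul]; positivity
    · have hg := thf_pos hc h2
      have hB := slope_near hc' h.2.2.2.2 hc hg.le
      have hB' : |g 1 / g 0 - L * F.S / F.c| ≤ 3 * R * (1 / c1) := by
        refine hB.trans ?_
        have e : 2 * R / c1 = 2 * (R * (1 / c1)) := by ring
        rw [e]
        have : 0 ≤ R * (1 / c1) := by positivity
        linarith
      calc thf c1 (g 0) * |g 1 / g 0 - L * F.S / F.c| ≤ 1 * (3 * R * (1 / c1)) :=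
            mul_le_mul h1 hB' (abs_nonneg _) zero_le_one
        _ = _ := one_mul _

/-- The difference of two slopes. -/
lemma slope_sub {u v : V} {k a b : ℝ} (hk : |cr u v| ≤ k) (ha : 0 < a) (hb : 0 < b)
    (hu : a ≤ |u 0|) (hv : b ≤ |v 0|) : |u 1 / u 0 - v 1 / v 0| ≤ k / (a * b) := by
  have hu0 : u 0 ≠ 0 := by intro h; rw [h, abs_zero] at hu; linarith
  have hv0 : v 0 ≠ 0 := by intro h; rw [h, abs_zero] at hv; linarith
  have e : u 1 / u 0 - v 1 / v 0 = -(cr u v / (u 0 * v 0)) := by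
    unfold cr; field_simp; ring
  have hk0 : 0 ≤ k := (abs_nonneg _).trans hk
  rw [e, abs_neg, abs_div, abs_mul, div_le_div_iff₀
    (mul_pos (ha.trans_le hu) (hb.trans_le hv)) (mul_pos ha hb)]
  exact mul_le_mul hk (mul_le_mul hu hv hb.le (abs_nonneg _)) (mul_pos ha hb).le hk0

/-- The cross product of two vectors from their coordinates. -/
lemma cr_abs_le {L P Q P' Q' : ℝ} (hL : L ≠ 0) {F : Fr} {u v : V} (h1 : |lx L F u| ≤ P)
    (h2 : |ly L F u| ≤ Q) (h3 : |lx L F v| ≤ P') (h4 : |ly L F v| ≤ Q') :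
    |cr u v| ≤ P * Q' + Q * P' := by
  rw [← cr_lxly hL F u v]
  refine (abs_sub _ _).trans (add_le_add ?_ ?_)
  · rw [abs_mul]; exact mul_le_mul h1 h4 (abs_nonneg _) ((abs_nonneg _).trans h1)
  · rw [abs_mul]; exact mul_le_mul h2 h3 (abs_nonneg _) ((abs_nonneg _).trans h2)

/-- The core of `uf_pair`, with explicit smallness conditions. -/
theorem uf_pair_aux {L R m0 c1 κ θ : ℝ} {F F' : Fr} {m g m' g' : V} (hR : 1 ≤ R) (hL : 1 ≤ L)
    (hm : 0 < m0) (hc1 : 0 < c1) (hc1' : c1 ≤ 1) (hκ : 0 ≤ κ) (hκ' : κ ≤ 1)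
    (hθ : θ ≤ 1 / 10) (hθm : θ * R ≤ m0 / 10) (hθc : θ * R ≤ c1 / 10)
    (hS : |F.S| ≤ θ) (hS' : |F'.S| ≤ θ)
    (h : MG L R m0 F m g) (h' : MG L R m0 F' m' g')
    (r1 : |lx L F (g - g')| ≤ κ * c1 ^ 2) (r2 : |ly L F (g - g')| ≤ κ * c1 ^ 2)
    (r3 : |lx L F g| ≤ 3 * c1 → |cr m m'| ≤ κ) :
    |uf c1 m g - uf c1 m' g'| ≤ (4 / m0 ^ 2 + 4 * R + 16 * R ^ 2 / m0) * κ := by
  have hL0 : 0 < L := by linarith
  have hR0 : 0 ≤ R := by linarith
  have hc := c_ge (hS.trans hθ)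
  have hc' := c_ge (hS'.trans hθ)
  have hmp := h.m_pos hL hm hS hθ hθm
  have hmp' := h'.m_pos hL hm hS' hθ hθm
  have hm2 : 0 < m0 / 2 := by linarith
  have hmq : m0 / 2 ≤ |m 0| := (by linarith : m0 / 2 ≤ m 0).trans (le_abs_self _)
  have hmq' : m0 / 2 ≤ |m' 0| := (by linarith : m0 / 2 ≤ m' 0).trans (le_abs_self _)
  have hδ0 : 0 ≤ κ * c1 ^ 2 := by positivity
  -- first coordinate of the difference
  have hx : |g 0 - g' 0| ≤ 2 * (κ * c1 ^ 2) := by
    have h1 := v0_err hL hS r2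
    have h2 : (g - g') 0 = g 0 - g' 0 := rfl
    rw [h2] at h1
    have h3 : |F.c * lx L F (g - g')| ≤ 1 * (κ * c1 ^ 2) := by
      rw [abs_mul, abs_of_nonneg F.c0]
      exact mul_le_mul F.c_le_one r1 (abs_nonneg _) zero_le_one
    have h4 : g 0 - g' 0 = (g 0 - g' 0 - F.c * lx L F (g - g')) + F.c * lx L F (g - g') := by
      ring
    have h5 : θ * (κ * c1 ^ 2) ≤ 1 * (κ * c1 ^ 2) :=
      mul_le_mul_of_nonneg_right (by linarith) hδ0
    rw [h4]
    refine (abs_add_le _ _).trans ?_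
    linarith
  have hx2 : |g 0 - g' 0| ≤ 2 * c1 := by
    have : κ * c1 ^ 2 ≤ 1 * (1 * c1) := by
      rw [sq]
      exact mul_le_mul hκ' (mul_le_mul_of_nonneg_right hc1' hc1.le) (by positivity) zero_le_one
    linarith
  have hthx : |thf c1 (g 0) - thf c1 (g' 0)| ≤ 2 * (κ * c1) := by
    refine ((thf_lip hc1 _ _).trans (div_le_div_of_nonneg_right hx hc1.le)).trans (le_of_eq ?_)
    field_simp
  have hc2 : 0 < c1 / 2 := by linarith
  have t0 := thf_nonneg c1 (g 0)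
  have t1 := thf_le_one c1 (g 0)
  have s0 := thf_nonneg c1 (g' 0)
  -- the first vectors
  have hM : |g 0| ≤ 5 / 2 * c1 → |m 1 / m 0 - m' 1 / m' 0| ≤ 4 / m0 ^ 2 * κ := by
    intro hg
    have h3 : |lx L F g| ≤ 3 * c1 := by
      have h4 := v0_err hL hS h.2.2.2.2
      have h5 : |F.c * lx L F g| ≤ |g 0| + c1 / 10 := by
        have := abs_sub (g 0) (g 0 - F.c * lx L F g)
        rw [sub_sub_cancel] at this
        linarith
      rw [abs_mul, abs_of_nonneg F.c0] at h5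
      have h6 : 99 / 100 * |lx L F g| ≤ F.c * |lx L F g| :=
        mul_le_mul_of_nonneg_right hc (abs_nonneg _)
      linarith
    have h4 := slope_sub (r3 h3) hm2 hm2 hmq hmq'
    have e : κ / (m0 / 2 * (m0 / 2)) = 4 / m0 ^ 2 * κ := by field_simp; ring
    rwa [e] at h4
  -- cross bounds
  have hgm : c1 / 2 ≤ |g 0| → |g 1 / g 0 - m 1 / m 0| ≤ 8 * R ^ 2 / (c1 * m0) := by
    intro hg
    have h4 : |cr g m| ≤ R * R + R * R :=
      cr_abs_le hL0.ne' h.2.2.2.1 h.2.2.2.2 h.2.1 h.2.2.1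
    refine (slope_sub h4 hc2 hm2 hg hmq).trans (le_of_eq ?_)
    field_simp
    ring
  have hgm' : c1 / 2 ≤ |g' 0| → |g' 1 / g' 0 - m' 1 / m' 0| ≤ 8 * R ^ 2 / (c1 * m0) := by
    intro hg
    have h4 : |cr g' m'| ≤ R * R + R * R :=
      cr_abs_le hL0.ne' h'.2.2.2.1 h'.2.2.2.2 h'.2.1 h'.2.2.1
    refine (slope_sub h4 hc2 hm2 hg hmq').trans (le_of_eq ?_)
    field_simp
    ring
  have hprod : 2 * (κ * c1) * (8 * R ^ 2 / (c1 * m0)) = 16 * R ^ 2 / m0 * κ := by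
    field_simp
    ring
  have hp1 : 0 ≤ 4 / m0 ^ 2 * κ := by positivity
  have hp2 : 0 ≤ 4 * R * κ := by positivity
  have hp3 : 0 ≤ 16 * R ^ 2 / m0 * κ := by positivity
  have hp4 : 0 ≤ 2 * (κ * c1) := by positivity
  rcases lt_or_ge (|g' 0|) (c1 / 2) with hA | hA
  · -- the second value is the slope of `m'`
    have e0 := thf_zero hc1 (by linarith : |g' 0| ≤ c1)
    have h1 : |g 0| ≤ 5 / 2 * c1 := by
      have := abs_add_le (g' 0) (g 0 - g' 0)
      rw [add_sub_cancel] at this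
      linarith
    have e : uf c1 m g - uf c1 m' g' = (m 1 / m 0 - m' 1 / m' 0) +
        thf c1 (g 0) * (g 1 / g 0 - m 1 / m 0) := by
      unfold uf; rw [e0]; ring
    have h2 : |thf c1 (g 0) * (g 1 / g 0 - m 1 / m 0)| ≤ 16 * R ^ 2 / m0 * κ := by
      rw [abs_mul, abs_of_nonneg t0]
      rcases t0.eq_or_lt with h2 | h2
      · rw [← h2, zero_mul]; exact hp3
      · have h3 := hgm (by have := thf_pos hc1 h2; linarith)
        rw [e0, sub_zero, abs_of_nonneg t0] at hthx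
        rw [← hprod]
        exact mul_le_mul hthx h3 (abs_nonneg _) hp4
    rw [e]
    refine (abs_add_le _ _).trans ?_
    have := hM h1
    linarith
  rcases lt_or_ge (|g 0|) (c1 / 2) with hB | hB
  · have e0 := thf_zero hc1 (by linarith : |g 0| ≤ c1)
    have e : uf c1 m g - uf c1 m' g' = (m 1 / m 0 - m' 1 / m' 0) -
        thf c1 (g' 0) * (g' 1 / g' 0 - m' 1 / m' 0) := by
      unfold uf; rw [e0]; ring
    have h2 : |thf c1 (g' 0) * (g' 1 / g' 0 - m' 1 / m' 0)| ≤ 16 * R ^ 2 / m0 * κ := by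
      rw [abs_mul, abs_of_nonneg s0]
      have h3 := hgm' hA
      rw [e0, zero_sub, abs_neg, abs_of_nonneg s0] at hthx
      rw [← hprod]
      exact mul_le_mul hthx h3 (abs_nonneg _) hp4
    rw [e]
    refine (abs_sub _ _).trans ?_
    have := hM (by linarith)
    linarith
  -- both are large
  have T1 : |(1 - thf c1 (g 0)) * (m 1 / m 0 - m' 1 / m' 0)| ≤ 4 / m0 ^ 2 * κ := by
    rw [abs_mul, abs_of_nonneg (by linarith : 0 ≤ 1 - thf c1 (g 0))]
    rcases t1.eq_or_lt with h1 | h1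
    · rw [h1, sub_self, zero_mul]; exact hp1
    · have h2 := thf_lt_one hc1 h1
      calc (1 - thf c1 (g 0)) * |m 1 / m 0 - m' 1 / m' 0| ≤ 1 * (4 / m0 ^ 2 * κ) :=
            mul_le_mul (by linarith) (hM (by linarith)) (abs_nonneg _) zero_le_one
        _ = _ := one_mul _
  have T2 : |thf c1 (g 0) * (g 1 / g 0 - g' 1 / g' 0)| ≤ 4 * R * κ := by
    rw [abs_mul, abs_of_nonneg t0]
    rcases t0.eq_or_lt with h1 | h1
    · rw [← h1, zero_mul]; exact hp2
    · have h2 := thf_pos hc1 h1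
      have h4 : |cr g g'| ≤ 2 * R * (κ * c1 ^ 2) := by
        have h5 : cr g g' = -cr g (g - g') := by
          have e0 : (g - g') 0 = g 0 - g' 0 := rfl
          have e1 : (g - g') 1 = g 1 - g' 1 := rfl
          unfold cr; rw [e0, e1]; ring
        rw [h5, abs_neg]
        have := cr_abs_le hL0.ne' h.2.2.2.1 h.2.2.2.2 r1 r2
        linarith
      have h5 := slope_sub h4 hc1 hc2 h2.le hA
      have e : 2 * R * (κ * c1 ^ 2) / (c1 * (c1 / 2)) = 4 * R * κ := by field_simp; ring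
      rw [e] at h5
      calc thf c1 (g 0) * |g 1 / g 0 - g' 1 / g' 0| ≤ 1 * (4 * R * κ) :=
            mul_le_mul t1 h5 (abs_nonneg _) zero_le_one
        _ = _ := one_mul _
  have T3 : |(thf c1 (g 0) - thf c1 (g' 0)) * (g' 1 / g' 0 - m' 1 / m' 0)| ≤
      16 * R ^ 2 / m0 * κ := by
    rw [abs_mul, ← hprod]
    exact mul_le_mul hthx (hgm' hA) (abs_nonneg _) hp4
  have e : uf c1 m g - uf c1 m' g' =
      (1 - thf c1 (g 0)) * (m 1 / m 0 - m' 1 / m' 0) +
      thf c1 (g 0) * (g 1 / g 0 - g' 1 / g' 0) +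
      (thf c1 (g 0) - thf c1 (g' 0)) * (g' 1 / g' 0 - m' 1 / m' 0) := by
    unfold uf; ring
  rw [e]
  refine (abs_add_three _ _ _).trans ?_
  linarith

/-- **Closeness of the field values at a nearly vertical edge.** -/
theorem uf_pair {R m0 : ℝ} (hR : 1 ≤ R) (hm0 : 0 < m0) (hm01 : m0 ≤ 1) : ∃ C5 : ℝ, 0 < C5 ∧
    ∀ c1 : ℝ, 0 < c1 → c1 ≤ 1 → ∃ θ : ℝ, 0 < θ ∧ ∀ (κ L : ℝ) (F F' : Fr) (m g m' g' : V),
      0 ≤ κ → κ ≤ 1 → 1 ≤ L → |F.S| ≤ θ → |F'.S| ≤ θ → MG L R m0 F m g → MG L R m0 F' m' g' →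
      |lx L F (g - g')| ≤ κ * c1 ^ 2 → |ly L F (g - g')| ≤ κ * c1 ^ 2 →
      (|lx L F g| ≤ 3 * c1 → |cr m m'| ≤ κ) → |uf c1 m g - uf c1 m' g'| ≤ C5 * κ := by
  refine ⟨4 / m0 ^ 2 + 4 * R + 16 * R ^ 2 / m0, by positivity, ?_⟩
  intro c1 hc hc1
  refine ⟨m0 * c1 / (10 * R), by positivity, ?_⟩
  intro κ L F F' m g m' g' hκ hκ1 hL hS hS' h h' r1 r2 r3
  have hmc : m0 * c1 ≤ m0 := mul_le_of_le_one_right hm0.le hc1
  have hmc' : m0 * c1 ≤ c1 := mul_le_of_le_one_left hc.le hm01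
  have e : m0 * c1 / (10 * R) * R = m0 * c1 / 10 := by field_simp
  apply uf_pair_aux hR hL hm0 hc hc1 hκ hκ1 (θ := m0 * c1 / (10 * R)) _ _ _ hS hS' h h' r1 r2 r3
  · rw [div_le_div_iff₀ (by positivity) (by norm_num)]; nlinarith
  · rw [e]; linarith
  · rw [e]; linarith

end C2305bG
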