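import Pool.Agent.W_c2305b_h35.Flux

/-!
# The lower chain of a tile

The edges of a tile which run to the right form a chain of consecutive edges, ordered by the
abscissae, with nondecreasing slopes.
-/

namespace C2305b.TL

open Set Module

namespace Tiling

variable {ι : Type*} (T : Tiling ι)

lemma cr_coord' (u v z : V) : cr (u - v) (z - v) =
    (u 0 - v 0) * (z 1 - v 1) - (u 1 - v 1) * (z 0 - v 0) := by
  simp [cr]

lemma ext_pt {u v : V} (h0 : u 0 = v 0) (h1 : u 1 = v 1) : u = v := by
  ext i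
  fin_cases i
  · exact h0
  · exact h1

/-- Slope of the segment from `v` to `w`. -/
noncomputable def sl (v w : V) : ℝ := (w 1 - v 1) / (w 0 - v 0)

/-- The tile is above the line of an edge running to the right. -/
lemma above {i : ι} {v w : V} (h : T.E i v w) (hx : v 0 < w 0) {z : V} (hz : z ∈ T.P i) :
    sl v w * (z 0 - v 0) ≤ z 1 - v 1 := by
  have h1 := h.2.2.2.1 z hz
  rw [cr_coord'] at h1
  have h2 : 0 < w 0 - v 0 := sub_pos.mpr hx
  unfold sl
  rw [div_mul_eq_mul_div, div_le_iff₀ h2]
  linarith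

lemma sl_mul {v w : V} (hx : v 0 < w 0) : sl v w * (w 0 - v 0) = w 1 - v 1 := by
  have h2 : w 0 - v 0 ≠ 0 := by linarith
  unfold sl
  field_simp

/-- The point of the segment with a given abscissa. -/
lemma mem_seg {v w : V} (hx : v 0 < w 0) {t : ℝ} (h1 : v 0 < t) (h2 : t < w 0) {z : V}
    (h0 : z 0 = t) (hz : z 1 = v 1 + sl v w * (t - v 0)) : z ∈ openSegment ℝ v w := by
  have h3 : 0 < w 0 - v 0 := sub_pos.mpr hx
  rw [openSegment_eq_image']
  refine ⟨(t - v 0) / (w 0 - v 0), ⟨div_pos (by linarith) h3, by rw [div_lt_one h3]; linarith⟩, ?_⟩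
  apply ext_pt
  · simp only [PiLp.add_apply, PiLp.smul_apply, PiLp.sub_apply, smul_eq_mul, h0]
    field_simp
    ring
  · simp only [PiLp.add_apply, PiLp.smul_apply, PiLp.sub_apply, smul_eq_mul, hz]
    unfold sl
    field_simp

/-- Edges to the right starting at the same abscissa start at the same point. -/
lemma right_eq {i : ι} {v w v' w' : V} (h : T.E i v w) (hx : v 0 < w 0)
    (h' : T.E i v' w') (hx' : v' 0 < w' 0) (hv : v 0 = v' 0) : v = v' := by
  apply ext_pt hv
  have h1 := T.above h hx h'.1.2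
  have h2 := T.above h' hx' h.1.2
  rw [← hv, sub_self, mul_zero] at h1
  rw [hv, sub_self, mul_zero] at h2
  linarith

/-- An edge to the right starting later starts after the end of the first one. -/
lemma right_le {i : ι} {v w v' w' : V} (h : T.E i v w) (hx : v 0 < w 0)
    (h' : T.E i v' w') (hx' : v' 0 < w' 0) (hv : v 0 < v' 0) : w 0 ≤ v' 0 := by
  by_contra hcon
  push Not at hcon
  have h1 := T.above h hx h'.1.2
  let z : V := !₂[v' 0, v 1 + sl v w * (v' 0 - v 0)]
  have hz0 : z 0 = v' 0 := by simp [z]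
  have hz1 : z 1 = v 1 + sl v w * (v' 0 - v 0) := by simp [z]
  have hzo := mem_seg hx hv hcon hz0 hz1
  have hzP : z ∈ T.P i :=
    (T.conv i).segment_subset h.1.2 h.2.1.2 (openSegment_subset_segment ℝ v w hzo)
  have h2 := T.above h' hx' hzP
  rw [hz0, hz1, sub_self, mul_zero] at h2
  have h3 : v' ∈ openSegment ℝ v w := mem_seg hx hv hcon rfl (by linarith)
  exact h.2.2.2.2 v' h'.1.1 h3

/-- The edge after an edge to the right runs to the right as well, if there is another edge to
the right which starts later. -/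
lemma right_next {i : ι} {v w v' w' w2 : V} (h : T.E i v w) (hx : v 0 < w 0)
    (h' : T.E i v' w') (hv : w 0 < v' 0) (h2 : T.E i w w2) : w 0 < w2 0 := by
  by_contra hcon
  push Not at hcon
  have e1 := h2.2.2.2.1 v h.1.2
  have e2 := h2.2.2.2.1 v' h'.1.2
  have e3 := h.2.2.2.1 v' h'.1.2
  rw [cr_coord'] at e1 e2 e3
  rcases hcon.lt_or_eq with hlt | heq
  · obtain ⟨o, ho⟩ := T.nonem i
    have f1 := cr_pos_of_mem_interior (sub_ne_zero.mpr h.2.2.1) h.2.2.2.1 ho
    have f2 := cr_pos_of_mem_interior (sub_ne_zero.mpr h2.2.2.1) h2.2.2.2.1 ho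
    rw [cr_coord'] at f1 f2
    -- the two slopes agree
    set a := w 0 - v 0 with ha
    set b := w 1 - v 1 with hb
    set c := w2 0 - w 0 with hc
    set d := w2 1 - w 1 with hd
    have ha0 : 0 < a := by rw [ha]; linarith
    have hc0 : c < 0 := by rw [hc]; linarith
    have g1 : c * b - d * a ≤ 0 := by
      have : c * (v 1 - w 1) - d * (v 0 - w 0) = -(c * b - d * a) := by rw [ha, hb]; ring
      linarith
    have g2 : 0 ≤ c * b - d * a := by
      -- from v'
      have hX : 0 < v' 0 - w 0 := by linarith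
      have k1 : 0 ≤ a * (v' 1 - w 1) - b * (v' 0 - w 0) := by
        have : a * (v' 1 - v 1) - b * (v' 0 - v 0) = a * (v' 1 - w 1) - b * (v' 0 - w 0) := by
          rw [ha, hb]; ring
        linarith
      -- a * e2 - c * k1
      have k2 : 0 ≤ a * (c * (v' 1 - w 1) - d * (v' 0 - w 0)) := mul_nonneg ha0.le e2
      have k3 : 0 ≤ (-c) * (a * (v' 1 - w 1) - b * (v' 0 - w 0)) :=
        mul_nonneg (by linarith) k1
      have k4 : 0 ≤ (c * b - d * a) * (v' 0 - w 0) := by
        have : a * (c * (v' 1 - w 1) - d * (v' 0 - w 0)) +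
          (-c) * (a * (v' 1 - w 1) - b * (v' 0 - w 0)) = (c * b - d * a) * (v' 0 - w 0) := by
          ring
        linarith
      by_contra hneg
      push Not at hneg
      have := mul_neg_of_neg_of_pos hneg hX
      linarith
    have g3 : c * b = d * a := by linarith
    -- contradiction at o
    have k1 : 0 < a * (o 1 - w 1) - b * (o 0 - w 0) := by
      have : a * (o 1 - v 1) - b * (o 0 - v 0) = a * (o 1 - w 1) - b * (o 0 - w 0) := by
        rw [ha, hb]; ring
      linarith
    have k2 : a * (c * (o 1 - w 1) - d * (o 0 - w 0)) =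
        c * (a * (o 1 - w 1) - b * (o 0 - w 0)) := by
      have : a * (c * (o 1 - w 1) - d * (o 0 - w 0)) =
        c * (a * (o 1 - w 1) - b * (o 0 - w 0)) + (c * b - d * a) * (o 0 - w 0) := by ring
      rw [this, g3]; ring
    have k3 : 0 < a * (c * (o 1 - w 1) - d * (o 0 - w 0)) := mul_pos ha0 f2
    have k4 : c * (a * (o 1 - w 1) - b * (o 0 - w 0)) < 0 := mul_neg_of_neg_of_pos hc0 k1
    linarith
  · rw [heq, sub_self, zero_mul, zero_sub] at e1 e2
    have hne : w2 1 ≠ w 1 := fun h0 => h2.2.2.1 (ext_pt heq h0)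
    rcases lt_or_gt_of_ne hne with hlt | hlt
    · have : 0 < (w2 1 - w 1) * (v 0 - w 0) := mul_pos_of_neg_of_neg (by linarith) (by linarith)
      linarith
    · have : 0 < (w2 1 - w 1) * (v' 0 - w 0) := mul_pos (by linarith) (by linarith)
      linarith

/-- **The lower chain.** -/
theorem exists_lower_chain (i : ι) : ∃ m : ℕ, ∃ p : ℕ → V, 1 ≤ m ∧
    (∀ j < m, T.E i (p j) (p (j + 1)) ∧ p j 0 < p (j + 1) 0) ∧
    (∀ j, j + 1 < m → sl (p j) (p (j + 1)) ≤ sl (p (j + 1)) (p (j + 2))) ∧
    ∀ v w, T.E i v w → v 0 < w 0 → ∃ j < m, v = p j ∧ w = p (j + 1) := by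
  classical
  let S := (T.verts i).filter fun v => ∃ w, T.E i v w ∧ v 0 < w 0
  have hmemS : ∀ v, v ∈ S ↔ ∃ w, T.E i v w ∧ v 0 < w 0 := by
    intro v
    simp only [S, Finset.mem_filter, T.mem_verts]
    constructor
    · exact fun h => h.2
    · rintro ⟨w, hw, hx⟩
      exact ⟨hw.1, w, hw, hx⟩
  -- S is nonempty: the abscissae are not all equal and telescope
  have hSne : S.Nonempty := by
    by_contra hcon
    rw [Finset.not_nonempty_iff_eq_empty] at hcon
    have h1 : ∀ p ∈ T.edges i, p.2 0 - p.1 0 ≤ 0 := by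
      intro p hp
      by_contra h0
      push Not at h0
      have : p.1 ∈ S := (hmemS _).mpr ⟨p.2, (T.mem_edges).mp hp, by linarith⟩
      rw [hcon] at this
      simp at this
    have h2 : ∑ p ∈ T.edges i, (p.2 0 - p.1 0) = 0 := T.sum_edges_sub i (fun v : V => v 0)
    have h3 := (Finset.sum_eq_zero_iff_of_nonpos h1).mp h2
    -- then all edges are vertical; look at the lowest vertex
    obtain ⟨o, ho⟩ := T.nonem i
    have hne : (T.P i).Nonempty := ⟨o, interior_subset ho⟩
    rw [T.hull i, convexHull_nonempty_iff] at hne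
    obtain ⟨v, hv⟩ := hne
    obtain ⟨z, hz, hzmin⟩ := Finset.exists_min_image (T.verts i) (fun z : V => z 1)
      ⟨v, (T.mem_verts).mpr hv⟩
    rw [T.mem_verts] at hz
    obtain ⟨z2, hEz⟩ := T.exists_next i hz.1 hz.2
    obtain ⟨z1, hEz'⟩ := T.exists_prev i hz.1 hz.2
    have c1 := h3 (z, z2) ((T.mem_edges).mpr hEz)
    have c2 := h3 (z1, z) ((T.mem_edges).mpr hEz')
    simp only at c1 c2
    have c3 := cr_pos_of_mem_interior (sub_ne_zero.mpr hEz.2.2.1) hEz.2.2.2.1 ho
    have c4 := cr_pos_of_mem_interior (sub_ne_zero.mpr hEz'.2.2.1) hEz'.2.2.2.1 ho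
    rw [cr_coord', c1, zero_mul, zero_sub] at c3
    rw [cr_coord', c2, zero_mul, zero_sub] at c4
    have c5 := hzmin z2 ((T.mem_verts).mpr hEz.2.1)
    have c6 := hzmin z1 ((T.mem_verts).mpr hEz'.1)
    simp only at c5 c6
    have c7 : z1 0 = z 0 := by linarith
    rw [c7] at c4
    have c8 : o 0 - z 0 < 0 := by
      by_contra hneg
      push Not at hneg
      have := mul_nonneg (sub_nonneg.mpr c5) hneg
      linarith
    have c9 : 0 ≤ (z 1 - z1 1) * (o 0 - z 0) :=
      mul_nonneg_of_nonpos_of_nonpos (by linarith) c8.le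
    linarith
  -- the next vertex as a function
  have hnx : ∀ v, ∃ w, v ∈ S → T.E i v w ∧ v 0 < w 0 := by
    intro v
    by_cases h : v ∈ S
    · obtain ⟨w, hw⟩ := (hmemS v).mp h
      exact ⟨w, fun _ => hw⟩
    · exact ⟨v, fun h' => absurd h' h⟩
  choose nx hnx using hnx
  obtain ⟨v0, hv0, hmin⟩ := Finset.exists_min_image S (fun v : V => v 0) hSne
  let p : ℕ → V := fun j => nx^[j] v0
  have hp0 : p 0 = v0 := rfl
  have hps : ∀ j, p (j + 1) = nx (p j) := fun j => Function.iterate_succ_apply' nx j v0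
  -- some iterate leaves S
  have hex : ∃ j, p j ∉ S := by
    by_contra hcon
    push Not at hcon
    have hmono : StrictMono fun j => p j 0 := by
      apply strictMono_nat_of_lt_succ
      intro j
      rw [hps]
      exact (hnx _ (hcon j)).2
    have hinj : Function.Injective p := fun a b hab => hmono.injective (by simp only [hab])
    exact Set.infinite_range_of_injective hinj
      (S.finite_toSet.subset (by rintro _ ⟨j, rfl⟩; exact hcon j))
  let m := Nat.find hex
  have hmS : p m ∉ S := Nat.find_spec hex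
  have hltS : ∀ j < m, p j ∈ S := by
    intro j hj
    by_contra h
    exact Nat.find_min hex hj h
  have hm1 : 1 ≤ m := by
    by_contra h
    have : m = 0 := by omega
    rw [this, hp0] at hmS
    exact hmS hv0
  have hedge : ∀ j < m, T.E i (p j) (p (j + 1)) ∧ p j 0 < p (j + 1) 0 := by
    intro j hj
    rw [hps]
    exact hnx _ (hltS j hj)
  refine ⟨m, p, hm1, hedge, ?_, ?_⟩
  · intro j hj
    obtain ⟨e1, x1⟩ := hedge j (by omega)
    obtain ⟨e2, x2⟩ := hedge (j + 1) hj
    have h1 := T.above e1 x1 e2.2.1.2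
    have h2 := sl_mul x1
    have h3 := sl_mul x2
    have h4 : 0 < p (j + 1 + 1) 0 - p (j + 1) 0 := sub_pos.mpr x2
    have h5 : sl (p j) (p (j + 1)) * (p (j + 1 + 1) 0 - p (j + 1) 0) ≤
        sl (p (j + 1)) (p (j + 1 + 1)) * (p (j + 1 + 1) 0 - p (j + 1) 0) := by
      rw [h3]
      nlinarith
    exact le_of_mul_le_mul_right h5 h4
  · intro v w hE hx
    have hvS : v ∈ S := (hmemS v).mpr ⟨w, hE, hx⟩
    have hge : v0 0 ≤ v 0 := hmin v hvS
    -- the position of v among the abscissae
    by_cases hpos : ∃ j < m, v 0 < p (j + 1) 0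
    · obtain ⟨j, ⟨hj, hjv⟩, hjmin⟩ : ∃ j, (j < m ∧ v 0 < p (j + 1) 0) ∧
          ∀ k < j, ¬ (k < m ∧ v 0 < p (k + 1) 0) := by
        exact ⟨Nat.find hpos, Nat.find_spec hpos, fun k hk => Nat.find_min hpos hk⟩
      have hjle : p j 0 ≤ v 0 := by
        rcases Nat.eq_zero_or_pos j with h0 | h0
        · rw [h0, hp0]; exact hge
        · have := hjmin (j - 1) (by omega)
          push Not at this
          have h1 := this (by omega)
          rwa [show j - 1 + 1 = j by omega] at h1
      obtain ⟨e1, x1⟩ := hedge j hj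
      rcases hjle.lt_or_eq with h | h
      · have := T.right_le e1 x1 hE hx h
        linarith
      · have hvp := T.right_eq e1 x1 hE hx h
        refine ⟨j, hj, hvp.symm, ?_⟩
        rw [← hvp] at hE
        exact T.next_unique i e1 hE
    · exfalso
      push Not at hpos
      have hlast := hpos (m - 1) (by omega)
      rw [show m - 1 + 1 = m by omega] at hlast
      obtain ⟨e1, x1⟩ := hedge (m - 1) (by omega)
      rw [show m - 1 + 1 = m by omega] at e1 x1
      obtain ⟨w2, hw2⟩ := T.exists_next i e1.2.1.1 e1.2.1.2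
      rcases hlast.lt_or_eq with h | h
      · apply hmS
        exact (hmemS _).mpr ⟨w2, hw2, T.right_next e1 x1 hE h hw2⟩
      · -- v has the abscissa of p m
        have h1 := T.above e1 x1 hE.1.2
        have h2 := T.above hE hx e1.2.1.2
        rw [h, sub_self, mul_zero] at h2
        rw [← h] at h1
        rw [sl_mul x1] at h1
        have h3 : p m = v := ext_pt h (by linarith)
        exact hmS (by rw [h3]; exact hvS)

end Tiling

end C2305b.TL
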