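import Pool.Agent.W_c2305b_h35.Flux
import Pool.Agent.W_c2305b_h19.Frame
import Pool.Agent.W_c2305b_h68.Chain

/-!
# The flux identity in a window

A tiling of the convex region between a convex chain and its chord (the base `y = 0`).  The
boundary darts lie on the base or on a side of the chain; the discrete divergence identity gives
the window inequality (2a) of helper19.
-/

namespace C2305b.TL

open Set Module MeasureTheory
open C2305bH68 (Chain ext slope energy)

/-- A tiling of the region between a chain and its chord. -/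
structure Win (ι : Type*) where
  T : Tiling ι
  m : ℕ
  x : ℕ → ℝ
  y : ℕ → ℝ
  p : ℕ → V
  C : Chain m x y
  px : ∀ r, p r 0 = x r
  py : ∀ r, p r 1 = y r
  hR : T.R = convexHull ℝ (p '' {r | r ≤ m})
  hW : ∀ r ≤ m, p r ∈ T.W

namespace Win

variable {ι : Type*} (Z : Win ι)

/-- The chain is above the line of each of its sides. -/
lemma chain_above {r k : ℕ} (hr : r < Z.m) (hk : k ≤ Z.m) :
    slope Z.x Z.y r * (Z.x k - Z.x r) ≤ Z.y k - Z.y r := by
  rcases le_total r k with h | h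
  · induction k, h using Nat.le_induction with
    | base => simp
    | succ n hn ih =>
      have h1 := ih (by omega)
      have h2 := Z.C.slope_mono (r := r) (t := n) hn (by omega)
      have h3 := Z.C.ext_mul_slope (r := n) (by omega)
      have h4 := Z.C.ext_pos (r := n) (by omega)
      have h5 : ext Z.x n * slope Z.x Z.y r ≤ ext Z.x n * slope Z.x Z.y n :=
        mul_le_mul_of_nonneg_left h2 h4.le
      have h6 : ext Z.x n = Z.x (n + 1) - Z.x n := rfl
      rw [h6] at h3 h5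
      nlinarith
  · -- induction downwards
    obtain ⟨d, rfl⟩ := Nat.exists_eq_add_of_le h
    clear hk
    induction d generalizing k with
    | zero => simp
    | succ d ih =>
      have h1 := ih (k := k + 1) (by omega) (by omega)
      have e : k + 1 + d = k + (d + 1) := by omega
      rw [e] at h1
      have h2 := Z.C.slope_mono (r := k) (t := k + (d + 1)) (by omega) hr
      have h3 := Z.C.ext_mul_slope (r := k) (by omega)
      have h4 := Z.C.ext_pos (r := k) (by omega)
      have h5 : ext Z.x k * slope Z.x Z.y k ≤ ext Z.x k * slope Z.x Z.y (k + (d + 1)) :=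
        mul_le_mul_of_nonneg_left h2 h4.le
      have h6 : ext Z.x k = Z.x (k + 1) - Z.x k := rfl
      rw [h6] at h3 h5
      nlinarith

lemma convex_above (s a b : ℝ) : Convex ℝ {z : V | s * (z 0 - a) ≤ z 1 - b} := by
  intro u hu v hv c d hc hd hcd
  rw [mem_setOf_eq] at hu hv ⊢
  simp only [PiLp.add_apply, PiLp.smul_apply, smul_eq_mul]
  have h1 := mul_le_mul_of_nonneg_left hu hc
  have h2 := mul_le_mul_of_nonneg_left hv hd
  have h3 : s * (c * u 0 + d * v 0 - a) = c * (s * (u 0 - a)) + d * (s * (v 0 - a)) := by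
    have : a = (c + d) * a := by rw [hcd, one_mul]
    linear_combination (-s) * this
  have h4 : c * u 1 + d * v 1 - b = c * (u 1 - b) + d * (v 1 - b) := by
    have : b = (c + d) * b := by rw [hcd, one_mul]
    linear_combination (-1 : ℝ) * this
  rw [h3, h4]
  exact add_le_add h1 h2

/-- The region is above every side line. -/
lemma region_above {z : V} (hz : z ∈ Z.T.R) {r : ℕ} (hr : r < Z.m) :
    slope Z.x Z.y r * (z 0 - Z.x r) ≤ z 1 - Z.y r := by
  rw [Z.hR] at hz
  refine convexHull_min ?_ (convex_above (slope Z.x Z.y r) (Z.x r) (Z.y r)) hz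
  rintro _ ⟨k, hk, rfl⟩
  rw [mem_setOf_eq, Z.px, Z.py]
  exact Z.chain_above hr hk

lemma convex_box2 (a b : ℝ) : Convex ℝ {z : V | a ≤ z 0 ∧ z 0 ≤ b ∧ z 1 ≤ 0} := by
  intro u hu v hv c d hc hd hcd
  obtain ⟨h1, h2, h3⟩ := hu
  obtain ⟨h4, h5, h6⟩ := hv
  simp only [mem_setOf_eq, PiLp.add_apply, PiLp.smul_apply, smul_eq_mul]
  refine ⟨?_, ?_, ?_⟩
  · calc a = c * a + d * a := by rw [← add_mul, hcd, one_mul]
      _ ≤ _ := add_le_add (mul_le_mul_of_nonneg_left h1 hc) (mul_le_mul_of_nonneg_left h4 hd)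
  · calc c * u 0 + d * v 0 ≤ c * b + d * b :=
          add_le_add (mul_le_mul_of_nonneg_left h2 hc) (mul_le_mul_of_nonneg_left h5 hd)
      _ = b := by rw [← add_mul, hcd, one_mul]
  · have h7 := mul_nonpos_of_nonneg_of_nonpos hc h3
    have h8 := mul_nonpos_of_nonneg_of_nonpos hd h6
    linarith

/-- The region is between the abscissae of the ends and below the base. -/
lemma region_box {z : V} (hz : z ∈ Z.T.R) : Z.x 0 ≤ z 0 ∧ z 0 ≤ Z.x Z.m ∧ z 1 ≤ 0 := by
  rw [Z.hR] at hz
  refine convexHull_min ?_ (convex_box2 (Z.x 0) (Z.x Z.m)) hz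
  rintro _ ⟨k, hk, rfl⟩
  rw [mem_setOf_eq, Z.px, Z.py]
  exact ⟨Z.C.x_mono (Nat.zero_le k) hk, Z.C.x_mono hk le_rfl, Z.C.y_nonpos hk⟩

lemma p_mem {r : ℕ} (hr : r ≤ Z.m) : Z.p r ∈ Z.T.R := by
  rw [Z.hR]
  exact subset_convexHull ℝ _ ⟨r, hr, rfl⟩

/-- The point of the side `r` with abscissa `t`. -/
noncomputable def q (r : ℕ) (t : ℝ) : V := !₂[t, Z.y r + slope Z.x Z.y r * (t - Z.x r)]

lemma q0 (r : ℕ) (t : ℝ) : Z.q r t 0 = t := by simp [q]
lemma q1 (r : ℕ) (t : ℝ) : Z.q r t 1 = Z.y r + slope Z.x Z.y r * (t - Z.x r) := by simp [q]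

lemma ext_V {u v : V} (h0 : u 0 = v 0) (h1 : u 1 = v 1) : u = v := by
  ext i
  fin_cases i
  · exact h0
  · exact h1

lemma q_mem_segment {r : ℕ} (hr : r < Z.m) {t : ℝ} (h1 : Z.x r ≤ t) (h2 : t ≤ Z.x (r + 1)) :
    Z.q r t ∈ segment ℝ (Z.p r) (Z.p (r + 1)) := by
  have h3 := Z.C.ext_pos hr
  have h4 := Z.C.ext_mul_slope hr
  have h6 : ext Z.x r = Z.x (r + 1) - Z.x r := rfl
  rw [h6] at h3 h4
  rw [segment_eq_image']
  refine ⟨(t - Z.x r) / (Z.x (r + 1) - Z.x r), ⟨div_nonneg (by linarith) h3.le, ?_⟩, ?_⟩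
  · rw [div_le_one h3]; linarith
  · apply ext_V
    · simp only [PiLp.add_apply, PiLp.smul_apply, PiLp.sub_apply, smul_eq_mul, Z.px, q0]
      field_simp
      ring
    · simp only [PiLp.add_apply, PiLp.smul_apply, PiLp.sub_apply, smul_eq_mul, Z.py, q1]
      rw [← h4]
      field_simp

lemma q_mem {r : ℕ} (hr : r < Z.m) {t : ℝ} (h1 : Z.x r ≤ t) (h2 : t ≤ Z.x (r + 1)) :
    Z.q r t ∈ Z.T.R :=
  Z.T.convR.segment_subset (Z.p_mem hr.le) (Z.p_mem hr) (Z.q_mem_segment hr h1 h2)

lemma exists_index {t : ℝ} (h0 : Z.x 0 ≤ t) (h1 : t < Z.x Z.m) :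
    ∃ r < Z.m, Z.x r ≤ t ∧ t < Z.x (r + 1) := by
  by_contra hcon
  push Not at hcon
  have h2 : ∀ k ≤ Z.m, Z.x k ≤ t := by
    intro k
    induction k with
    | zero => intro _; exact h0
    | succ n ih => intro hn; exact hcon n (by omega) (ih (by omega))
  linarith [h2 Z.m le_rfl]

lemma index_unique {r r' : ℕ} (hr : r < Z.m) (hr' : r' < Z.m) {t : ℝ}
    (h1 : Z.x r < t) (h2 : t < Z.x (r + 1)) (h3 : Z.x r' < t) (h4 : t < Z.x (r' + 1)) :
    r = r' := by
  rcases lt_trichotomy r r' with h | h | h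
  · exfalso
    have := Z.C.x_mono (r := r + 1) (t := r') h hr'.le
    linarith
  · exact h
  · exfalso
    have := Z.C.x_mono (r := r' + 1) (t := r) h hr.le
    linarith

lemma cr_coord (u v z : V) : cr (u - v) (z - v) =
    (u 0 - v 0) * (z 1 - v 1) - (u 1 - v 1) * (z 0 - v 0) := by
  simp [cr]

/-- On the side `r`. -/
def On (r : ℕ) (v : V) : Prop := Z.x r ≤ v 0 ∧ v 0 ≤ Z.x (r + 1) ∧
  v 1 = Z.y r + slope Z.x Z.y r * (v 0 - Z.x r)

lemma tile_sub (i : ι) : Z.T.P i ⊆ Z.T.R := by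
  rw [← Z.T.union]; exact subset_iUnion _ i

/-- **Classification of the boundary darts.** -/
theorem bd_cases {i : ι} {v w : V} (h : Z.T.E i v w) (hb : Z.T.Bd v w) :
    (v 1 = 0 ∧ w 1 = 0 ∧ w 0 < v 0) ∨
      ∃ r < Z.m, Z.On r v ∧ Z.On r w ∧ v 0 < w 0 := by
  have hvR := Z.tile_sub i h.1.2
  have hwR := Z.tile_sub i h.2.1.2
  obtain ⟨v1, v2, v3⟩ := Z.region_box hvR
  obtain ⟨w1, w2, w3⟩ := Z.region_box hwR
  have hm := Z.C.hm
  rcases lt_trichotomy (v 0) (w 0) with hvw | hvw | hvw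
  · right
    obtain ⟨r, hr, hr1, hr2⟩ := Z.exists_index v1 (by linarith)
    have hav := Z.region_above hvR hr
    have haw := Z.region_above hwR hr
    have hqv := hb _ (Z.q_mem hr hr1 hr2.le)
    rw [cr_coord, Z.q0, Z.q1, sub_self, mul_zero, sub_zero] at hqv
    have hv1 : v 1 = Z.y r + slope Z.x Z.y r * (v 0 - Z.x r) := by
      have : 0 ≤ Z.y r + slope Z.x Z.y r * (v 0 - Z.x r) - v 1 := by
        by_contra hneg
        push Not at hneg
        have := mul_neg_of_pos_of_neg (sub_pos.mpr hvw) hneg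
        linarith
      linarith
    have hext := Z.C.ext_mul_slope hr
    have h6 : ext Z.x r = Z.x (r + 1) - Z.x r := rfl
    rw [h6] at hext
    have hw0 : w 0 ≤ Z.x (r + 1) := by
      by_contra hcon
      push Not at hcon
      have hp := hb _ (Z.p_mem (r := r + 1) hr)
      rw [cr_coord, Z.px, Z.py] at hp
      have e1 : Z.y (r + 1) - v 1 = slope Z.x Z.y r * (Z.x (r + 1) - v 0) := by
        rw [hv1]; linarith
      rw [e1] at hp
      have e2 : 0 ≤ (Z.x (r + 1) - v 0) * (slope Z.x Z.y r * (w 0 - v 0) - (w 1 - v 1)) := by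
        linarith
      have e3 : 0 ≤ slope Z.x Z.y r * (w 0 - v 0) - (w 1 - v 1) := by
        by_contra hneg
        push Not at hneg
        have := mul_neg_of_pos_of_neg (sub_pos.mpr hr2) hneg
        linarith
      have e4 : w 1 - v 1 = slope Z.x Z.y r * (w 0 - v 0) := by
        have : slope Z.x Z.y r * (w 0 - v 0) ≤ w 1 - v 1 := by
          rw [hv1]; linarith
        linarith
      apply h.2.2.2.2 _ (Z.hW (r + 1) hr)
      rw [openSegment_eq_image']
      have hwv : 0 < w 0 - v 0 := sub_pos.mpr hvw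
      refine ⟨(Z.x (r + 1) - v 0) / (w 0 - v 0), ⟨div_pos (by linarith) hwv,
        by rw [div_lt_one hwv]; linarith⟩, ?_⟩
      apply ext_V
      · simp only [PiLp.add_apply, PiLp.smul_apply, PiLp.sub_apply, smul_eq_mul, Z.px]
        field_simp
        ring
      · simp only [PiLp.add_apply, PiLp.smul_apply, PiLp.sub_apply, smul_eq_mul, Z.py]
        rw [e4]
        have : Z.y (r + 1) = v 1 + slope Z.x Z.y r * (Z.x (r + 1) - v 0) := by linarith
        rw [this]
        field_simp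
    have hw1 : w 1 = Z.y r + slope Z.x Z.y r * (w 0 - Z.x r) := by
      have hqw := hb _ (Z.q_mem hr (t := w 0) (by linarith) hw0)
      rw [cr_coord, Z.q0, Z.q1] at hqw
      have : 0 ≤ (w 0 - v 0) * (Z.y r + slope Z.x Z.y r * (w 0 - Z.x r) - w 1) := by linarith
      have : 0 ≤ Z.y r + slope Z.x Z.y r * (w 0 - Z.x r) - w 1 := by
        by_contra hneg
        push Not at hneg
        have := mul_neg_of_pos_of_neg (sub_pos.mpr hvw) hneg
        linarith
      linarith
    exact ⟨r, hr, ⟨hr1, hr2.le, hv1⟩, ⟨by linarith, hw0, hw1⟩, hvw⟩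
  · -- a vertical dart
    exfalso
    have hne : w 1 ≠ v 1 := by
      intro h0
      exact h.2.2.1 (ext_V hvw.symm h0)
    have h0 := hb _ (Z.p_mem (Nat.zero_le Z.m))
    have h1 := hb _ (Z.p_mem (le_refl Z.m))
    rw [cr_coord, Z.px, Z.py, hvw, sub_self, zero_mul, zero_sub] at h0 h1
    -- all abscissae on one side
    have hvert : ∀ z ∈ Z.T.R, z 0 = Z.x 0 ∨ z 0 = Z.x Z.m → z 1 = 0 := by
      intro z hz hz0
      obtain ⟨z1, z2, z3⟩ := Z.region_box hz
      rcases hz0 with hz0 | hz0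
      · have := Z.region_above hz (r := 0) (by omega)
        rw [hz0, sub_self, mul_zero, Z.C.h0] at this
        linarith
      · have := Z.region_above hz (r := Z.m - 1) (by omega)
        have he := Z.C.ext_mul_slope (r := Z.m - 1) (by omega)
        have h6 : ext Z.x (Z.m - 1) = Z.x (Z.m - 1 + 1) - Z.x (Z.m - 1) := rfl
        rw [h6, show Z.m - 1 + 1 = Z.m by omega, Z.C.hend] at he
        rw [hz0] at this
        linarith
    rcases lt_or_gt_of_ne hne with hlt | hlt
    · -- w below v : the region is to the right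
      have e1 : w 0 ≤ Z.x 0 := by
        by_contra hcon
        push Not at hcon
        have : (w 1 - v 1) * (Z.x 0 - w 0) > 0 :=
          mul_pos_of_neg_of_neg (by linarith) (by linarith)
        linarith
      have e2 : w 0 = Z.x 0 := le_antisymm e1 w1
      have e3 := hvert w hwR (Or.inl e2)
      have e4 := hvert v hvR (Or.inl (by linarith))
      exact hne (by rw [e3, e4])
    · have e1 : Z.x Z.m ≤ w 0 := by
        by_contra hcon
        push Not at hcon
        have : (w 1 - v 1) * (Z.x Z.m - w 0) > 0 := mul_pos (by linarith) (by linarith)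
        linarith
      have e2 : w 0 = Z.x Z.m := le_antisymm w2 e1
      have e3 := hvert w hwR (Or.inr e2)
      have e4 := hvert v hvR (Or.inr (by linarith))
      exact hne (by rw [e3, e4])
  · left
    -- the points of the base
    have hbase : ∀ t, Z.x 0 ≤ t → t ≤ Z.x Z.m → (!₂[t, 0] : V) ∈ Z.T.R := by
      intro t h1 h2
      have hw := Z.C.width_pos
      apply Z.T.convR.segment_subset (Z.p_mem (Nat.zero_le Z.m)) (Z.p_mem (le_refl Z.m))
      rw [segment_eq_image']
      refine ⟨(t - Z.x 0) / (Z.x Z.m - Z.x 0), ⟨div_nonneg (by linarith) hw.le,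
        by rw [div_le_one hw]; linarith⟩, ?_⟩
      apply ext_V
      · simp only [PiLp.add_apply, PiLp.smul_apply, PiLp.sub_apply, smul_eq_mul, Z.px]
        simp
        field_simp
        ring
      · simp only [PiLp.add_apply, PiLp.smul_apply, PiLp.sub_apply, smul_eq_mul, Z.py, Z.C.h0,
          Z.C.hend]
        simp
    have h1 := hb _ (hbase (v 0) v1 v2)
    have h2 := hb _ (hbase (w 0) w1 w2)
    rw [cr_coord] at h1 h2
    simp only [PiLp.toLp_apply, Matrix.cons_val_zero, Matrix.cons_val_one] at h1 h2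
    have e1 : v 1 = 0 := by
      have : 0 ≤ (w 0 - v 0) * (0 - v 1) := by linarith
      by_contra hne
      have : v 1 < 0 := lt_of_le_of_ne v3 hne
      have := mul_neg_of_neg_of_pos (sub_neg.mpr hvw) (by linarith : 0 < 0 - v 1)
      linarith
    have e2 : w 1 = 0 := by
      rw [e1] at h2
      have : 0 ≤ (w 0 - v 0) * (0 - w 1) := by linarith
      by_contra hne
      have : w 1 < 0 := lt_of_le_of_ne w3 hne
      have := mul_neg_of_neg_of_pos (sub_neg.mpr hvw) (by linarith : 0 < 0 - w 1)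
      linarith
    exact ⟨e1, e2, hvw⟩

open Classical in
/-- The lower darts of the tile `i` on the side `r`. -/
noncomputable def low (i : ι) (r : ℕ) : Finset (V × V) :=
  (Z.T.bdEdges i).filter fun d => Z.On r d.1 ∧ Z.On r d.2 ∧ d.1 0 < d.2 0

lemma mem_low {i : ι} {r : ℕ} {d : V × V} : d ∈ Z.low i r ↔
    Z.T.E i d.1 d.2 ∧ Z.T.Bd d.1 d.2 ∧ Z.On r d.1 ∧ Z.On r d.2 ∧ d.1 0 < d.2 0 := by
  classical
  unfold low Tiling.bdEdges
  rw [Finset.mem_filter, Finset.mem_filter, Z.T.mem_edges]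
  tauto

/-- The flux of the field value `a` over the dart `d`. -/
noncomputable def fl (a : ℝ) (d : V × V) : ℝ :=
  a * (d.2 1 - d.1 1) - a ^ 2 / 2 * (d.2 0 - d.1 0)

/-- **Window flux inequality.** -/
theorem flux_le [Fintype ι] [LinearOrder ι] (a : ι → ℝ) :
    ∑ i, ∑ r ∈ Finset.range Z.m, ∑ d ∈ Z.low i r, fl (a i) d ≤
      ∑ i, ∑ j ∈ Finset.univ.filter (fun j => i < j), ∑ d ∈ Z.T.common i j,
        |C2305bB.J (a i) (a j) (d.2 0 - d.1 0) (d.2 1 - d.1 1)| := by
  classical
  let F : ι → V := fun i => !₂[a i, a i ^ 2 / 2]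
  have hF : ∀ i (u v : V), cr (F i) (u - v) = a i * (u 1 - v 1) - a i ^ 2 / 2 * (u 0 - v 0) := by
    intro i u v; simp [F, cr]
  have hflux := Z.T.flux F
  have h1 : ∑ i, ∑ r ∈ Finset.range Z.m, ∑ d ∈ Z.low i r, fl (a i) d ≤
      ∑ i, ∑ d ∈ Z.T.bdEdges i, cr (F i) (d.2 - d.1) := by
    apply Finset.sum_le_sum
    intro i _
    have hdis : (↑(Finset.range Z.m) : Set ℕ).PairwiseDisjoint (fun r => Z.low i r) := by
      intro r hr r' hr' hrr
      rw [Function.onFun, Finset.disjoint_left]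
      intro d hd hd'
      rw [Z.mem_low] at hd hd'
      apply hrr
      obtain ⟨_, _, o1, o2, o3⟩ := hd
      obtain ⟨_, _, o4, o5, _⟩ := hd'
      exact Z.index_unique (Finset.mem_range.mp hr) (Finset.mem_range.mp hr')
        (t := (d.1 0 + d.2 0) / 2) (by linarith [o1.1]) (by linarith [o2.2.1])
        (by linarith [o4.1]) (by linarith [o5.2.1])
    rw [← Finset.sum_biUnion hdis]
    have hsub : (Finset.range Z.m).biUnion (fun r => Z.low i r) ⊆ Z.T.bdEdges i := by
      intro d hd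
      rw [Finset.mem_biUnion] at hd
      obtain ⟨r, _, hd⟩ := hd
      unfold low at hd
      exact (Finset.mem_filter.mp hd).1
    rw [← Finset.sum_sdiff hsub]
    have h2 : ∑ d ∈ (Finset.range Z.m).biUnion (fun r => Z.low i r), fl (a i) d =
        ∑ d ∈ (Finset.range Z.m).biUnion (fun r => Z.low i r), cr (F i) (d.2 - d.1) := by
      apply Finset.sum_congr rfl
      intro d _
      rw [hF]; rfl
    rw [h2]
    have h3 : 0 ≤ ∑ d ∈ Z.T.bdEdges i \ (Finset.range Z.m).biUnion (fun r => Z.low i r),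
        cr (F i) (d.2 - d.1) := by
      apply Finset.sum_nonneg
      intro d hd
      rw [Finset.mem_sdiff, Finset.mem_biUnion] at hd
      have hbd : Z.T.E i d.1 d.2 ∧ Z.T.Bd d.1 d.2 := by
        have := hd.1
        unfold Tiling.bdEdges at this
        rw [Finset.mem_filter, Z.T.mem_edges] at this
        exact this
      rcases Z.bd_cases hbd.1 hbd.2 with ⟨e1, e2, e3⟩ | ⟨r, hr, o1, o2, o3⟩
      · rw [hF, e1, e2, sub_self, mul_zero, zero_sub]
        have : 0 ≤ a i ^ 2 / 2 * (d.1 0 - d.2 0) :=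
          mul_nonneg (by positivity) (by linarith)
        linarith
      · exfalso
        apply hd.2
        exact ⟨r, Finset.mem_range.mpr hr, (Z.mem_low).mpr ⟨hbd.1, hbd.2, o1, o2, o3⟩⟩
    linarith
  have h4 : ∑ i, ∑ j ∈ Finset.univ.filter (fun j => i < j), ∑ p ∈ Z.T.common i j,
        -cr (F i - F j) (p.2 - p.1) ≤
      ∑ i, ∑ j ∈ Finset.univ.filter (fun j => i < j), ∑ d ∈ Z.T.common i j,
        |C2305bB.J (a i) (a j) (d.2 0 - d.1 0) (d.2 1 - d.1 1)| := by
    apply Finset.sum_le_sum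
    intro i _
    apply Finset.sum_le_sum
    intro j _
    apply Finset.sum_le_sum
    intro d _
    have h5 : cr (F i - F j) (d.2 - d.1) =
        C2305bB.J (a i) (a j) (d.2 0 - d.1 0) (d.2 1 - d.1 1) := by
      rw [cr_sub_left, hF, hF]
      unfold C2305bB.J
      ring
    rw [h5]
    exact neg_le_abs _
  simp only [Finset.sum_neg_distrib] at h4
  linarith

/-- A point of a side which is not a vertex of the tiling is on a lower dart. -/
lemma exists_low {r : ℕ} (hr : r < Z.m) {t : ℝ} (h1 : Z.x r < t) (h2 : t < Z.x (r + 1))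
    (hq : Z.q r t ∉ Z.T.W) : ∃ i, ∃ d ∈ Z.low i r, t ∈ Icc (d.1 0) (d.2 0) := by
  have hqR := Z.q_mem hr h1.le h2.le
  have hqR' := hqR
  rw [← Z.T.union] at hqR
  obtain ⟨i, hi⟩ := mem_iUnion.mp hqR
  have hext := Z.C.ext_pos hr
  have h6 : ext Z.x r = Z.x (r + 1) - Z.x r := rfl
  rw [h6] at hext
  have hmul := Z.C.ext_mul_slope hr
  rw [h6] at hmul
  have hu : Z.p (r + 1) - Z.p r ≠ 0 := by
    intro h0
    have := congrFun (congrArg WithLp.ofLp h0) 0
    simp only [PiLp.sub_apply, Z.px, PiLp.zero_apply] at this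
    linarith
  -- the side line
  have hside : ∀ z : V, cr (Z.p (r + 1) - Z.p r) (z - Z.p r) =
      (Z.x (r + 1) - Z.x r) * (z 1 - Z.y r - slope Z.x Z.y r * (z 0 - Z.x r)) := by
    intro z
    rw [cr_coord, Z.px, Z.px, Z.py, Z.py, ← hmul]
    ring
  have hleft : ∀ z ∈ Z.T.R, 0 ≤ cr (Z.p (r + 1) - Z.p r) (z - Z.p r) := by
    intro z hz
    rw [hside]
    exact mul_nonneg hext.le (by linarith [Z.region_above hz hr])
  have hq0 : cr (Z.p (r + 1) - Z.p r) (Z.q r t - Z.p r) = 0 := by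
    rw [hside, Z.q0, Z.q1]; ring
  have hnot : Z.q r t ∉ interior (Z.T.P i) := by
    intro h0
    have h3 := cr_pos_of_mem_interior hu (fun z hz => hleft z (Z.tile_sub i hz)) h0
    rw [hq0] at h3
    exact lt_irrefl _ h3
  obtain ⟨v, w, hE, hseg⟩ := Z.T.exists_edge i hi hnot
  have hqv : Z.q r t ≠ v := fun h0 => hq (h0 ▸ hE.1.1)
  have hqw : Z.q r t ≠ w := fun h0 => hq (h0 ▸ hE.2.1.1)
  have hopen : Z.q r t ∈ openSegment ℝ v w :=
    mem_openSegment_of_ne_left_right (Ne.symm hqv) (Ne.symm hqw) hseg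
  obtain ⟨α, β, hα, hβ, hαβ, hcomb⟩ := hopen
  have hv := hleft v (Z.tile_sub i hE.1.2)
  have hw := hleft w (Z.tile_sub i hE.2.1.2)
  have hzero : α * cr (Z.p (r + 1) - Z.p r) (v - Z.p r) +
      β * cr (Z.p (r + 1) - Z.p r) (w - Z.p r) = 0 := by
    rw [← hq0, ← hcomb, ← cr_smul_right, ← cr_smul_right, ← cr_add_right]
    congr 1
    have : Z.p r = (α + β) • Z.p r := by rw [hαβ, one_smul]
    conv_rhs => rw [this]
    module
  have hv0 : cr (Z.p (r + 1) - Z.p r) (v - Z.p r) = 0 := by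
    have := mul_nonneg hα.le hv
    have := mul_nonneg hβ.le hw
    have h3 : α * cr (Z.p (r + 1) - Z.p r) (v - Z.p r) = 0 := by linarith
    rcases mul_eq_zero.mp h3 with h4 | h4
    · linarith
    · exact h4
  have hw0 : cr (Z.p (r + 1) - Z.p r) (w - Z.p r) = 0 := by
    have := mul_nonneg hα.le hv
    have := mul_nonneg hβ.le hw
    have h3 : β * cr (Z.p (r + 1) - Z.p r) (w - Z.p r) = 0 := by linarith
    rcases mul_eq_zero.mp h3 with h4 | h4
    · linarith
    · exact h4
  obtain ⟨l, hl⟩ := exists_smul_of_cr_eq_zero hu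
    (b := w - v) (by
      have : w - v = (w - Z.p r) - (v - Z.p r) := by abel
      rw [this, cr_sub_right, hv0, hw0, sub_self])
  have hlpos : 0 < l := by
    obtain ⟨o, ho⟩ := Z.T.nonem i
    have h3 := cr_pos_of_mem_interior (sub_ne_zero.mpr hE.2.2.1) hE.2.2.2.1 ho
    have h4 := hleft o (Z.tile_sub i (interior_subset ho))
    rw [hl, cr_smul_left] at h3
    have h5 : cr (Z.p (r + 1) - Z.p r) (o - v) = cr (Z.p (r + 1) - Z.p r) (o - Z.p r) := by
      have : o - v = (o - Z.p r) - (v - Z.p r) := by abel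
      rw [this, cr_sub_right, hv0, sub_zero]
    rw [h5] at h3
    by_contra h6
    push Not at h6
    linarith [mul_nonpos_of_nonpos_of_nonneg h6 h4]
  have hBd : Z.T.Bd v w := by
    intro z hz
    rw [hl, cr_smul_left]
    have h5 : cr (Z.p (r + 1) - Z.p r) (z - v) = cr (Z.p (r + 1) - Z.p r) (z - Z.p r) := by
      have : z - v = (z - Z.p r) - (v - Z.p r) := by abel
      rw [this, cr_sub_right, hv0, sub_zero]
    rw [h5]
    exact mul_nonneg hlpos.le (hleft z hz)
  have hvw : v 0 < w 0 := by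
    have := congrFun (congrArg WithLp.ofLp hl) 0
    simp only [PiLp.sub_apply, PiLp.smul_apply, smul_eq_mul, Z.px] at this
    have h3 : 0 < l * (Z.x (r + 1) - Z.x r) := mul_pos hlpos hext
    linarith
  have ht : t = α * v 0 + β * w 0 := by
    have := congrFun (congrArg WithLp.ofLp hcomb) 0
    simp only [PiLp.add_apply, PiLp.smul_apply, smul_eq_mul, Z.q0] at this
    exact this.symm
  have hα1 : α < 1 := by linarith
  have hβ1 : β < 1 := by linarith
  have htv : v 0 < t := by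
    have : t - v 0 = β * (w 0 - v 0) := by
      rw [ht]; have : v 0 = (α + β) * v 0 := by rw [hαβ, one_mul]
      linarith
    have := mul_pos hβ (sub_pos.mpr hvw)
    linarith
  have htw : t < w 0 := by
    have : w 0 - t = α * (w 0 - v 0) := by
      rw [ht]; have : w 0 = (α + β) * w 0 := by rw [hαβ, one_mul]
      linarith
    have := mul_pos hα (sub_pos.mpr hvw)
    linarith
  rcases Z.bd_cases hE hBd with ⟨_, _, e3⟩ | ⟨r', hr', o1, o2, o3⟩
  · linarith
  · have hrr : r = r' := Z.index_unique hr hr' h1 h2 (by linarith [o1.1]) (by linarith [o2.2.1])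
    subst hrr
    exact ⟨i, (v, w), (Z.mem_low).mpr ⟨hE, hBd, o1, o2, o3⟩, ⟨htv.le, htw.le⟩⟩

/-- **The extents of the lower darts of a side add up to at least the extent of the side.** -/
theorem ext_le [Fintype ι] {r : ℕ} (hr : r < Z.m) :
    ext Z.x r ≤ ∑ i, ∑ d ∈ Z.low i r, (d.2 0 - d.1 0) := by
  classical
  have hext := Z.C.ext_pos hr
  have h6 : ext Z.x r = Z.x (r + 1) - Z.x r := rfl
  set S : Set ℝ := {t | Z.q r t ∈ Z.T.W} with hS
  have hSfin : S.Finite := by
    apply Set.Finite.subset ((Z.T.W.finite_toSet).image fun v : V => v 0)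
    intro t ht
    exact ⟨Z.q r t, ht, Z.q0 r t⟩
  have hcov : Ioo (Z.x r) (Z.x (r + 1)) ⊆ S ∪ ⋃ i, ⋃ d ∈ Z.low i r, Icc (d.1 0) (d.2 0) := by
    intro t ht
    by_cases hts : t ∈ S
    · exact Or.inl hts
    · right
      obtain ⟨i, d, hd, htd⟩ := Z.exists_low hr ht.1 ht.2 hts
      exact mem_iUnion.mpr ⟨i, mem_iUnion₂.mpr ⟨d, hd, htd⟩⟩
  have h1 := measure_mono (μ := (volume : Measure ℝ)) hcov
  rw [Real.volume_Ioo] at h1
  have h2 : volume (S ∪ ⋃ i, ⋃ d ∈ Z.low i r, Icc (d.1 0) (d.2 0)) ≤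
      ∑ i, ∑ d ∈ Z.low i r, ENNReal.ofReal (d.2 0 - d.1 0) := by
    calc volume (S ∪ ⋃ i, ⋃ d ∈ Z.low i r, Icc (d.1 0) (d.2 0))
        ≤ volume S + volume (⋃ i, ⋃ d ∈ Z.low i r, Icc (d.1 0) (d.2 0)) := measure_union_le _ _
      _ = volume (⋃ i, ⋃ d ∈ Z.low i r, Icc (d.1 0) (d.2 0)) := by
          rw [hSfin.measure_zero, zero_add]
      _ ≤ ∑ i, volume (⋃ d ∈ Z.low i r, Icc (d.1 0) (d.2 0)) := measure_iUnion_fintype_le _ _
      _ ≤ ∑ i, ∑ d ∈ Z.low i r, volume (Icc (d.1 0) (d.2 0)) :=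
          Finset.sum_le_sum fun i _ => measure_biUnion_finset_le _ _
      _ = _ := by simp only [Real.volume_Icc]
  have h3 := h1.trans h2
  have hnn : ∀ i, ∀ d ∈ Z.low i r, 0 ≤ d.2 0 - d.1 0 := by
    intro i d hd
    rw [Z.mem_low] at hd
    linarith [hd.2.2.2.2]
  have h4 : ∑ i, ∑ d ∈ Z.low i r, ENNReal.ofReal (d.2 0 - d.1 0) =
      ENNReal.ofReal (∑ i, ∑ d ∈ Z.low i r, (d.2 0 - d.1 0)) := by
    rw [ENNReal.ofReal_sum_of_nonneg (fun i _ => Finset.sum_nonneg (hnn i))]
    apply Finset.sum_congr rfl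
    intro i _
    rw [ENNReal.ofReal_sum_of_nonneg (hnn i)]
  rw [h4] at h3
  rw [h6]
  exact (ENNReal.ofReal_le_ofReal_iff (Finset.sum_nonneg fun i _ =>
    Finset.sum_nonneg (hnn i))).mp h3

/-- The direction of a lower dart. -/
lemma low_slope {i : ι} {r : ℕ} {d : V × V} (hd : d ∈ Z.low i r) :
    d.2 1 - d.1 1 = slope Z.x Z.y r * (d.2 0 - d.1 0) := by
  rw [Z.mem_low] at hd
  obtain ⟨_, _, o1, o2, _⟩ := hd
  rw [o1.2.2, o2.2.2]; ring

/-- **(2a).** If every lower dart satisfies (1e) with the bound `B`, the energy of the chain is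
bounded by `B` times the number of lower darts plus twice the total jump. -/
theorem energy_le [Fintype ι] [LinearOrder ι] (a : ι → ℝ) (B : ℝ)
    (hB : ∀ i, ∀ r < Z.m, ∀ d ∈ Z.low i r,
      (d.2 0 - d.1 0) * (slope Z.x Z.y r - a i) ^ 2 ≤ B) :
    energy Z.m Z.x Z.y ≤
      B * (∑ i, ∑ r ∈ Finset.range Z.m, (Z.low i r).card : ℕ) +
      2 * ∑ i, ∑ j ∈ Finset.univ.filter (fun j => i < j), ∑ d ∈ Z.T.common i j,
        |C2305bB.J (a i) (a j) (d.2 0 - d.1 0) (d.2 1 - d.1 1)| := by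
  classical
  have h1 := Z.flux_le a
  have h2 : energy Z.m Z.x Z.y ≤ ∑ i, ∑ r ∈ Finset.range Z.m, ∑ d ∈ Z.low i r,
      (d.2 0 - d.1 0) * slope Z.x Z.y r ^ 2 := by
    rw [Finset.sum_comm]
    unfold C2305bH68.energy
    apply Finset.sum_le_sum
    intro r hr
    have h3 := Z.ext_le (Finset.mem_range.mp hr)
    have h4 := mul_le_mul_of_nonneg_right h3 (sq_nonneg (slope Z.x Z.y r))
    refine h4.trans (le_of_eq ?_)
    rw [Finset.sum_mul]
    apply Finset.sum_congr rfl
    intro i _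
    rw [Finset.sum_mul]
  have h3 : ∑ i, ∑ r ∈ Finset.range Z.m, ∑ d ∈ Z.low i r,
      (d.2 0 - d.1 0) * slope Z.x Z.y r ^ 2 ≤
      ∑ i, ∑ r ∈ Finset.range Z.m, ∑ d ∈ Z.low i r, (B + 2 * fl (a i) d) := by
    apply Finset.sum_le_sum
    intro i _
    apply Finset.sum_le_sum
    intro r hr
    apply Finset.sum_le_sum
    intro d hd
    have h4 := hB i r (Finset.mem_range.mp hr) d hd
    have h5 := Z.low_slope hd
    unfold fl
    rw [h5]
    nlinarith
  have h4 : ∑ i, ∑ r ∈ Finset.range Z.m, ∑ d ∈ Z.low i r, (B + 2 * fl (a i) d) =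
      B * (∑ i, ∑ r ∈ Finset.range Z.m, (Z.low i r).card : ℕ) +
      2 * ∑ i, ∑ r ∈ Finset.range Z.m, ∑ d ∈ Z.low i r, fl (a i) d := by
    simp only [Finset.sum_add_distrib, Finset.sum_const, nsmul_eq_mul, Finset.mul_sum]
    push_cast
    simp only [Finset.mul_sum]
    congr 1
    apply Finset.sum_congr rfl
    intro i _
    apply Finset.sum_congr rfl
    intro r _
    ring
  linarith

end Win

end C2305b.TL
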