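import Pool.Agent.W_c2305b_h35.Build
import Pool.Agent.W_c2305b_h35.Counting
import Pool.Agent.W_c2305b_h35.LowerChain
import Pool.Agent.W_c2305b_h35.Window

/-!
# From a chain of sides of the tiled polygon to a window

The part of a tiling below a horizontal chord of a lower chain of sides is a window in the sense
of `Win`.
-/

namespace C2305b.TL

open Set Module MeasureTheory
open C2305bH68 (Chain ext slope energy)

/-- The lower half-plane. -/
noncomputable def lowHP : Finset ((V →L[ℝ] ℝ) × ℝ) := {((EuclideanSpace.proj 1 : V →L[ℝ] ℝ), 0)}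

lemma mem_lowHP {z : V} : z ∈ Cells.Poly lowHP ↔ z 1 ≤ 0 := by
  simp [Cells.Poly, lowHP]

lemma extreme_mem_W {ι : Type*} (T : Tiling ι) {i : ι} {w : V}
    (hw : w ∈ (T.P i).extremePoints ℝ) : w ∈ T.W := by
  have h1 := hw
  rw [T.hull i] at h1
  exact (extremePoints_convexHull_subset h1).1

namespace Tiling

variable {ι : Type*} (T : Tiling ι)

/-- A chain of vertices of the tiled set, running to the right along supporting lines, from the
height `0` down and back to the height `0`. -/
structure Block (T : Tiling ι) (m : ℕ) (p : ℕ → V) : Prop where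
  hm : 1 ≤ m
  hW : ∀ r ≤ m, p r ∈ T.W
  hR : ∀ r ≤ m, p r ∈ T.R
  hx : ∀ r < m, p r 0 < p (r + 1) 0
  hs : ∀ r < m, ∀ z ∈ T.R, 0 ≤ cr (p (r + 1) - p r) (z - p r)
  h0 : p 0 1 = 0
  hend : p m 1 = 0
  hlt : ∃ r ≤ m, p r 1 < 0

namespace Block

variable {T} {m : ℕ} {p : ℕ → V} (B : Block T m p)

include B

lemma above_side {z : V} (hz : z ∈ T.R) {r : ℕ} (hr : r < m) :
    slope (fun r => p r 0) (fun r => p r 1) r * (z 0 - p r 0) ≤ z 1 - p r 1 := by
  have h1 := B.hs r hr z hz
  rw [cr_coord'] at h1
  have h2 : 0 < p (r + 1) 0 - p r 0 := sub_pos.mpr (B.hx r hr)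
  unfold C2305bH68.slope
  simp only
  rw [div_mul_eq_mul_div, div_le_iff₀ h2]
  linarith

lemma chain : Chain m (fun r => p r 0) (fun r => p r 1) where
  hm := B.hm
  hx := B.hx
  hs := by
    intro r hr
    have h1 := B.above_side (B.hR (r + 2) hr) (r := r) (by omega)
    have x1 := B.hx r (by omega)
    have x2 := B.hx (r + 1) hr
    have h4 : 0 < p (r + 2) 0 - p (r + 1) 0 := sub_pos.mpr x2
    have h5 : 0 < p (r + 1) 0 - p r 0 := sub_pos.mpr x1
    unfold C2305bH68.slope at h1
    simp only at h1 ⊢
    rw [div_le_div_iff₀ h5 h4]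
    rw [div_mul_eq_mul_div, div_le_iff₀ h5] at h1
    nlinarith
  h0 := B.h0
  hend := B.hend

lemma slope_first : slope (fun r => p r 0) (fun r => p r 1) 0 < 0 := by
  by_contra hcon
  push Not at hcon
  have hC := B.chain
  obtain ⟨r, hr, hlt⟩ := B.hlt
  have h1 : (fun r => p r 1) r = ∑ k ∈ Finset.range r, ext (fun r => p r 0) k *
      slope (fun r => p r 0) (fun r => p r 1) k := hC.y_eq hr
  have h2 : 0 ≤ ∑ k ∈ Finset.range r, ext (fun r => p r 0) k *
      slope (fun r => p r 0) (fun r => p r 1) k := by
    apply Finset.sum_nonneg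
    intro k hk
    have hk' := Finset.mem_range.mp hk
    have := hC.slope_mono (r := 0) (t := k) (by omega) (by omega)
    exact mul_nonneg (hC.ext_pos (by omega)).le (hcon.trans this)
  simp only at h1
  linarith

lemma first_neg : p 1 1 < 0 := by
  have h1 := B.chain.ext_mul_slope (r := 0) (by have := B.hm; omega)
  have h2 := B.chain.ext_pos (r := 0) (by have := B.hm; omega)
  simp only [zero_add] at h1
  rw [B.h0, sub_zero] at h1
  rw [← h1]
  exact mul_neg_of_pos_of_neg h2 B.slope_first

lemma m_ge : 2 ≤ m := by
  have := B.hm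
  by_contra h
  have h1 : m = 1 := by omega
  subst h1
  obtain ⟨r, hr, hlt⟩ := B.hlt
  rcases Nat.le_one_iff_eq_zero_or_eq_one.mp hr with h2 | h2
  · rw [h2, B.h0] at hlt; exact lt_irrefl _ hlt
  · rw [h2, B.hend] at hlt; exact lt_irrefl _ hlt

lemma slope_last : 0 < slope (fun r => p r 0) (fun r => p r 1) (m - 1) := by
  have hm := B.m_ge
  by_contra hcon
  push Not at hcon
  have hC := B.chain
  -- all slopes are nonpositive and the first is negative
  have h1 : (fun r => p r 1) m = ∑ r ∈ Finset.range m, ext (fun r => p r 0) r *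
      slope (fun r => p r 0) (fun r => p r 1) r := hC.y_eq le_rfl
  have h2 : ∑ r ∈ Finset.range m, ext (fun r => p r 0) r *
      slope (fun r => p r 0) (fun r => p r 1) r < 0 := by
    apply Finset.sum_neg'
    · intro r hr
      have hr' := Finset.mem_range.mp hr
      have := hC.slope_mono (r := r) (t := m - 1) (by omega) (by omega)
      exact mul_nonpos_of_nonneg_of_nonpos (hC.ext_pos hr').le (this.trans hcon)
    · exact ⟨0, Finset.mem_range.mpr (by omega),
        mul_neg_of_pos_of_neg (hC.ext_pos (by omega)) B.slope_first⟩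
  simp only at h1
  rw [← h1, B.hend] at h2
  exact lt_irrefl _ h2

lemma p_not_interior {r : ℕ} (hr : r ≤ m) : p r ∉ interior T.R := by
  intro h0
  rcases hr.lt_or_eq with h | h
  · have hne : p (r + 1) - p r ≠ 0 := by
      intro h1
      have h2 := congrFun (congrArg WithLp.ofLp h1) 0
      simp only [PiLp.sub_apply, PiLp.zero_apply] at h2
      linarith [B.hx r h]
    have h1 := cr_pos_of_mem_interior hne (B.hs r h) h0
    rw [sub_self, cr_zero_right] at h1
    exact lt_irrefl _ h1
  · subst h
    have hm := B.hm
    have h := B.hx (r - 1) (by omega)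
    have hne : p (r - 1 + 1) - p (r - 1) ≠ 0 := by
      intro h1
      have h2 := congrFun (congrArg WithLp.ofLp h1) 0
      simp only [PiLp.sub_apply, PiLp.zero_apply] at h2
      linarith
    have h1 := cr_pos_of_mem_interior hne (B.hs (r - 1) (by omega)) h0
    rw [show r - 1 + 1 = r by omega, cr_self] at h1
    exact lt_irrefl _ h1

/-- The region below the chord is the hull of the chain. -/
theorem region_eq : T.R ∩ Cells.Poly lowHP = convexHull ℝ (p '' {r | r ≤ m}) := by
  have hC := B.chain
  apply Subset.antisymm
  · rintro z ⟨hz, hz1⟩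
    rw [mem_lowHP] at hz1
    have hm := B.m_ge
    have a0 := B.above_side hz (r := 0) (by omega)
    have a1 := B.above_side hz (r := m - 1) (by omega)
    have s0 := B.slope_first
    have s1 := B.slope_last
    have hz0 : p 0 0 ≤ z 0 := by
      by_contra hneg
      push Not at hneg
      have := mul_pos_of_neg_of_neg s0 (sub_neg.mpr hneg)
      rw [B.h0] at a0
      linarith
    have hzm : z 0 ≤ p m 0 := by
      by_contra hneg
      push Not at hneg
      have h1 : slope (fun r => p r 0) (fun r => p r 1) (m - 1) * (p m 0 - p (m - 1) 0) =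
          p m 1 - p (m - 1) 1 := by
        have := hC.ext_mul_slope (r := m - 1) (by omega)
        unfold C2305bH68.ext at this
        rw [show m - 1 + 1 = m by omega] at this
        simp only at this
        linarith
      rw [B.hend] at h1
      have := mul_pos s1 (sub_pos.mpr hneg)
      linarith
    -- the index
    obtain ⟨r, hr, hr1, hr2⟩ : ∃ r < m, p r 0 ≤ z 0 ∧ z 0 ≤ p (r + 1) 0 := by
      by_contra hcon
      push Not at hcon
      have h2 : ∀ k ≤ m, 1 ≤ k → p k 0 < z 0 := by
        intro k
        induction k with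
        | zero => intro _ h; omega
        | succ n ih =>
          intro hn _
          apply hcon n (by omega)
          rcases Nat.eq_zero_or_pos n with h | h
          · rw [h]; exact hz0
          · exact (ih (by omega) h).le
      linarith [h2 m le_rfl (by omega)]
    set s := slope (fun r => p r 0) (fun r => p r 1) r with hs
    have hmul : s * (p (r + 1) 0 - p r 0) = p (r + 1) 1 - p r 1 := by
      have := hC.ext_mul_slope hr
      unfold C2305bH68.ext at this
      simp only at this
      linarith
    have hext : 0 < p (r + 1) 0 - p r 0 := by linarith [B.hx r hr]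
    have hpr : p r ∈ convexHull ℝ (p '' {r | r ≤ m}) := subset_convexHull ℝ _ ⟨r, hr.le, rfl⟩
    have hpr1 : p (r + 1) ∈ convexHull ℝ (p '' {r | r ≤ m}) :=
      subset_convexHull ℝ _ ⟨r + 1, hr, rfl⟩
    have hp0 : p 0 ∈ convexHull ℝ (p '' {r | r ≤ m}) :=
      subset_convexHull ℝ _ ⟨0, Nat.zero_le m, rfl⟩
    have hpm : p m ∈ convexHull ℝ (p '' {r | r ≤ m}) := subset_convexHull ℝ _ ⟨m, le_refl m, rfl⟩
    have hconv := convex_convexHull ℝ (p '' {r | r ≤ m})
    -- bottom and top points of the vertical line
    let b : V := !₂[z 0, p r 1 + s * (z 0 - p r 0)]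
    let t : V := !₂[z 0, 0]
    have hb : b ∈ convexHull ℝ (p '' {r | r ≤ m}) := by
      apply hconv.segment_subset hpr hpr1
      rw [segment_eq_image']
      refine ⟨(z 0 - p r 0) / (p (r + 1) 0 - p r 0), ⟨div_nonneg (by linarith) hext.le, ?_⟩, ?_⟩
      · rw [div_le_one hext]; linarith
      · apply ext_pt
        · simp only [PiLp.add_apply, PiLp.smul_apply, PiLp.sub_apply, smul_eq_mul, b]
          simp
          field_simp
          ring
        · simp only [PiLp.add_apply, PiLp.smul_apply, PiLp.sub_apply, smul_eq_mul, b]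
          rw [← hmul]
          simp
          field_simp
    have hw : 0 < p m 0 - p 0 0 := hC.width_pos
    have ht : t ∈ convexHull ℝ (p '' {r | r ≤ m}) := by
      apply hconv.segment_subset hp0 hpm
      rw [segment_eq_image']
      refine ⟨(z 0 - p 0 0) / (p m 0 - p 0 0), ⟨div_nonneg (by linarith) hw.le, ?_⟩, ?_⟩
      · rw [div_le_one hw]; linarith
      · apply ext_pt
        · simp only [PiLp.add_apply, PiLp.smul_apply, PiLp.sub_apply, smul_eq_mul, t]
          simp
          field_simp
          ring
        · simp only [PiLp.add_apply, PiLp.smul_apply, PiLp.sub_apply, smul_eq_mul, t, B.h0,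
            B.hend]
          simp
    have hb1 : b 1 = p r 1 + s * (z 0 - p r 0) := by simp [b]
    have hbz : b 1 ≤ z 1 := by
      rw [hb1]; linarith [B.above_side hz hr]
    apply hconv.segment_subset hb ht
    by_cases hb0 : b 1 = 0
    · have : z = b := by
        apply ext_pt
        · simp [b]
        · linarith
      rw [this]; exact left_mem_segment ℝ b t
    · have hbneg : b 1 < 0 := lt_of_le_of_ne (by linarith) hb0
      rw [segment_eq_image']
      refine ⟨(z 1 - b 1) / (0 - b 1), ⟨div_nonneg (by linarith) (by linarith), ?_⟩, ?_⟩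
      · rw [div_le_one (by linarith)]; linarith
      · apply ext_pt
        · simp [b, t]
        · simp only [PiLp.add_apply, PiLp.smul_apply, PiLp.sub_apply, smul_eq_mul]
          have ht1 : t 1 = 0 := by simp [t]
          rw [ht1]
          have : (0 : ℝ) - b 1 ≠ 0 := by linarith
          rw [div_mul_cancel₀ _ this]; ring
  · apply convexHull_min
    · rintro _ ⟨r, hr, rfl⟩
      exact ⟨B.hR r hr, mem_lowHP.mpr (hC.y_nonpos hr)⟩
    · exact T.convR.inter (Cells.convex_poly _)

lemma region_interior : (interior (T.R ∩ Cells.Poly lowHP)).Nonempty := by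
  rw [B.region_eq]
  have hm := B.m_ge
  have hC := B.chain
  by_contra hcon
  rw [Set.not_nonempty_iff_eq_empty] at hcon
  have hconv := convex_convexHull ℝ (p '' {r | r ≤ m})
  have h1 : volume (convexHull ℝ (p '' {r | r ≤ m})) = 0 := by
    refine measure_mono_null ?_ (hconv.addHaar_frontier volume)
    intro x hx
    refine ⟨subset_closure hx, ?_⟩
    rw [hcon]
    exact fun h0 => h0
  have h2 : convexHull ℝ ({p 0, p 1, p m} : Set V) ⊆ convexHull ℝ (p '' {r | r ≤ m}) := by
    apply convexHull_mono
    rintro y (rfl | rfl | rfl)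
    · exact ⟨0, Nat.zero_le m, rfl⟩
    · exact ⟨1, show 1 ≤ m by omega, rfl⟩
    · exact ⟨m, le_refl m, rfl⟩
  have h3 := measure_mono_null h2 h1
  have h4 := volume_triangle (p 0) (p 1) (p m)
  rw [h3] at h4
  simp only [ENNReal.toReal_zero] at h4
  have h5 : cr (p 1 - p 0) (p m - p 0) = 0 := by
    have : |cr (p 1 - p 0) (p m - p 0)| = 0 := by linarith
    exact abs_eq_zero.mp this
  rw [cr_coord', B.h0, B.hend, sub_self, mul_zero, zero_sub, sub_zero] at h5
  have hw : 0 < p m 0 - p 0 0 := hC.width_pos
  have := mul_neg_of_neg_of_pos B.first_neg hw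
  linarith

/-- The chain is strictly below the base between its ends. -/
lemma below {r : ℕ} (h1 : 1 ≤ r) (h2 : r < m) : p r 1 < 0 := by
  have hC := B.chain
  by_contra hcon
  push Not at hcon
  have hy := hC.y_nonpos h2.le
  have hr0 : p r 1 = 0 := le_antisymm hy hcon
  -- the slope of the side r - 1 is positive, since the chain comes from below
  have hr2 : 2 ≤ r := by
    by_contra h
    have : r = 1 := by omega
    rw [this] at hr0
    linarith [B.first_neg]
  have s1 : 0 < slope (fun r => p r 0) (fun r => p r 1) (r - 1) := by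
    by_contra hs
    push Not at hs
    have h3 : (fun r => p r 1) r = ∑ k ∈ Finset.range r, ext (fun r => p r 0) k *
      slope (fun r => p r 0) (fun r => p r 1) k := hC.y_eq h2.le
    have h4 : ∑ k ∈ Finset.range r, ext (fun r => p r 0) k *
        slope (fun r => p r 0) (fun r => p r 1) k < 0 := by
      apply Finset.sum_neg'
      · intro k hk
        have hk' := Finset.mem_range.mp hk
        have := hC.slope_mono (r := k) (t := r - 1) (by omega) (by omega)
        exact mul_nonpos_of_nonneg_of_nonpos (hC.ext_pos (by omega)).le (this.trans hs)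
      · exact ⟨0, Finset.mem_range.mpr (by omega),
          mul_neg_of_pos_of_neg (hC.ext_pos (by omega)) B.slope_first⟩
    simp only at h3
    linarith
  -- then the next point is above the base
  have s2 := hC.slope_mono (r := r - 1) (t := r) (by omega) h2
  have h5 := hC.ext_mul_slope h2
  have h6 := hC.ext_pos h2
  have h7 := hC.y_nonpos (k := r + 1) h2
  simp only at h5 h7
  have h8 : 0 < ext (fun r => p r 0) r * slope (fun r => p r 0) (fun r => p r 1) r :=
    mul_pos h6 (by linarith)
  rw [h5] at h8
  linarith

end Block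

end Tiling

end C2305b.TL
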