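import Pool.Agent.W_c2305b_h35.Glue

/-!
# The window of a block

Existence of the window of a block, the common edges in the window, and the number of lower darts.
-/

namespace C2305b.TL

open Set Module MeasureTheory
open C2305bH68 (Chain ext slope energy)

namespace Tiling

variable {ι : Type*} {T : Tiling ι}

/-- A point of the open side `r` of the chain. -/
def OpenSide (m : ℕ) (p : ℕ → V) (w : V) : Prop := ∃ r < m, w ∈ openSegment ℝ (p r) (p (r + 1))

open Classical in
/-- **Window of a block.** -/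
theorem Block.exists_win_aux [Finite ι] (hT : T.Sharp) {m : ℕ} {p : ℕ → V}
    (B : Block T m p) :
    ∃ Z : Win {i : ι // (interior (T.P i ∩ Cells.Poly lowHP)).Nonempty},
      Z.m = m ∧ Z.x = (fun r => p r 0) ∧ Z.y = (fun r => p r 1) ∧ Z.p = p ∧
      Z.T.R = T.R ∩ Cells.Poly lowHP ∧
      (∀ i, Z.T.P i = T.P i.1 ∩ Cells.Poly lowHP) ∧ Z.T.Sharp ∧
      (∀ w ∈ Z.T.W, w ∈ T.W ∨ (∃ r ≤ m, w = p r) ∨ w 1 = 0) ∧
      (∀ i j, i ≠ j → ∀ d' ∈ Z.T.common i j, ∃ d ∈ T.common i.1 j.1,
        segment ℝ d'.1 d'.2 ⊆ segment ℝ d.1 d.2) := by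
  classical
  let A : Finset V := (Finset.range (m + 1)).image p
  have hAmem : ∀ w, w ∈ A ↔ ∃ r ≤ m, w = p r := by
    intro w
    simp only [A, Finset.mem_image, Finset.mem_range]
    constructor
    · rintro ⟨r, hr, rfl⟩
      exact ⟨r, by omega, rfl⟩
    · rintro ⟨r, hr, rfl⟩
      exact ⟨r, by omega, rfl⟩
  have hPR : ∀ i, T.P i ⊆ T.R := fun i => by rw [← T.union]; exact subset_iUnion _ i
  obtain ⟨T', h1, h2, h3⟩ := T.exists_clip lowHP B.region_interior A (by
    intro a ha i hai
    obtain ⟨r, hr, rfl⟩ := (hAmem a).mp ha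
    exact B.p_not_interior hr (interior_mono (inter_subset_left.trans (hPR i)) hai))
  have hsharp : T'.Sharp := by
    intro w hw
    rcases (h3 w).mp hw with h | h
    · left
      obtain ⟨r, hr, rfl⟩ := (hAmem w).mp h
      rw [h2]
      exact fun h0 => B.p_not_interior hr (interior_mono inter_subset_left h0)
    · right; exact h
  refine ⟨⟨T', m, fun r => p r 0, fun r => p r 1, p, B.chain, fun _ => rfl, fun _ => rfl,
    by rw [h2]; exact B.region_eq, fun r hr => (h3 _).mpr (Or.inl ((hAmem _).mpr ⟨r, hr, rfl⟩))⟩,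
    rfl, rfl, rfl, rfl, h2, h1, hsharp, ?_, ?_⟩
  · intro w hw
    rcases (h3 w).mp hw with h | ⟨i, hi⟩
    · exact Or.inr (Or.inl ((hAmem w).mp h))
    · by_cases hw0 : w 1 = 0
      · exact Or.inr (Or.inr hw0)
      left
      rw [h1 i] at hi
      have hlt : w 1 < 0 := lt_of_le_of_ne (mem_lowHP.mp hi.1.2) hw0
      -- w is an extreme point of the whole tile
      apply extreme_mem_W T (i := i.1)
      refine ⟨hi.1.1, ?_⟩
      intro a ha b hb hwab
      -- shrink the segment towards w
      obtain ⟨α, β, hα, hβ, hαβ, hcomb⟩ := hwab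
      have hev : ∀ᶠ t : ℝ in nhds 0, (w + t • (a - w)) 1 < 0 ∧ (w + t • (b - w)) 1 < 0 := by
        have c1 : Continuous fun t : ℝ => (w + t • (a - w)) 1 := by fun_prop
        have c2 : Continuous fun t : ℝ => (w + t • (b - w)) 1 := by fun_prop
        exact (c1.continuousAt.eventually (gt_mem_nhds (by simpa using hlt))).and
          (c2.continuousAt.eventually (gt_mem_nhds (by simpa using hlt)))
      obtain ⟨ε, hε, hball⟩ := Metric.eventually_nhds_iff.mp hev
      set t := min (ε / 2) (1 / 2) with ht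
      have ht0 : 0 < t := lt_min (by linarith) (by norm_num)
      have ht1 : t ≤ 1 := (min_le_right _ _).trans (by norm_num)
      have htε : dist t 0 < ε := by
        rw [Real.dist_eq, sub_zero, abs_of_pos ht0]
        exact (min_le_left _ _).trans_lt (by linarith)
      obtain ⟨g1, g2⟩ := hball htε
      have hwP : w ∈ T.P i.1 := hi.1.1
      have k1 : w + t • (a - w) ∈ T.P i.1 := by
        apply (T.conv i.1).segment_subset hwP ha
        rw [segment_eq_image']
        exact ⟨t, ⟨ht0.le, ht1⟩, rfl⟩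
      have k2 : w + t • (b - w) ∈ T.P i.1 := by
        apply (T.conv i.1).segment_subset hwP hb
        rw [segment_eq_image']
        exact ⟨t, ⟨ht0.le, ht1⟩, rfl⟩
      have k3 : w ∈ openSegment ℝ (w + t • (a - w)) (w + t • (b - w)) := by
        refine ⟨α, β, hα, hβ, hαβ, ?_⟩
        have e1 : α • (w + t • (a - w)) + β • (w + t • (b - w)) =
          (α + β) • w + t • ((α • a + β • b) - (α + β) • w) := by module
        rw [e1, hαβ, hcomb, one_smul, sub_self, smul_zero, add_zero]
      have k4 := hi.2 ⟨k1, mem_lowHP.mpr g1.le⟩ ⟨k2, mem_lowHP.mpr g2.le⟩ k3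
      have k5 : t • (a - w) = 0 := by
        have := k4
        rwa [add_eq_left] at this
      rcases smul_eq_zero.mp k5 with k6 | k6
      · linarith
      · exact sub_eq_zero.mp k6
  · intro i j hij d' hd'
    have hij' : i.1 ≠ j.1 := fun h => hij (Subtype.ext h)
    have hd := hd'
    rw [T'.mem_common] at hd
    obtain ⟨e1, e2⟩ := hd
    have hi1 : d'.1 ∈ T.P i.1 := by have := e1.1.2; rw [h1 i] at this; exact this.1
    have hj1 : d'.1 ∈ T.P j.1 := by have := e2.2.1.2; rw [h1 j] at this; exact this.1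
    have hi2 : d'.2 ∈ T.P i.1 := by have := e1.2.1.2; rw [h1 i] at this; exact this.1
    have hj2 : d'.2 ∈ T.P j.1 := by have := e2.1.2; rw [h1 j] at this; exact this.1
    have hne : d'.1 ≠ d'.2 := Ne.symm e1.2.2.1
    obtain ⟨d, hd, -⟩ := T.exists_common hT hij' hi1 hj1 hi2 hj2
      (x := (1/2 : ℝ) • d'.1 + (1/2 : ℝ) • d'.2)
      ⟨1/2, 1/2, by norm_num, by norm_num, by norm_num, rfl⟩ hne
    refine ⟨d, hd, ?_⟩
    rw [← T.inter_eq_segment hT hij' hd]
    exact subset_inter ((T.conv _).segment_subset hi1 hi2) ((T.conv _).segment_subset hj1 hj2)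

end Tiling

namespace Win

variable {ι : Type*} (Z : Win ι)

/-- A lower dart is determined by its side and its left end. -/
lemma low_unique {i j : ι} {r : ℕ} {d e : V × V} (hd : d ∈ Z.low i r)
    (he : e ∈ Z.low j r) (hde : d.1 = e.1) : i = j ∧ d = e := by
  rw [Z.mem_low] at hd he
  obtain ⟨d1, d2, d3, d4, d5⟩ := hd
  obtain ⟨e1, e2, e3, e4, e5⟩ := he
  -- a point in both open darts
  set t := (d.1 0 + min (d.2 0) (e.2 0)) / 2 with ht
  have e5' : d.1 0 < e.2 0 := by rw [hde]; exact e5
  have ht0 : d.1 0 < t := by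
    have : d.1 0 < min (d.2 0) (e.2 0) := lt_min d5 e5'
    rw [ht]; linarith
  have ht1 : t < d.2 0 := by
    have : min (d.2 0) (e.2 0) ≤ d.2 0 := min_le_left _ _
    rw [ht]; linarith
  have ht2 : t < e.2 0 := by
    have : min (d.2 0) (e.2 0) ≤ e.2 0 := min_le_right _ _
    rw [ht]; linarith
  have hqd : Z.q r t ∈ openSegment ℝ d.1 d.2 := by
    have hpos : 0 < d.2 0 - d.1 0 := by linarith
    rw [openSegment_eq_image']
    refine ⟨(t - d.1 0) / (d.2 0 - d.1 0), ⟨div_pos (by linarith) hpos,
      by rw [div_lt_one hpos]; linarith⟩, ?_⟩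
    apply ext_V
    · simp only [PiLp.add_apply, PiLp.smul_apply, PiLp.sub_apply, smul_eq_mul, Z.q0]
      field_simp
      ring
    · simp only [PiLp.add_apply, PiLp.smul_apply, PiLp.sub_apply, smul_eq_mul, Z.q1]
      rw [d3.2.2, d4.2.2]
      field_simp
      ring
  have hqe : Z.q r t ∈ openSegment ℝ e.1 e.2 := by
    have hpos : 0 < e.2 0 - e.1 0 := by linarith
    rw [openSegment_eq_image']
    refine ⟨(t - e.1 0) / (e.2 0 - e.1 0), ⟨div_pos (by rw [← hde]; linarith) hpos,
      by rw [div_lt_one hpos]; linarith⟩, ?_⟩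
    apply ext_V
    · simp only [PiLp.add_apply, PiLp.smul_apply, PiLp.sub_apply, smul_eq_mul, Z.q0]
      field_simp
      ring
    · simp only [PiLp.add_apply, PiLp.smul_apply, PiLp.sub_apply, smul_eq_mul, Z.q1]
      rw [e3.2.2, e4.2.2]
      field_simp
      ring
  have hij : i = j := by
    by_contra hij
    have hqj : Z.q r t ∈ Z.T.P j :=
      (Z.T.conv j).segment_subset e1.1.2 e1.2.1.2 (openSegment_subset_segment ℝ _ _ hqe)
    exact Z.T.not_twin_of_boundary d1 d2 (Z.T.twin_of_mem hij d1 hqd hqj)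
  subst hij
  refine ⟨rfl, ?_⟩
  obtain ⟨h1, h2⟩ := Z.T.edge_eq_of_mem d1 e1 hqd (openSegment_subset_segment ℝ _ _ hqe)
  exact Prod.ext h1.symm h2.symm

open Classical in
/-- The vertices of the tiling on the open side `r`. -/
noncomputable def inner (r : ℕ) : Finset V :=
  Z.T.W.filter fun w => Z.On r w ∧ Z.x r < w 0 ∧ w 0 < Z.x (r + 1)

/-- **The number of lower darts** of a side is at most one more than the number of vertices on
the open side. -/
theorem card_low_le [Fintype ι] {r : ℕ} (hr : r < Z.m) :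
    ∑ i, (Z.low i r).card ≤ 1 + (Z.inner r).card := by
  classical
  have h1 : ∑ i, (Z.low i r).card = (Finset.univ.sigma fun i => Z.low i r).card := by
    rw [Finset.card_sigma]
  rw [h1]
  have h2 : (Finset.univ.sigma fun i => Z.low i r).card ≤
      (insert (Z.p r) (Z.inner r)).card := by
    apply Finset.card_le_card_of_injOn (fun s => s.2.1)
    · intro s hs
      rw [Finset.mem_coe, Finset.mem_sigma] at hs
      obtain ⟨-, hs⟩ := hs
      have hs' := hs
      rw [Z.mem_low] at hs'
      obtain ⟨d1, d2, d3, d4, d5⟩ := hs'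
      rw [Finset.coe_insert]
      rcases d3.1.lt_or_eq with h | h
      · right
        unfold inner
        rw [Finset.mem_coe, Finset.mem_filter]
        exact ⟨d1.1.1, d3, h, by linarith [d4.2.1]⟩
      · left
        apply ext_V
        · rw [Z.px]; exact h.symm
        · rw [Z.py, d3.2.2, h, sub_self, mul_zero, add_zero]
    · rintro ⟨i, d⟩ hs ⟨j, e⟩ ht hst
      rw [Finset.mem_coe, Finset.mem_sigma] at hs ht
      obtain ⟨h3, h4⟩ := Z.low_unique hs.2 ht.2 hst
      exact Sigma.ext h3 (heq_of_eq h4)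
  refine h2.trans ((Finset.card_insert_le _ _).trans (by omega))

end Win

end C2305b.TL
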