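import Pool.Agent.W_c2305b_h35.FieldNum

/-!
# Frames with a small slope (row 552, section 5)
-/

namespace C2305bG

open C2305bB (Fr J mis al Fits sn)
open C2305b.TL (V cr Tiling)

/-- The slopes of two flat frames differ by about the mismatch. -/
lemma lam_diff {L : ℝ} (hL : 0 ≤ L) {F G : Fr} (hF : 99 / 100 ≤ F.c) (hG : 99 / 100 ≤ G.c) :
    |L * F.S / F.c - L * G.S / G.c| ≤ 21 / 20 * mis L F G := by
  have hF0 : 0 < F.c := by linarith
  have hG0 : 0 < G.c := by linarith
  have e : L * F.S / F.c - L * G.S / G.c =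
      -(L * (F.c * G.S - F.S * G.c) / (F.c * G.c)) := by
    field_simp
    ring
  have hcc : 9801 / 10000 ≤ F.c * G.c := by
    have := mul_le_mul hF hG (by norm_num) hF0.le
    norm_num at this
    exact this
  rw [e, abs_neg, abs_div, abs_mul, abs_of_nonneg hL, abs_of_pos (mul_pos hF0 hG0),
    div_le_iff₀ (mul_pos hF0 hG0)]
  unfold mis sn
  have h0 : 0 ≤ L * |F.c * G.S - F.S * G.c| := mul_nonneg hL (abs_nonneg _)
  have h1 := mul_le_mul_of_nonneg_left hcc h0
  nlinarith

lemma al_near_pos {L T ν : ℝ} (hT : 0 < T) (hL : 10 * T ≤ L) (hν : 0 ≤ ν) {F : Fr}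
    (hc : 99 / 100 ≤ F.c) (hS : 0 < F.S) (h : L * |F.S| ≤ (T + ν) * F.c) :
    |al L T F - L * F.S / F.c| ≤ 2 * ν := by
  have hL0 : 0 < L := by linarith
  have hc0 : 0 < F.c := by linarith
  have hc1 := F.c_le_one
  rcases le_or_gt (L * |F.S|) (T * F.c) with h1 | h1
  · rw [C2305bB.al_flat h1, sub_self, abs_zero]; linarith
  · obtain ⟨w0, w1⟩ := C2305bB.T_sub_al hT hL h1 hS
    rw [abs_of_pos hS] at h h1
    have h2 : L * F.S - T * F.c ≤ ν := by nlinarith
    have h3 : T / L ≤ 1 / 10 := by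
      rw [div_le_div_iff₀ hL0 (by norm_num)]; linarith
    have h4 : T / L * (L * F.S - T * F.c) ≤ 1 / 10 * ν :=
      mul_le_mul h3 h2 (by linarith) (by norm_num)
    have h5 : T ≤ L * F.S / F.c := by rw [le_div_iff₀ hc0]; linarith
    have h6 : L * F.S / F.c ≤ T + ν := by rw [div_le_iff₀ hc0]; linarith
    rw [abs_le]
    constructor <;> linarith

/-- The clamped slope is close to the slope unless the frame is steeper than `T + ν`. -/
lemma al_near {L T ν : ℝ} (hT : 0 < T) (hL : 10 * T ≤ L) (hν : 0 ≤ ν) {F : Fr}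
    (hc : 99 / 100 ≤ F.c) (h : L * |F.S| ≤ (T + ν) * F.c) :
    |al L T F - L * F.S / F.c| ≤ 2 * ν := by
  rcases lt_trichotomy F.S 0 with hS | hS | hS
  · have h1 : |al L T F.flip - L * F.flip.S / F.flip.c| ≤ 2 * ν := by
      apply al_near_pos hT hL hν (F := F.flip) hc
      · show 0 < -F.S
        linarith
      · show L * |-F.S| ≤ (T + ν) * F.c
        rwa [abs_neg]
    rw [C2305bB.al_flip hT.le] at h1
    have e : -al L T F - L * F.flip.S / F.flip.c = -(al L T F - L * F.S / F.c) := by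
      show -al L T F - L * (-F.S) / F.c = _
      ring
    rwa [e, abs_neg] at h1
  · have h1 : L * |F.S| ≤ T * F.c := by
      rw [hS, abs_zero, mul_zero]
      exact mul_nonneg hT.le F.c0
    rw [C2305bB.al_flat h1, sub_self, abs_zero]; linarith
  · exact al_near_pos hT hL hν hc hS h

/-- The first coordinates of two nearly horizontal frames. -/
lemma c_sub_le {F G : Fr} (hF : |F.S| ≤ 1 / 10) (hG : |G.S| ≤ 1 / 10) :
    |F.c - G.c| ≤ 1 / 5 * sn F G := by
  have h1 := F.nrm
  have h2 := G.nrm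
  have hF1 := c_ge hF
  have hG1 := c_ge hG
  have e : (F.c - G.c) * (1 + F.c * G.c + F.S * G.S) =
      (F.c * G.S - F.S * G.c) * (F.S + G.S) := by
    linear_combination G.c * h1 - F.c * h2
  have hSS : |F.S * G.S| ≤ 1 / 10 * (1 / 10) := by
    rw [abs_mul]; exact mul_le_mul hF hG (abs_nonneg _) (by norm_num)
  have hcc : 99 / 100 * (99 / 100) ≤ F.c * G.c :=
    mul_le_mul hF1 hG1 (by norm_num) (by linarith)
  have hP : 1 ≤ 1 + F.c * G.c + F.S * G.S := by
    have := (abs_le.1 hSS).1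
    norm_num at this hcc
    linarith
  have hsum : |F.S + G.S| ≤ 1 / 5 := (abs_add_le _ _).trans (by linarith)
  have h3 : |F.c - G.c| * 1 ≤ |F.c - G.c| * |1 + F.c * G.c + F.S * G.S| := by
    rw [abs_of_nonneg (by linarith : 0 ≤ 1 + F.c * G.c + F.S * G.S)]
    exact mul_le_mul_of_nonneg_left hP (abs_nonneg _)
  rw [← abs_mul, e, abs_mul, mul_one] at h3
  refine h3.trans ?_
  unfold sn
  have := mul_le_mul_of_nonneg_left hsum (abs_nonneg (F.c * G.S - F.S * G.c))
  linarith

/-- The clamped values of two frames beyond the threshold. -/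
lemma al_steep_close {L T μ : ℝ} (hT : 0 < T) (hL : 10 * T ≤ L) {F G : Fr}
    (hF : T * F.c < L * |F.S|) (hG : T * G.c < L * |G.S|) (hFS : |F.S| ≤ 1 / 10)
    (hGS : |G.S| ≤ 1 / 10) (hm : mis L F G ≤ μ) (hμ : μ < T) :
    |al L T F - al L T G| ≤ 1 / 4 * (T * (μ / L)) := by
  have hL0 : 0 < L := by linarith
  have hk := C2305bB.k_bounds hT hL
  have key : ∀ {F G : Fr}, T * F.c < L * |F.S| → T * G.c < L * |G.S| → |F.S| ≤ 1 / 10 →
      |G.S| ≤ 1 / 10 → mis L F G ≤ μ → 0 < F.S → 0 < G.S →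
      |al L T F - al L T G| ≤ 1 / 4 * (T * (μ / L)) := by
    intro F G hF hG hFS hGS hm h1 h2
    rw [C2305bB.al_steep_pos hF h1, C2305bB.al_steep_pos hG h2]
    set k := Real.sqrt (1 + T ^ 2 / L ^ 2) with hkd
    have e : T * F.c * k - T * G.c * k = T * k * (F.c - G.c) := by ring
    rw [e, abs_mul, abs_of_pos (by nlinarith [hk.1] : 0 < T * k)]
    have h3 := c_sub_le hFS hGS
    have h4 : sn F G ≤ μ / L := by
      rw [le_div_iff₀ hL0]
      unfold mis at hm
      linarith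
    have h5 : |F.c - G.c| ≤ 1 / 5 * (μ / L) := by linarith
    have h6 : 0 ≤ μ / L := (C2305bB.sn_nonneg F G).trans h4
    calc T * k * |F.c - G.c| ≤ T * (101 / 100) * (1 / 5 * (μ / L)) := by
          apply mul_le_mul (mul_le_mul_of_nonneg_left hk.2 hT.le) h5 (abs_nonneg _) (by positivity)
      _ ≤ _ := by nlinarith [mul_nonneg hT.le h6]
  have opp : ∀ {F G : Fr}, T * F.c < L * |F.S| → T * G.c < L * |G.S| → |F.S| ≤ 1 / 10 →
      |G.S| ≤ 1 / 10 → mis L F G ≤ μ → 0 < F.S → G.S < 0 → False := by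
    intro F G hF hG hFS hGS hm h1 h2
    have hF1 := c_ge hFS
    have hG1 := c_ge hGS
    rw [abs_of_pos h1] at hF
    rw [abs_of_neg h2] at hG
    have e : mis L F G = F.c * (L * -G.S) + G.c * (L * F.S) := by
      unfold mis sn
      rw [abs_of_neg]
      · ring
      · have := mul_pos h1 (by linarith : 0 < G.c)
        have := mul_pos (by linarith : 0 < F.c) (neg_pos.2 h2)
        nlinarith
    have h3 : F.c * (T * G.c) ≤ F.c * (L * -G.S) :=
      mul_le_mul_of_nonneg_left hG.le (by linarith)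
    have h4 : G.c * (T * F.c) ≤ G.c * (L * F.S) :=
      mul_le_mul_of_nonneg_left hF.le (by linarith)
    have hcc : 99 / 100 * (99 / 100) ≤ F.c * G.c :=
      mul_le_mul hF1 hG1 (by norm_num) (by linarith)
    have h5 := mul_le_mul_of_nonneg_left hcc hT.le
    nlinarith
  rcases lt_trichotomy F.S 0 with h1 | h1 | h1
  · rcases lt_trichotomy G.S 0 with h2 | h2 | h2
    · have := key (F := F.flip) (G := G.flip) (C2305bB.steep_flip hF) (C2305bB.steep_flip hG)
        (by show |-F.S| ≤ _; rwa [abs_neg]) (by show |-G.S| ≤ _; rwa [abs_neg])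
        (by rw [C2305bB.mis_flip]; exact hm) (by show 0 < -F.S; linarith)
        (by show 0 < -G.S; linarith)
      rw [C2305bB.al_flip hT.le, C2305bB.al_flip hT.le] at this
      rw [← abs_neg]
      convert this using 2
      ring
    · exact absurd h2 (C2305bB.steep_S_ne hT hG)
    · exact (opp hG hF hGS hFS (by rw [C2305bB.mis_comm]; exact hm) h2 h1).elim
  · exact absurd h1 (C2305bB.steep_S_ne hT hF)
  · rcases lt_trichotomy G.S 0 with h2 | h2 | h2
    · exact (opp hF hG hFS hGS hm h1 h2).elim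
    · exact absurd h2 (C2305bB.steep_S_ne hT hG)
    · exact key hF hG hFS hGS hm h1 h2

/-- A jump from the differences of the values. -/
lemma J_le_far {L : ℝ} {F G : Fr} {A B x y R K Δ : ℝ} (hL : 1 ≤ L) (hA : |A| ≤ L) (hB : |B| ≤ L)
    (hF : |L * F.S - A * F.c| ≤ K) (hG : |L * G.S - B * G.c| ≤ K) (hR : 0 ≤ R)
    (fF : Fits L F R x y) (fG : Fits L G R x y) (hΔ : |A - B| ≤ Δ) :
    |J A B x y| ≤ Δ * ((K + 2) * R) := by
  have h1 := (frame_w_le hL hA hF (fF.b1 hR) (fF.b2 hR)).2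
  have h2 := (frame_w_le hL hB hG (fG.b1 hR) (fG.b2 hR)).2
  apply J_le_close hΔ ((abs_nonneg _).trans hΔ)
  · linarith
  · linarith

/-- The value `y - A x` at a nearly vertical edge. -/
lemma w_near_vert {L : ℝ} {F : Fr} {A x y R K : ℝ} (hc : 99 / 100 ≤ F.c)
    (hA : |A - L * F.S / F.c| ≤ K) (hR : 1 ≤ R) (fF : Fits L F R x y) (hx : K * |x| ≤ 1) :
    |y - A * x| ≤ 3 * R := by
  have hc0 : 0 < F.c := by linarith
  have h1 := fF.b2 (by linarith : (0 : ℝ) ≤ R)
  have e1 : F.c * y - L * F.S * x = F.c * (y - L * F.S / F.c * x) := by field_simp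
  rw [e1, abs_mul, abs_of_pos hc0] at h1
  have h2 : |y - L * F.S / F.c * x| ≤ 2 * R := by
    have h3 : 99 / 100 * |y - L * F.S / F.c * x| ≤ F.c * |y - L * F.S / F.c * x| :=
      mul_le_mul_of_nonneg_right hc (abs_nonneg _)
    linarith
  have e2 : y - A * x = (y - L * F.S / F.c * x) - (A - L * F.S / F.c) * x := by ring
  rw [e2]
  refine (abs_sub _ _).trans ?_
  rw [abs_mul]
  have h4 : |A - L * F.S / F.c| * |x| ≤ K * |x| := mul_le_mul_of_nonneg_right hA (abs_nonneg _)
  linarith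

/-- The first local coordinate of a nearly vertical edge. -/
lemma lx_near_vert {L : ℝ} {F : Fr} {v : V} {R θ ω : ℝ} (hL : 1 ≤ L) (hc : 99 / 100 ≤ F.c)
    (hS : |F.S| ≤ θ) (hly : |ly L F v| ≤ R) (hθ : θ * R ≤ ω / 4) (hx : |v 0| ≤ ω / 2) :
    |lx L F v| ≤ ω := by
  have h1 := v0_err hL hS hly
  have hc0 : 0 < F.c := by linarith
  have h2 : |F.c * lx L F v| ≤ |v 0| + ω / 4 := by
    have := abs_sub (v 0) (v 0 - F.c * lx L F v)
    rw [sub_sub_cancel] at this
    linarith
  rw [abs_mul, abs_of_pos hc0] at h2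
  have h3 : 99 / 100 * |lx L F v| ≤ F.c * |lx L F v| :=
    mul_le_mul_of_nonneg_right hc (abs_nonneg _)
  have h4 : 0 ≤ |v 0| := abs_nonneg _
  linarith [abs_nonneg (lx L F v)]

section
variable {L ε c0 a : ℝ} {J0 : Type} {T : Tiling J0} {F : J0 → Fr} {i : J0}

/-- **Regular tiles near the base are not steep.** -/
theorem RegTile.flat (h : RegTile L ε c0 a T F i) {H : ℝ} (hc0 : 0 < c0) (hc01 : c0 ≤ 1)
    (hL : 0 < L) (hH : 0 ≤ H) {z : V} (hz : z ∈ T.P i) (hz1 : z 1 ≤ 0)
    (hR : ∀ w ∈ T.R, w 1 ≤ 0 → -H ≤ w 1) : L * |(F i).S| ≤ (H + 1) / c0 := by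
  by_contra hcon
  push Not at hcon
  rw [div_lt_iff₀ hc0] at hcon
  have hbig : 1 < L * |(F i).S| := by
    have h0 : 0 ≤ L * |(F i).S| := mul_nonneg hL.le (abs_nonneg _)
    nlinarith
  have hc := (F i).c0
  have hc1 := (F i).c_le_one
  have main : ∀ σ : ℝ, |σ| = 1 → σ * (F i).S = |(F i).S| → False := by
    intro σ hσ hσS
    have hσ2 : σ * σ = 1 := by rw [← abs_mul_abs_self, hσ, one_mul]
    have hβ : |(F i).c / (L * |(F i).S|)| ≤ 1 := by
      rw [abs_of_nonneg (by positivity), div_le_one (by linarith)]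
      linarith
    obtain ⟨w, hw, hlow⟩ := h.low σ ((F i).c / (L * |(F i).S|)) (by rw [hσ]; norm_num)
      (by rw [hσ]) hβ
    have h1 := hlow z hz
    have h2 := v1_eq hL.ne' (F i) (w - z)
    have h3 : (w - z) 1 = w 1 - z 1 := rfl
    have hpos : 0 < L * |(F i).S| := by linarith
    have h4 : L * |(F i).S| * (σ * lx L (F i) (w - z) +
        (F i).c / (L * |(F i).S|) * ly L (F i) (w - z)) = (w - z) 1 := by
      rw [h2, ← hσS]
      have hne : L * (σ * (F i).S) ≠ 0 := by rw [hσS]; exact hpos.ne'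
      have e : L * (σ * (F i).S) * (σ * lx L (F i) (w - z) +
          (F i).c / (L * (σ * (F i).S)) * ly L (F i) (w - z)) =
          (σ * σ) * (L * (F i).S * lx L (F i) (w - z)) + (F i).c * ly L (F i) (w - z) := by
        have : L * (σ * (F i).S) * ((F i).c / (L * (σ * (F i).S)) * ly L (F i) (w - z)) =
            (F i).c * ly L (F i) (w - z) := by
          rw [← mul_assoc, mul_div_cancel₀ _ hne]
        rw [mul_add, this]; ring
      rw [e, hσ2]; ring
    have h5 : (w - z) 1 ≤ L * |(F i).S| * -c0 := by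
      rw [← h4]; exact mul_le_mul_of_nonneg_left h1 hpos.le
    rw [h3] at h5
    have h6 : w 1 < -(H + 1) := by nlinarith
    have h7 := hR w hw (by linarith)
    linarith
  rcases le_or_gt 0 (F i).S with hs | hs
  · exact main 1 abs_one (by rw [one_mul, abs_of_nonneg hs])
  · exact main (-1) (by rw [abs_neg, abs_one]) (by rw [abs_of_neg hs]; ring)

lemma RegTile.edges_card (h : RegTile L ε c0 a T F i) : (T.edges i).card ≤ 6 := by
  classical
  obtain ⟨q, _, hq, _⟩ := h.sym
  have h1 : T.edges i ⊆ (Finset.univ : Finset (Fin 6)).image (fun k => (q k, q (k + 1))) := by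
    intro p hp
    obtain ⟨k, hk⟩ := (hq p).1 hp
    exact Finset.mem_image.2 ⟨k, Finset.mem_univ _, hk.symm⟩
  refine (Finset.card_le_card h1).trans (Finset.card_image_le.trans ?_)
  simp

lemma RegTile.exists_edge (h : RegTile L ε c0 a T F i) : ∃ j v w, T.Tw i j v w := by
  obtain ⟨q, _, hq, _⟩ := h.sym
  have h1 := T.mem_edges.1 ((hq (q 0, q (0 + 1))).2 ⟨0, rfl⟩)
  obtain ⟨j, hj⟩ := h.inn _ _ h1
  exact ⟨j, _, _, h1, hj⟩

end

end C2305bG
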