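import Pool.Agent.W_c2305b_h35.JumpG1
import Pool.Agent.W_c2305b_h72.RemSum
import Pool.Agent.W_c2305b_h28.FullTile

/-!
# The classes of the pairs of tiles in a window (row 552, section 5)
-/

namespace C2305bG

open Set C2305b.TL
open C2305bB (Fr J mis al Fits sn Meets)

noncomputable section

/-- The tiles with the regular field value: regular, strictly below the base, no adjacent pair is
bad, slope at most `τ`. -/
def UU (L ε c0 a τ : ℝ) {J0 : Type} (T : Tiling J0) (F : J0 → Fr) (Bad : Finset (J0 × J0))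
    (i : J0) : Prop :=
  RegTile L ε c0 a T F i ∧ (∀ z ∈ T.P i, z 1 < 0) ∧
    (∀ j v w, T.Tw i j v w → (i, j) ∉ Bad ∧ (j, i) ∉ Bad) ∧ L * |(F i).S| ≤ τ * (F i).c

open Classical in
/-- The field. -/
def fav (L ε c0 a τ Tc c1 : ℝ) {J0 : Type} (T : Tiling J0) (F : J0 → Fr)
    (Bad : Finset (J0 × J0)) (m g : J0 → V) (i : J0) : ℝ :=
  if UU L ε c0 a τ T F Bad i then uf c1 (m i) (g i) else al L Tc (F i)

/-- The situation of the window argument, with explicit constants. -/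
structure Ctx (L R μ ε c0 a m0 ω κ c1 θ C3 C5 om Tc T0 H : ℝ) {J0 K : Type} (T : Tiling J0)
    (F : J0 → Fr) (e : K → J0) (Z : Win K) (A B : V) (Bad : Finset (J0 × J0))
    (m g : J0 → V) : Prop where
  reg : Z.T.R = T.R ∩ {z | z 1 ≤ 0}
  tile : ∀ i, Z.T.P i = T.P (e i) ∩ {z | z 1 ≤ 0}
  sharp : Z.T.Sharp
  comm : ∀ i j, i ≠ j → ∀ d ∈ Z.T.common i j, ∃ d0 ∈ T.common (e i) (e j),
    segment ℝ d.1 d.2 ⊆ segment ℝ d0.1 d0.2
  fit : ∀ i, ∀ z ∈ T.P i, ∀ z' ∈ T.P i, Fits L (F i) R (z 0 - z' 0) (z 1 - z' 1)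
  depth : ∀ z ∈ Z.T.R, -H ≤ z 1
  side : ∀ z ∈ Z.T.R, cr (B - A) (z - A) < 0
  lvl : Lvl L μ ε c0 a T F Bad
  fld : Field L R m0 ω (κ * c1 ^ 2) κ c1 T F Bad m g
  R1 : 1 ≤ R
  L1 : 1 ≤ L
  μ0 : 0 ≤ μ
  c00 : 0 < c0
  c01 : c0 ≤ 1
  H0 : 0 ≤ H
  θ1 : θ ≤ 1 / 10
  flat : H + 1 ≤ c0 * θ * L
  Tc0 : 0 < Tc
  TcL : 10 * Tc ≤ L
  TcT : Tc ≤ 2 * T0
  T0c : 2 * μ ≤ T0
  μT : μ < Tc
  C30 : 0 ≤ C3
  κ0 : 0 ≤ κ
  C50 : 0 ≤ C5
  omω : om ≤ ω / 2
  omC : C3 * om ≤ 1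
  θω : θ * R ≤ ω / 4
  close : ∀ i, |(F i).S| ≤ θ → MG L R m0 (F i) (m i) (g i) →
    |uf c1 (m i) (g i) - L * (F i).S / (F i).c| ≤ C3
  pair : ∀ i j, |(F i).S| ≤ θ → |(F j).S| ≤ θ → MG L R m0 (F i) (m i) (g i) →
    MG L R m0 (F j) (m j) (g j) → |lx L (F i) (g i - g j)| ≤ κ * c1 ^ 2 →
    |ly L (F i) (g i - g j)| ≤ κ * c1 ^ 2 → (|lx L (F i) (g i)| ≤ 3 * c1 → |cr (m i) (m j)| ≤ κ) →
    |uf c1 (m i) (g i) - uf c1 (m j) (g j)| ≤ C5 * κ

section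

variable {L R μ ε c0 a m0 ω κ c1 θ C3 C5 om Tc T0 H : ℝ} {J0 K : Type} {T : Tiling J0}
  {F : J0 → Fr} {e : K → J0} {Z : Win K} {A B : V} {Bad : Finset (J0 × J0)} {m g : J0 → V}

/-- Regular tiles of the window have a small slope. -/
lemma Ctx.S_le (h : Ctx L R μ ε c0 a m0 ω κ c1 θ C3 C5 om Tc T0 H T F e Z A B Bad m g) {i : K}
    (hi : RegTile L ε c0 a T F (e i)) : |(F (e i)).S| ≤ θ := by
  obtain ⟨z, hz⟩ := Z.T.nonem i
  have hz' := interior_subset hz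
  rw [h.tile i] at hz'
  have hL0 : 0 < L := by linarith [h.L1]
  have h1 := hi.flat h.c00 h.c01 hL0 h.H0 hz'.1 hz'.2
    (fun w hw hw1 => h.depth w (by rw [h.reg]; exact ⟨hw, hw1⟩))
  have h2 : (H + 1) / c0 ≤ L * θ := by
    rw [div_le_iff₀ h.c00]
    have := h.flat
    linarith
  exact le_of_mul_le_mul_left (h1.trans h2) hL0

lemma Ctx.c_ge (h : Ctx L R μ ε c0 a m0 ω κ c1 θ C3 C5 om Tc T0 H T F e Z A B Bad m g) {i : K}
    (hi : RegTile L ε c0 a T F (e i)) : 99 / 100 ≤ (F (e i)).c :=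
  C2305bG.c_ge ((h.S_le hi).trans h.θ1)

/-- The field vectors of a tile of the class. -/
lemma Ctx.mg (h : Ctx L R μ ε c0 a m0 ω κ c1 θ C3 C5 om Tc T0 H T F e Z A B Bad m g) {i : K}
    {τ : ℝ} (hi : UU L ε c0 a τ T F Bad (e i)) : MG L R m0 (F (e i)) (m (e i)) (g (e i)) := by
  obtain ⟨j, v, w, htw⟩ := hi.1.exists_edge
  have hc := h.c_ge hi.1
  exact h.fld.bd _ _ _ _ htw (hi.2.2.1 _ _ _ htw).1 (by linarith)

/-- The tiles of the class are tiles of the window. -/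
lemma Ctx.full (h : Ctx L R μ ε c0 a m0 ω κ c1 θ C3 C5 om Tc T0 H T F e Z A B Bad m g) {i : K}
    {τ : ℝ} (hi : UU L ε c0 a τ T F Bad (e i)) :
    Z.T.P i = T.P (e i) ∧ Z.T.verts i = T.verts (e i) ∧ Z.T.edges i = T.edges (e i) ∧
      Z.T.bdEdges i = ∅ ∧ (∀ j, Z.T.common i j = T.common (e i) (e j)) ∧
      ∀ j d, d ∈ Z.T.common j i ↔ d ∈ T.common (e j) (e i) :=
  full_tile h.tile h.reg h.sharp hi.2.1 hi.1.sub fun w hw hwi => ⟨i, hi.1.ext w hw hwi⟩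

/-- The value of a tile of the class. -/
lemma Ctx.uf_near (h : Ctx L R μ ε c0 a m0 ω κ c1 θ C3 C5 om Tc T0 H T F e Z A B Bad m g) {i : K}
    (hi : UU L ε c0 a (Tc - C3 - 1) T F Bad (e i)) :
    |uf c1 (m (e i)) (g (e i)) - L * (F (e i)).S / (F (e i)).c| ≤ C3 ∧
    |uf c1 (m (e i)) (g (e i))| ≤ Tc ∧
    |L * (F (e i)).S - uf c1 (m (e i)) (g (e i)) * (F (e i)).c| ≤ C3 := by
  have h1 := h.close _ (h.S_le hi.1) (h.mg hi)
  have hc := h.c_ge hi.1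
  have hc0 : 0 < (F (e i)).c := by linarith
  have hL0 : 0 < L := by linarith [h.L1]
  refine ⟨h1, ?_, ?_⟩
  · have h2 : |L * (F (e i)).S / (F (e i)).c| ≤ Tc - C3 - 1 := by
      rw [abs_div, abs_mul, abs_of_pos hL0, abs_of_pos hc0, div_le_iff₀ hc0]
      exact hi.2.2.2
    have h3 : uf c1 (m (e i)) (g (e i)) = (uf c1 (m (e i)) (g (e i)) -
        L * (F (e i)).S / (F (e i)).c) + L * (F (e i)).S / (F (e i)).c := by ring
    rw [h3]
    refine (abs_add_le _ _).trans ?_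
    linarith
  · have e1 : L * (F (e i)).S - uf c1 (m (e i)) (g (e i)) * (F (e i)).c =
        -((F (e i)).c * (uf c1 (m (e i)) (g (e i)) - L * (F (e i)).S / (F (e i)).c)) := by
      field_simp
      ring
    rw [e1, abs_neg, abs_mul, abs_of_pos hc0]
    calc (F (e i)).c * |uf c1 (m (e i)) (g (e i)) - L * (F (e i)).S / (F (e i)).c| ≤ 1 * C3 :=
          mul_le_mul (F (e i)).c_le_one h1 (abs_nonneg _) zero_le_one
      _ = C3 := one_mul _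

/-- The value of a tile of slope at most `Tc + 2 μ`. -/
lemma Ctx.fav_near (h : Ctx L R μ ε c0 a m0 ω κ c1 θ C3 C5 om Tc T0 H T F e Z A B Bad m g)
    {i : K} (hi : RegTile L ε c0 a T F (e i))
    (hs : L * |(F (e i)).S| ≤ (Tc + 2 * μ) * (F (e i)).c) :
    |fav L ε c0 a (Tc - C3 - 1) Tc c1 T F Bad m g (e i) - L * (F (e i)).S / (F (e i)).c| ≤
      C3 + 4 * μ ∧
    |fav L ε c0 a (Tc - C3 - 1) Tc c1 T F Bad m g (e i)| ≤ Tc ∧
    |L * (F (e i)).S - fav L ε c0 a (Tc - C3 - 1) Tc c1 T F Bad m g (e i) * (F (e i)).c| ≤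
      C3 + 4 * μ := by
  have hc := h.c_ge hi
  have hc0 : 0 < (F (e i)).c := by linarith
  have hμ := h.μ0
  have hC := h.C30
  have key : |fav L ε c0 a (Tc - C3 - 1) Tc c1 T F Bad m g (e i) -
      L * (F (e i)).S / (F (e i)).c| ≤ C3 + 4 * μ ∧
      |fav L ε c0 a (Tc - C3 - 1) Tc c1 T F Bad m g (e i)| ≤ Tc := by
    unfold fav
    by_cases hU : UU L ε c0 a (Tc - C3 - 1) T F Bad (e i)
    · rw [if_pos hU]
      obtain ⟨h1, h2, _⟩ := h.uf_near hU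
      exact ⟨by linarith, h2⟩
    · rw [if_neg hU]
      have h1 := al_near h.Tc0 h.TcL (by linarith : 0 ≤ 2 * μ) hc hs
      exact ⟨by linarith, C2305bB.abs_al_le h.Tc0 h.TcL _⟩
  refine ⟨key.1, key.2, ?_⟩
  set u := fav L ε c0 a (Tc - C3 - 1) Tc c1 T F Bad m g (e i) with hu
  have e1 : L * (F (e i)).S - u * (F (e i)).c =
      -((F (e i)).c * (u - L * (F (e i)).S / (F (e i)).c)) := by
    field_simp
    ring
  rw [e1, abs_neg, abs_mul, abs_of_pos hc0]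
  calc (F (e i)).c * |u - L * (F (e i)).S / (F (e i)).c| ≤ 1 * (C3 + 4 * μ) :=
        mul_le_mul (F (e i)).c_le_one key.1 (abs_nonneg _) zero_le_one
    _ = _ := one_mul _

/-- The data of a common dart of the window. -/
lemma Ctx.dart (h : Ctx L R μ ε c0 a m0 ω κ c1 θ C3 C5 om Tc T0 H T F e Z A B Bad m g)
    {i j : K} (hij : i ≠ j) {d : V × V} (hd : d ∈ Z.T.common i j) :
    (∃ v w, T.Tw (e i) (e j) v w) ∧
      Fits L (F (e i)) R (d.2 0 - d.1 0) (d.2 1 - d.1 1) ∧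
      Fits L (F (e j)) R (d.2 0 - d.1 0) (d.2 1 - d.1 1) ∧ |d.2 1 - d.1 1| ≤ H := by
  obtain ⟨d0, hd0, _⟩ := h.comm i j hij d hd
  have hd' := hd
  rw [Z.T.mem_common] at hd'
  obtain ⟨E1, E2⟩ := hd'
  have m1 := E1.1.2
  have m2 := E1.2.1.2
  have n2 := E2.1.2
  have n1 := E2.2.1.2
  have r1 := Z.tile_sub i m1
  have r2 := Z.tile_sub i m2
  have a1 := m1; rw [h.tile i] at a1
  have a2 := m2; rw [h.tile i] at a2
  have b1 := n1; rw [h.tile j] at b1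
  have b2 := n2; rw [h.tile j] at b2
  refine ⟨⟨d0.1, d0.2, T.mem_common.mp hd0⟩, h.fit (e i) _ a2.1 _ a1.1,
    h.fit (e j) _ b2.1 _ b1.1, ?_⟩
  have c1 := h.depth _ r1
  have c2 := h.depth _ r2
  have c3 : d.1 1 ≤ 0 := a1.2
  have c4 : d.2 1 ≤ 0 := a2.2
  rw [abs_le]
  constructor <;> linarith

/-- A tile next to a tile of slope at most `Tc`. -/
lemma Ctx.slope_next (h : Ctx L R μ ε c0 a m0 ω κ c1 θ C3 C5 om Tc T0 H T F e Z A B Bad m g)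
    {i j : K} (hi : RegTile L ε c0 a T F (e i)) (hj : RegTile L ε c0 a T F (e j))
    (hm : mis L (F (e i)) (F (e j)) ≤ μ) (hs : L * |(F (e i)).S| ≤ Tc * (F (e i)).c) :
    L * |(F (e j)).S| ≤ (Tc + 2 * μ) * (F (e j)).c := by
  have hci := h.c_ge hi
  have hcj := h.c_ge hj
  have hci0 : 0 < (F (e i)).c := by linarith
  have hcj0 : 0 < (F (e j)).c := by linarith
  have hL0 : 0 < L := by linarith [h.L1]
  have h1 := lam_diff hL0.le hci hcj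
  have h2 : |L * (F (e i)).S / (F (e i)).c| ≤ Tc := by
    rw [abs_div, abs_mul, abs_of_pos hL0, abs_of_pos hci0, div_le_iff₀ hci0]
    exact hs
  have h3 : |L * (F (e j)).S / (F (e j)).c| ≤ Tc + 2 * μ := by
    have h4 := abs_sub (L * (F (e i)).S / (F (e i)).c)
      (L * (F (e i)).S / (F (e i)).c - L * (F (e j)).S / (F (e j)).c)
    rw [sub_sub_cancel] at h4
    have := h.μ0
    linarith
  rw [abs_div, abs_mul, abs_of_pos hL0, abs_of_pos hcj0, div_le_iff₀ hcj0] at h3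
  exact h3

end

end

end C2305bG
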