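import Pool.Agent.W_c2305b_h35.JumpG2

/-!
# The jumps of the pairs of tiles in a window (row 552, section 5)
-/

namespace C2305bG

open Set C2305b.TL
open C2305bB (Fr J mis al Fits sn Meets)

noncomputable section

variable {L R μ ε c0 a m0 ω κ c1 θ C3 C5 om Tc T0 H : ℝ} {J0 K : Type} {T : Tiling J0}
  {F : J0 → Fr} {e : K → J0} {Z : Win K} {A B : V} {Bad : Finset (J0 × J0)} {m g : J0 → V}

/-- A pair of tiles of the class. -/
lemma Ctx.good (h : Ctx L R μ ε c0 a m0 ω κ c1 θ C3 C5 om Tc T0 H T F e Z A B Bad m g)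
    {δ : ℝ} (hδ : 0 < δ) (hom : 0 < om) {i j : K} (hij : i ≠ j)
    (hi : UU L ε c0 a (Tc - C3 - 1) T F Bad (e i)) (hj : UU L ε c0 a (Tc - C3 - 1) T F Bad (e j))
    {d : V × V} (hd : d ∈ Z.T.common i j) :
    (1 - chi δ (d.2 0 - d.1 0)) *
      |Tiling.Jd (uf c1 (m (e i)) (g (e i))) (uf c1 (m (e j)) (g (e j))) d| ≤
      C5 * κ * (3 * R) + (δ / om) ^ 2 * ((2 * C3 + 2 * μ) * ((C3 + 2) * R)) := by
  have hR := h.R1
  have hR0 : 0 ≤ R := by linarith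
  have hL1 := h.L1
  have hC3 := h.C30
  have hμ := h.μ0
  have hC5κ : 0 ≤ C5 * κ := mul_nonneg h.C50 h.κ0
  have tw : T.Tw (e i) (e j) d.1 d.2 := by
    have := hd
    rw [(h.full hi).2.2.2.2.1 j] at this
    exact T.mem_common.mp this
  have nb := (hi.2.2.1 _ _ _ tw).1
  obtain ⟨hm, _, _⟩ := h.lvl _ _ _ _ tw nb
  obtain ⟨_, f1, f2, _⟩ := h.dart hij hd
  have ci := h.c_ge hi.1
  have cj := h.c_ge hj.1
  obtain ⟨n1, n2, n3⟩ := h.uf_near hi
  obtain ⟨p1, p2, p3⟩ := h.uf_near hj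
  have hTL : Tc ≤ L := by linarith [h.TcL, h.Tc0]
  set x := d.2 0 - d.1 0 with hx
  set y := d.2 1 - d.1 1 with hy
  set ui := uf c1 (m (e i)) (g (e i)) with hui
  set uj := uf c1 (m (e j)) (g (e j)) with huj
  have hJd : Tiling.Jd ui uj d = J ui uj x y := rfl
  rw [hJd]
  have q1 : 0 ≤ (δ / om) ^ 2 * ((2 * C3 + 2 * μ) * ((C3 + 2) * R)) := by positivity
  have q2 : 0 ≤ C5 * κ * (3 * R) := mul_nonneg hC5κ (by linarith)
  have hchi0 : 0 ≤ 1 - chi δ x := sub_nonneg.2 (chi_le_one hδ x)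
  have hchi1 : 1 - chi δ x ≤ 1 := by linarith [chi_nonneg (d := δ) x]
  rcases le_or_gt (|x|) om with hxo | hxo
  · have hv0 : (d.2 - d.1) 0 = x := rfl
    have hv1 : (d.2 - d.1) 1 = y := rfl
    have hly : |ly L (F (e i)) (d.2 - d.1)| ≤ R := f1.b2 hR0
    have hlx := lx_near_vert hL1 ci (h.S_le hi.1) hly h.θω (by rw [hv0]; exact hxo.trans h.omω)
    obtain ⟨r1, r2, r3⟩ := h.fld.rel _ _ _ _ tw nb (by linarith) (by linarith) hlx
    have hp := h.pair (e i) (e j) (h.S_le hi.1) (h.S_le hj.1) (h.mg hi) (h.mg hj) r1 r2 r3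
    have hCx : C3 * |x| ≤ 1 := (mul_le_mul_of_nonneg_left hxo hC3).trans h.omC
    have w1 : |y - ui * x| ≤ 3 * R := w_near_vert ci n1 hR f1 hCx
    have w2 : |y - uj * x| ≤ 3 * R := w_near_vert cj p1 hR f2 hCx
    have hJ := J_le_close hp hC5κ w1 w2
    have : (1 - chi δ x) * |J ui uj x y| ≤ 1 * (C5 * κ * (3 * R)) :=
      mul_le_mul hchi1 hJ (abs_nonneg _) zero_le_one
    linarith
  · have h1 := one_sub_chi_le hδ hom hxo.le
    have hL0 : 0 ≤ L := by linarith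
    have h2 := lam_diff hL0 ci cj
    have hΔ : |ui - uj| ≤ 2 * C3 + 2 * μ := by
      have e1 : ui - uj = (ui - L * (F (e i)).S / (F (e i)).c) +
          (L * (F (e i)).S / (F (e i)).c - L * (F (e j)).S / (F (e j)).c) -
          (uj - L * (F (e j)).S / (F (e j)).c) := by ring
      rw [e1]
      refine (abs_sub _ _).trans ?_
      have := abs_add_le (ui - L * (F (e i)).S / (F (e i)).c)
        (L * (F (e i)).S / (F (e i)).c - L * (F (e j)).S / (F (e j)).c)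
      linarith
    have hJ := J_le_far hL1 (n2.trans hTL) (p2.trans hTL) n3 p3 hR0 f1 f2 hΔ
    have : (1 - chi δ x) * |J ui uj x y| ≤
        (δ / om) ^ 2 * ((2 * C3 + 2 * μ) * ((C3 + 2) * R)) :=
      mul_le_mul h1 hJ (abs_nonneg _) (by positivity)
    linarith

/-- Pairs of tiles of slope at most `Tc + 2 μ`. -/
lemma Ctx.rest (h : Ctx L R μ ε c0 a m0 ω κ c1 θ C3 C5 om Tc T0 H T F e Z A B Bad m g)
    {δ : ℝ} (hδ : 0 < δ) {i j : K} (hij : i ≠ j)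
    (hi : RegTile L ε c0 a T F (e i)) (hj : RegTile L ε c0 a T F (e j))
    (hm : mis L (F (e i)) (F (e j)) ≤ μ)
    (si : L * |(F (e i)).S| ≤ (Tc + 2 * μ) * (F (e i)).c)
    (sj : L * |(F (e j)).S| ≤ (Tc + 2 * μ) * (F (e j)).c)
    {d : V × V} (hd : d ∈ Z.T.common i j) :
    |Tiling.Jd (fav L ε c0 a (Tc - C3 - 1) Tc c1 T F Bad m g (e i))
      (fav L ε c0 a (Tc - C3 - 1) Tc c1 T F Bad m g (e j)) d| ≤
      (2 * (C3 + 4 * μ) + 2 * μ) * ((C3 + 4 * μ + 2) * R) ∧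
    |Tiling.Ed δ (fav L ε c0 a (Tc - C3 - 1) Tc c1 T F Bad m g (e i)) d| ≤
      ((C3 + 4 * μ + 2) * R) ^ 2 / (4 * δ) ∧
    |Tiling.Ed δ (fav L ε c0 a (Tc - C3 - 1) Tc c1 T F Bad m g (e j)) d| ≤
      ((C3 + 4 * μ + 2) * R) ^ 2 / (4 * δ) := by
  have hR := h.R1
  have hR0 : 0 ≤ R := by linarith
  have hL1 := h.L1
  have hμ := h.μ0
  obtain ⟨_, f1, f2, _⟩ := h.dart hij hd
  obtain ⟨n1, n2, n3⟩ := h.fav_near hi si
  obtain ⟨p1, p2, p3⟩ := h.fav_near hj sj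
  have hTL : Tc ≤ L := by linarith [h.TcL, h.Tc0]
  set fi := fav L ε c0 a (Tc - C3 - 1) Tc c1 T F Bad m g (e i) with hfi
  set fj := fav L ε c0 a (Tc - C3 - 1) Tc c1 T F Bad m g (e j) with hfj
  have hL0 : 0 ≤ L := by linarith
  have h2 := lam_diff hL0 (h.c_ge hi) (h.c_ge hj)
  have hΔ : |fi - fj| ≤ 2 * (C3 + 4 * μ) + 2 * μ := by
    have e1 : fi - fj = (fi - L * (F (e i)).S / (F (e i)).c) +
        (L * (F (e i)).S / (F (e i)).c - L * (F (e j)).S / (F (e j)).c) -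
        (fj - L * (F (e j)).S / (F (e j)).c) := by ring
    rw [e1]
    refine (abs_sub _ _).trans ?_
    have := abs_add_le (fi - L * (F (e i)).S / (F (e i)).c)
      (L * (F (e i)).S / (F (e i)).c - L * (F (e j)).S / (F (e j)).c)
    linarith
  refine ⟨J_le_far hL1 (n2.trans hTL) (p2.trans hTL) n3 p3 hR0 f1 f2 hΔ, ?_, ?_⟩
  · have h3 := (frame_w_le hL1 (n2.trans hTL) n3 (f1.b1 hR0) (f1.b2 hR0)).2
    exact abs_E_le' hδ (by linarith)
  · have h3 := (frame_w_le hL1 (p2.trans hTL) p3 (f2.b1 hR0) (f2.b2 hR0)).2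
    exact abs_E_le' hδ (by linarith)

/-- Pairs of tiles beyond the threshold. -/
lemma Ctx.steep (h : Ctx L R μ ε c0 a m0 ω κ c1 θ C3 C5 om Tc T0 H T F e Z A B Bad m g)
    {i j : K} (hij : i ≠ j)
    (hi : RegTile L ε c0 a T F (e i)) (hj : RegTile L ε c0 a T F (e j))
    (hm : mis L (F (e i)) (F (e j)) ≤ μ)
    (si : Tc * (F (e i)).c < L * |(F (e i)).S|) (sj : Tc * (F (e j)).c < L * |(F (e j)).S|)
    {d : V × V} (hd : d ∈ Z.T.common i j) :
    |Tiling.Jd (al L Tc (F (e i))) (al L Tc (F (e j))) d| ≤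
      1 / 4 * (Tc * (μ / L)) * (H + Tc * R) := by
  have hR0 : 0 ≤ R := by linarith [h.R1]
  have hL1 := h.L1
  have hμ := h.μ0
  have hT := h.Tc0
  obtain ⟨_, f1, f2, hy⟩ := h.dart hij hd
  have hcl := al_steep_close hT h.TcL si sj ((h.S_le hi).trans h.θ1) ((h.S_le hj).trans h.θ1)
    hm h.μT
  have a1 := C2305bB.abs_al_le hT h.TcL (F (e i))
  have a2 := C2305bB.abs_al_le hT h.TcL (F (e j))
  have hx := f1.x_le hL1 hR0
  unfold Tiling.Jd
  rw [C2305bB.J_abs]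
  refine mul_le_mul hcl ?_ (abs_nonneg _) (by positivity)
  refine (abs_sub _ _).trans (add_le_add hy ?_)
  rw [abs_mul]
  refine mul_le_mul ?_ hx (abs_nonneg _) hT.le
  rw [abs_div, abs_of_pos (two_pos : (0 : ℝ) < 2), div_le_iff₀ two_pos]
  refine (abs_add_le _ _).trans ?_
  linarith

/-- The potential sum of a tile of the class. -/
lemma Ctx.phi (h : Ctx L R μ ε c0 a m0 ω κ c1 θ C3 C5 om Tc T0 H T F e Z A B Bad m g)
    {δ : ℝ} (hδ : 0 < δ) {i : K} (hi : UU L ε c0 a (Tc - C3 - 1) T F Bad (e i)) :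
    |∑ d ∈ Z.T.edges i, Tiling.Ed δ (uf c1 (m (e i)) (g (e i))) d| ≤
      3 * ((((C3 + 2) * R) ^ 2 / (2 * δ ^ 2) + ((C3 + 2) * R) / (2 * δ)) * ((C3 + 2) * ε)) := by
  obtain ⟨q, hinj, hq, hs⟩ := hi.1.sym
  obtain ⟨n1, n2, n3⟩ := h.uf_near hi
  have hTL : Tc ≤ L := by linarith [h.TcL, h.Tc0]
  have hf := h.full hi
  apply Z.T.abs_Phi_le_frame_q i hinj (by intro p; rw [hf.2.2.1]; exact hq p) hδ h.L1
    (n2.trans hTL) n3 (by linarith [h.R1])
  · intro z hz z' hz'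
    rw [hf.1] at hz hz'
    exact h.fit _ _ hz _ hz'
  · intro k v hv
    subst hv
    exact hs k

/-- A tile of small slope outside the class is at the base, or of slope close to `Tc`, or next to
a bad pair. -/
lemma Ctx.not_uu (h : Ctx L R μ ε c0 a m0 ω κ c1 θ C3 C5 om Tc T0 H T F e Z A B Bad m g)
    {C4 : ℝ} (h4 : C3 + 1 ≤ C4) (h4' : 2 * μ ≤ C4) {i : K} (hi : RegTile L ε c0 a T F (e i))
    (si : L * |(F (e i)).S| ≤ (Tc + 2 * μ) * (F (e i)).c)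
    (hn : ¬ UU L ε c0 a (Tc - C3 - 1) T F Bad (e i)) :
    (∃ z ∈ T.P (e i), 0 ≤ z 1) ∨ |L * |(F (e i)).S| / (F (e i)).c - Tc| ≤ C4 ∨
      ((∀ z ∈ T.P (e i), z 1 < 0) ∧
        ∃ j v w, T.Tw (e i) j v w ∧ ((e i, j) ∈ Bad ∨ (j, e i) ∈ Bad)) := by
  by_cases h1 : ∃ z ∈ T.P (e i), 0 ≤ z 1
  · exact Or.inl h1
  · right
    push Not at h1
    by_cases h2 : ∃ j v w, T.Tw (e i) j v w ∧ ((e i, j) ∈ Bad ∨ (j, e i) ∈ Bad)
    · exact Or.inr ⟨h1, h2⟩
    · left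
      have h3 : ¬ L * |(F (e i)).S| ≤ (Tc - C3 - 1) * (F (e i)).c := by
        intro h3
        apply hn
        refine ⟨hi, h1, ?_, h3⟩
        intro j v w htw
        constructor
        · intro hb; exact h2 ⟨j, v, w, htw, Or.inl hb⟩
        · intro hb; exact h2 ⟨j, v, w, htw, Or.inr hb⟩
      push Not at h3
      have hc := h.c_ge hi
      have hc0 : 0 < (F (e i)).c := by linarith
      have h5 : Tc - C3 - 1 < L * |(F (e i)).S| / (F (e i)).c := by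
        rw [lt_div_iff₀ hc0]; exact h3
      have h6 : L * |(F (e i)).S| / (F (e i)).c ≤ Tc + 2 * μ := by
        rw [div_le_iff₀ hc0]; exact si
      rw [abs_le]
      constructor <;> linarith

/-- The bad pair next to a tile below the base meets the half-plane. -/
lemma Ctx.meets (h : Ctx L R μ ε c0 a m0 ω κ c1 θ C3 C5 om Tc T0 H T F e Z A B Bad m g)
    {i : K} (hb : ∀ z ∈ T.P (e i), z 1 < 0) {j : J0} {v w : V} (htw : T.Tw (e i) j v w) :
    Meets T A B (e i, j) ∧ Meets T A B (j, e i) := by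
  have hv : v ∈ Z.T.R := by
    apply Z.tile_sub i
    rw [h.tile i]
    exact ⟨htw.1.1.2, (hb _ htw.1.1.2).le⟩
  have hlt := h.side v hv
  exact ⟨⟨v, w, htw, Or.inl hlt⟩, ⟨w, v, ⟨htw.2, htw.1⟩, Or.inr hlt⟩⟩

end

end C2305bG
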