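import Pool.Agent.W_c2305b_h35.JumpG3

/-!
# The signed flux of a window, class Gap + Sym, explicit constants (row 552, section 5)
-/

namespace C2305bG

open Set C2305b.TL
open C2305bB (Fr J mis al Fits sn Meets)

noncomputable section

variable {L R μ ε c0 a m0 ω κ c1 θ C3 C5 om Tc T0 H : ℝ} {J0 K : Type} {T : Tiling J0}
  {F : J0 → Fr} {e : K → J0} {Z : Win K} {A B : V} {Bad : Finset (J0 × J0)} {m g : J0 → V}

lemma fav_pos {i : J0} {τ : ℝ} (hi : UU L ε c0 a τ T F Bad i) :
    fav L ε c0 a τ Tc c1 T F Bad m g i = uf c1 (m i) (g i) := if_pos hi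

lemma fav_neg {i : J0} {τ : ℝ} (hi : ¬ UU L ε c0 a τ T F Bad i) :
    fav L ε c0 a τ Tc c1 T F Bad m g i = al L Tc (F i) := if_neg hi

open Classical in
/-- **The signed flux of the window.** -/
theorem Ctx.sum_le (h : Ctx L R μ ε c0 a m0 ω κ c1 θ C3 C5 om Tc T0 H T F e Z A B Bad m g)
    [Fintype K] [LinearOrder K] (he : Function.Injective e) {δ C4 b1 b3 b4 b5 : ℝ}
    (hδ : 0 < δ) (hom : 0 < om) (h4 : C3 + 1 ≤ C4) (h4' : 2 * μ ≤ C4) (hε : 0 ≤ ε)
    (hb1 : b1 = 3 * ((((C3 + 2) * R) ^ 2 / (2 * δ ^ 2) + ((C3 + 2) * R) / (2 * δ)) *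
      ((C3 + 2) * ε)))
    (hb3 : b3 = C5 * κ * (3 * R) + (δ / om) ^ 2 * ((2 * C3 + 2 * μ) * ((C3 + 2) * R)))
    (hb4 : b4 = (2 * (C3 + 4 * μ) + 2 * μ) * ((C3 + 4 * μ + 2) * R) +
      ((C3 + 4 * μ + 2) * R) ^ 2 / (4 * δ) + ((C3 + 4 * μ + 2) * R) ^ 2 / (4 * δ))
    (hb5 : b5 = 1 / 4 * (Tc * (μ / L)) * (H + Tc * R))
    (S0 : Finset K) (hS0 : ∀ i, i ∈ S0 ↔ RegTile L ε c0 a T F (e i) ∧
      L * |(F (e i)).S| ≤ 3 * T0 * (F (e i)).c) :
    |Z.T.Sg (fun i => fav L ε c0 a (Tc - C3 - 1) Tc c1 T F Bad m g (e i))| ≤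
      b1 * (S0.card : ℝ) + (7 * R * Tc * ((Bad.filter fun s => Meets T A B s).card : ℝ) +
      6 * b3 * (S0.card : ℝ) +
      6 * b4 * (((S0.filter fun i => ∃ z ∈ T.P (e i), 0 ≤ z 1).card : ℝ) +
        ((S0.filter fun i => |L * |(F (e i)).S| / (F (e i)).c - Tc| ≤ C4).card : ℝ) +
        2 * ((Bad.filter fun s => Meets T A B s).card : ℝ)) +
      6 * b5 * ((Finset.univ.filter fun i : K => RegTile L ε c0 a T F (e i)).card : ℝ)) := by
  have hR0 : 0 ≤ R := by linarith [h.R1]
  have hC3 := h.C30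
  have hμ := h.μ0
  have hT := h.Tc0
  have hL0 : 0 < L := by linarith [h.L1]
  have hH := h.H0
  have hC5κ : 0 ≤ C5 * κ := mul_nonneg h.C50 h.κ0
  have p1 : 0 ≤ b1 := by rw [hb1]; positivity
  have p3 : 0 ≤ b3 := by
    rw [hb3]
    have : 0 ≤ C5 * κ * (3 * R) := mul_nonneg hC5κ (by linarith)
    positivity
  have p4 : 0 ≤ b4 := by rw [hb4]; positivity
  have p5 : 0 ≤ b5 := by rw [hb5]; positivity
  have h3T : (Tc + 2 * μ) ≤ 3 * T0 := by linarith [h.TcT, h.T0c]
  have hUS : ∀ i, UU L ε c0 a (Tc - C3 - 1) T F Bad (e i) → i ∈ S0 := by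
    intro i hi
    rw [hS0]
    refine ⟨hi.1, hi.2.2.2.trans ?_⟩
    exact mul_le_mul_of_nonneg_right (by linarith) (F (e i)).c0
  have hsS : ∀ i, RegTile L ε c0 a T F (e i) →
      L * |(F (e i)).S| ≤ (Tc + 2 * μ) * (F (e i)).c → i ∈ S0 := by
    intro i hi hs
    rw [hS0]
    exact ⟨hi, hs.trans (mul_le_mul_of_nonneg_right h3T (F (e i)).c0)⟩
  set G : Finset K := Finset.univ.filter
    (fun i => UU L ε c0 a (Tc - C3 - 1) T F Bad (e i)) with hG
  have hGm : ∀ i, i ∈ G ↔ UU L ε c0 a (Tc - C3 - 1) T F Bad (e i) := by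
    intro i; rw [hG, Finset.mem_filter]; simp
  set N1 : Finset K := S0.filter fun i => ∃ z ∈ T.P (e i), 0 ≤ z 1 with hN1
  set N2 : Finset K := S0.filter fun i => |L * |(F (e i)).S| / (F (e i)).c - Tc| ≤ C4 with hN2
  set N3 : Finset K := Finset.univ.filter fun i => RegTile L ε c0 a T F (e i) ∧
    (∀ z ∈ T.P (e i), z 1 < 0) ∧
    ∃ j v w, T.Tw (e i) j v w ∧ ((e i, j) ∈ Bad ∨ (j, e i) ∈ Bad) with hN3
  set N4 : Finset K := Finset.univ.filter fun i => RegTile L ε c0 a T F (e i) with hN4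
  set NB : Finset J0 := (N1 ∪ N2 ∪ N3).image e with hNB
  set NA : Finset J0 := N4.image e with hNA
  set BM := Bad.filter fun s => Meets T A B s with hBM
  -- not in the class at a bad pair
  have hnot : ∀ i j v w, T.Tw (e i) j v w → ((e i, j) ∈ Bad ∨ (j, e i) ∈ Bad) →
      ¬ UU L ε c0 a (Tc - C3 - 1) T F Bad (e i) := by
    intro i j v w htw hb hU
    have := hU.2.2.1 _ _ _ htw
    rcases hb with hb | hb
    · exact this.1 hb
    · exact this.2 hb
  have key := sg_le_count (T := T) he Z h.sharp h.comm h.side (Bad := Bad) (δ := δ)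
    (b1 := b1) (b2 := 7 * R * Tc) (b3 := b3) (b4 := b4) (b5 := b5) hδ (by positivity) p3 p4 p5
    (fun i => fav L ε c0 a (Tc - C3 - 1) Tc c1 T F Bad m g (e i)) G NB NA
    (by intro i hi; exact ((hGm i).1 hi).1.edges_card)
    (by
      intro i hi
      obtain ⟨k, hk, rfl⟩ := Finset.mem_image.1 hi
      rw [Finset.mem_union, Finset.mem_union] at hk
      rcases hk with (hk | hk) | hk
      · exact ((hS0 k).1 (Finset.mem_filter.1 hk).1).1.edges_card
      · exact ((hS0 k).1 (Finset.mem_filter.1 hk).1).1.edges_card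
      · exact (Finset.mem_filter.1 hk).2.1.edges_card)
    (by
      intro i hi
      obtain ⟨k, hk, rfl⟩ := Finset.mem_image.1 hi
      exact (Finset.mem_filter.1 hk).2.edges_card)
    (by intro i hi; exact (h.full ((hGm i).1 hi)).2.2.2.1)
    (by
      intro i hi
      have hU := (hGm i).1 hi
      simp only [fav_pos hU]
      rw [hb1]
      exact h.phi hδ hU)
    (by
      intro i j hij hb d hd
      obtain ⟨⟨v, w, htw⟩, f1, f2, _⟩ := h.dart hij hd
      have ni := hnot i (e j) v w htw hb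
      have nj := hnot j (e i) w v ⟨htw.2, htw.1⟩ hb.symm
      have gi : i ∉ G := fun hi => ni ((hGm i).1 hi)
      have gj : j ∉ G := fun hj => nj ((hGm j).1 hj)
      unfold Tiling.remd
      beta_reduce
      rw [if_neg (fun hh => gi hh.1), if_neg gi, if_neg gj, fav_neg ni, fav_neg nj, add_zero,
        add_zero]
      exact C2305bB.J_le hT h.TcL hR0 _ _ f1 f2)
    (by
      intro i j hij hi hj _ _ d hd
      have Ui := (hGm i).1 hi
      have Uj := (hGm j).1 hj
      unfold Tiling.remd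
      beta_reduce
      rw [if_pos ⟨hi, hj⟩, fav_pos Ui, fav_pos Uj, hb3]
      exact h.good hδ hom hij Ui Uj hd)
    (by
      intro i j hij hn nb1 nb2 d hd
      obtain ⟨⟨v, w, htw⟩, f1, f2, _⟩ := h.dart hij hd
      obtain ⟨hm, ri, rj⟩ := h.lvl _ _ _ _ htw nb1
      by_cases hst : Tc * (F (e i)).c < L * |(F (e i)).S| ∧ Tc * (F (e j)).c < L * |(F (e j)).S|
      · right
        have hns : ∀ k, Tc * (F (e k)).c < L * |(F (e k)).S| →
            ¬ UU L ε c0 a (Tc - C3 - 1) T F Bad (e k) := by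
          intro k hk hU
          have h5 : (Tc - C3 - 1) * (F (e k)).c ≤ Tc * (F (e k)).c :=
            mul_le_mul_of_nonneg_right (by linarith) (F (e k)).c0
          have h6 : L * |(F (e k)).S| ≤ (Tc - C3 - 1) * (F (e k)).c := hU.2.2.2
          linarith
        have ni := hns i hst.1
        have nj := hns j hst.2
        have gi : i ∉ G := fun hi => ni ((hGm i).1 hi)
        have gj : j ∉ G := fun hj => nj ((hGm j).1 hj)
        refine ⟨?_, Or.inl (Finset.mem_image_of_mem _
          (Finset.mem_filter.2 ⟨Finset.mem_univ _, ri⟩))⟩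
        unfold Tiling.remd
        beta_reduce
        rw [if_neg (fun hh => gi hh.1), if_neg gi, if_neg gj, fav_neg ni, fav_neg nj, add_zero,
          add_zero, hb5]
        exact h.steep hij ri rj hm hst.1 hst.2 hd
      · left
        have hss : L * |(F (e i)).S| ≤ (Tc + 2 * μ) * (F (e i)).c ∧
            L * |(F (e j)).S| ≤ (Tc + 2 * μ) * (F (e j)).c := by
          have hup : ∀ k, L * |(F (e k)).S| ≤ Tc * (F (e k)).c →
              L * |(F (e k)).S| ≤ (Tc + 2 * μ) * (F (e k)).c := by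
            intro k hk
            exact hk.trans (mul_le_mul_of_nonneg_right (by linarith) (F (e k)).c0)
          rcases not_and_or.1 hst with h5 | h5
          · rw [not_lt] at h5
            exact ⟨hup i h5, h.slope_next ri rj hm h5⟩
          · rw [not_lt] at h5
            exact ⟨h.slope_next rj ri (by rw [C2305bB.mis_comm]; exact hm) h5, hup j h5⟩
        obtain ⟨c1', c2', c3'⟩ := h.rest hδ hij ri rj hm hss.1 hss.2 hd
        constructor
        · have q0 : 0 ≤ ((C3 + 4 * μ + 2) * R) ^ 2 / (4 * δ) := by positivity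
          unfold Tiling.remd
          beta_reduce
          rw [if_neg hn, hb4]
          refine add_le_add (add_le_add c1' ?_) ?_
          · split_ifs
            · exact c2'
            · exact q0
          · split_ifs
            · exact c3'
            · exact q0
        · have hmem : ∀ k, RegTile L ε c0 a T F (e k) →
              L * |(F (e k)).S| ≤ (Tc + 2 * μ) * (F (e k)).c → k ∉ G → e k ∈ NB := by
            intro k rk sk hk
            apply Finset.mem_image_of_mem
            have hk' : ¬ UU L ε c0 a (Tc - C3 - 1) T F Bad (e k) := fun hU => hk ((hGm k).2 hU)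
            rw [Finset.mem_union, Finset.mem_union]
            rcases h.not_uu h4 h4' rk sk hk' with h6 | h6 | h6
            · exact Or.inl (Or.inl (Finset.mem_filter.2 ⟨hsS k rk sk, h6⟩))
            · exact Or.inl (Or.inr (Finset.mem_filter.2 ⟨hsS k rk sk, h6⟩))
            · exact Or.inr (Finset.mem_filter.2 ⟨Finset.mem_univ _, rk, h6.1, h6.2⟩)
          rcases not_and_or.1 hn with h5 | h5
          · exact Or.inl (hmem i ri hss.1 h5)
          · exact Or.inr (hmem j rj hss.2 h5))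
  refine key.trans ?_
  have g1 : (G.card : ℝ) ≤ (S0.card : ℝ) := by
    have : G.card ≤ S0.card := Finset.card_le_card fun i hi => hUS i ((hGm i).1 hi)
    exact_mod_cast this
  have g3 : (N3.image e).card ≤ 2 * BM.card := by
    have h5 : N3.image e ⊆ BM.image Prod.fst ∪ BM.image Prod.snd := by
      intro x hx
      obtain ⟨k, hk, rfl⟩ := Finset.mem_image.1 hx
      obtain ⟨_, _, hb, j, v, w, htw, hbd⟩ := Finset.mem_filter.1 hk
      obtain ⟨m1, m2⟩ := h.meets hb htw
      rw [Finset.mem_union]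
      rcases hbd with hbd | hbd
      · exact Or.inl (Finset.mem_image.2 ⟨(e k, j), Finset.mem_filter.2 ⟨hbd, m1⟩, rfl⟩)
      · exact Or.inr (Finset.mem_image.2 ⟨(j, e k), Finset.mem_filter.2 ⟨hbd, m2⟩, rfl⟩)
    refine (Finset.card_le_card h5).trans ((Finset.card_union_le _ _).trans ?_)
    have h6 : (BM.image Prod.fst).card ≤ BM.card := Finset.card_image_le
    have h7 : (BM.image Prod.snd).card ≤ BM.card := Finset.card_image_le
    omega
  have g4 : (NB.card : ℝ) ≤ (N1.card : ℝ) + (N2.card : ℝ) + 2 * (BM.card : ℝ) := by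
    have h5 : NB.card ≤ N1.card + N2.card + 2 * BM.card := by
      rw [hNB, Finset.image_union, Finset.image_union]
      refine (Finset.card_union_le _ _).trans ?_
      have h6 := Finset.card_union_le (N1.image e) (N2.image e)
      have h7 : (N1.image e).card ≤ N1.card := Finset.card_image_le
      have h8 : (N2.image e).card ≤ N2.card := Finset.card_image_le
      omega
    exact_mod_cast h5
  have g5 : (NA.card : ℝ) ≤ (N4.card : ℝ) := by
    have : NA.card ≤ N4.card := Finset.card_image_le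
    exact_mod_cast this
  have m1 := mul_le_mul_of_nonneg_left g1 p1
  have m2 := mul_le_mul_of_nonneg_left g1 (by linarith : 0 ≤ 6 * b3)
  have m3 := mul_le_mul_of_nonneg_left g4 (by linarith : 0 ≤ 6 * b4)
  have m4 := mul_le_mul_of_nonneg_left g5 (by linarith : 0 ≤ 6 * b5)
  linarith

end

end C2305bG
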