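import Pool.Agent.W_c2305b_h35.Turn1
import Pool.Agent.W_c2305b_h77.FatDefs2

/-!
# Leans (B3, B4)

A cell `Y` fills a copy `X` of a body near a parallelogram up to area `m`. Support directions of
`Y` at the ends of a long arc, and the directions of long sides of `Y`, are close to a side
direction of the parallelogram; one sided bounds for arcs.
-/

open MeasureTheory Set Module W82

namespace C2305bFat

open C2305b (Pl)
open C2305b.TL (cr)

/-- A cell `Y` in the copy `X` of the body, in the frame `(o; A, B)`. -/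
structure InFrame (α κ h m : ℝ) (o A B : Pl) (X Y : Set Pl) : Prop where
  nA : ‖A‖ ≤ α
  nB : ‖B‖ ≤ α
  cr1 : κ ≤ |cr A B|
  h0 : 0 ≤ h
  m0 : 0 ≤ m
  sq : ∀ x y : ℝ, |x| ≤ 1 → |y| ≤ 1 → o + x • A + y • B ∈ X
  box : ∀ z ∈ X, ∃ x y : ℝ, |x| ≤ 1 + h ∧ |y| ≤ 1 + h ∧ z = o + x • A + y • B
  sub : Y ⊆ X
  vol : volume X ≤ volume Y + ENNReal.ofReal m
  fin : volume Y ≠ ⊤

lemma cr_neg_right' (u v : Pl) : cr u (-v) = -cr u v := by
  unfold cr
  show u 0 * -(v 1) - u 1 * -(v 0) = _
  ring

lemma cr_neg_left' (u v : Pl) : cr (-u) v = -cr u v := by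
  unfold cr
  show -(u 0) * v 1 - -(u 1) * v 0 = _
  ring

lemma cr_swap' (u v : Pl) : cr u v = -cr v u := by unfold cr; ring

/-- Turning the frame by one step. -/
lemma InFrame.turn {α κ h m : ℝ} {o A B : Pl} {X Y : Set Pl} (H : InFrame α κ h m o A B X Y) :
    InFrame α κ h m o B (-A) X Y where
  nA := H.nB
  nB := by rw [norm_neg]; exact H.nA
  cr1 := by
    have : cr B (-A) = cr A B := by rw [cr_neg_right', cr_swap' B A, neg_neg]
    rw [this]; exact H.cr1
  h0 := H.h0
  m0 := H.m0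
  sq := by
    intro x y hx hy
    have := H.sq (-y) x (by rwa [abs_neg]) hx
    have e : o + x • B + y • (-A) = o + (-y) • A + x • B := by
      rw [smul_neg, neg_smul]; abel
    rw [e]; exact this
  box := by
    intro z hz
    obtain ⟨x, y, hx, hy, e⟩ := H.box z hz
    refine ⟨y, -x, hy, by rwa [abs_neg], ?_⟩
    rw [e, smul_neg, neg_smul, neg_neg]; abel
  sub := H.sub
  vol := H.vol
  fin := H.fin

/-- The mirrored frame. -/
lemma InFrame.mirror {α κ h m : ℝ} {o A B : Pl} {X Y : Set Pl} (H : InFrame α κ h m o A B X Y) :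
    InFrame α κ h m o (-A) B X Y where
  nA := by rw [norm_neg]; exact H.nA
  nB := H.nB
  cr1 := by rw [cr_neg_left', abs_neg]; exact H.cr1
  h0 := H.h0
  m0 := H.m0
  sq := by
    intro x y hx hy
    have := H.sq (-x) y (by rwa [abs_neg]) hy
    have e : o + x • (-A) + y • B = o + (-x) • A + y • B := by
      rw [smul_neg, neg_smul]
    rw [e]; exact this
  box := by
    intro z hz
    obtain ⟨x, y, hx, hy, e⟩ := H.box z hz
    refine ⟨-x, y, by rwa [abs_neg], hy, ?_⟩
    rw [e, smul_neg, neg_smul, neg_neg]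
  sub := H.sub
  vol := H.vol
  fin := H.fin

/-- The frames of the four sides. -/
lemma InFrame.side {α κ h m : ℝ} {o A B : Pl} {X Y : Set Pl} (H : InFrame α κ h m o A B X Y)
    (k : Fin 4) : InFrame α κ h m o (cA A B k) (cB A B k) X Y := by
  fin_cases k
  · exact H
  · exact H.turn
  · exact H.turn.turn
  · have := H.turn.turn.turn
    rw [neg_neg] at this
    exact this

/-- A rectangle outside of the cell. -/
lemma InFrame.rect {α κ h m : ℝ} {o A B : Pl} {X Y : Set Pl} (H : InFrame α κ h m o A B X Y)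
    {a b c d : ℝ} (ha : -1 ≤ a) (hab : a ≤ b) (hb : b ≤ 1) (hc : -1 ≤ c) (hcd : c ≤ d)
    (hd : d ≤ 1)
    (hout : ∀ x y : ℝ, a ≤ x → x ≤ b → c ≤ y → y ≤ d → o + x • A + y • B ∉ Y) :
    (b - a) * (d - c) * κ ≤ m := by
  set M : Matrix (Fin 2) (Fin 2) ℝ := !![A 0, B 0; A 1, B 1] with hM
  have hdet : |LinearMap.det (C2305b.mat M)| = |cr A B| := by
    rw [C2305b.det_mat]
    have : M 0 0 * M 1 1 - M 0 1 * M 1 0 = cr A B := by
      rw [hM]
      simp only [Matrix.of_apply, Matrix.cons_val', Matrix.cons_val_zero, Matrix.cons_val_one,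
        Matrix.cons_val_fin_one]
      unfold cr
      ring
    rw [this]
  have hmat : ∀ v : Pl, C2305b.mat M v = v 0 • A + v 1 • B := by
    intro v
    apply C2305b.ext2
    · rw [C2305b.mat_0]
      show A 0 * v 0 + B 0 * v 1 = v 0 * A 0 + v 1 * B 0
      ring
    · rw [C2305b.mat_1]
      show A 1 * v 0 + B 1 * v 1 = v 0 * A 1 + v 1 * B 1
      ring
  set R := (fun v => o + C2305b.mat M v) '' (C2305bH68.box a b c d) with hR
  have hvol : volume R = ENNReal.ofReal (|cr A B| * ((b - a) * (d - c))) := by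
    rw [hR, C2305b.volume_affine, hdet, C2305bH68.volume_box hab,
      ← ENNReal.ofReal_mul (abs_nonneg _)]
  have hmem : ∀ z ∈ R, ∃ x y : ℝ, a ≤ x ∧ x ≤ b ∧ c ≤ y ∧ y ≤ d ∧ z = o + x • A + y • B := by
    rintro z ⟨v, ⟨h1, h2, h3, h4⟩, rfl⟩
    exact ⟨v 0, v 1, h1, h2, h3, h4, by
      show o + C2305b.mat M v = _
      rw [hmat, add_assoc]⟩
  have hRX : R ⊆ X := by
    intro z hz
    obtain ⟨x, y, h1, h2, h3, h4, rfl⟩ := hmem z hz
    exact H.sq x y (abs_le.2 ⟨by linarith, by linarith⟩) (abs_le.2 ⟨by linarith, by linarith⟩)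
  have hRY : Disjoint Y R := by
    rw [Set.disjoint_left]
    intro z hzY hz
    obtain ⟨x, y, h1, h2, h3, h4, rfl⟩ := hmem z hz
    exact hout x y h1 h2 h3 h4 hzY
  have hclosed : IsClosed (C2305bH68.box a b c d) := by
    have e : C2305bH68.box a b c d = {v : Pl | a ≤ v 0} ∩ {v : Pl | v 0 ≤ b} ∩
        ({v : Pl | c ≤ v 1} ∩ {v : Pl | v 1 ≤ d}) := by
      ext v
      constructor
      · rintro ⟨h1, h2, h3, h4⟩
        exact ⟨⟨h1, h2⟩, h3, h4⟩
      · rintro ⟨⟨h1, h2⟩, h3, h4⟩
        exact ⟨h1, h2, h3, h4⟩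
    have c0 : Continuous fun v : Pl => v 0 := by fun_prop
    have c1 : Continuous fun v : Pl => v 1 := by fun_prop
    rw [e]
    exact ((isClosed_le continuous_const c0).inter (isClosed_le c0 continuous_const)).inter
      ((isClosed_le continuous_const c1).inter (isClosed_le c1 continuous_const))
  have hcomp : IsCompact (C2305bH68.box a b c d) := by
    refine Metric.isCompact_of_isClosed_isBounded hclosed ?_
    refine (Metric.isBounded_closedBall (x := (0 : Pl)) (r := 2 * (max (|a|) (|b|) + max (|c|) (|d|)))).subset ?_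
    rintro v ⟨h1, h2, h3, h4⟩
    rw [Metric.mem_closedBall, dist_zero_right]
    apply norm_le_coords
    intro k
    have i1 : |v 0| ≤ max (|a|) (|b|) := abs_le_max_abs_abs h1 h2
    have i2 : |v 1| ≤ max (|c|) (|d|) := abs_le_max_abs_abs h3 h4
    have i3 : 0 ≤ max (|a|) (|b|) := (abs_nonneg _).trans i1
    have i4 : 0 ≤ max (|c|) (|d|) := (abs_nonneg _).trans i2
    fin_cases k
    · show |v 0| ≤ _
      linarith
    · show |v 1| ≤ _
      linarith
  have hmeas : MeasurableSet R := by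
    have hcont : Continuous fun v : Pl => o + C2305b.mat M v := by
      have : (fun v : Pl => o + C2305b.mat M v) = fun v : Pl => o + (v 0 • A + v 1 • B) := by
        funext v; rw [hmat]
      rw [this]
      fun_prop
    exact (hcomp.image hcont).isClosed.measurableSet
  have h1 : volume Y + volume R ≤ volume Y + ENNReal.ofReal m := by
    rw [← measure_union hRY hmeas]
    exact (measure_mono (union_subset H.sub hRX)).trans H.vol
  have h2 : volume R ≤ ENNReal.ofReal m := (ENNReal.add_le_add_iff_left H.fin).1 h1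
  rw [hvol] at h2
  have h3 := (ENNReal.ofReal_le_ofReal_iff H.m0).1 h2
  have h4 : 0 ≤ (b - a) * (d - c) := mul_nonneg (by linarith) (by linarith)
  have h5 := mul_le_mul_of_nonneg_left H.cr1 h4
  linarith

/-- The line through a point of the body with slope `s` and the cell above it. -/
lemma InFrame.start_core {α κ h m : ℝ} {o A B : Pl} {X Y : Set Pl}
    (H : InFrame α κ h m o A B X Y) (hκ : 0 < κ) {xp yp xq s l : ℝ} (hl : 0 < l)
    (hxp : -1 - h ≤ xp) (hyp : -1 - h ≤ yp) (hxq : xq ≤ 1 + h) (hx : xp + l ≤ xq) (hs : 0 ≤ s)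
    (hs1 : s ≤ 1) (hh : h ≤ l / 4)
    (hY : ∀ x y : ℝ, o + x • A + y • B ∈ Y → yp + s * (x - xp) ≤ y) :
    s * l / 2 - h ≤ 8 * m / (κ * l) := by
  rcases le_or_gt (s * l / 2 - h) 0 with h0 | h0
  · exact h0.trans (div_nonneg (by linarith [H.m0]) (by positivity))
  have hh0 := H.h0
  have hsl : s * l ≤ l := by nlinarith
  have h1 := H.rect (a := xp + l / 2) (b := xp + l - h) (c := -1)
    (d := -1 + (s * l / 2 - h) / 2) (by linarith) (by linarith) (by linarith) le_rfl
    (by linarith) (by linarith) (by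
      intro x y hx1 hx2 hy1 hy2 hmem
      have h2 := hY x y hmem
      have h3 : s * (l / 2) ≤ s * (x - xp) := mul_le_mul_of_nonneg_left (by linarith) hs
      linarith)
  have e1 : xp + l - h - (xp + l / 2) = l / 2 - h := by ring
  have e2 : -1 + (s * l / 2 - h) / 2 - -1 = (s * l / 2 - h) / 2 := by ring
  rw [e1, e2] at h1
  rw [le_div_iff₀ (by positivity)]
  have h2 : (l / 4) * ((s * l / 2 - h) / 2) * κ ≤ (l / 2 - h) * ((s * l / 2 - h) / 2) * κ := by
    have : 0 ≤ (s * l / 2 - h) / 2 * κ := by positivity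
    nlinarith
  nlinarith

end C2305bFat
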