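import Pool.Agent.W_c2305b_h35.LeanArc

/-!
# Leans (B3, B4): the theorem
-/

open MeasureTheory Set Module W82

namespace C2305bFat

open C2305b (Pl)
open C2305b.TL (cr)

lemma cr_rot_left (θ : ℝ) (a b : Pl) :
    cr (rot θ a) b = Real.cos θ * cr a b - Real.sin θ * dt a b := by
  unfold cr dt rot
  show (Real.cos θ * a 0 - Real.sin θ * a 1) * b 1 - (Real.sin θ * a 0 + Real.cos θ * a 1) * b 0 = _
  ring

lemma cr_self_rot (θ : ℝ) (a : Pl) : cr a (rot θ a) = Real.sin θ * dt a a := by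
  unfold cr dt rot
  show a 0 * (Real.sin θ * a 0 + Real.cos θ * a 1) - a 1 * (Real.cos θ * a 0 - Real.sin θ * a 1) = _
  ring

lemma dt_self_rot (θ : ℝ) (a : Pl) : dt a (rot θ a) = Real.cos θ * dt a a := by
  unfold dt rot
  show a 0 * (Real.cos θ * a 0 - Real.sin θ * a 1) + a 1 * (Real.sin θ * a 0 + Real.cos θ * a 1) = _
  ring

lemma rot_zero (a : Pl) : rot 0 a = a := by
  apply C2305b.ext2
  · show Real.cos 0 * a 0 - Real.sin 0 * a 1 = a 0
    rw [Real.cos_zero, Real.sin_zero]; ring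
  · show Real.sin 0 * a 0 + Real.cos 0 * a 1 = a 1
    rw [Real.cos_zero, Real.sin_zero]; ring

lemma cr_smul_left' (c : ℝ) (a b : Pl) : cr (c • a) b = c * cr a b := by
  unfold cr
  show c * a 0 * b 1 - c * a 1 * b 0 = _
  ring

lemma cr_smul_right' (c : ℝ) (a b : Pl) : cr a (c • b) = c * cr a b := by
  unfold cr
  show a 0 * (c * b 1) - a 1 * (c * b 0) = _
  ring

lemma cr_add_left' (a a' b : Pl) : cr (a + a') b = cr a b + cr a' b := by
  unfold cr
  show (a 0 + a' 0) * b 1 - (a 1 + a' 1) * b 0 = _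
  ring

lemma cr_add_right' (a b b' : Pl) : cr a (b + b') = cr a b + cr a b' := by
  unfold cr
  show a 0 * (b 1 + b' 1) - a 1 * (b 0 + b' 0) = _
  ring

lemma dt_smul_right (c : ℝ) (a b : Pl) : dt a (c • b) = c * dt a b := by
  unfold dt
  show a 0 * (c * b 0) + a 1 * (c * b 1) = _
  ring

lemma dt_add_right (a b b' : Pl) : dt a (b + b') = dt a b + dt a b' := by
  unfold dt
  show a 0 * (b 0 + b' 0) + a 1 * (b 1 + b' 1) = _
  ring

lemma dt_comm (a b : Pl) : dt a b = dt b a := by unfold dt; ring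

lemma abs_dt_le (a b : Pl) : |dt a b| ≤ ‖a‖ * ‖b‖ := by
  rw [← inner_eq]
  exact abs_real_inner_le_norm a b

lemma abs_cr_le (a b : Pl) : |cr a b| ≤ ‖a‖ * ‖b‖ := by
  have h : cr a b ^ 2 ≤ (‖a‖ * ‖b‖) ^ 2 := by
    have h1 := norm_sq_eq a
    have h2 := norm_sq_eq b
    have e : (‖a‖ * ‖b‖) ^ 2 = dt a a * dt b b := by rw [← h1, ← h2]; ring
    rw [e]
    unfold cr dt
    nlinarith [sq_nonneg (a 0 * b 0 + a 1 * b 1)]
  exact abs_le_of_sq_le_sq h (by positivity)

/-- Every vector in the frame. -/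
lemma frame_eq {A B : Pl} (h : cr A B ≠ 0) (v : Pl) :
    v = (cr v B / cr A B) • A + (cr A v / cr A B) • B := by
  apply C2305b.ext2
  · show v 0 = cr v B / cr A B * A 0 + cr A v / cr A B * B 0
    field_simp
    unfold cr; ring
  · show v 1 = cr v B / cr A B * A 1 + cr A v / cr A B * B 1
    field_simp
    unfold cr; ring

/-- The first coordinate of the chord. -/
lemma w0_lower {α κ c s0 s1 w0 w1 : ℝ} {A B T w : Pl} (hα : 0 < α) (hκ : 0 < κ) (hA : ‖A‖ ≤ α)
    (hB : ‖B‖ ≤ α) (hΔ : κ ≤ cr A B) (hT : T = s0 • A + s1 • B) (hs0 : 0 < s0) (hs1 : |s1| ≤ s0)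
    (hT0 : T ≠ 0) (hcr : 0 ≤ cr T w) (hang : InnerProductGeometry.angle T w ≤ c) (hc1 : c ≤ 1)
    (hc2 : c * (8 * α ^ 2) ≤ κ) (hw : w = w0 • A + w1 • B) : ‖w‖ ≤ 8 * α * w0 := by
  set β := InnerProductGeometry.angle T w with hβ
  have hβ0 : 0 ≤ β := InnerProductGeometry.angle_nonneg _ _
  have hTn : 0 < ‖T‖ := norm_pos_iff.2 hT0
  have hTle : ‖T‖ ≤ 2 * α * s0 := by
    rw [hT]
    refine (norm_add_le _ _).trans ?_
    rw [norm_smul, norm_smul, Real.norm_eq_abs, Real.norm_eq_abs, abs_of_pos hs0]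
    have h1 : s0 * ‖A‖ ≤ s0 * α := mul_le_mul_of_nonneg_left hA hs0.le
    have h2 : |s1| * ‖B‖ ≤ s0 * α := mul_le_mul hs1 hB (norm_nonneg _) hs0.le
    linarith
  have hrot := rot_angle hT0 hcr
  have h1 : cr (‖T‖ • w) B = cr (‖w‖ • rot (InnerProductGeometry.angle T w) T) B := by rw [hrot]
  rw [cr_smul_left', cr_smul_left', ← hβ, cr_rot_left] at h1
  have e1 : cr w B = w0 * cr A B := by
    rw [hw, cr_add_left', cr_smul_left', cr_smul_left', cr_self_zero]; ring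
  have e2 : cr T B = s0 * cr A B := by
    rw [hT, cr_add_left', cr_smul_left', cr_smul_left', cr_self_zero]; ring
  rw [e1, e2] at h1
  have hcos : 1 / 2 ≤ Real.cos β := by
    have := Real.one_sub_sq_div_two_le_cos (x := β)
    nlinarith
  have hsin : Real.sin β ≤ β := Real.sin_le hβ0
  have hsin0 : 0 ≤ Real.sin β := Real.sin_nonneg_of_nonneg_of_le_pi hβ0
    (InnerProductGeometry.angle_le_pi _ _)
  have hdt : dt T B ≤ ‖T‖ * α := (le_abs_self _).trans ((abs_dt_le T B).trans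
    (mul_le_mul_of_nonneg_left hB hTn.le))
  have hΔ0 : 0 < cr A B := by linarith
  have h2 : s0 * cr A B / 4 ≤ Real.cos β * (s0 * cr A B) - Real.sin β * dt T B := by
    have i1 : 1 / 2 * (s0 * cr A B) ≤ Real.cos β * (s0 * cr A B) :=
      mul_le_mul_of_nonneg_right hcos (by positivity)
    have i2 : Real.sin β * dt T B ≤ Real.sin β * (‖T‖ * α) := mul_le_mul_of_nonneg_left hdt hsin0
    have i3 : Real.sin β * (‖T‖ * α) ≤ c * (2 * α * s0 * α) := by
      apply mul_le_mul (by linarith) _ (by positivity) (by linarith)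
      exact mul_le_mul_of_nonneg_right hTle hα.le
    have i4 : c * (2 * α * s0 * α) ≤ s0 * cr A B / 4 := by
      have : c * (8 * α ^ 2) * s0 ≤ cr A B * s0 :=
        mul_le_mul_of_nonneg_right (hc2.trans hΔ) hs0.le
      nlinarith
    linarith
  have h3 : ‖w‖ * (s0 * cr A B / 4) ≤ ‖T‖ * (w0 * cr A B) := by
    rw [h1]; exact mul_le_mul_of_nonneg_left h2 (norm_nonneg _)
  have hw0 : 0 ≤ w0 := by
    by_contra hneg
    push Not at hneg
    have h4 : ‖T‖ * (w0 * cr A B) < 0 :=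
      mul_neg_of_pos_of_neg hTn (mul_neg_of_neg_of_pos hneg hΔ0)
    have h5 : 0 ≤ ‖w‖ * (s0 * cr A B / 4) := by positivity
    linarith
  have h4 : ‖T‖ * (w0 * cr A B) ≤ 2 * α * s0 * (w0 * cr A B) :=
    mul_le_mul_of_nonneg_right hTle (by positivity)
  have h5 : ‖w‖ * (s0 * cr A B) ≤ (8 * α * w0) * (s0 * cr A B) := by linarith
  exact le_of_mul_le_mul_right h5 (by positivity)

/-- The angle of a direction of small slope. -/
lemma angle_frame {α κ s t0 t1 : ℝ} {A B T : Pl} (hα : 0 < α) (hκ : 0 < κ) (hA : ‖A‖ ≤ α)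
    (hB : ‖B‖ ≤ α) (hΔ : κ ≤ cr A B) (hT : T = t0 • A + t1 • B) (ht0 : 0 < t0)
    (ht1 : |t1| ≤ s * t0) (hT0 : T ≠ 0) (hs0 : 0 ≤ s) (hs : s * (2 * α ^ 4) ≤ κ ^ 2) :
    InnerProductGeometry.angle A T ≤ 2 * α ^ 4 / κ ^ 2 * s := by
  have hΔ0 : 0 < cr A B := by linarith
  have hA0 : A ≠ 0 := by
    rintro rfl
    have : cr (0 : Pl) B = 0 := by unfold cr; show 0 * _ - 0 * _ = _; ring
    linarith
  have hAn : 0 < ‖A‖ := norm_pos_iff.2 hA0
  have hδ1 : 2 * α ^ 4 / κ ^ 2 * s ≤ 1 := by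
    rw [div_mul_eq_mul_div, div_le_one (by positivity)]; linarith
  have hδ0 : 0 ≤ 2 * α ^ 4 / κ ^ 2 * s := by positivity
  have hcrle : cr A B ≤ α ^ 2 := by
    have h1 := (le_abs_self _).trans (abs_cr_le A B)
    have h2 : ‖A‖ * ‖B‖ ≤ α * α := mul_le_mul hA hB (norm_nonneg _) hα.le
    nlinarith
  -- `|A|^2 ≥ κ^2 / α^2`
  have hAA : κ ^ 2 ≤ dt A A * α ^ 2 := by
    have h1 : κ ≤ ‖A‖ * α := hΔ.trans ((le_abs_self _).trans ((abs_cr_le A B).trans
      (mul_le_mul_of_nonneg_left hB hAn.le)))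
    have h2 : κ ^ 2 ≤ (‖A‖ * α) ^ 2 := pow_le_pow_left₀ hκ.le h1 2
    rw [mul_pow] at h2
    rw [dt_self_eq]; exact h2
  have hdtAB : |dt A B| ≤ α ^ 2 := by
    refine (abs_dt_le A B).trans ?_
    have h2 : ‖A‖ * ‖B‖ ≤ α * α := mul_le_mul hA hB (norm_nonneg _) hα.le
    nlinarith
  have e1 : dt A T = t0 * dt A A + t1 * dt A B := by
    rw [hT, dt_add_right, dt_smul_right, dt_smul_right]
  have e2 : cr A T = t1 * cr A B := by
    rw [hT, cr_add_right', cr_smul_right', cr_smul_right', cr_self_zero]; ring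
  have h3 : |t1 * dt A B| ≤ s * t0 * α ^ 2 := by
    rw [abs_mul]
    exact mul_le_mul ht1 hdtAB (abs_nonneg _) (by positivity)
  -- `dt A T * (2 α^2) ≥ t0 κ^2`
  have hdt : t0 * κ ^ 2 ≤ dt A T * (2 * α ^ 2) := by
    rw [e1]
    have h4 := neg_abs_le (t1 * dt A B)
    have h5 : t0 * κ ^ 2 ≤ t0 * (dt A A * α ^ 2) := mul_le_mul_of_nonneg_left hAA ht0.le
    have h6 : t0 * (s * (2 * α ^ 4)) ≤ t0 * κ ^ 2 := mul_le_mul_of_nonneg_left hs ht0.le
    have h7 : -(s * t0 * α ^ 2) * (2 * α ^ 2) ≤ (t1 * dt A B) * (2 * α ^ 2) :=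
      mul_le_mul_of_nonneg_right (by linarith) (by positivity)
    nlinarith
  have hdt0 : 0 < dt A T := by
    by_contra hneg
    push Not at hneg
    have h4 : dt A T * (2 * α ^ 2) ≤ 0 := mul_nonpos_of_nonpos_of_nonneg hneg (by positivity)
    have h5 : 0 < t0 * κ ^ 2 := by positivity
    linarith
  have hcr : |cr A T| ≤ 2 * α ^ 4 / κ ^ 2 * s * dt A T := by
    rw [e2, abs_mul, abs_of_pos hΔ0]
    have h4 : |t1| * cr A B ≤ s * t0 * α ^ 2 :=
      mul_le_mul ht1 hcrle hΔ0.le (by positivity)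
    refine h4.trans ?_
    rw [div_mul_eq_mul_div, div_mul_eq_mul_div, le_div_iff₀ (by positivity)]
    have h5 : (s * α ^ 2) * (t0 * κ ^ 2) ≤ (s * α ^ 2) * (dt A T * (2 * α ^ 2)) :=
      mul_le_mul_of_nonneg_left hdt (by positivity)
    nlinarith
  rcases le_or_gt 0 (cr A T) with h0 | h0
  · exact angle_le_of_slope hA0 hT0 hδ0 hδ1 h0 hdt0 ((le_abs_self _).trans hcr)
  · rw [InnerProductGeometry.angle_comm]
    have e3 : cr T A = -cr A T := cr_swap' _ _
    refine angle_le_of_slope hT0 hA0 hδ0 hδ1 (by rw [e3]; linarith) (by rw [dt_comm]; exact hdt0) ?_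
    rw [e3, dt_comm T A]
    exact (neg_le_abs _).trans hcr

/-- The signed angle. -/
lemma exists_lean {A T : Pl} (hA : A ≠ 0) (hT : T ≠ 0) : ∃ l : ℝ,
    ‖A‖ • T = ‖T‖ • rot l A ∧ |l| = InnerProductGeometry.angle A T ∧ (0 ≤ cr A T → 0 ≤ l) ∧
      (cr A T < 0 → l < 0) := by
  rcases le_or_gt 0 (cr A T) with h | h
  · exact ⟨_, rot_angle hA h, abs_of_nonneg (InnerProductGeometry.angle_nonneg _ _),
      fun _ => InnerProductGeometry.angle_nonneg _ _, fun h' => absurd h (not_le.2 h')⟩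
  · have h1 : 0 ≤ cr T A := by rw [cr_swap']; linarith
    have h2 := rot_angle hT h1
    have h3 : InnerProductGeometry.angle T A = InnerProductGeometry.angle A T :=
      InnerProductGeometry.angle_comm _ _
    rw [h3] at h2
    refine ⟨-InnerProductGeometry.angle A T, ?_, ?_, fun h' => absurd h' (not_le.2 h), fun _ => ?_⟩
    · have h4 := congrArg (rot (-InnerProductGeometry.angle A T)) h2
      rw [rot_smul, rot_smul, rot_rot, add_neg_cancel, rot_zero] at h4
      exact h4.symm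
    · rw [abs_neg, abs_of_nonneg (InnerProductGeometry.angle_nonneg _ _)]
    · have h5 : InnerProductGeometry.angle A T ≠ 0 := by
        intro h6
        have h7 := sin_mul (a := T) (b := A) h1
        rw [h3, h6, Real.sin_zero, zero_mul, cr_swap'] at h7
        linarith
      have := lt_of_le_of_ne (InnerProductGeometry.angle_nonneg A T) (Ne.symm h5)
      linarith

end C2305bFat
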