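import Pool.Agent.W_c2305b_h35.LeanArc2

/-!
# Leans (B3, B4): the theorem
-/

open MeasureTheory Set Module W82

namespace C2305bFat

open C2305b (Pl)
open C2305b.TL (cr)

/-- The bound for the slope at the start of an arc, frame with `T` near the direction of `A`. -/
lemma slope_start {α κ h m l s0 s1 : ℝ} {o A B p q T : Pl} {X Y : Set Pl}
    (H : InFrame α κ h m o A B X Y) (hκ : 0 < κ) (hΔ : 0 < cr A B) (hl : 0 < l) (hl1 : h ≤ l / 4)
    (hp : p ∈ Y) (hq : q ∈ Y) (hpq : l ≤ cr (q - p) B / cr A B) (hs0 : 0 < s0)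
    (hs1 : 0 ≤ s1) (hs10 : s1 ≤ s0) (hT : T = s0 • A + s1 • B)
    (hY : ∀ y ∈ Y, 0 ≤ cr T (y - p)) :
    s1 / s0 ≤ (2 / l + 16 / (κ * l ^ 2)) * (h + m) := by
  obtain ⟨xp, yp, hxp, hyp, ep⟩ := H.box p (H.sub hp)
  obtain ⟨xq, yq, hxq, hyq, eq⟩ := H.box q (H.sub hq)
  have e1 : cr (q - p) B / cr A B = xq - xp := by
    have : q - p = (xq - xp) • A + (yq - yp) • B := by
      rw [ep, eq, sub_smul, sub_smul]; abel
    rw [this, cr_add_left', cr_smul_left', cr_smul_left', cr_self_zero, mul_zero, add_zero,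
      mul_div_cancel_right₀ _ hΔ.ne']
  rw [e1] at hpq
  have hs : 0 ≤ s1 / s0 := div_nonneg hs1 hs0.le
  have hsle : s1 / s0 ≤ 1 := by rw [div_le_one hs0]; exact hs10
  have h1 := H.start_core hκ (xp := xp) (yp := yp) (xq := xq) (s := s1 / s0) hl
    (by linarith [(abs_le.1 hxp).1]) (by linarith [(abs_le.1 hyp).1])
    (by linarith [(abs_le.1 hxq).2]) (by linarith) hs hsle hl1 (by
      intro x y hmem
      have h2 := hY _ hmem
      have e2 : o + x • A + y • B - p = (x - xp) • A + (y - yp) • B := by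
        rw [ep, sub_smul, sub_smul]; abel
      rw [e2, hT, cr_add_left', cr_add_right', cr_add_right', cr_smul_left', cr_smul_left',
        cr_smul_left', cr_smul_left', cr_smul_right', cr_smul_right', cr_smul_right',
        cr_smul_right', cr_self_zero, cr_self_zero, cr_swap' B A] at h2
      have h3 : 0 ≤ (s0 * (y - yp) - s1 * (x - xp)) * cr A B := by linarith
      have h4 : 0 ≤ s0 * (y - yp) - s1 * (x - xp) := nonneg_of_mul_nonneg_left h3 hΔ
      have h5 : s1 / s0 * (x - xp) ≤ y - yp := by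
        rw [div_mul_eq_mul_div, div_le_iff₀ hs0]; linarith
      linarith)
  have hm := H.m0
  have hh := H.h0
  have h2 : s1 / s0 * l ≤ 2 * h + 16 * m / (κ * l) := by
    have e3 : 16 * m / (κ * l) = 2 * (8 * m / (κ * l)) := by ring
    rw [e3]; linarith
  have h3 : s1 / s0 ≤ (2 * h + 16 * m / (κ * l)) / l := by
    rw [le_div_iff₀ hl]; exact h2
  refine h3.trans ?_
  have e4 : (2 * h + 16 * m / (κ * l)) / l = 2 / l * h + 16 / (κ * l ^ 2) * m := by
    field_simp
  rw [e4]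
  have i1 : 0 ≤ 2 / l * m := by positivity
  have i2 : 0 ≤ 16 / (κ * l ^ 2) * h := by positivity
  linarith

/-- The bound for the slope at the end of an arc. -/
lemma slope_fin {α κ h m l s0 s1 : ℝ} {o A B p q T : Pl} {X Y : Set Pl}
    (H : InFrame α κ h m o A B X Y) (hκ : 0 < κ) (hΔ : 0 < cr A B) (hl : 0 < l) (hl1 : h ≤ l / 4)
    (hp : p ∈ Y) (hq : q ∈ Y) (hpq : l ≤ cr (q - p) B / cr A B) (hs0 : 0 < s0)
    (hs1 : s1 ≤ 0) (hs10 : -s1 ≤ s0) (hT : T = s0 • A + s1 • B)
    (hY : ∀ y ∈ Y, 0 ≤ cr T (y - q)) :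
    -s1 / s0 ≤ (2 / l + 16 / (κ * l ^ 2)) * (h + m) := by
  obtain ⟨xp, yp, hxp, hyp, ep⟩ := H.box p (H.sub hp)
  obtain ⟨xq, yq, hxq, hyq, eq⟩ := H.box q (H.sub hq)
  have e1 : cr (q - p) B / cr A B = xq - xp := by
    have : q - p = (xq - xp) • A + (yq - yp) • B := by
      rw [ep, eq, sub_smul, sub_smul]; abel
    rw [this, cr_add_left', cr_smul_left', cr_smul_left', cr_self_zero, mul_zero, add_zero,
      mul_div_cancel_right₀ _ hΔ.ne']
  rw [e1] at hpq
  have hs : 0 ≤ -s1 / s0 := div_nonneg (by linarith) hs0.le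
  have hsle : -s1 / s0 ≤ 1 := by rw [div_le_one hs0]; exact hs10
  have h1 := H.mirror.start_core hκ (xp := -xq) (yp := yq) (xq := -xp) (s := -s1 / s0) hl
    (by linarith [(abs_le.1 hxq).2]) (by linarith [(abs_le.1 hyq).1])
    (by linarith [(abs_le.1 hxp).1]) (by linarith) hs hsle hl1 (by
      intro x y hmem
      have h2 := hY _ hmem
      have e2 : o + x • (-A) + y • B - q = (-x - xq) • A + (y - yq) • B := by
        rw [eq, sub_smul, sub_smul, smul_neg, neg_smul]; abel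
      rw [e2, hT, cr_add_left', cr_add_right', cr_add_right', cr_smul_left', cr_smul_left',
        cr_smul_left', cr_smul_left', cr_smul_right', cr_smul_right', cr_smul_right',
        cr_smul_right', cr_self_zero, cr_self_zero, cr_swap' B A] at h2
      have h3 : 0 ≤ (s0 * (y - yq) - s1 * (-x - xq)) * cr A B := by linarith
      have h4 : 0 ≤ s0 * (y - yq) - s1 * (-x - xq) := nonneg_of_mul_nonneg_left h3 hΔ
      have h5 : -s1 / s0 * (x - -xq) ≤ y - yq := by
        rw [div_mul_eq_mul_div, div_le_iff₀ hs0]; linarith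
      linarith)
  have hm := H.m0
  have hh := H.h0
  have h2 : -s1 / s0 * l ≤ 2 * h + 16 * m / (κ * l) := by
    have e3 : 16 * m / (κ * l) = 2 * (8 * m / (κ * l)) := by ring
    rw [e3]; linarith
  have h3 : -s1 / s0 ≤ (2 * h + 16 * m / (κ * l)) / l := by
    rw [le_div_iff₀ hl]; exact h2
  refine h3.trans ?_
  have e4 : (2 * h + 16 * m / (κ * l)) / l = 2 / l * h + 16 / (κ * l ^ 2) * m := by
    field_simp
  rw [e4]
  have i1 : 0 ≤ 2 / l * m := by positivity
  have i2 : 0 ≤ 16 / (κ * l ^ 2) * h := by positivity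
  linarith

/-- The theorem in the frame in which the support direction at the start is near `A`. -/
lemma lean_zero {α κ l0 C1 C2 c0 h m s0 s1 : ℝ} (hα : 0 < α) (hκ : 0 < κ) (hl0 : 0 < l0)
    (hC1 : C1 = 2 / (l0 / (8 * α)) + 16 / (κ * (l0 / (8 * α)) ^ 2))
    (hC2 : C2 = 2 * α ^ 4 / κ ^ 2)
    (c1 : c0 ≤ 1) (c2 : c0 * (8 * α ^ 2) ≤ κ) (c3 : c0 ≤ l0 / (8 * α) / 4)
    (c4 : C1 * c0 * (2 * α ^ 4) ≤ κ ^ 2)
    {o A B p q Tp Tq : Pl} {X Y : Set Pl} (H : InFrame α κ h m o A B X Y) (hΔ : 0 < cr A B)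
    (hhm : h + m ≤ c0) (hp : p ∈ Y) (hq : q ∈ Y) (hl : l0 ≤ ‖q - p‖) (hTp : Tp ≠ 0)
    (hTq : Tq ≠ 0) (hYp : ∀ y ∈ Y, 0 ≤ cr Tp (y - p)) (hYq : ∀ y ∈ Y, 0 ≤ cr Tq (y - q))
    (ht : InnerProductGeometry.angle Tp (q - p) + InnerProductGeometry.angle (q - p) Tq ≤ c0)
    (hs0 : 0 < s0) (hs1 : |s1| ≤ s0) (hT : Tp = s0 • A + s1 • B) :
    ∃ lp lq : ℝ, lq = lp + (InnerProductGeometry.angle Tp (q - p) +
        InnerProductGeometry.angle (q - p) Tq) ∧
      lp ≤ C2 * C1 * (h + m) ∧ -(C2 * C1 * (h + m)) ≤ lq ∧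
      ‖A‖ • Tp = ‖Tp‖ • rot lp A ∧ ‖A‖ • Tq = ‖Tq‖ • rot lq A := by
  have hΔκ : κ ≤ cr A B := by
    have := H.cr1
    rwa [abs_of_pos hΔ] at this
  have hh := H.h0
  have hm := H.m0
  set l := l0 / (8 * α) with hld
  have hlpos : 0 < l := by positivity
  have hC10 : 0 ≤ C1 := by rw [hC1]; positivity
  have hC20 : 0 ≤ C2 := by rw [hC2]; positivity
  have hhl : h ≤ l / 4 := by linarith
  set w := q - p with hw
  have hw0 : w ≠ 0 := by
    intro h0
    rw [h0, norm_zero] at hl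
    linarith
  have hA0 : A ≠ 0 := by
    rintro rfl
    have : cr (0 : Pl) B = 0 := by unfold cr; show 0 * _ - 0 * _ = _; ring
    linarith
  set β := InnerProductGeometry.angle Tp w with hβ
  set γ := InnerProductGeometry.angle w Tq with hγ
  have hβ0 : 0 ≤ β := InnerProductGeometry.angle_nonneg _ _
  have hγ0 : 0 ≤ γ := InnerProductGeometry.angle_nonneg _ _
  have hcrp : 0 ≤ cr Tp w := hYp q hq
  have hcrq : 0 ≤ cr w Tq := by
    have h1 := hYq p hp
    have e : cr Tq (p - q) = cr w Tq := by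
      rw [hw]
      unfold cr
      simp only [PiLp.sub_apply]
      ring
    rwa [e] at h1
  -- the chord
  have hwf := frame_eq hΔ.ne' w
  have hx := w0_lower hα hκ H.nA H.nB hΔκ hT hs0 hs1 hTp hcrp
    (c := c0) (by linarith) c1 c2 hwf
  have hx' : l ≤ cr w B / cr A B := by
    rw [hld, div_le_iff₀ (by positivity)]; linarith
  -- the rotation from `Tp` to `Tq`
  have hrot : ‖Tp‖ • Tq = ‖Tq‖ • rot (β + γ) Tp := by
    have hn : 0 < ‖w‖ := norm_pos_iff.2 hw0
    have h1 := rot_angle hTp hcrp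
    have h2 := rot_angle hw0 hcrq
    have h3 : ‖w‖ • (‖Tp‖ • Tq) = ‖w‖ • (‖Tq‖ • rot (β + γ) Tp) := by
      calc ‖w‖ • (‖Tp‖ • Tq) = ‖Tp‖ • (‖w‖ • Tq) := smul_comm _ _ _
        _ = ‖Tp‖ • (‖Tq‖ • rot γ w) := by rw [h2]
        _ = ‖Tq‖ • rot γ (‖Tp‖ • w) := by rw [rot_smul, smul_comm]
        _ = ‖Tq‖ • rot γ (‖w‖ • rot β Tp) := by rw [h1]
        _ = ‖w‖ • (‖Tq‖ • rot (β + γ) Tp) := by rw [rot_smul, rot_rot, smul_comm]
    exact smul_right_injective _ hn.ne' h3
  -- the lean at the start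
  obtain ⟨lp, hlp1, hlp2, hlp3, hlp4⟩ := exists_lean hA0 hTp
  have hTpn : 0 < ‖Tp‖ := norm_pos_iff.2 hTp
  have hTqn : 0 < ‖Tq‖ := norm_pos_iff.2 hTq
  have hAn : 0 < ‖A‖ := norm_pos_iff.2 hA0
  have hcrA : cr A Tp = s1 * cr A B := by
    rw [hT, cr_add_right', cr_smul_right', cr_smul_right', cr_self_zero]; ring
  have hlq1 : ‖A‖ • Tq = ‖Tq‖ • rot (lp + (β + γ)) A := by
    have h3 : ‖Tp‖ • (‖A‖ • Tq) = ‖Tp‖ • (‖Tq‖ • rot (lp + (β + γ)) A) := by
      calc ‖Tp‖ • (‖A‖ • Tq) = ‖A‖ • (‖Tp‖ • Tq) := smul_comm _ _ _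
        _ = ‖A‖ • (‖Tq‖ • rot (β + γ) Tp) := by rw [hrot]
        _ = ‖Tq‖ • rot (β + γ) (‖A‖ • Tp) := by rw [rot_smul, smul_comm]
        _ = ‖Tq‖ • rot (β + γ) (‖Tp‖ • rot lp A) := by rw [hlp1]
        _ = ‖Tp‖ • (‖Tq‖ • rot (lp + (β + γ)) A) := by rw [rot_smul, rot_rot, smul_comm]
    exact smul_right_injective _ hTpn.ne' h3
  refine ⟨lp, lp + (β + γ), rfl, ?_, ?_, hlp1, hlq1⟩
  · rcases le_or_gt s1 0 with h1 | h1
    · -- the lean is nonpositive
      have h2 : lp ≤ 0 := by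
        rcases h1.lt_or_eq with h3 | h3
        · exact (hlp4 (by rw [hcrA]; exact mul_neg_of_neg_of_pos h3 hΔ)).le
        · have h4 : InnerProductGeometry.angle A Tp = 0 := by
            rw [hT, h3, zero_smul, add_zero]
            rw [InnerProductGeometry.angle_smul_right_of_pos _ _ hs0,
              InnerProductGeometry.angle_self hA0]
          rw [h4, abs_eq_zero] at hlp2
          exact hlp2.le
      have h3 : 0 ≤ C2 * C1 * (h + m) := by positivity
      linarith
    · have h2 := slope_start H hκ hΔ hlpos hhl hp hq hx' hs0 h1.le ((le_abs_self _).trans hs1) hT hYp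
      rw [← hC1] at h2
      have hs' : s1 / s0 * (2 * α ^ 4) ≤ κ ^ 2 := by
        refine le_trans (mul_le_mul_of_nonneg_right ?_ (by positivity)) c4
        exact h2.trans (mul_le_mul_of_nonneg_left hhm hC10)
      have h3 := angle_frame hα hκ H.nA H.nB hΔκ hT hs0 (s := s1 / s0)
        (by rw [div_mul_cancel₀ _ hs0.ne', abs_of_pos h1]) hTp (div_nonneg h1.le hs0.le) hs'
      rw [← hC2, ← hlp2] at h3
      calc lp ≤ |lp| := le_abs_self _
        _ ≤ C2 * (s1 / s0) := h3
        _ ≤ C2 * (C1 * (h + m)) := mul_le_mul_of_nonneg_left h2 hC20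
        _ = C2 * C1 * (h + m) := by ring
  · -- the lean at the end
    by_contra hcon
    push Not at hcon
    set lq := lp + (β + γ) with hlq
    have hpos : 0 ≤ C2 * C1 * (h + m) := by positivity
    have hlqneg : lq < 0 := by linarith
    have hlpneg : lp < 0 := by linarith
    have hpi := Real.pi_gt_three
    have hlpge : -Real.pi ≤ lp := by
      have h1 := InnerProductGeometry.angle_le_pi A Tp
      rw [← hlp2] at h1
      linarith [neg_abs_le lp]
    -- `lp > -π` unless ...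
    have hs1neg : s1 < 0 := by
      by_contra h1
      push Not at h1
      have := hlp3 (by rw [hcrA]; exact mul_nonneg h1 hΔ.le)
      linarith
    have hTqf := frame_eq hΔ.ne' Tq
    set t0 := cr Tq B / cr A B with ht0
    set t1 := cr A Tq / cr A B with ht1
    -- `lp > -π / 2` in fact `lp > -π`
    have hlpgt : -Real.pi < lp := by
      rcases hlpge.lt_or_eq with h1 | h1
      · exact h1
      · exfalso
        have h2 : cr A (‖A‖ • Tp) = cr A (‖Tp‖ • rot lp A) := by rw [hlp1]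
        rw [cr_smul_right', cr_smul_right', cr_self_rot, hcrA, ← h1, Real.sin_neg, Real.sin_pi]
          at h2
        have h3 : ‖A‖ * (s1 * cr A B) < 0 :=
          mul_neg_of_pos_of_neg hAn (mul_neg_of_neg_of_pos hs1neg hΔ)
        linarith
    have hlqgt : -Real.pi < lq := by linarith
    have hAA := dt_self_pos hA0
    have hsinq : Real.sin lq < 0 := Real.sin_neg_of_neg_of_neg_pi_lt hlqneg hlqgt
    have hcrAq : cr A Tq < 0 := by
      have h2 : cr A (‖A‖ • Tq) = cr A (‖Tq‖ • rot lq A) := by rw [hlq1]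
      rw [cr_smul_right', cr_smul_right', cr_self_rot] at h2
      have h3 : ‖Tq‖ * (Real.sin lq * dt A A) < 0 :=
        mul_neg_of_pos_of_neg hTqn (mul_neg_of_neg_of_pos hsinq hAA)
      by_contra h4
      push Not at h4
      have := mul_nonneg hAn.le h4
      linarith
    have ht1neg : t1 < 0 := div_neg_of_neg_of_pos hcrAq hΔ
    -- the cross product of the two support directions
    have hcrpq : 0 ≤ cr Tp Tq := by
      have h2 : cr Tp (‖Tp‖ • Tq) = cr Tp (‖Tq‖ • rot (β + γ) Tp) := by rw [hrot]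
      rw [cr_smul_right', cr_smul_right', cr_self_rot] at h2
      have h3 : 0 ≤ Real.sin (β + γ) :=
        Real.sin_nonneg_of_nonneg_of_le_pi (by linarith) (by linarith)
      have h4 : 0 ≤ ‖Tq‖ * (Real.sin (β + γ) * dt Tp Tp) :=
        mul_nonneg hTqn.le (mul_nonneg h3 (dt_self_pos hTp).le)
      rw [← h2] at h4
      exact nonneg_of_mul_nonneg_right h4 hTpn
    have hcrpq' : s1 * t0 ≤ s0 * t1 := by
      have e : cr Tp Tq = (s0 * t1 - s1 * t0) * cr A B := by
        rw [hT]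
        conv_lhs => rw [hTqf]
        rw [cr_add_left', cr_add_right', cr_add_right', cr_smul_left', cr_smul_left',
          cr_smul_left', cr_smul_left', cr_smul_right', cr_smul_right', cr_smul_right',
          cr_smul_right', cr_self_zero, cr_self_zero, cr_swap' B A]
        ring
      rw [e] at hcrpq
      have := nonneg_of_mul_nonneg_left hcrpq hΔ
      linarith
    have hs0t1 : s0 * t1 < 0 := mul_neg_of_pos_of_neg hs0 ht1neg
    have ht0pos : 0 < t0 := by
      by_contra h1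
      push Not at h1
      have := mul_nonneg_of_nonpos_of_nonpos hs1neg.le h1
      linarith
    have ht10 : -t1 ≤ t0 := by
      have h1 : -s1 ≤ s0 := (neg_le_abs _).trans hs1
      have h2 : -s1 * t0 ≤ s0 * t0 := mul_le_mul_of_nonneg_right h1 ht0pos.le
      have h3 : s0 * -t1 ≤ s0 * t0 := by linarith
      exact le_of_mul_le_mul_left h3 hs0
    have h2 := slope_fin H hκ hΔ hlpos hhl hp hq hx' ht0pos ht1neg.le ht10 hTqf hYq
    rw [← hC1] at h2
    have hsn : 0 ≤ -t1 / t0 := div_nonneg (by linarith) ht0pos.le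
    have hs' : -t1 / t0 * (2 * α ^ 4) ≤ κ ^ 2 := by
      refine le_trans (mul_le_mul_of_nonneg_right ?_ (by positivity)) c4
      exact h2.trans (mul_le_mul_of_nonneg_left hhm hC10)
    have h3 := angle_frame hα hκ H.nA H.nB hΔκ hTqf ht0pos (s := -t1 / t0)
      (by rw [div_mul_cancel₀ _ ht0pos.ne', abs_of_neg ht1neg]) hTq hsn hs'
    rw [← hC2] at h3
    have h4 : InnerProductGeometry.angle A Tq = -lq := by
      have h5 : dt A (‖A‖ • Tq) = dt A (‖Tq‖ • rot lq A) := by rw [hlq1]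
      rw [dt_smul_right, dt_smul_right, dt_self_rot, ← norm_sq_eq A] at h5
      have h6 := cos_mul (a := A) (b := Tq)
      have h7 : Real.cos (InnerProductGeometry.angle A Tq) = Real.cos (-lq) := by
        rw [Real.cos_neg]
        have h8 : 0 < ‖A‖ * (‖A‖ * ‖Tq‖) := by positivity
        have h9 : ‖A‖ * (‖A‖ * ‖Tq‖) * Real.cos (InnerProductGeometry.angle A Tq) =
            ‖A‖ * (‖A‖ * ‖Tq‖) * Real.cos lq := by
          linear_combination ‖A‖ * h6 + h5
        exact mul_left_cancel₀ h8.ne' h9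
      exact Real.injOn_cos ⟨InnerProductGeometry.angle_nonneg _ _,
        InnerProductGeometry.angle_le_pi _ _⟩ ⟨by linarith, by linarith⟩ h7
    rw [h4] at h3
    have h5 : C2 * (-t1 / t0) ≤ C2 * (C1 * (h + m)) := mul_le_mul_of_nonneg_left h2 hC20
    linarith

end C2305bFat
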