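import Pool.Agent.W82_c2305b.WalkA
import Pool.Agent.W_c2305b_h35.Count2

/-!
# The third edge at a good vertex (row 552, section 2)
-/

namespace C2305b.TL

open Set Module MeasureTheory
open C2305bB (Fr Fits mis al)

/-- Third edge, numerical form: the functional is `α u₀ + β u₁` in local coordinates. -/
theorem third_num {τ M α β a0 a1 b0 b1 z0 z1 : ℝ} (hτ : 0 < τ) (hM : 0 < M)
    (ha0 : |a0| ≤ 4 * M) (ha1 : |a1| ≤ 4 * M) (hb0 : |b0| ≤ 4 * M) (hb1 : |b1| ≤ 4 * M)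
    (hα : 1 / 2 ≤ |α|) (hα1 : |α| ≤ 1) (hβ : |β| ≤ 1)
    (ha : 0 ≤ α * a0 + β * a1) (hb : 0 ≤ α * b0 + β * b1)
    (hab : 2 * τ ≤ a0 * b1 - a1 * b0) (hbz : 2 * τ ≤ b0 * z1 - b1 * z0)
    (hza : 2 * τ ≤ z0 * a1 - z1 * a0) : α * z0 + β * z1 ≤ -(τ ^ 2 / (1024 * M ^ 3)) := by
  have hφ : ∀ x y : ℝ, |x| ≤ 4 * M → |y| ≤ 4 * M → |-(α * x + β * y)| ≤ 4 * (2 * M) := by
    intro x y hx hy
    rw [abs_neg]
    have h1 : |α * x| ≤ 1 * (4 * M) := by
      rw [abs_mul]; exact mul_le_mul hα1 hx (abs_nonneg _) zero_le_one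
    have h2 : |β * y| ≤ 1 * (4 * M) := by
      rw [abs_mul]; exact mul_le_mul hβ hy (abs_nonneg _) zero_le_one
    have := abs_add_le (α * x) (β * y)
    linarith
  have hM2 : (0 : ℝ) < 2 * M := by linarith
  have hτ2 : (0 : ℝ) < τ / 2 := by linarith
  have hcr : ∀ x : ℝ, 2 * τ ≤ x → 2 * (τ / 2) ≤ |α| * x := by
    intro x hx
    have h1 : 1 / 2 * (2 * τ) ≤ |α| * x :=
      mul_le_mul hα hx (by linarith) (abs_nonneg _)
    linarith
  have hgoal : (τ / 2) ^ 2 / (32 * (2 * M) ^ 3) = τ ^ 2 / (1024 * M ^ 3) := by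
    have : M ≠ 0 := hM.ne'
    field_simp
    ring
  rcases le_or_gt 0 α with hs | hs
  · have habs : |α| = α := abs_of_nonneg hs
    rw [habs] at hcr
    have key := W82.step_num (a0 := -(α * a0 + β * a1)) (a1 := -a1) (b0 := -(α * b0 + β * b1))
      (b1 := -b1) (z0 := -(α * z0 + β * z1)) (z1 := -z1) hτ2 hM2 (hφ a0 a1 ha0 ha1)
      (by rw [abs_neg]; linarith) (hφ b0 b1 hb0 hb1) (by rw [abs_neg]; linarith)
      (by linarith) (by linarith)
      (by have := hcr _ hab; linarith) (by have := hcr _ hbz; linarith)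
      (by have := hcr _ hza; linarith)
    rw [hgoal] at key
    linarith
  · have habs : |α| = -α := abs_of_neg hs
    rw [habs] at hcr
    have key := W82.step_num (a0 := -(α * a0 + β * a1)) (a1 := a1) (b0 := -(α * b0 + β * b1))
      (b1 := b1) (z0 := -(α * z0 + β * z1)) (z1 := z1) hτ2 hM2 (hφ a0 a1 ha0 ha1)
      (by linarith) (hφ b0 b1 hb0 hb1) (by linarith)
      (by linarith) (by linarith)
      (by have := hcr _ hab; linarith) (by have := hcr _ hbz; linarith)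
      (by have := hcr _ hza; linarith)
    rw [hgoal] at key
    linarith

/-- The local coordinates of a vector in a frame. -/
noncomputable def lx (L : ℝ) (F : Fr) (v : V) : ℝ := F.c * v 0 + F.S * v 1 / L

/-- The local coordinates of a vector in a frame. -/
noncomputable def ly (L : ℝ) (F : Fr) (v : V) : ℝ := F.c * v 1 - L * F.S * v 0

lemma cr_local {L : ℝ} (hL : L ≠ 0) (F : Fr) (u v : V) :
    lx L F u * ly L F v - ly L F u * lx L F v = cr u v := by
  unfold lx ly cr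
  have h := F.nrm
  have e : (F.c * u 0 + F.S * u 1 / L) * (F.c * v 1 - L * F.S * v 0) -
      (F.c * u 1 - L * F.S * u 0) * (F.c * v 0 + F.S * v 1 / L) =
      (F.c ^ 2 + F.S ^ 2) * (u 0 * v 1 - u 1 * v 0) := by
    field_simp
    ring
  rw [e, h, one_mul]

lemma abs_lx_le {L R : ℝ} (hR : 0 ≤ R) {F : Fr} {v : V} (h : Fits L F R (v 0) (v 1)) :
    |lx L F v| ≤ R := h.b1 hR

lemma abs_ly_le {L R : ℝ} (hR : 0 ≤ R) {F : Fr} {v : V} (h : Fits L F R (v 0) (v 1)) :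
    |ly L F v| ≤ R := h.b2 hR

/-- **Third edge.** A functional with local coefficients `α`, `β` which is nonnegative on two of
the edges at a good vertex is at most `-τ² / (16 R³)` on the third one. -/
theorem third_edge {L R τ α β : ℝ} (hL : L ≠ 0) (hR : 0 < R) (hτ : 0 < τ) {F : Fr}
    {f1 f2 f3 : V} (fit1 : Fits L F R (f1 0) (f1 1)) (fit2 : Fits L F R (f2 0) (f2 1))
    (hα : 1 / 2 ≤ |α|) (hα1 : |α| ≤ 1) (hβ : |β| ≤ 1)
    (h1 : 0 ≤ α * lx L F f1 + β * ly L F f1) (h2 : 0 ≤ α * lx L F f2 + β * ly L F f2)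
    (h12 : 2 * τ ≤ cr f1 f2) (h23 : 2 * τ ≤ cr f2 f3) (h31 : 2 * τ ≤ cr f3 f1) :
    α * lx L F f3 + β * ly L F f3 ≤ -(τ ^ 2 / (16 * R ^ 3)) := by
  have a1 := abs_lx_le hR.le fit1
  have a2 := abs_ly_le hR.le fit1
  have a3 := abs_lx_le hR.le fit2
  have a4 := abs_ly_le hR.le fit2
  rw [← cr_local hL F] at h12 h23 h31
  have hM : 0 < R / 4 := by linarith
  have key := third_num (M := R / 4) hτ hM (by linarith) (by linarith) (by linarith)
    (by linarith) hα hα1 hβ h1 h2 h12 h23 h31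
  have e : 1024 * (R / 4) ^ 3 = 16 * R ^ 3 := by ring
  rw [e] at key
  exact key

/-- At the lowest vertex of a steep tile the third edge goes far down. -/
theorem third_down {L R τ : ℝ} (hL : 0 < L) (hR : 0 < R) (hτ : 0 < τ) {F : Fr}
    (hS : 1 ≤ L * |F.S|) {f1 f2 f3 : V} (fit1 : Fits L F R (f1 0) (f1 1))
    (fit2 : Fits L F R (f2 0) (f2 1)) (h1 : 0 ≤ f1 1) (h2 : 0 ≤ f2 1)
    (h12 : 2 * τ ≤ cr f1 f2) (h23 : 2 * τ ≤ cr f2 f3) (h31 : 2 * τ ≤ cr f3 f1) :
    f3 1 ≤ -(L * |F.S| * (τ ^ 2 / (16 * R ^ 3))) := by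
  have hS0 : 0 < |F.S| := by
    by_contra hcon
    push Not at hcon
    have : |F.S| = 0 := le_antisymm hcon (abs_nonneg _)
    rw [this, mul_zero] at hS
    linarith
  have hLS : 0 < L * |F.S| := by positivity
  -- the coefficients of `y / (L |S|)`
  have hy : ∀ v : V, v 1 = L * F.S * lx L F v + F.c * ly L F v := by
    intro v
    unfold lx ly
    have h := F.nrm
    have e : L * F.S * (F.c * v 0 + F.S * v 1 / L) + F.c * (F.c * v 1 - L * F.S * v 0) =
        (F.c ^ 2 + F.S ^ 2) * v 1 := by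
      field_simp
      ring
    rw [e, h, one_mul]
  set α : ℝ := F.S / |F.S| with hα
  set β : ℝ := F.c / (L * |F.S|) with hβ
  have hαa : |α| = 1 := by
    rw [hα, abs_div, abs_abs, div_self hS0.ne']
  have hβa : |β| ≤ 1 := by
    rw [hβ, abs_div, abs_of_nonneg F.c0, abs_of_pos hLS, div_le_one hLS]
    exact F.c_le_one.trans hS
  have hφ : ∀ v : V, α * lx L F v + β * ly L F v = v 1 / (L * |F.S|) := by
    intro v
    rw [eq_div_iff hLS.ne', hy v, hα, hβ]
    field_simp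
  have key := third_edge hL.ne' hR hτ fit1 fit2 (by rw [hαa]; norm_num) hαa.le hβa
    (by rw [hφ]; exact div_nonneg h1 hLS.le) (by rw [hφ]; exact div_nonneg h2 hLS.le)
    h12 h23 h31
  rw [hφ, div_le_iff₀ hLS] at key
  linarith

/-- A steep tile whose lowest vertex is good goes below every bounded region. -/
theorem steep_lt {ι : Type*} (T : Tiling ι) {L R τ H : ℝ} (hL : 0 < L) (hR : 0 < R)
    (hτ : 0 < τ) {i : ι} {F : Fr}
    (hfit : ∀ z ∈ T.P i, ∀ z' ∈ T.P i, Fits L F R (z 0 - z' 0) (z 1 - z' 1))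
    {u v w z : V} (hu : T.E i u v) (hw : T.E i v w) (hlow : ∀ x ∈ T.P i, v 1 ≤ x 1)
    (hv : v 1 ≤ 0) (hz : -H ≤ z 1) (h12 : 2 * τ ≤ cr (w - v) (u - v))
    (h23 : 2 * τ ≤ cr (u - v) (z - v)) (h31 : 2 * τ ≤ cr (z - v) (w - v))
    (hS : 1 ≤ L * |F.S|) : L * |F.S| * (τ ^ 2 / (16 * R ^ 3)) ≤ H := by
  have e : ∀ x : V, ∀ k : Fin 2, (x - v) k = x k - v k := fun x k => rfl
  have key := third_down hL hR hτ hS (f1 := w - v) (f2 := u - v) (f3 := z - v)
    (hfit w hw.2.1.2 v hw.1.2) (hfit u hu.1.2 v hw.1.2)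
    (by rw [e]; linarith [hlow w hw.2.1.2]) (by rw [e]; linarith [hlow u hu.1.2]) h12 h23 h31
  rw [e] at key
  linarith

end C2305b.TL
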