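import Pool.Agent.W82_c2305b.WalkC
import Pool.Agent.W_c2305b_h35.Third

/-!
# The third edge at a good vertex, in a tiling (row 552, G5)
-/

open Set Module Topology Filter MeasureTheory
open scoped Pointwise

namespace W82

open C2305b.TL (cr third_num)

variable {ι : Type*} {D : Set V} {P : ι → Set V}

/-- The data at a good vertex `v` of the tile `l`: the three darts, the three crosses. -/
theorem Tiling.good_corner [Finite ι] (h : Tiling D P)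
    (hi : (interior (convexHull ℝ (Vb D P))).Nonempty) {K K0 : Set V}
    {T6 A6 τ g ε G η : ℝ}
    (hG : Gap K0 T6 τ g) (hK0c : Convex ℝ K0) (hG0 : volume K0 ≤ ENNReal.ofReal G)
    (hGnn : 0 ≤ G) (hε : 0 ≤ ε) (hε1 : ε ≤ 1) (hεG : 3 * ε * G ≤ g / 2)
    (hKε : K ⊆ (1 + ε) • K0) (hcop : Copies P K) (hT : T6 ≤ A6) (hη : η ≤ g / 2) {v : V}
    (hg : GoodV D P (lossOf P A6 τ) η v)
    {l : {i : ι // (interior (convexHull ℝ (S P i))).Nonempty}} (hl : v ∈ P l) :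
    ∃ (j k : {i : ι // (interior (convexHull ℝ (S P i))).Nonempty}) (u w z : V),
      (h.toTL hi).E l u v ∧ (h.toTL hi).E l v w ∧ (h.toTL hi).E j w v ∧ (h.toTL hi).E j v z ∧
      (h.toTL hi).E k z v ∧ (h.toTL hi).E k v u ∧
      Perfect D P (lossOf P A6 τ) η l ∧ Perfect D P (lossOf P A6 τ) η j ∧
      Perfect D P (lossOf P A6 τ) η k ∧
      (∀ m, v ∈ P m → m = l ∨ m = j ∨ m = k) ∧
      2 * τ ≤ cr (w - v) (u - v) ∧ 2 * τ ≤ cr (u - v) (z - v) ∧ 2 * τ ≤ cr (z - v) (w - v) := by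
  set T := h.toTL hi with hT'
  obtain ⟨hvF, hk3, hperf⟩ := hg
  have hlS := (h.fv_cells hvF).mp hl
  obtain ⟨w, hw⟩ := T.exists_next l (v := v) (h.mem_M.mpr ⟨l, hlS⟩)
    (subset_convexHull ℝ _ hlS)
  obtain ⟨j, k, u, z, hu, hj, hjz, hkz, hku, hij, hik, hjk, hall⟩ := h.corner hi hvF hk3 hw
  have hvj : v ∈ P j := h.hull_sub j hj.2.1.2
  have hvk : v ∈ P k := h.hull_sub k hku.1.2
  have c1 := h.corner_cost hi hG hK0c hG0 hGnn hε hε1 hεG hKε hcop hT hη (i := l)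
    (hperf l hl) hw hu
  have c2 := h.corner_cost hi hG hK0c hG0 hGnn hε hε1 hεG hKε hcop hT hη (i := k)
    (hperf k hvk) hku hkz
  have c3 := h.corner_cost hi hG hK0c hG0 hGnn hε hε1 hεG hKε hcop hT hη (i := j)
    (hperf j hvj) hjz hj
  exact ⟨j, k, u, w, z, hu, hw, hj, hjz, hkz, hku, hperf l hl, hperf j hvj, hperf k hvk, hall,
    c1, c2, c3⟩

/-- **The third edge at a good vertex of a tile at which a functional is minimal.** -/
theorem Tiling.third [Finite ι] (h : Tiling D P)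
    (hi : (interior (convexHull ℝ (Vb D P))).Nonempty) {K K0 : Set V}
    {T6 A6 τ g ε G η ν a b co so R0 Ro M : ℝ} {t : ι → Bool} {c s : ι → ℝ} {o : ι → V}
    (hG : Gap K0 T6 τ g) (hK0c : Convex ℝ K0) (hG0 : volume K0 ≤ ENNReal.ofReal G)
    (hGnn : 0 ≤ G) (hε : 0 ≤ ε) (hε1 : ε ≤ 1) (hεG : 3 * ε * G ≤ g / 2)
    (hKε : K ⊆ (1 + ε) • K0) (hcop : Copies P K) (hT : T6 ≤ A6) (hη : η ≤ g / 2)
    (hC : Cells P K0 ν ε a b co so t c s o) (hK : K0 ⊆ Metric.closedBall 0 R0)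
    (hab : a ^ 2 + b ^ 2 = 1) (hν : 0 ≤ ν) (hν1 : ν ≤ 1) (hso : |so| ≤ Ro)
    (hM : (1 + Ro) * (2 * R0) ≤ M) (hM0 : 0 < M) {v : V}
    (hg : GoodV D P (lossOf P A6 τ) η v)
    {l : {i : ι // (interior (convexHull ℝ (S P i))).Nonempty}} (hl : v ∈ P l)
    {α β : ℝ} (hα : 1 / 2 ≤ |α|) (hα1 : |α| ≤ 1) (hβ : |β| ≤ 1)
    (hmin : ∀ x ∈ S P l, α * ux ν (c l) (s l) v + β * uy (c l) (s l) v ≤
      α * ux ν (c l) (s l) x + β * uy (c l) (s l) x) :
    ∃ (j k : {i : ι // (interior (convexHull ℝ (S P i))).Nonempty}) (u w z : V),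
      (h.toTL hi).E l u v ∧ (h.toTL hi).E l v w ∧ (h.toTL hi).E j w v ∧ (h.toTL hi).E j v z ∧
      (h.toTL hi).E k z v ∧ (h.toTL hi).E k v u ∧
      Perfect D P (lossOf P A6 τ) η l ∧ Perfect D P (lossOf P A6 τ) η j ∧
      Perfect D P (lossOf P A6 τ) η k ∧ z ∈ S P j ∧ z ∈ S P k ∧
      2 * τ ≤ cr (w - v) (u - v) ∧ 2 * τ ≤ cr (u - v) (z - v) ∧ 2 * τ ≤ cr (z - v) (w - v) ∧
      α * ux ν (c l) (s l) (z - v) + β * uy (c l) (s l) (z - v) ≤
        -(τ ^ 2 / (1024 * M ^ 3)) := by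
  obtain ⟨j, k, u, w, z, hu, hw, hj, hjz, hkz, hku, pl, pj, pk, _, c1, c2, c3⟩ :=
    h.good_corner hi hG hK0c hG0 hGnn hε hε1 hεG hKε hcop hT hη hg hl
  have hwP : w ∈ P l := h.hull_sub l hw.2.1.2
  have huP : u ∈ P l := h.hull_sub l hu.1.2
  have hzP : z ∈ P j := h.hull_sub j hjz.2.1.2
  have hzPk : z ∈ P k := h.hull_sub k hkz.1.2
  have hwS : w ∈ S P l := pl.only w hwP (h.mem_M.mp hw.2.1.1)
  have huS : u ∈ S P l := pl.only u huP (h.mem_M.mp hu.1.1)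
  have hzS : z ∈ S P j := pj.only z hzP (h.mem_M.mp hjz.2.1.1)
  have hzSk : z ∈ S P k := pk.only z hzPk (h.mem_M.mp hjz.2.1.1)
  have h0 : |c l * s l - s l * c l| ≤ 1 := by
    have : c l * s l - s l * c l = 0 := by ring
    rw [this, abs_zero]
    exact zero_le_one
  have hfr := hC.fr l
  have b1 := hC.ux_le hK hab hε hε1 hν hν1 hso hM hfr hwP hl
  have b2 := hC.uy_le hK hab hε hε1 hν hν1 hso hM hfr h0 hwP hl
  have b3 := hC.ux_le hK hab hε hε1 hν hν1 hso hM hfr huP hl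
  have b4 := hC.uy_le hK hab hε hε1 hν hν1 hso hM hfr h0 huP hl
  have n1 : 0 ≤ α * ux ν (c l) (s l) (w - v) + β * uy (c l) (s l) (w - v) := by
    rw [ux_sub, uy_sub]
    have := hmin w hwS
    linarith
  have n2 : 0 ≤ α * ux ν (c l) (s l) (u - v) + β * uy (c l) (s l) (u - v) := by
    rw [ux_sub, uy_sub]
    have := hmin u huS
    linarith
  have c1' := c1
  have c2' := c2
  have c3' := c3
  rw [cr_frame hfr] at c1' c2' c3'
  have key := third_num hG.tau hM0 b1 b2 b3 b4 hα hα1 hβ n1 n2 c1' c2' c3'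
  exact ⟨j, k, u, w, z, hu, hw, hj, hjz, hkz, hku, pl, pj, pk, hzS, hzSk, c1, c2, c3, key⟩

end W82
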