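import Pool.Agent.W_c2305b_h35.Tiling

/-!
# Boundary segments and twins

The boundary of a tile is the union of the segments from each vertex to the next one; such a
segment is on the boundary of the tiled set or belongs, reversed, to exactly one other tile.
-/

namespace C2305b.TL

open Set Module

namespace Tiling

variable {ι : Type*} (T : Tiling ι)

/-- The boundary of a tile is covered by its edges. -/
lemma exists_edge (i : ι) {x : V} (hx : x ∈ T.P i) (hxi : x ∉ interior (T.P i)) :
    ∃ v w, T.E i v w ∧ x ∈ segment ℝ v w := by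
  classical
  by_cases hxW : x ∈ T.W
  · obtain ⟨w, hw⟩ := T.exists_next i hxW hx
    exact ⟨x, w, hw, left_mem_segment ℝ x w⟩
  obtain ⟨f, hf0, hf, hfi⟩ := T.support i hxi
  -- the direction of the supporting line
  obtain ⟨o, ho⟩ := T.nonem i
  obtain ⟨u, hu0, hu⟩ : ∃ u : V, u ≠ 0 ∧ ∃ l : ℝ, l < 0 ∧ ∀ y, f y = l * cr u y := by
    let u0 : V := !₂[-(f (EuclideanSpace.single 1 1)), f (EuclideanSpace.single 0 1)]
    have hfe : ∀ y : V, f y = -1 * cr u0 y := by
      intro y
      have hy : y = y 0 • EuclideanSpace.single 0 1 + y 1 • EuclideanSpace.single 1 1 := by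
        ext k
        fin_cases k
        · simp
        · simp
      conv_lhs => rw [hy]
      rw [map_add, map_smul, map_smul]
      simp [cr, u0]
      ring
    refine ⟨u0, ?_, -1, by norm_num, hfe⟩
    intro h0
    apply hf0
    ext y
    rw [hfe, h0, cr_zero_left]; simp
  obtain ⟨l, hl, hfl⟩ := hu
  have hleft : ∀ y ∈ T.P i, 0 ≤ cr u (y - x) := by
    intro y hy
    have h1 := hf y hy
    rw [hfl, hfl] at h1
    rw [cr_sub_right]
    nlinarith
  have hface := mem_convexHull_face (S := (T.W : Set V) ∩ T.P i) (x := x)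
    (by rw [← T.hull i]; exact hx) f (fun y hy => hf y hy.2)
  set S := ((T.W : Set V) ∩ T.P i) ∩ {y | f y = f x} with hS
  have hline : ∀ y ∈ S, cr u (y - x) = 0 := by
    intro y hy
    have h1 : f y = f x := hy.2
    rw [hfl, hfl] at h1
    rw [cr_sub_right]
    have := mul_left_cancel₀ hl.ne h1
    linarith
  obtain ⟨ι', _, z, w, hz, -, hw, hw1, hwz⟩ := eq_pos_convex_span_of_mem_convexHull hface
  have hsum : ∑ k, w k * dt u (z k - x) = 0 := by
    have h1 : ∑ k, w k • (z k - x) = 0 := by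
      simp only [smul_sub, Finset.sum_sub_distrib]
      rw [← Finset.sum_smul, hw1, one_smul, hwz, sub_self]
    have h2 : ∀ y : V, dt u y = u 0 * y 0 + u 1 * y 1 := fun y => rfl
    have h3 : ∑ k, w k * dt u (z k - x) = dt u (∑ k, w k • (z k - x)) := by
      simp only [h2]
      rw [show (∑ k, w k • (z k - x)) 0 = ∑ k, w k * (z k - x) 0 by
        simp [WithLp.ofLp_sum, Finset.sum_apply]]
      rw [show (∑ k, w k • (z k - x)) 1 = ∑ k, w k * (z k - x) 1 by
        simp [WithLp.ofLp_sum, Finset.sum_apply]]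
      rw [Finset.mul_sum, Finset.mul_sum, ← Finset.sum_add_distrib]
      exact Finset.sum_congr rfl fun k _ => by ring
    rw [h3, h1]
    simp [dt]
  -- no vertex of the face is at x
  have hne : ∀ y ∈ S, dt u (y - x) ≠ 0 := by
    intro y hy h0
    obtain ⟨t, ht⟩ := exists_smul_of_cr_eq_zero hu0 (hline y hy)
    rw [ht] at h0
    have h1 : dt u (t • u) = t * dt u u := by simp [dt]; ring
    rw [h1] at h0
    rcases mul_eq_zero.mp h0 with h2 | h2
    · rw [h2, zero_smul] at ht
      rw [sub_eq_zero] at ht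
      exact hxW (by rw [← ht]; exact hy.1.1)
    · exact absurd h2 (dt_self_pos hu0).ne'
  have hpos : ∃ k, 0 < dt u (z k - x) := by
    by_contra hcon
    push Not at hcon
    have h1 : ∀ k ∈ Finset.univ, w k * dt u (z k - x) ≤ 0 := fun k _ =>
      mul_nonpos_of_nonneg_of_nonpos (hw k).le (hcon k)
    have h2 := (Finset.sum_eq_zero_iff_of_nonpos h1).mp hsum
    have hne' : (Finset.univ : Finset ι').Nonempty := by
      rw [Finset.nonempty_iff_ne_empty]
      intro h3
      rw [h3] at hw1
      simp at hw1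
    obtain ⟨k, hk⟩ := hne'
    rcases mul_eq_zero.mp (h2 k hk) with h4 | h4
    · exact absurd h4 (hw k).ne'
    · exact hne (z k) (hz (mem_range_self k)) h4
  have hneg : ∃ k, dt u (z k - x) < 0 := by
    by_contra hcon
    push Not at hcon
    have h1 : ∀ k ∈ Finset.univ, 0 ≤ w k * dt u (z k - x) := fun k _ =>
      mul_nonneg (hw k).le (hcon k)
    have h2 := (Finset.sum_eq_zero_iff_of_nonneg h1).mp hsum
    obtain ⟨k, _⟩ := hpos
    rcases mul_eq_zero.mp (h2 k (Finset.mem_univ k)) with h4 | h4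
    · exact absurd h4 (hw k).ne'
    · exact hne (z k) (hz (mem_range_self k)) h4
  -- nearest vertices of the face on both sides of x
  let Gp := T.W.filter fun y => y ∈ S ∧ 0 < dt u (y - x)
  let Gm := T.W.filter fun y => y ∈ S ∧ dt u (y - x) < 0
  have hGp : Gp.Nonempty := by
    obtain ⟨k, hk⟩ := hpos
    have := hz (mem_range_self k)
    exact ⟨z k, by simp only [Gp, Finset.mem_filter]; exact ⟨this.1.1, this, hk⟩⟩
  have hGm : Gm.Nonempty := by
    obtain ⟨k, hk⟩ := hneg
    have := hz (mem_range_self k)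
    exact ⟨z k, by simp only [Gm, Finset.mem_filter]; exact ⟨this.1.1, this, hk⟩⟩
  obtain ⟨b, hb, hbmin⟩ := Finset.exists_min_image Gp (fun y => dt u (y - x)) hGp
  obtain ⟨a, ha, hamax⟩ := Finset.exists_max_image Gm (fun y => dt u (y - x)) hGm
  simp only [Gp, Finset.mem_filter] at hb
  simp only [Gm, Finset.mem_filter] at ha
  have hp := dt_self_pos hu0
  have hsm : ∀ y ∈ S, ∃ t : ℝ, y - x = t • u ∧ dt u (y - x) = t * dt u u := by
    intro y hy
    obtain ⟨t, ht⟩ := exists_smul_of_cr_eq_zero hu0 (hline y hy)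
    exact ⟨t, ht, by rw [ht]; simp [dt]; ring⟩
  obtain ⟨tb, htb, htb'⟩ := hsm b hb.2.1
  obtain ⟨ta, hta, hta'⟩ := hsm a ha.2.1
  have htb0 : 0 < tb := by
    have := hb.2.2; rw [htb'] at this; exact (pos_iff_pos_of_mul_pos this).mpr hp
  have hta0 : ta < 0 := by
    have := ha.2.2; rw [hta'] at this
    by_contra h0
    push Not at h0
    linarith [mul_nonneg h0 hp.le]
  have hab : b - a = (tb - ta) • u := by
    rw [sub_smul, ← htb, ← hta]; abel
  have hxeq : x = a + (-ta / (tb - ta)) • (b - a) := by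
    have h1 : tb - ta ≠ 0 := by linarith
    rw [hab, smul_smul, div_mul_cancel₀ _ h1, neg_smul, ← hta]; abel
  have hrange : 0 < -ta / (tb - ta) ∧ -ta / (tb - ta) < 1 := by
    constructor
    · apply div_pos <;> linarith
    · rw [div_lt_one (by linarith)]; linarith
  refine ⟨a, b, ⟨⟨ha.1, ha.2.1.1.2⟩, ⟨hb.1, hb.2.1.1.2⟩, ?_, ?_, ?_⟩, ?_⟩
  · intro h0
    rw [h0, sub_self] at hab
    rcases smul_eq_zero.mp hab.symm with h1 | h1
    · linarith
    · exact hu0 h1
  · intro y hy
    rw [hab, cr_smul_left]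
    apply mul_nonneg (by linarith)
    have h1 := hleft y hy
    have h2 : cr u (y - a) = cr u (y - x) - cr u (a - x) := by
      rw [← cr_sub_right]; congr 1; abel
    rw [h2, hta, cr_smul_right, cr_self, mul_zero, sub_zero]
    exact h1
  · intro y hy hyo
    rw [openSegment_eq_image'] at hyo
    obtain ⟨s, hs, hys⟩ := hyo
    simp only at hys
    have hyP : y ∈ T.P i := by
      apply (T.conv i).segment_subset ha.2.1.1.2 hb.2.1.1.2
      rw [segment_eq_image']
      exact ⟨s, ⟨hs.1.le, hs.2.le⟩, hys⟩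
    have hyx : y - x = (ta + s * (tb - ta)) • u := by
      rw [← hys, hab, add_smul, mul_smul, ← hta]; abel
    have hyS : y ∈ S := by
      refine ⟨⟨hy, hyP⟩, ?_⟩
      have h1 : f (y - x) = 0 := by rw [hyx, hfl, cr_smul_right, cr_self]; ring
      rw [map_sub] at h1
      simp only [mem_setOf_eq]
      linarith
    have hdt : dt u (y - x) = (ta + s * (tb - ta)) * dt u u := by
      rw [hyx]; simp [dt]; ring
    rcases lt_trichotomy (dt u (y - x)) 0 with h1 | h1 | h1
    · have h2 := hamax y (by simp only [Gm, Finset.mem_filter]; exact ⟨hy, hyS, h1⟩)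
      rw [hdt, hta'] at h2
      have h3 : 0 < s * (tb - ta) * dt u u :=
        mul_pos (mul_pos hs.1 (by linarith)) hp
      nlinarith
    · exact hne y hyS h1
    · have h2 := hbmin y (by simp only [Gp, Finset.mem_filter]; exact ⟨hy, hyS, h1⟩)
      rw [hdt, htb'] at h2
      have h3 : 0 < (1 - s) * (tb - ta) * dt u u :=
        mul_pos (mul_pos (by linarith [hs.2]) (by linarith)) hp
      nlinarith
  · rw [segment_eq_image']
    exact ⟨-ta / (tb - ta), ⟨hrange.1.le, hrange.2.le⟩, hxeq.symm⟩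

/-- Two tiles with a common edge lie on different sides of it. -/
lemma other_side {i j : ι} (hij : i ≠ j) {v w m : V} (h : T.E i v w)
    (hm : m ∈ openSegment ℝ v w) (hmj : m ∈ T.P j) :
    ∀ x ∈ T.P j, cr (w - v) (x - v) ≤ 0 := by
  obtain ⟨hv, hw, hne, hl, ho⟩ := h
  obtain ⟨f, c, hf0, hf1, hf2⟩ := T.sep hij
  have hfv := hf1 v hv.2
  have hfw := hf1 w hw.2
  have hfm := hf2 m hmj
  obtain ⟨p, q, hp, hq, hpq, rfl⟩ := hm
  rw [map_add, map_smul, map_smul, smul_eq_mul, smul_eq_mul] at hfm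
  have h1 : p * (c - f v) + q * (c - f w) ≤ 0 := by
    have : p * (c - f v) + q * (c - f w) = (p + q) * c - (p * f v + q * f w) := by ring
    rw [this, hpq, one_mul]; linarith
  have h2 : 0 ≤ p * (c - f v) := mul_nonneg hp.le (by linarith)
  have h3 : 0 ≤ q * (c - f w) := mul_nonneg hq.le (by linarith)
  have h4 : f v = c := by
    have : p * (c - f v) = 0 := by linarith
    rcases mul_eq_zero.mp this with h5 | h5
    · exact absurd h5 hp.ne'
    · linarith
  have h5 : f w = c := by
    have : q * (c - f w) = 0 := by linarith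
    rcases mul_eq_zero.mp this with h6 | h6
    · exact absurd h6 hq.ne'
    · linarith
  have hwv : w - v ≠ 0 := sub_ne_zero.mpr hne
  obtain ⟨l, hfl⟩ := functional_eq hwv (f := f) (by rw [map_sub, h4, h5, sub_self])
  have hl0 : l < 0 := by
    obtain ⟨o, ho'⟩ := T.nonem i
    have h6 := cr_pos_of_mem_interior hwv hl ho'
    have h7 := hf1 o (interior_subset ho')
    have h8 : f (o - v) = l * cr (w - v) (o - v) := hfl _
    rw [map_sub, h4] at h8
    by_contra h9
    push Not at h9
    have h10 : l * cr (w - v) (o - v) ≤ 0 := by linarith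
    have h11 : 0 ≤ l * cr (w - v) (o - v) := mul_nonneg h9 h6.le
    have h12 : l * cr (w - v) (o - v) = 0 := le_antisymm h10 h11
    rcases mul_eq_zero.mp h12 with h13 | h13
    · apply hf0
      ext y
      rw [hfl, h13]; simp
    · exact absurd h13 h6.ne'
  intro x hx
  have h6 := hf2 x hx
  have h7 : f (x - v) = l * cr (w - v) (x - v) := hfl _
  rw [map_sub, h4] at h7
  by_contra h8
  push Not at h8
  have : l * cr (w - v) (x - v) < 0 := mul_neg_of_neg_of_pos hl0 h8
  linarith

/-- An edge point inside another tile gives the twin edge. -/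
lemma twin_of_mem {i j : ι} (hij : i ≠ j) {v w m : V} (h : T.E i v w)
    (hm : m ∈ openSegment ℝ v w) (hmj : m ∈ T.P j) : T.E j w v := by
  have hright := T.other_side hij h hm hmj
  obtain ⟨hv, hw, hne, hl, ho⟩ := h
  have hwv : w - v ≠ 0 := sub_ne_zero.mpr hne
  obtain ⟨s, hs, hms⟩ : ∃ s ∈ Ioo (0:ℝ) 1, m = v + s • (w - v) := by
    rw [openSegment_eq_image'] at hm
    obtain ⟨s, hs, h1⟩ := hm
    exact ⟨s, hs, h1.symm⟩
  have hmW : m ∉ T.W := fun h0 => ho m h0 hm
  have hmi : m ∉ interior (T.P j) := by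
    intro h0
    have h1 := lt_of_mem_interior (f := crL (w - v)) (c := cr (w - v) v) (crL_ne_zero hwv)
      (by
        intro x hx
        have := hright x hx
        rw [cr_sub_right] at this
        rw [crL_apply]; linarith) h0
    rw [crL_apply, hms, cr_add_right, cr_smul_right, cr_self] at h1
    linarith
  obtain ⟨v', w', hE, hseg⟩ := T.exists_edge j hmj hmi
  obtain ⟨hv', hw', hne', hl', ho'⟩ := hE
  have hwv' : w' - v' ≠ 0 := sub_ne_zero.mpr hne'
  obtain ⟨r, hr, hmr⟩ : ∃ r ∈ Icc (0:ℝ) 1, m = v' + r • (w' - v') := by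
    rw [segment_eq_image'] at hseg
    obtain ⟨r, hr, h1⟩ := hseg
    exact ⟨r, hr, h1.symm⟩
  have hr0 : r ≠ 0 := by
    rintro rfl
    rw [zero_smul, add_zero] at hmr
    exact hmW (hmr ▸ hv'.1)
  have hr1 : r ≠ 1 := by
    rintro rfl
    rw [one_smul] at hmr
    exact hmW (by rw [hmr]; simpa using hw'.1)
  have hr0' : 0 < r := lt_of_le_of_ne hr.1 hr0.symm
  have hr1' : r < 1 := lt_of_le_of_ne hr.2 hr1
  -- both ends on the line
  have e1 := hright v' hv'.2
  have e2 := hright w' hw'.2
  have e3 : (1 - r) * cr (w - v) (v' - v) + r * cr (w - v) (w' - v) = 0 := by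
    have h1 : cr (w - v) (m - v) = 0 := by
      rw [hms, add_sub_cancel_left, cr_smul_right, cr_self, mul_zero]
    have h2 : m - v = (1 - r) • (v' - v) + r • (w' - v) := by
      rw [hmr]; module
    rw [h2, cr_add_right, cr_smul_right, cr_smul_right] at h1
    exact h1
  have e4 : cr (w - v) (v' - v) = 0 := by
    nlinarith [mul_nonneg (sub_nonneg.mpr hr.2) (neg_nonneg.mpr e1),
      mul_nonneg hr.1 (neg_nonneg.mpr e2)]
  have e5 : cr (w - v) (w' - v) = 0 := by
    nlinarith [mul_nonneg (sub_nonneg.mpr hr.2) (neg_nonneg.mpr e1),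
      mul_nonneg hr.1 (neg_nonneg.mpr e2)]
  obtain ⟨α, hα⟩ := exists_smul_of_cr_eq_zero hwv e4
  obtain ⟨β, hβ⟩ := exists_smul_of_cr_eq_zero hwv e5
  have hsub : w' - v' = (β - α) • (w - v) := by
    rw [sub_smul, ← hα, ← hβ]; abel
  have hβα : β < α := by
    obtain ⟨o, ho1⟩ := T.nonem j
    have h1 := cr_pos_of_mem_interior hwv' hl' ho1
    rw [hsub, cr_smul_left] at h1
    have h2 : cr (w - v) (o - v') = cr (w - v) (o - v) - cr (w - v) (v' - v) := by
      rw [← cr_sub_right]; congr 1; abel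
    rw [h2, e4, sub_zero] at h1
    have h3 := hright o (interior_subset ho1)
    by_contra h4
    push Not at h4
    linarith [mul_nonpos_of_nonneg_of_nonpos (sub_nonneg.mpr h4) h3]
  have hmid : s = α + r * (β - α) := by
    have h1 : s • (w - v) = (α + r * (β - α)) • (w - v) := by
      have h2 : m - v = s • (w - v) := by rw [hms]; abel
      have h3 : m - v = (α + r * (β - α)) • (w - v) := by
        rw [hmr, hsub, add_smul, mul_smul, ← hα]; abel
      rw [← h2, h3]
    have h2 : (s - (α + r * (β - α))) • (w - v) = 0 := by rw [sub_smul, h1, sub_self]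
    rcases smul_eq_zero.mp h2 with h3 | h3
    · linarith
    · exact absurd h3 hwv
  have hsα : s < α := by nlinarith
  have hβs : β < s := by nlinarith
  have hα1 : 1 ≤ α := by
    by_contra h1
    push Not at h1
    apply ho v' hv'.1
    rw [openSegment_eq_image']
    exact ⟨α, ⟨by linarith [hs.1], h1⟩, by simp only; rw [← hα]; abel⟩
  have hβ0 : β ≤ 0 := by
    by_contra h1
    push Not at h1
    apply ho w' hw'.1
    rw [openSegment_eq_image']
    exact ⟨β, ⟨h1, by linarith [hs.2]⟩, by simp only; rw [← hβ]; abel⟩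
  have hmem : ∀ t : ℝ, β < t → t < α → v + t • (w - v) ∈ openSegment ℝ v' w' := by
    intro t h1 h2
    rw [openSegment_eq_image']
    refine ⟨(α - t) / (α - β), ⟨div_pos (by linarith) (by linarith),
      by rw [div_lt_one (by linarith)]; linarith⟩, ?_⟩
    simp only
    have h3 : (α - t) / (α - β) * (β - α) = t - α := by
      have : α - β ≠ 0 := by linarith
      field_simp; ring
    rw [hsub, smul_smul, h3, sub_smul, ← hα]; abel
  have hα2 : α = 1 := by
    by_contra h1
    have h2 : (1 : ℝ) < α := lt_of_le_of_ne hα1 (Ne.symm h1)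
    have h3 := hmem 1 (by linarith) h2
    rw [one_smul, add_sub_cancel] at h3
    exact ho' w hw.1 h3
  have hβ2 : β = 0 := by
    by_contra h1
    have h2 : β < 0 := lt_of_le_of_ne hβ0 h1
    have h3 := hmem 0 h2 (by linarith)
    rw [zero_smul, add_zero] at h3
    exact ho' v hv.1 h3
  rw [hα2, one_smul, sub_left_inj] at hα
  rw [hβ2, zero_smul, sub_eq_zero] at hβ
  subst hα hβ
  exact ⟨hv', hw', hne', hl', ho'⟩

/-- At most one tile has the edge `v w`. -/
lemma edge_unique {i j : ι} {v w : V} (h : T.E i v w) (h' : T.E j v w) : i = j := by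
  by_contra hij
  have hm : (1/2 : ℝ) • v + (1/2 : ℝ) • w ∈ openSegment ℝ v w :=
    ⟨1/2, 1/2, by norm_num, by norm_num, by norm_num, rfl⟩
  have hmj : (1/2 : ℝ) • v + (1/2 : ℝ) • w ∈ T.P j :=
    (T.conv j).segment_subset h'.1.2 h'.2.1.2 (openSegment_subset_segment ℝ v w hm)
  have h1 := T.other_side hij h hm hmj
  obtain ⟨o, ho⟩ := T.nonem j
  have h2 := cr_pos_of_mem_interior (sub_ne_zero.mpr h'.2.2.1) h'.2.2.2.1 ho
  linarith [h1 o (interior_subset ho)]

/-- **Twins.** Every edge is on the boundary of the tiled set or has a twin. -/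
theorem boundary_or_twin [Finite ι] {i : ι} {v w : V} (h : T.E i v w) :
    (∀ x ∈ T.R, 0 ≤ cr (w - v) (x - v)) ∨ ∃ j, T.E j w v := by
  classical
  by_cases hb : ∀ x ∈ T.R, 0 ≤ cr (w - v) (x - v)
  · exact Or.inl hb
  right
  push Not at hb
  obtain ⟨y, hyR, hy⟩ := hb
  set m : V := (1/2 : ℝ) • v + (1/2 : ℝ) • w with hmdef
  have hm : m ∈ openSegment ℝ v w := ⟨1/2, 1/2, by norm_num, by norm_num, by norm_num, rfl⟩
  have hmP : m ∈ T.P i :=
    (T.conv i).segment_subset h.1.2 h.2.1.2 (openSegment_subset_segment ℝ v w hm)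
  have hPR : ∀ j, T.P j ⊆ T.R := fun j => by rw [← T.union]; exact subset_iUnion _ j
  have hcrm : cr (w - v) (m - v) = 0 := by
    rw [hmdef]
    have : (1/2 : ℝ) • v + (1/2 : ℝ) • w - v = (1/2 : ℝ) • (w - v) := by module
    rw [this, cr_smul_right, cr_self, mul_zero]
  -- points of the segment from m to y are in tiles other than i
  have hcov : ∀ t ∈ Ioc (0:ℝ) 1, ∃ j, j ≠ i ∧ m + t • (y - m) ∈ T.P j := by
    intro t ht
    have h1 : m + t • (y - m) ∈ T.R := by
      apply T.convR.segment_subset (hPR i hmP) hyR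
      rw [segment_eq_image']
      exact ⟨t, ⟨ht.1.le, ht.2⟩, rfl⟩
    rw [← T.union] at h1
    obtain ⟨j, hj⟩ := mem_iUnion.mp h1
    refine ⟨j, ?_, hj⟩
    rintro rfl
    have h2 := h.2.2.2.1 _ hj
    have h3 : m + t • (y - m) - v = (1 - t) • (m - v) + t • (y - v) := by module
    rw [h3, cr_add_right, cr_smul_right, cr_smul_right, hcrm, mul_zero, zero_add] at h2
    have h4 : t * cr (w - v) (y - v) < 0 := mul_neg_of_pos_of_neg ht.1 hy
    linarith
  have hclosed : IsClosed (⋃ j ∈ {j | j ≠ i}, T.P j) :=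
    (Set.toFinite _).isClosed_biUnion fun j _ => (T.comp j).isClosed
  have hmcl : m ∈ ⋃ j ∈ {j | j ≠ i}, T.P j := by
    have hcont : Filter.Tendsto (fun t : ℝ => m + t • (y - m)) (nhdsWithin 0 (Ioi 0))
        (nhds m) := by
      have : Continuous fun t : ℝ => m + t • (y - m) := by fun_prop
      have := this.tendsto 0
      rw [zero_smul, add_zero] at this
      exact this.mono_left nhdsWithin_le_nhds
    apply hclosed.mem_of_tendsto hcont
    have hev : Ioc (0:ℝ) 1 ∈ nhdsWithin (0:ℝ) (Ioi 0) := Ioc_mem_nhdsGT one_pos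
    filter_upwards [hev] with t ht
    obtain ⟨j, hj, hjm⟩ := hcov t ht
    exact mem_iUnion₂.mpr ⟨j, hj, hjm⟩
  obtain ⟨j, hj, hmj⟩ := mem_iUnion₂.mp hmcl
  exact ⟨j, T.twin_of_mem (Ne.symm hj) h hm hmj⟩

/-- A boundary edge has no twin. -/
lemma not_twin_of_boundary {i j : ι} {v w : V} (h : T.E i v w)
    (hb : ∀ x ∈ T.R, 0 ≤ cr (w - v) (x - v)) : ¬ T.E j w v := by
  intro h'
  obtain ⟨o, ho⟩ := T.nonem j
  have h1 := cr_pos_of_mem_interior (sub_ne_zero.mpr h'.2.2.1) h'.2.2.2.1 ho
  have hPR : T.P j ⊆ T.R := by rw [← T.union]; exact subset_iUnion _ j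
  have h2 := hb o (hPR (interior_subset ho))
  have h3 : cr (v - w) (o - w) = -cr (w - v) (o - v) := by simp [cr]; ring
  linarith

end Tiling

end C2305b.TL
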